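import Pool.Agent.Lib.MP_582f03_nt.Dir

/-!
# Points with small denominators occupy a small part of a ball
-/

set_option maxHeartbeats 400000

namespace KT582

open Finset MeasureTheory

/-- the threshold sequence for the divergence part -/
structure DSeq {c : ℕ} (P : Par c) where
  s : ℕ → ℝ
  Z : ℝ
  hs0 : ∀ k, 0 < s k
  hZ : 1 ≤ Z
  hub : ∀ k, 2 ^ k * s k ^ (c + 2) ≤ Z
  hlb : ∀ k : ℕ, 1 / ((k:ℝ) + 1) ^ 2 + P.b k ≤ 2 ^ k * s k ^ (c + 2)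
  hdiv : ¬ Summable (fun k => 2 ^ k * s k ^ (c + 2))

lemma min_add_le {a b d : ℝ} (ha : 0 ≤ a) (hb : 0 ≤ b) (hd : 0 ≤ d) :
    min a (b + d) ≤ min a b + min a d := by
  rcases le_total a b with h1 | h1
  · rw [min_eq_left h1]
    have : 0 ≤ min a d := le_min ha hd
    exact (min_le_left _ _).trans (by linarith)
  · rcases le_total a d with h2 | h2
    · rw [min_eq_left h2]
      have : 0 ≤ min a b := le_min ha hb
      exact (min_le_left _ _).trans (by linarith)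
    · rw [min_eq_right h1, min_eq_right h2]
      exact min_le_right _ _

lemma K_facts' {c : ℕ} {s : ℝ} (hc : 0 < c) (hs : 0 < s) (hs1 : 6 * c * s ≤ 1) :
    1 ≤ ⌊1 / (3 * c * s)⌋₊ ∧ s / 2 * (6 * c * (⌊1 / (3 * c * s)⌋₊ : ℝ)) ≤ 1 ∧
    1 ≤ (6 * c * s) * (⌊1 / (3 * c * s)⌋₊ : ℝ) ∧ (⌊1 / (3 * c * s)⌋₊ : ℝ) * s ≤ 1 := by
  have hc' : (1:ℝ) ≤ c := by exact_mod_cast hc
  have hc0 : (0:ℝ) < c := by linarith
  set x := 1 / (3 * c * s) with hx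
  have hx2 : 2 ≤ x := by
    rw [hx, le_div_iff₀ (by positivity)]
    linarith
  have hf1 : (⌊x⌋₊ : ℝ) ≤ x := Nat.floor_le (by linarith)
  have hf2 : x < ⌊x⌋₊ + 1 := Nat.lt_floor_add_one x
  have hf3 : x / 2 ≤ ⌊x⌋₊ := by linarith
  have hxr : x * (3 * c * s) = 1 := by
    rw [hx]; field_simp
  refine ⟨?_, ?_, ?_, ?_⟩
  · have : (1:ℝ) ≤ ⌊x⌋₊ := by linarith
    exact_mod_cast this
  · calc s / 2 * (6 * c * (⌊x⌋₊ : ℝ)) = (3 * c * s) * ⌊x⌋₊ := by ring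
      _ ≤ (3 * c * s) * x := by gcongr
      _ = 1 := by rw [mul_comm]; exact hxr
  · calc (1:ℝ) = (6 * c * s) * (x / 2) := by linarith
      _ ≤ _ := by gcongr
  · calc (⌊x⌋₊ : ℝ) * s ≤ x * s := by gcongr
      _ ≤ x * (3 * c * s) := by
          have : s ≤ 3 * c * s := by nlinarith
          gcongr
      _ = 1 := hxr

lemma y_pow {ϱ : ℝ} {M : ℕ} (hM : ϱ ^ M = 1 / 2) (m j : ℕ) :
    (2:ℝ) ^ j / 2 ^ m = (ϱ ^ m * (ϱ ^ j)⁻¹) ^ M := by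
  have h1 : (ϱ ^ m) ^ M = 1 / 2 ^ m := by
    rw [← pow_mul, mul_comm, pow_mul, hM, div_pow, one_pow]
  have h2 : (ϱ ^ j) ^ M = 1 / 2 ^ j := by
    rw [← pow_mul, mul_comm, pow_mul, hM, div_pow, one_pow]
  rw [mul_pow, inv_pow, h1, h2]
  field_simp

/-- bookkeeping for the window contribution -/
lemma window_pack {c : ℕ} (P : Par c) {R s Z : ℝ} (hR : 1 ≤ R) (hs : 0 < s) (hZ : 1 ≤ Z) {k K : ℕ}
    (hK1 : 1 ≤ K) (hK3 : 1 ≤ (6 * c * s) * (K : ℝ)) (hK4 : (K : ℝ) * s ≤ 1)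
    (hub : 2 ^ k * s ^ (c + 2) ≤ Z) (hlb : P.b k ≤ 2 ^ k * s ^ (c + 2))
    {g : ℝ → ℝ} (hg : g = 0 ∨ ∃ i, (2:ℝ) ^ P.E.t i < K ∧ (K:ℝ) ≤ ((2:ℝ) ^ P.E.t i) ^ 2 ∧
      g = gw c (P.κ i) (2 ^ P.E.t i)) :
    ∃ A G5 e v : ℝ, 0 ≤ A ∧ 0 ≤ G5 ∧ 0 ≤ e ∧ 0 ≤ v ∧
      (∀ (j : ℕ) (ρ N : ℝ), 0 < ρ → ρ ≤ 1 → 0 ≤ N →
        N ≤ 8 * R * ρ * 2 ^ j + 2 * (K:ℝ) ^ (c + 1) / P.E.c4 →
        0 ≤ g N ∧ g N ≤ 384 * 2 ^ c * R * (A * (P.ϱ ^ j)⁻¹) + G5) ∧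
      A * (P.ϱ ^ k)⁻¹ * s ^ 2 ≤ Z ^ 2 * e * (2 ^ k * s ^ (c + 2)) ∧
      G5 * s ^ 2 ≤ 96 * 2 ^ c / P.E.c4 * v ∧ v ^ (c + 1) ≤ 6 * c * s ∧
      (e = 0 ∨ ∃ i, 1 ≤ 6 * c * s * ((2:ℝ) ^ P.E.t i) ^ 2 ∧ e = P.eps i) := by
  have hc4 := P.E.hc4
  have hc41 := P.E.hc41
  have hϱ0 := P.hϱ0
  have hϱ1 := P.hϱ1
  have hK0 : (1:ℝ) ≤ K := by exact_mod_cast hK1
  have hKpos : (0:ℝ) < K := by linarith
  have h2c : (1:ℝ) ≤ 2 ^ c := one_le_pow₀ (by norm_num)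
  rcases hg with hg | ⟨i, hi1, hi2, hg⟩
  · refine ⟨0, 0, 0, 0, le_rfl, le_rfl, le_rfl, le_rfl, ?_, ?_, ?_, ?_, Or.inl rfl⟩
    · intro j ρ N _ _ _ _
      rw [hg]; simp
    · simp
    · simp
    · rw [zero_pow (by omega)]
      positivity
  · have hT : (0:ℝ) < 2 ^ P.E.t i := by positivity
    set T : ℝ := 2 ^ P.E.t i with hTdef
    set m : ℕ := (c + 2) * P.E.t i with hm
    have hTm : T ^ (c + 2) = 2 ^ m := by
      rw [hTdef, ← pow_mul, hm]; congr 1; ring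
    have hκ0 := P.hκ0 i
    have hκ1 := P.hκ1 i
    have hκh0 := P.hκh0 i
    refine ⟨T ^ 2 * (P.κh i ^ (P.M - 1) * P.ϱ ^ m),
      96 * 2 ^ c / P.E.c4 * min (T ^ 2) ((K:ℝ) ^ (c + 1) / T ^ c), P.eps i,
      min (T ^ 2) ((K:ℝ) ^ (c + 1) / T ^ c) / (K:ℝ) ^ 2, by positivity, by positivity,
      (P.heps0 i).le, by positivity, ?_, ?_, ?_, ?_, Or.inr ⟨i, ?_, rfl⟩⟩
    · intro j ρ N hρ0 hρ1 hN0 hN
      rw [hg]
      constructor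
      · rw [gw]; positivity
      · rw [gw]
        have e1 : 48 * 2 ^ c * N / T ^ c ≤ 48 * 2 ^ c * (8 * R * ρ * 2 ^ j) / T ^ c +
            48 * 2 ^ c * (2 * (K:ℝ) ^ (c + 1) / P.E.c4) / T ^ c := by
          rw [← add_div, ← mul_add]
          gcongr
        have e2 : min (24 * (P.κ i * T ^ 2)) (48 * 2 ^ c * N / T ^ c) ≤
            min (24 * (P.κ i * T ^ 2)) (48 * 2 ^ c * (8 * R * ρ * 2 ^ j) / T ^ c) +
            min (24 * (P.κ i * T ^ 2)) (48 * 2 ^ c * (2 * (K:ℝ) ^ (c + 1) / P.E.c4) / T ^ c) :=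
          (min_le_min_left _ e1).trans (min_add_le (by positivity) (by positivity) (by positivity))
        refine e2.trans (add_le_add ?_ ?_)
        · have e3 : min (P.κ i) (2 ^ j / T ^ (c + 2)) ≤ P.κh i ^ (P.M - 1) * (P.ϱ ^ m * (P.ϱ ^ j)⁻¹) := by
            apply min_le_interp (by have := P.hnM; omega) hκh0.le (P.hκh i) (by positivity)
              (by positivity)
            rw [hTm]
            exact y_pow P.hM m j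
          calc min (24 * (P.κ i * T ^ 2)) (48 * 2 ^ c * (8 * R * ρ * 2 ^ j) / T ^ c)
              ≤ 384 * 2 ^ c * R * (T ^ 2 * min (P.κ i) (2 ^ j / T ^ (c + 2))) := by
                rcases min_cases (P.κ i) (2 ^ j / T ^ (c + 2)) with ⟨h, _⟩ | ⟨h, _⟩
                · rw [h]
                  refine (min_le_left _ _).trans ?_
                  calc 24 * (P.κ i * T ^ 2) = 24 * 1 * 1 * (T ^ 2 * P.κ i) := by ring
                    _ ≤ 384 * 2 ^ c * R * (T ^ 2 * P.κ i) := by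
                        gcongr
                        norm_num
                · rw [h]
                  refine (min_le_right _ _).trans ?_
                  calc 48 * 2 ^ c * (8 * R * ρ * 2 ^ j) / T ^ c ≤ 48 * 2 ^ c * (8 * R * 1 * 2 ^ j) / T ^ c := by
                        gcongr
                    _ = _ := by
                        field_simp
                        ring
            _ ≤ 384 * 2 ^ c * R * (T ^ 2 * (P.κh i ^ (P.M - 1) * (P.ϱ ^ m * (P.ϱ ^ j)⁻¹))) := by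
                gcongr
            _ = _ := by ring
        · have h96 : 24 * (P.κ i * T ^ 2) ≤ 96 * 2 ^ c / P.E.c4 * T ^ 2 := by
            have h1 : (1:ℝ) ≤ 2 ^ c / P.E.c4 := by rw [le_div_iff₀ hc4]; linarith
            calc 24 * (P.κ i * T ^ 2) ≤ 24 * (1 * T ^ 2) := by gcongr
              _ ≤ 96 * T ^ 2 := by have := sq_nonneg T; linarith
              _ ≤ 96 * T ^ 2 * (2 ^ c / P.E.c4) := le_mul_of_one_le_right (by positivity) h1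
              _ = _ := by ring
          have h96' : 48 * 2 ^ c * (2 * (K:ℝ) ^ (c + 1) / P.E.c4) / T ^ c =
              96 * 2 ^ c / P.E.c4 * ((K:ℝ) ^ (c + 1) / T ^ c) := by ring
          rw [h96', mul_min_of_nonneg _ _ (by positivity : 0 ≤ 96 * 2 ^ c / P.E.c4)]
          exact min_le_min_right _ h96
    · -- (b)
      have hTs : T * s ≤ 1 := by
        calc T * s ≤ K * s := by gcongr
          _ ≤ 1 := hK4
      have hwt := wt_pos hϱ0 m k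
      have hlam := P.hlam0 i
      have heps := P.heps0 i
      have hkey : (T * s) ^ 2 * (P.ϱ ^ m * (P.ϱ ^ k)⁻¹) ≤ Z ^ 2 * wt P.ϱ m k := by
        rcases le_total k m with hkm | hmk
        · have h1 : P.ϱ ^ m * (P.ϱ ^ k)⁻¹ = P.ϱ ^ (m - k) := by
            rw [pow_sub₀ _ hϱ0.ne' hkm]
          have h2 : wt P.ϱ m k = P.ϱ ^ (m - k) := by
            rw [wt]; congr 1; omega
          rw [h1, h2]
          have h3 : T * s ≤ Z := hTs.trans hZ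
          gcongr
        · have h1 : P.ϱ ^ m * (P.ϱ ^ k)⁻¹ = (P.ϱ ^ (k - m))⁻¹ := by
            rw [pow_sub₀ _ hϱ0.ne' hmk, mul_inv, inv_inv, mul_comm]
          have h2 : wt P.ϱ m k = P.ϱ ^ (k - m) := by
            rw [wt]; congr 1; omega
          have h3 := Tr_le hϱ0 hϱ1 P.hM (by omega) P.hnM hT hTm hs hZ hub hmk
          rw [h1, h2]
          calc (T * s) ^ 2 * (P.ϱ ^ (k - m))⁻¹ ≤ (Z * P.ϱ ^ (k - m)) ^ 2 * (P.ϱ ^ (k - m))⁻¹ := by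
                gcongr
            _ = _ := by
                field_simp
      have hb := P.le_b i k
      have hκl := P.hle i
      calc T ^ 2 * (P.κh i ^ (P.M - 1) * P.ϱ ^ m) * (P.ϱ ^ k)⁻¹ * s ^ 2
          = P.κh i ^ (P.M - 1) * ((T * s) ^ 2 * (P.ϱ ^ m * (P.ϱ ^ k)⁻¹)) := by ring
        _ ≤ (P.lam i * P.eps i) * (Z ^ 2 * wt P.ϱ m k) := by gcongr
        _ = Z ^ 2 * P.eps i * (P.lam i * wt P.ϱ m k) := by ring
        _ ≤ Z ^ 2 * P.eps i * (2 ^ k * s ^ (c + 2)) := by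
            have := hb.trans hlb
            gcongr
    · -- (c)
      have h1 : s ^ 2 ≤ 1 / (K:ℝ) ^ 2 := by
        rw [le_div_iff₀ (by positivity)]
        calc s ^ 2 * (K:ℝ) ^ 2 = (K * s) ^ 2 := by ring
          _ ≤ 1 ^ 2 := by gcongr
          _ = 1 := one_pow _
      calc 96 * 2 ^ c / P.E.c4 * min (T ^ 2) ((K:ℝ) ^ (c + 1) / T ^ c) * s ^ 2
          ≤ 96 * 2 ^ c / P.E.c4 * min (T ^ 2) ((K:ℝ) ^ (c + 1) / T ^ c) * (1 / (K:ℝ) ^ 2) := by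
            gcongr
        _ = _ := by ring
    · -- (d)
      obtain ⟨d, hd⟩ : ∃ d, c = d + 1 := ⟨c - 1, by have := P.hc; omega⟩
      set mn : ℝ := min (T ^ 2) ((K:ℝ) ^ (c + 1) / T ^ c) with hmn
      have hmn0 : 0 ≤ mn := by positivity
      have hmnA : mn ≤ T ^ 2 := min_le_left _ _
      have hmnB : mn ≤ (K:ℝ) ^ (c + 1) / T ^ c := min_le_right _ _
      have h1 : mn ^ (c + 1) ≤ (T ^ 2) ^ d * ((K:ℝ) ^ (c + 1) / T ^ c) ^ 2 := by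
        calc mn ^ (c + 1) = mn ^ d * mn ^ 2 := by rw [← pow_add, hd]
          _ ≤ _ := by gcongr
      have h2 : (T ^ 2) ^ d * ((K:ℝ) ^ (c + 1) / T ^ c) ^ 2 = ((K:ℝ) ^ 2) ^ (c + 1) / T ^ 2 := by
        rw [hd]
        field_simp
        ring
      rw [div_pow]
      calc mn ^ (c + 1) / ((K:ℝ) ^ 2) ^ (c + 1) ≤ (((K:ℝ) ^ 2) ^ (c + 1) / T ^ 2) / ((K:ℝ) ^ 2) ^ (c + 1) := by
            rw [← h2]; gcongr
        _ = 1 / T ^ 2 := by field_simp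
        _ ≤ 1 / (K:ℝ) := by
            apply div_le_div_of_nonneg_left (by norm_num) hKpos hi2
        _ ≤ 6 * c * s := by
            rw [div_le_iff₀ hKpos]; exact hK3
    · -- (e)
      have hc0 : (0:ℝ) ≤ c := Nat.cast_nonneg _
      calc (1:ℝ) ≤ 6 * c * s * K := hK3
        _ ≤ 6 * c * s * T ^ 2 := by gcongr

lemma sum_two_pow (n : ℕ) : ∑ j ∈ Finset.range (n + 1), (2:ℝ) ^ j ≤ 2 * 2 ^ n := by
  have := geom_sum_eq (by norm_num : (2:ℝ) ≠ 1) (n + 1)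
  rw [this, pow_succ]
  have : (0:ℝ) < 2 ^ n := by positivity
  norm_num
  linarith

lemma sum_inv_pow {ϱ : ℝ} (h0 : 0 < ϱ) (h1 : ϱ < 1) {n k : ℕ} (hnk : n ≤ k) :
    ∑ j ∈ Finset.range (n + 1), (ϱ ^ j)⁻¹ ≤ (ϱ ^ k)⁻¹ / (1 - ϱ) := by
  have hgeo : ∑ j ∈ Finset.range (n + 1), ϱ ^ (k - j) ≤ 1 / (1 - ϱ) := by
    have hinj : Set.InjOn (fun j => k - j) (Finset.range (n + 1) : Finset ℕ) := by
      intro a ha b hb hab
      rw [Finset.mem_coe, Finset.mem_range] at ha hb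
      simp only at hab
      omega
    rw [← Finset.sum_image (f := fun l => ϱ ^ l) hinj]
    have := (summable_geometric_of_lt_one h0.le h1).sum_le_tsum
      ((Finset.range (n + 1)).image (fun j => k - j)) (fun i _ => by positivity)
    rwa [tsum_geometric_of_lt_one h0.le h1, ← one_div] at this
  calc ∑ j ∈ Finset.range (n + 1), (ϱ ^ j)⁻¹ = ∑ j ∈ Finset.range (n + 1), (ϱ ^ k)⁻¹ * ϱ ^ (k - j) := by
        refine Finset.sum_congr rfl fun j hj => ?_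
        rw [Finset.mem_range] at hj
        rw [pow_sub₀ _ h0.ne' (by omega : j ≤ k)]
        field_simp
    _ = (ϱ ^ k)⁻¹ * ∑ j ∈ Finset.range (n + 1), ϱ ^ (k - j) := by rw [Finset.mul_sum]
    _ ≤ (ϱ ^ k)⁻¹ * (1 / (1 - ϱ)) := by gcongr
    _ = _ := by ring

/-- The bad set at level `k`. -/
def BadSet {c : ℕ} (P : Par c) (x0 : ℝ × ℝ) (ρ Rk s : ℝ) (n : ℕ) : Set (ℝ × ℝ) :=
  ⋃ j ∈ Finset.range (n + 1), Near P.E.α P.E.β P.E.γ x0 ρ Rk (s / 2) j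

/-- main estimate at one level -/
lemma bad_scale {c : ℕ} (P : Par c) {R s Z : ℝ} (hR : 1 ≤ R) (hs : 0 < s) (hZ : 1 ≤ Z) {k l : ℕ}
    (hlk : l ≤ k) (hs1 : 6 * c * s ≤ 1)
    (hub : 2 ^ k * s ^ (c + 2) ≤ Z) (hlb : 1 / ((k:ℝ) + 1) ^ 2 + P.b k ≤ 2 ^ k * s ^ (c + 2)) :
    ∃ e v : ℝ, 0 ≤ e ∧ 0 ≤ v ∧ v ^ (c + 1) ≤ 6 * c * s ∧
      (e = 0 ∨ ∃ i, 1 ≤ 6 * c * s * ((2:ℝ) ^ P.E.t i) ^ 2 ∧ e = P.eps i) ∧
      ∀ (x0 : ℝ × ℝ) (ρ Rk : ℝ), 1 / R ≤ |x0.1| → |x0.1| ≤ R → |x0.2| ≤ R → 0 < ρ → ρ ≤ 1 →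
        0 < Rk → Rk ≤ ρ → Rk ^ 2 ≤ 8 * 4 ^ c / (2 ^ k * s ^ c) →
        volume (BadSet P x0 ρ Rk s (k - l)) ≤ ENNReal.ofReal (832 * R ^ 3 * (8 * 4 ^ c) *
          (768 * R * (6 * c) ^ c * (ρ ^ 2 / 2 ^ l) + 384 * R * (6 * c) ^ c * (((k:ℝ) + 1) / 2 ^ k) +
          192 / P.E.c4 * (((k:ℝ) + 1) ^ 3 * s) + 768 * 2 ^ c * R * Z ^ 2 / (1 - P.ϱ) * e +
          192 * 2 ^ c / P.E.c4 * (((k:ℝ) + 1) ^ 3 * v))) := by
  have hc4 := P.E.hc4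
  have hc41 := P.E.hc41
  have hϱ0 := P.hϱ0
  have hϱ1 := P.hϱ1
  have hc' : (1:ℝ) ≤ c := by exact_mod_cast P.hc
  have hc0 : (0:ℝ) < c := by linarith
  obtain ⟨hK1, hK2, hK3, hK4⟩ := K_facts' P.hc hs hs1
  set K : ℕ := ⌊1 / (3 * c * s)⌋₊ with hK
  have hK0 : (1:ℝ) ≤ K := by exact_mod_cast hK1
  have hKpos : (0:ℝ) < K := by linarith
  obtain ⟨g, hg, hFB⟩ := fiber_bound P.E P.hκ0 P.hκ1 hK1 (s := s / 2) hK2
  have hbnn := P.b_nonneg k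
  have hζ1 : 1 / ((k:ℝ) + 1) ^ 2 ≤ 2 ^ k * s ^ (c + 2) := by linarith
  have hζ2 : P.b k ≤ 2 ^ k * s ^ (c + 2) := by
    have : 0 ≤ 1 / ((k:ℝ) + 1) ^ 2 := by positivity
    linarith
  obtain ⟨A, G5, e, v, hA, hG5, he, hv, wa, wb, wc, wd, we⟩ := window_pack P hR hs hZ hK1 hK3 hK4 hub
    hζ2 hg
  refine ⟨e, v, he, hv, wd, we, ?_⟩
  intro x0 ρ Rk hx1 hx1' hx2 hρ0 hρ1 hRk0 hRkρ hRk2
  set H : ℝ := 2 * (K:ℝ) ^ (c + 1) / P.E.c4 with hH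
  have hH0 : 0 ≤ H := by positivity
  set X : ℕ → ℝ := fun j => 832 * R ^ 3 * Rk ^ 2 * ((384 * R * ρ * (ρ * 2 ^ j + 1) + 96 * H) / K ^ c +
    2 * (384 * 2 ^ c * R * (A * (P.ϱ ^ j)⁻¹) + G5)) with hX
  have hXnn : ∀ j, 0 ≤ X j := fun j => by
    simp only [hX]; positivity
  -- per-scale bound
  have hper : ∀ j : ℕ, volume (Near P.E.α P.E.β P.E.γ x0 ρ Rk (s / 2) j) ≤ ENNReal.ofReal (X j) := by
    intro j
    have h2j : (1:ℝ) ≤ 2 ^ j := one_le_pow₀ (by norm_num)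
    have hKc : 1 ≤ (K:ℝ) ^ (c + 1) / P.E.c4 := by
      rw [le_div_iff₀ hc4]
      have : (1:ℝ) ≤ (K:ℝ) ^ (c + 1) := one_le_pow₀ hK0
      linarith
    set N : ℕ := ⌈8 * R * ρ * 2 ^ j + (K:ℝ) ^ (c + 1) / P.E.c4⌉₊ with hN
    have hNa : 8 * R * ρ * 2 ^ j + (K:ℝ) ^ (c + 1) / P.E.c4 ≤ N := Nat.le_ceil _
    have hNb : (N:ℝ) ≤ 8 * R * ρ * 2 ^ j + H := by
      have h1 := Nat.ceil_lt_add_one (by positivity : 0 ≤ 8 * R * ρ * 2 ^ j + (K:ℝ) ^ (c + 1) / P.E.c4)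
      rw [← hN] at h1
      have h2 : H = (K:ℝ) ^ (c + 1) / P.E.c4 + (K:ℝ) ^ (c + 1) / P.E.c4 := by rw [hH]; ring
      linarith
    have h8 : 0 ≤ 8 * R * ρ * 2 ^ j := by positivity
    have hN1 : 8 * R * ρ * 2 ^ j ≤ N := by linarith
    have hNn : 1 ≤ N := by
      have : (1:ℝ) ≤ N := by linarith
      exact_mod_cast this
    have hKN : (K:ℝ) ^ (c + 1) ≤ P.E.c4 * N := by
      have h1 : (K:ℝ) ^ (c + 1) / P.E.c4 ≤ N := by linarith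
      rw [div_le_iff₀ hc4] at h1
      linarith
    have hF := hFB N hNn hKN
    have hnear := near_measure hR hx1 hx1' hx2 hρ0 hρ1 hRk0.le
      (hRkρ.trans (le_mul_of_one_le_right hρ0.le h2j)) hN1 hF
    refine hnear.trans (ENNReal.ofReal_le_ofReal ?_)
    obtain ⟨hg0, hgle⟩ := wa j ρ N hρ0 hρ1 (Nat.cast_nonneg _) hNb
    have e1 : 208 * R ^ 3 * 2 ^ j * (ρ * 2 ^ j + 1) * (48 * (N:ℝ) / K ^ c + g N) *
        (2 * (Rk / 2 ^ j)) ^ 2 = 832 * R ^ 3 * Rk ^ 2 * (((ρ + 1 / 2 ^ j) * (48 * N)) / K ^ c +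
          (ρ + 1 / 2 ^ j) * g N) := by
      field_simp
      ring
    rw [e1]
    simp only [hX]
    have h2j' : 1 / (2:ℝ) ^ j ≤ 1 := by rw [div_le_one (by positivity)]; exact h2j
    apply mul_le_mul_of_nonneg_left _ (by positivity)
    apply add_le_add
    · gcongr
      calc (ρ + 1 / 2 ^ j) * (48 * (N:ℝ)) ≤ (ρ + 1 / 2 ^ j) * (48 * (8 * R * ρ * 2 ^ j + H)) := by
            gcongr
        _ = 384 * R * ρ * (ρ * 2 ^ j + 1) + (ρ + 1 / 2 ^ j) * 48 * H := by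
            field_simp
            ring
        _ ≤ 384 * R * ρ * (ρ * 2 ^ j + 1) + (1 + 1) * 48 * H := by gcongr
        _ = _ := by ring
    · calc (ρ + 1 / 2 ^ j) * g N ≤ (1 + 1) * g N := by gcongr
        _ ≤ (1 + 1) * (384 * 2 ^ c * R * (A * (P.ϱ ^ j)⁻¹) + G5) := by gcongr
        _ = _ := by ring
  -- summation
  have hn : k - l ≤ k := Nat.sub_le _ _
  have hsumX : ∑ j ∈ Finset.range (k - l + 1), X j ≤ 832 * R ^ 3 * Rk ^ 2 *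
      ((384 * R * ρ * (ρ * (2 * 2 ^ (k - l)) + ((k:ℝ) + 1)) + 96 * H * ((k:ℝ) + 1)) / K ^ c +
      2 * (384 * 2 ^ c * R * (A * ((P.ϱ ^ k)⁻¹ / (1 - P.ϱ))) + ((k:ℝ) + 1) * G5)) := by
    have hcard : ((k - l + 1 : ℕ) : ℝ) ≤ (k:ℝ) + 1 := by
      have : k - l + 1 ≤ k + 1 := by omega
      exact_mod_cast this
    have s1 := sum_two_pow (k - l)
    have s2 := sum_inv_pow hϱ0 hϱ1 hn
    have e1 : ∑ j ∈ Finset.range (k - l + 1), X j = 832 * R ^ 3 * Rk ^ 2 *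
      ((384 * R * ρ * (ρ * ∑ j ∈ Finset.range (k - l + 1), (2:ℝ) ^ j + ((k - l + 1 : ℕ) : ℝ)) +
        96 * H * ((k - l + 1 : ℕ) : ℝ)) / K ^ c +
      2 * (384 * 2 ^ c * R * (A * ∑ j ∈ Finset.range (k - l + 1), (P.ϱ ^ j)⁻¹) +
        ((k - l + 1 : ℕ) : ℝ) * G5)) := by
      have hXeq : ∀ j, X j = (832 * R ^ 3 * Rk ^ 2 * (384 * R * ρ * ρ / K ^ c)) * 2 ^ j +
          (832 * R ^ 3 * Rk ^ 2 * (2 * (384 * 2 ^ c * R * A))) * (P.ϱ ^ j)⁻¹ +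
          (832 * R ^ 3 * Rk ^ 2 * ((384 * R * ρ + 96 * H) / K ^ c + 2 * G5)) := by
        intro j
        simp only [hX]
        ring
      rw [Finset.sum_congr rfl (fun j _ => hXeq j), Finset.sum_add_distrib, Finset.sum_add_distrib,
        ← Finset.mul_sum, ← Finset.mul_sum, Finset.sum_const, Finset.card_range, nsmul_eq_mul]
      ring
    rw [e1]
    have h1ϱ : 0 < 1 - P.ϱ := by linarith
    gcongr
  have hvol : volume (BadSet P x0 ρ Rk s (k - l)) ≤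
      ENNReal.ofReal (∑ j ∈ Finset.range (k - l + 1), X j) := by
    rw [ENNReal.ofReal_sum_of_nonneg (fun j _ => hXnn j)]
    exact (measure_biUnion_finset_le _ _).trans (Finset.sum_le_sum fun j _ => hper j)
  refine hvol.trans (ENNReal.ofReal_le_ofReal (hsumX.trans ?_))
  -- final algebra
  set ζ : ℝ := 2 ^ k * s ^ (c + 2) with hζ
  have hζpos : 0 < ζ := by positivity
  have hRkζ : Rk ^ 2 ≤ 8 * 4 ^ c * (s ^ 2 / ζ) := by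
    refine hRk2.trans (le_of_eq ?_)
    rw [hζ]
    field_simp
    ring
  have hζinv : 1 / ζ ≤ ((k:ℝ) + 1) ^ 2 := by
    rw [div_le_iff₀ hζpos]
    rw [div_le_iff₀ (by positivity)] at hζ1
    linarith
  have hRks : Rk ^ 2 ≤ 8 * 4 ^ c * (((k:ℝ) + 1) ^ 2 * s ^ 2) := by
    refine hRkζ.trans ?_
    have : s ^ 2 / ζ = (1 / ζ) * s ^ 2 := by ring
    rw [this]
    gcongr
  have hKinv : 1 / (K:ℝ) ^ c ≤ (6 * c * s) ^ c := by
    rw [div_le_iff₀ (by positivity), ← mul_pow]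
    exact one_le_pow₀ hK3
  have hRK : Rk ^ 2 / K ^ c ≤ 8 * 4 ^ c * ((6 * c) ^ c / 2 ^ k) := by
    calc Rk ^ 2 / K ^ c = Rk ^ 2 * (1 / K ^ c) := by ring
      _ ≤ (8 * 4 ^ c / (2 ^ k * s ^ c)) * (6 * c * s) ^ c := by gcongr
      _ = _ := by
          rw [mul_pow]
          field_simp
  have hV : (0:ℝ) < 8 * 4 ^ c := by positivity
  have h1ϱ : 0 < 1 - P.ϱ := by linarith
  -- the five terms
  have t1 : Rk ^ 2 / K ^ c * (384 * R * ρ * (ρ * (2 * 2 ^ (k - l)))) ≤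
      8 * 4 ^ c * (768 * R * (6 * c) ^ c * (ρ ^ 2 / 2 ^ l)) := by
    have h2 : (2:ℝ) ^ (k - l) = 2 ^ k / 2 ^ l := by
      rw [pow_sub₀ _ (by norm_num) hlk]; ring
    calc Rk ^ 2 / K ^ c * (384 * R * ρ * (ρ * (2 * 2 ^ (k - l))))
        ≤ (8 * 4 ^ c * ((6 * c) ^ c / 2 ^ k)) * (384 * R * ρ * (ρ * (2 * 2 ^ (k - l)))) := by
          gcongr
      _ = _ := by
          rw [h2]
          field_simp
          ring
  have t2 : Rk ^ 2 / K ^ c * (384 * R * ρ * ((k:ℝ) + 1)) ≤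
      8 * 4 ^ c * (384 * R * (6 * c) ^ c * (((k:ℝ) + 1) / 2 ^ k)) := by
    calc Rk ^ 2 / K ^ c * (384 * R * ρ * ((k:ℝ) + 1))
        ≤ (8 * 4 ^ c * ((6 * c) ^ c / 2 ^ k)) * (384 * R * 1 * ((k:ℝ) + 1)) := by
          gcongr
      _ = _ := by ring
  have t3 : Rk ^ 2 / K ^ c * (96 * H * ((k:ℝ) + 1)) ≤
      8 * 4 ^ c * (192 / P.E.c4 * (((k:ℝ) + 1) ^ 3 * s)) := by
    have h1 : Rk ^ 2 / K ^ c * (96 * H * ((k:ℝ) + 1)) =
        192 / P.E.c4 * ((k:ℝ) + 1) * (Rk ^ 2 * K) := by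
      rw [hH, pow_succ]
      field_simp
      ring
    rw [h1]
    calc 192 / P.E.c4 * ((k:ℝ) + 1) * (Rk ^ 2 * K)
        ≤ 192 / P.E.c4 * ((k:ℝ) + 1) * ((8 * 4 ^ c * (((k:ℝ) + 1) ^ 2 * s ^ 2)) * K) := by gcongr
      _ = 8 * 4 ^ c * (192 / P.E.c4 * (((k:ℝ) + 1) ^ 3 * s)) * (K * s) := by ring
      _ ≤ 8 * 4 ^ c * (192 / P.E.c4 * (((k:ℝ) + 1) ^ 3 * s)) * 1 := by gcongr
      _ = _ := mul_one _
  have t4 : Rk ^ 2 * (2 * (384 * 2 ^ c * R * (A * ((P.ϱ ^ k)⁻¹ / (1 - P.ϱ))))) ≤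
      8 * 4 ^ c * (768 * 2 ^ c * R * Z ^ 2 / (1 - P.ϱ) * e) := by
    calc Rk ^ 2 * (2 * (384 * 2 ^ c * R * (A * ((P.ϱ ^ k)⁻¹ / (1 - P.ϱ)))))
        ≤ (8 * 4 ^ c * (s ^ 2 / ζ)) * (2 * (384 * 2 ^ c * R * (A * ((P.ϱ ^ k)⁻¹ / (1 - P.ϱ))))) := by
          gcongr
      _ = 8 * 4 ^ c * (768 * 2 ^ c * R / (1 - P.ϱ)) * ((A * (P.ϱ ^ k)⁻¹ * s ^ 2) / ζ) := by
          field_simp
          ring
      _ ≤ 8 * 4 ^ c * (768 * 2 ^ c * R / (1 - P.ϱ)) * ((Z ^ 2 * e * ζ) / ζ) := by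
          gcongr
      _ = _ := by
          field_simp
  have t5 : Rk ^ 2 * (2 * (((k:ℝ) + 1) * G5)) ≤
      8 * 4 ^ c * (192 * 2 ^ c / P.E.c4 * (((k:ℝ) + 1) ^ 3 * v)) := by
    calc Rk ^ 2 * (2 * (((k:ℝ) + 1) * G5))
        ≤ (8 * 4 ^ c * (((k:ℝ) + 1) ^ 2 * s ^ 2)) * (2 * (((k:ℝ) + 1) * G5)) := by gcongr
      _ = 8 * 4 ^ c * (2 * ((k:ℝ) + 1) ^ 3) * (G5 * s ^ 2) := by ring
      _ ≤ 8 * 4 ^ c * (2 * ((k:ℝ) + 1) ^ 3) * (96 * 2 ^ c / P.E.c4 * v) := by gcongr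
      _ = _ := by ring
  have hsplit : 832 * R ^ 3 * Rk ^ 2 *
      ((384 * R * ρ * (ρ * (2 * 2 ^ (k - l)) + ((k:ℝ) + 1)) + 96 * H * ((k:ℝ) + 1)) / K ^ c +
      2 * (384 * 2 ^ c * R * (A * ((P.ϱ ^ k)⁻¹ / (1 - P.ϱ))) + ((k:ℝ) + 1) * G5)) =
      832 * R ^ 3 * (Rk ^ 2 / K ^ c * (384 * R * ρ * (ρ * (2 * 2 ^ (k - l)))) +
        Rk ^ 2 / K ^ c * (384 * R * ρ * ((k:ℝ) + 1)) + Rk ^ 2 / K ^ c * (96 * H * ((k:ℝ) + 1)) +
        Rk ^ 2 * (2 * (384 * 2 ^ c * R * (A * ((P.ϱ ^ k)⁻¹ / (1 - P.ϱ))))) +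
        Rk ^ 2 * (2 * (((k:ℝ) + 1) * G5))) := by ring
  rw [hsplit]
  have hfin : 832 * R ^ 3 * (8 * 4 ^ c) *
          (768 * R * (6 * c) ^ c * (ρ ^ 2 / 2 ^ l) + 384 * R * (6 * c) ^ c * (((k:ℝ) + 1) / 2 ^ k) +
          192 / P.E.c4 * (((k:ℝ) + 1) ^ 3 * s) + 768 * 2 ^ c * R * Z ^ 2 / (1 - P.ϱ) * e +
          192 * 2 ^ c / P.E.c4 * (((k:ℝ) + 1) ^ 3 * v)) =
      832 * R ^ 3 * (8 * 4 ^ c * (768 * R * (6 * c) ^ c * (ρ ^ 2 / 2 ^ l)) +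
        8 * 4 ^ c * (384 * R * (6 * c) ^ c * (((k:ℝ) + 1) / 2 ^ k)) +
        8 * 4 ^ c * (192 / P.E.c4 * (((k:ℝ) + 1) ^ 3 * s)) +
        8 * 4 ^ c * (768 * 2 ^ c * R * Z ^ 2 / (1 - P.ϱ) * e) +
        8 * 4 ^ c * (192 * 2 ^ c / P.E.c4 * (((k:ℝ) + 1) ^ 3 * v))) := by ring
  rw [hfin]
  apply mul_le_mul_of_nonneg_left _ (by positivity)
  linarith

end KT582
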