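import Pool.Agent.Lib.MP_582f03_nt.Bad

/-!
# The bad set is small
-/

set_option maxHeartbeats 400000

namespace KT582

open Finset MeasureTheory

theorem bad_measure {c : ℕ} (P : Par c) (D : DSeq P) {R : ℝ} (hR : 1 ≤ R) :
    ∃ CR : ℝ, 0 < CR ∧ ∀ (l : ℕ) (ρ η : ℝ), 0 < ρ → ρ ≤ 1 → 0 < η → ∀ᶠ k in Filter.atTop,
      l ≤ k ∧ ∀ (x0 : ℝ × ℝ) (Rk : ℝ), 1 / R ≤ |x0.1| → |x0.1| ≤ R → |x0.2| ≤ R → 0 < Rk →
        Rk ^ 2 ≤ 8 * 4 ^ c / (2 ^ k * D.s k ^ c) → Rk ≤ ρ ∧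
        volume (BadSet P x0 ρ Rk (D.s k) (k - l)) ≤ ENNReal.ofReal (CR * (ρ ^ 2 / 2 ^ l) + η) := by
  have hc4 := P.E.hc4
  have hϱ1 := P.hϱ1
  have h1ϱ : 0 < 1 - P.ϱ := by linarith
  have hc' : (1:ℝ) ≤ c := by exact_mod_cast P.hc
  have hc0 : (0:ℝ) < c := by linarith
  have hZ := D.hZ
  refine ⟨832 * R ^ 3 * (8 * 4 ^ c) * (768 * R * (6 * c) ^ c), by positivity, ?_⟩
  intro l ρ η hρ0 hρ1 hη
  set D1 : ℝ := 832 * R ^ 3 * (8 * 4 ^ c) * (384 * R * (6 * c) ^ c) with hD1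
  set D2 : ℝ := 832 * R ^ 3 * (8 * 4 ^ c) * (192 / P.E.c4) with hD2
  set D3 : ℝ := 832 * R ^ 3 * (8 * 4 ^ c) * (768 * 2 ^ c * R * D.Z ^ 2 / (1 - P.ϱ)) with hD3
  set D4 : ℝ := 832 * R ^ 3 * (8 * 4 ^ c) * (192 * 2 ^ c / P.E.c4) with hD4
  have hD1p : 0 < D1 := by positivity
  have hD2p : 0 < D2 := by positivity
  have hD3p : 0 < D3 := by positivity
  have hD4p : 0 < D4 := by positivity
  have hlim : ∀ m, Filter.Tendsto (fun k : ℕ => ((k:ℝ) + 1) ^ m * D.s k) Filter.atTop (nhds 0) :=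
    fun m => tendsto_poly_mul_r P.hϱ0 P.hϱ1 P.hM (by omega) P.hnM D.hs0 hZ D.hub m
  have hlim0 : Filter.Tendsto D.s Filter.atTop (nhds 0) := by simpa using hlim 0
  -- eventual statements
  have ev1 : ∀ᶠ k : ℕ in Filter.atTop, D1 * (((k:ℝ) + 1) / 2 ^ k) ≤ η / 4 := by
    have h1 := (tendsto_poly_mul_geom (ϱ := 1 / 2) (by norm_num) (by norm_num) 1).const_mul D1
    rw [mul_zero] at h1
    have h2 := h1.eventually_le_const (by positivity : 0 < η / 4)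
    filter_upwards [h2] with k hk
    calc D1 * (((k:ℝ) + 1) / 2 ^ k) = D1 * (((k:ℝ) + 1) ^ 1 * (1 / 2) ^ k) := by
          rw [pow_one, div_pow, one_pow]; ring
      _ ≤ _ := hk
  have ev2 : ∀ᶠ k : ℕ in Filter.atTop, D2 * (((k:ℝ) + 1) ^ 3 * D.s k) ≤ η / 4 := by
    have h1 := (hlim 3).const_mul D2
    rw [mul_zero] at h1
    exact h1.eventually_le_const (by positivity)
  have ev3 : ∀ᶠ k : ℕ in Filter.atTop, ∀ e : ℝ, (e = 0 ∨ ∃ i, 1 ≤ 6 * c * D.s k *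
      ((2:ℝ) ^ P.E.t i) ^ 2 ∧ e = P.eps i) → D3 * e ≤ η / 4 := by
    have h1 := P.heps.const_mul D3
    rw [mul_zero] at h1
    obtain ⟨i0, hi0⟩ := Filter.eventually_atTop.mp (h1.eventually_le_const
      (by positivity : 0 < η / 4))
    have h2 := hlim0.const_mul (6 * c * ((2:ℝ) ^ P.E.t i0) ^ 2)
    rw [mul_zero] at h2
    have h3 := h2.eventually_lt_const one_pos
    filter_upwards [h3] with k hk
    rintro e (he | ⟨i, hi, he⟩)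
    · rw [he]; simp; positivity
    · rw [he]
      apply hi0
      by_contra hcon
      push Not at hcon
      have htm : Monotone P.E.t := by
        apply monotone_nat_of_le_succ
        intro i
        have := P.E.ht i
        omega
      have h4 : (2:ℝ) ^ P.E.t i ≤ 2 ^ P.E.t i0 := by
        gcongr
        · norm_num
        · exact htm hcon.le
      have h5 := D.hs0 k
      have h6 : 6 * c * D.s k * ((2:ℝ) ^ P.E.t i) ^ 2 ≤ 6 * c * ((2:ℝ) ^ P.E.t i0) ^ 2 * D.s k := by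
        calc 6 * c * D.s k * ((2:ℝ) ^ P.E.t i) ^ 2 ≤ 6 * c * D.s k * ((2:ℝ) ^ P.E.t i0) ^ 2 := by
              gcongr
          _ = _ := by ring
      linarith
  have ev4 : ∀ᶠ k : ℕ in Filter.atTop, ∀ v : ℝ, 0 ≤ v → v ^ (c + 1) ≤ 6 * c * D.s k →
      D4 * (((k:ℝ) + 1) ^ 3 * v) ≤ η / 4 := by
    have h1 := (hlim (3 * (c + 1))).const_mul (6 * (c:ℝ))
    rw [mul_zero] at h1
    have h2 := h1.eventually_le_const (by positivity : 0 < (η / 4 / D4) ^ (c + 1))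
    filter_upwards [h2] with k hk
    intro v hv hvs
    have h3 : (((k:ℝ) + 1) ^ 3 * v) ^ (c + 1) ≤ (η / 4 / D4) ^ (c + 1) := by
      calc (((k:ℝ) + 1) ^ 3 * v) ^ (c + 1) = ((k:ℝ) + 1) ^ (3 * (c + 1)) * v ^ (c + 1) := by
            rw [mul_pow, ← pow_mul]
        _ ≤ ((k:ℝ) + 1) ^ (3 * (c + 1)) * (6 * c * D.s k) := by gcongr
        _ = 6 * c * (((k:ℝ) + 1) ^ (3 * (c + 1)) * D.s k) := by ring
        _ ≤ _ := hk
    have h4 := le_of_pow_le_pow_left₀ (by omega) (by positivity) h3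
    rw [le_div_iff₀ hD4p] at h4
    linarith
  have ev5 : ∀ᶠ k : ℕ in Filter.atTop, 6 * c * D.s k ≤ 1 := by
    have h1 := hlim0.const_mul (6 * (c:ℝ))
    rw [mul_zero] at h1
    exact h1.eventually_le_const one_pos
  have ev6 : ∀ᶠ k : ℕ in Filter.atTop, 8 * 4 ^ c * (((k:ℝ) + 1) ^ 1 * D.s k) ^ 2 ≤ ρ ^ 2 := by
    have h1 := ((hlim 1).pow 2).const_mul (8 * 4 ^ c)
    rw [zero_pow (by norm_num), mul_zero] at h1
    exact h1.eventually_le_const (by positivity)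
  filter_upwards [ev1, ev2, ev3, ev4, ev5, ev6, Filter.eventually_ge_atTop l]
    with k h1 h2 h3 h4 h5 h6 hlk
  refine ⟨hlk, ?_⟩
  have hs := D.hs0 k
  obtain ⟨e, v, he, hv, wd, we, hmain⟩ := bad_scale P hR hs hZ hlk h5 (D.hub k) (D.hlb k)
  intro x0 Rk hx1 hx1' hx2 hRk0 hRk2
  have hRkρ : Rk ≤ ρ := by
    have hbnn := P.b_nonneg k
    have hlb := D.hlb k
    have e1 : 1 / ((k:ℝ) + 1) ^ 2 ≤ 2 ^ k * D.s k ^ (c + 2) := by linarith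
    have e2 : 8 * 4 ^ c / (2 ^ k * D.s k ^ c) ≤ 8 * 4 ^ c * (((k:ℝ) + 1) ^ 1 * D.s k) ^ 2 := by
      rw [div_le_iff₀ (by positivity)]
      rw [div_le_iff₀ (by positivity)] at e1
      calc (8:ℝ) * 4 ^ c = 8 * 4 ^ c * 1 := by ring
        _ ≤ 8 * 4 ^ c * (2 ^ k * D.s k ^ (c + 2) * ((k:ℝ) + 1) ^ 2) := by gcongr
        _ = _ := by ring
    have e3 : Rk ^ 2 ≤ ρ ^ 2 := hRk2.trans (e2.trans h6)
    exact le_of_pow_le_pow_left₀ (by norm_num) hρ0.le e3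
  refine ⟨hRkρ, (hmain x0 ρ Rk hx1 hx1' hx2 hρ0 hρ1 hRk0 hRkρ hRk2).trans
    (ENNReal.ofReal_le_ofReal ?_)⟩
  have g3 := h3 e we
  have g4 := h4 v hv wd
  have hsplit : 832 * R ^ 3 * (8 * 4 ^ c) *
          (768 * R * (6 * c) ^ c * (ρ ^ 2 / 2 ^ l) + 384 * R * (6 * c) ^ c * (((k:ℝ) + 1) / 2 ^ k) +
          192 / P.E.c4 * (((k:ℝ) + 1) ^ 3 * D.s k) + 768 * 2 ^ c * R * D.Z ^ 2 / (1 - P.ϱ) * e +
          192 * 2 ^ c / P.E.c4 * (((k:ℝ) + 1) ^ 3 * v)) =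
      832 * R ^ 3 * (8 * 4 ^ c) * (768 * R * (6 * c) ^ c) * (ρ ^ 2 / 2 ^ l) +
      (D1 * (((k:ℝ) + 1) / 2 ^ k) + D2 * (((k:ℝ) + 1) ^ 3 * D.s k) + D3 * e +
        D4 * (((k:ℝ) + 1) ^ 3 * v)) := by
    rw [hD1, hD2, hD3, hD4]; ring
  rw [hsplit]
  linarith

end KT582
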