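import Mathlib

/-!
# Distance to the nearest integer and packing on the circle
-/

namespace KT582

/-- distance to the nearest integer -/
noncomputable def nd (x : ℝ) : ℝ := |x - round x|

lemma nd_nonneg (x : ℝ) : 0 ≤ nd x := abs_nonneg _

lemma nd_le_half (x : ℝ) : nd x ≤ 1 / 2 := abs_sub_round x

lemma nd_le_abs_sub (x : ℝ) (z : ℤ) : nd x ≤ |x - z| := round_le x z

lemma nd_le_abs (x : ℝ) : nd x ≤ |x| := by
  simpa using nd_le_abs_sub x 0

lemma nd_add_int (x : ℝ) (z : ℤ) : nd (x + z) = nd x := by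
  simp [nd, round_add_intCast]

lemma nd_sub_int (x : ℝ) (z : ℤ) : nd (x - z) = nd x := by
  simp [nd, round_sub_intCast]

lemma nd_int_add (x : ℝ) (z : ℤ) : nd (z + x) = nd x := by
  rw [add_comm, nd_add_int]

lemma nd_neg_le (x : ℝ) : nd (-x) ≤ nd x := by
  have := nd_le_abs_sub (-x) (-(round x))
  have h2 : |-x - ((-(round x) : ℤ) : ℝ)| = nd x := by
    rw [nd, ← abs_neg]; push_cast; ring_nf
  rw [← h2]; exact this

lemma nd_neg (x : ℝ) : nd (-x) = nd x := by
  apply le_antisymm (nd_neg_le x)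
  simpa using nd_neg_le (-x)

lemma nd_add_le (x y : ℝ) : nd (x + y) ≤ nd x + nd y := by
  have h := nd_le_abs_sub (x + y) (round x + round y)
  refine h.trans ?_
  have : x + y - ((round x + round y : ℤ) : ℝ) = (x - round x) + (y - round y) := by
    push_cast; ring
  rw [this]
  exact abs_add_le _ _

lemma nd_sub_le (x y : ℝ) : nd (x - y) ≤ nd x + nd y := by
  rw [sub_eq_add_neg, ← nd_neg y]; exact nd_add_le _ _

lemma nd_sub_comm (x y : ℝ) : nd (x - y) = nd (y - x) := by
  rw [← nd_neg, neg_sub]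

lemma nd_int (z : ℤ) : nd (z : ℝ) = 0 := by simp [nd]

lemma nd_zero : nd 0 = 0 := by simp [nd]

lemma nd_eq_zero_iff (x : ℝ) : nd x = 0 ↔ ∃ z : ℤ, x = z := by
  constructor
  · intro h
    refine ⟨round x, ?_⟩
    rw [nd, abs_eq_zero] at h
    linarith
  · rintro ⟨z, rfl⟩; exact nd_int z

lemma nd_eq_abs {x : ℝ} (h : |x| ≤ 1 / 2) : nd x = |x| := by
  apply le_antisymm (nd_le_abs x)
  by_cases hz : round x = 0
  · rw [nd, hz]; simp
  · have h1 : (1 : ℝ) ≤ |(round x : ℝ)| := by
      have : (1 : ℤ) ≤ |round x| := Int.one_le_abs hz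
      exact_mod_cast this
    have h2 : |(round x : ℝ)| ≤ |x| + |x - round x| := by
      have := abs_sub_abs_le_abs_sub (round x : ℝ) x
      rw [abs_sub_comm] at this
      linarith
    rw [nd]; linarith

lemma nd_sum_le {ι : Type*} (s : Finset ι) (f : ι → ℝ) :
    nd (∑ i ∈ s, f i) ≤ ∑ i ∈ s, nd (f i) := by
  classical
  induction s using Finset.induction_on with
  | empty => simp [nd_zero]
  | insert a s ha ih =>
    rw [Finset.sum_insert ha, Finset.sum_insert ha]
    exact (nd_add_le _ _).trans (by linarith)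

lemma nd_int_mul_le (m : ℤ) (x : ℝ) : nd (m * x) ≤ |(m : ℝ)| * nd x := by
  have h := nd_le_abs_sub (m * x) (m * round x)
  refine h.trans ?_
  rw [nd, ← abs_mul]
  apply le_of_eq
  congr 1
  push_cast; ring

end KT582
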