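import Pool.Agent.Lib.MP_582f03_nt.ConstrDef

/-!
# Counting rational points near the plane over a small box
-/

set_option maxHeartbeats 400000

namespace KT582

open Finset

/-- The integer vector `(q, a₁, a₂)` gives an `s`-approximate solution. -/
def Sol {c : ℕ} (α β γ : Fin c → ℝ) (s : ℝ) (q a1 a2 : ℤ) : Prop :=
  ∀ l, nd (q * α l + a1 * β l + a2 * γ l) ≤ s

def FiberBound {c : ℕ} (α β γ : Fin c → ℝ) (s : ℝ) (N : ℕ) (F : ℝ) : Prop :=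
  ∀ (a1 a2 : ℤ) (I : Finset ℤ) (q1 : ℤ), (∀ q ∈ I, |q - q1| ≤ N) →
    (∀ q ∈ I, Sol α β γ s q a1 a2) → (I.card : ℝ) ≤ F

/-- the window function -/
noncomputable def gw (c : ℕ) (κ T : ℝ) (N : ℝ) : ℝ :=
  min (24 * (κ * T ^ 2)) (48 * 2 ^ c * N / T ^ c)

lemma fiber_bound {c : ℕ} {κ u : ℕ → ℝ} (E : Constr c κ u) (hκ0 : ∀ i, 0 < κ i)
    (hκ1 : ∀ i, κ i ≤ 1) {K : ℕ} (hK : 1 ≤ K) {s : ℝ} (hs : s * (6 * c * K) ≤ 1) :
    ∃ g : ℝ → ℝ, (g = 0 ∨ ∃ i, (2:ℝ) ^ E.t i < K ∧ (K:ℝ) ≤ ((2:ℝ) ^ E.t i) ^ 2 ∧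
      g = gw c (κ i) (2 ^ E.t i)) ∧
      ∀ N : ℕ, 1 ≤ N → (K:ℝ) ^ (c + 1) ≤ E.c4 * N →
        FiberBound E.α E.β E.γ s N (48 * N / K ^ c + g N) := by
  have hT1 : ∀ i, 1 ≤ 2 ^ E.t i := fun i => Nat.one_le_two_pow
  have hTT : ∀ i, (2 ^ E.t i) ^ 2 ≤ 2 ^ E.t (i + 1) := by
    intro i
    rw [← pow_mul]
    apply Nat.pow_le_pow_right (by norm_num)
    have := E.ht i
    omega
  have hTmono : Monotone (fun i => 2 ^ E.t i) := by
    apply monotone_nat_of_le_succ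
    intro i
    calc 2 ^ E.t i ≤ (2 ^ E.t i) ^ 2 := Nat.le_self_pow (by norm_num) _
      _ ≤ _ := hTT i
  have aux : ∀ i j, i < j → (K:ℝ) ≤ ((2:ℝ) ^ E.t i) ^ 2 → (2:ℝ) ^ E.t j < K → False := by
    intro i j hij h1 h2
    have h3 : (2 ^ E.t i) ^ 2 ≤ 2 ^ E.t j := (hTT i).trans (hTmono hij)
    have h4 : ((2:ℝ) ^ E.t i) ^ 2 ≤ 2 ^ E.t j := by exact_mod_cast h3
    linarith
  have hmain : ∀ (N : ℕ), 1 ≤ N → (K:ℝ) ^ (c + 1) ≤ E.c4 * N → ∀ (a1 a2 : ℤ) (I : Finset ℤ) (q1 : ℤ),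
      (∀ q ∈ I, |q - q1| ≤ N) → (∀ q ∈ I, Sol E.α E.β E.γ s q a1 a2) →
      (I.card : ℝ) ≤ 48 * N / K ^ c ∨
      ∃ i, (2:ℝ) ^ E.t i < K ∧ (K:ℝ) ≤ ((2:ℝ) ^ E.t i) ^ 2 ∧
        (I.card : ℝ) ≤ 48 * N / K ^ c + 24 * (κ i * ((2:ℝ) ^ E.t i) ^ 2) ∧
        (I.card : ℝ) ≤ 48 * 2 ^ c * N / ((2:ℝ) ^ E.t i) ^ c := by
    intro N hN hKN a1 a2 I q1 hI hsol
    have := counting E.prop hκ1 hκ0 E.hc41 hT1 hTT hK hN hKN (fun l => -(a1 * E.β l + a2 * E.γ l)) I q1 hI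
      (by
        intro q hq l
        have h1 := hsol q hq l
        have h2 : (q:ℝ) * E.α l - -(a1 * E.β l + a2 * E.γ l) = q * E.α l + a1 * E.β l + a2 * E.γ l := by
          ring
        rw [h2]
        refine le_trans ?_ hs
        gcongr)
    push_cast at this
    exact this
  have hK' : (0:ℝ) < K := by exact_mod_cast hK
  by_cases hw : ∃ i, (2:ℝ) ^ E.t i < K ∧ (K:ℝ) ≤ ((2:ℝ) ^ E.t i) ^ 2
  · obtain ⟨i, hi1, hi2⟩ := hw
    refine ⟨gw c (κ i) (2 ^ E.t i), Or.inr ⟨i, hi1, hi2, rfl⟩, ?_⟩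
    intro N hN hKN a1 a2 I q1 hI hsol
    rcases hmain N hN hKN a1 a2 I q1 hI hsol with h | ⟨i', h1, h2, h3, h4⟩
    · have hκi := hκ0 i
      have : 0 ≤ gw c (κ i) (2 ^ E.t i) N := by
        rw [gw]; positivity
      linarith
    · have hii : i' = i := by
        rcases lt_trichotomy i i' with h | h | h
        · exact (aux i i' h hi2 h1).elim
        · exact h.symm
        · exact (aux i' i h h2 hi1).elim
      subst hii
      rw [gw]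
      have h5 : (0:ℝ) ≤ 48 * N / K ^ c := by positivity
      rcases min_cases (24 * (κ i' * ((2:ℝ) ^ E.t i') ^ 2))
        (48 * 2 ^ c * N / ((2:ℝ) ^ E.t i') ^ c) with ⟨h, _⟩ | ⟨h, _⟩
      · rw [h]; exact h3
      · rw [h]; linarith
  · refine ⟨0, Or.inl rfl, ?_⟩
    intro N hN hKN a1 a2 I q1 hI hsol
    rcases hmain N hN hKN a1 a2 I q1 hI hsol with h | ⟨i', h1, h2, h3, h4⟩
    · simpa using h
    · exact absurd ⟨i', h1, h2⟩ hw

lemma card_le_of_diam {s : Finset ℤ} {D : ℝ} (h : ∀ x ∈ s, ∀ y ∈ s, ((x - y : ℤ) : ℝ) ≤ D) :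
    s.card ≤ ⌊D⌋₊ + 1 := by
  rcases s.eq_empty_or_nonempty with rfl | hne
  · simp
  · set m := s.min' hne
    have hsub : s ⊆ Finset.Icc m (m + ⌊D⌋₊) := by
      intro x hx
      rw [Finset.mem_Icc]
      refine ⟨s.min'_le x hx, ?_⟩
      have h1 := h x hx m (s.min'_mem hne)
      have h2 : 0 ≤ x - m := by have := s.min'_le x hx; omega
      have h3 : (((x - m).toNat : ℕ) : ℝ) ≤ D := by
        have h4 : (((x - m).toNat : ℤ) : ℝ) = ((x - m : ℤ) : ℝ) := by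
          rw [Int.toNat_of_nonneg h2]
        have h5 : (((x - m).toNat : ℕ) : ℝ) = (((x - m).toNat : ℤ) : ℝ) := by push_cast; rfl
        rw [h5, h4]; exact h1
      have h6 : (x - m).toNat ≤ ⌊D⌋₊ := Nat.le_floor h3
      omega
    have := Finset.card_le_card hsub
    rw [Int.card_Icc] at this
    omega

/-- membership in the dyadic box -/
structure InBox {c : ℕ} (α β γ : Fin c → ℝ) (x0 : ℝ × ℝ) (ρ s : ℝ) (j : ℕ) (y : ℤ × ℤ × ℤ) :
    Prop where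
  lo : (2:ℤ) ^ j ≤ y.1
  hi : y.1 < (2:ℤ) ^ (j + 1)
  h1 : |(y.2.1 : ℝ) - y.1 * x0.1| ≤ 2 * ρ * y.1
  h2 : |(y.2.2 : ℝ) - y.1 * x0.2| ≤ 2 * ρ * y.1
  sol : Sol α β γ s y.1 y.2.1 y.2.2

lemma box_card {c : ℕ} {α β γ : Fin c → ℝ} {R : ℝ} (hR : 1 ≤ R) {x0 : ℝ × ℝ}
    (hx1 : 1 / R ≤ |x0.1|) (hx1' : |x0.1| ≤ R) (hx2 : |x0.2| ≤ R) {ρ s : ℝ} (hρ : 0 < ρ)
    (hρ1 : ρ ≤ 1) {j N : ℕ} (hN : 8 * R * ρ * 2 ^ j ≤ N) {F : ℝ}
    (hF : FiberBound α β γ s N F) (Y : Finset (ℤ × ℤ × ℤ))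
    (hY : ∀ y ∈ Y, InBox α β γ x0 ρ s j y) :
    (Y.card : ℝ) ≤ 208 * R ^ 3 * 2 ^ j * (ρ * 2 ^ j + 1) * F := by
  classical
  have hF0 : 0 ≤ F := by
    have := hF 0 0 ∅ 0 (by simp) (by simp)
    simpa using this
  have hlo : ∀ y ∈ Y, (2:ℝ) ^ j ≤ y.1 := fun y hy => by
    have := (hY y hy).lo
    exact_mod_cast this
  have hhi : ∀ y ∈ Y, (y.1:ℝ) ≤ 2 ^ (j + 1) := fun y hy => by
    have := (hY y hy).hi.le
    exact_mod_cast this
  have hR0 : 0 < R := by linarith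
  -- distance between q's with the same a1
  have hqq : ∀ y ∈ Y, ∀ z ∈ Y, y.2.1 = z.2.1 → |(y.1 : ℝ) - z.1| ≤ 8 * R * ρ * 2 ^ j := by
    intro y hy z hz hyz
    have e1 := (hY y hy).h1
    have e2 := (hY z hz).h1
    rw [hyz] at e1
    have e3 : |((y.1 : ℝ) - z.1) * x0.1| ≤ 2 * ρ * y.1 + 2 * ρ * z.1 := by
      have : ((y.1 : ℝ) - z.1) * x0.1 = ((z.2.1 : ℝ) - z.1 * x0.1) - ((z.2.1 : ℝ) - y.1 * x0.1) := by
        ring
      rw [this]
      exact (abs_sub _ _).trans (by linarith)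
    rw [abs_mul] at e3
    have e4 := hhi y hy
    have e5 := hhi z hz
    have e6 : |(y.1 : ℝ) - z.1| * (1 / R) ≤ 8 * ρ * 2 ^ j := by
      calc |(y.1 : ℝ) - z.1| * (1 / R) ≤ |(y.1 : ℝ) - z.1| * |x0.1| := by gcongr
        _ ≤ 2 * ρ * y.1 + 2 * ρ * z.1 := e3
        _ ≤ 2 * ρ * 2 ^ (j + 1) + 2 * ρ * 2 ^ (j + 1) := by gcongr
        _ = _ := by rw [pow_succ]; ring
    calc |(y.1 : ℝ) - z.1| = |(y.1 : ℝ) - z.1| * (1 / R) * R := by field_simp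
      _ ≤ 8 * ρ * 2 ^ j * R := by gcongr
      _ = _ := by ring
  -- step 1
  have s1 : Y.card ≤ ⌊F⌋₊ * (Y.image fun y => y.2).card := by
    apply Finset.card_le_mul_card_image
    intro a ha
    apply Nat.le_floor
    have hinj : Set.InjOn (fun y : ℤ × ℤ × ℤ => y.1) (Y.filter fun y => y.2 = a) := by
      intro y hy z hz hyz
      rw [Finset.mem_coe, Finset.mem_filter] at hy hz
      exact Prod.ext hyz (hy.2.trans hz.2.symm)
    rw [← Finset.card_image_of_injOn hinj]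
    obtain ⟨y0, hy0, hy0a⟩ := Finset.mem_image.mp ha
    apply hF a.1 a.2 _ y0.1
    · intro q hq
      obtain ⟨y, hy, rfl⟩ := Finset.mem_image.mp hq
      rw [Finset.mem_filter] at hy
      have h1 := hqq y hy.1 y0 hy0 (by rw [hy.2, hy0a])
      have h2 : ((|y.1 - y0.1| : ℤ) : ℝ) ≤ N := by
        push_cast
        exact h1.trans hN
      exact_mod_cast h2
    · intro q hq
      obtain ⟨y, hy, rfl⟩ := Finset.mem_image.mp hq
      rw [Finset.mem_filter] at hy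
      have := (hY y hy.1).sol
      rw [hy.2] at this
      exact this
  -- step 2
  set P := Y.image fun y => y.2 with hP
  have s2 : P.card ≤ (⌊8 * R * ρ * 2 ^ j * R + 8 * ρ * 2 ^ j⌋₊ + 1) * (P.image fun a => a.1).card := by
    apply Finset.card_le_mul_card_image
    intro b hb
    have hinj : Set.InjOn (fun a : ℤ × ℤ => a.2) (P.filter fun a => a.1 = b) := by
      intro y hy z hz hyz
      rw [Finset.mem_coe, Finset.mem_filter] at hy hz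
      exact Prod.ext (hy.2.trans hz.2.symm) hyz
    rw [← Finset.card_image_of_injOn hinj]
    apply card_le_of_diam
    intro v hv w hw
    obtain ⟨a, ha, rfl⟩ := Finset.mem_image.mp hv
    obtain ⟨a', ha', rfl⟩ := Finset.mem_image.mp hw
    rw [Finset.mem_filter] at ha ha'
    obtain ⟨y, hy, rfl⟩ := Finset.mem_image.mp ha.1
    obtain ⟨z, hz, rfl⟩ := Finset.mem_image.mp ha'.1
    have e0 := hqq y hy z hz (by rw [ha.2, ha'.2])
    have e1 := (hY y hy).h2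
    have e2 := (hY z hz).h2
    have e3 : ((y.2.2 - z.2.2 : ℤ) : ℝ) = ((y.2.2 : ℝ) - y.1 * x0.2) - ((z.2.2 : ℝ) - z.1 * x0.2) +
        (y.1 - z.1) * x0.2 := by push_cast; ring
    have e4 := hhi y hy
    have e5 := hhi z hz
    rw [e3]
    have e6 : ((y.1:ℝ) - z.1) * x0.2 ≤ 8 * R * ρ * 2 ^ j * R := by
      refine (le_abs_self _).trans ?_
      rw [abs_mul]
      gcongr
    have e7 := (abs_le.mp e1).2
    have e8 := (abs_le.mp e2).1
    have e9 : 2 * ρ * (y.1:ℝ) ≤ 2 * ρ * 2 ^ (j + 1) := by gcongr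
    have e10 : 2 * ρ * (z.1:ℝ) ≤ 2 * ρ * 2 ^ (j + 1) := by gcongr
    have e11 : 2 * ρ * (2:ℝ) ^ (j + 1) = 4 * ρ * 2 ^ j := by rw [pow_succ]; ring
    linarith
  -- step 3
  have s3 : ((P.image fun a => a.1).card : ℝ) ≤ 2 * ((R + 2) * 2 ^ (j + 1)) + 1 := by
    have hsub : (P.image fun a => a.1) ⊆ Finset.Icc (-⌊(R + 2) * 2 ^ (j + 1)⌋) ⌊(R + 2) * 2 ^ (j + 1)⌋ := by
      intro b hb
      obtain ⟨a, ha, rfl⟩ := Finset.mem_image.mp hb
      obtain ⟨y, hy, rfl⟩ := Finset.mem_image.mp ha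
      have e1 := (hY y hy).h1
      have e4 := hhi y hy
      have e5 := hlo y hy
      have e6 : (0:ℝ) < 2 ^ j := by positivity
      have e7 : |(y.2.1 : ℝ)| ≤ (R + 2) * 2 ^ (j + 1) := by
        have : (y.2.1 : ℝ) = ((y.2.1 : ℝ) - y.1 * x0.1) + y.1 * x0.1 := by ring
        rw [this]
        refine (abs_add_le _ _).trans ?_
        rw [abs_mul, abs_of_pos (by linarith : (0:ℝ) < y.1)]
        have e8 : (0:ℝ) ≤ y.1 := by linarith
        calc |(y.2.1 : ℝ) - y.1 * x0.1| + y.1 * |x0.1| ≤ 2 * ρ * y.1 + y.1 * R := by gcongr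
          _ ≤ 2 * 1 * y.1 + y.1 * R := by gcongr
          _ = (R + 2) * y.1 := by ring
          _ ≤ _ := by gcongr
      rw [Finset.mem_Icc]
      rw [abs_le] at e7
      constructor
      · rw [neg_le]
        apply Int.le_floor.mpr
        push_cast; linarith
      · apply Int.le_floor.mpr
        linarith
    have h1 := Finset.card_le_card hsub
    rw [Int.card_Icc] at h1
    have h2 : (0:ℝ) ≤ (R + 2) * 2 ^ (j + 1) := by positivity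
    have h3 : (0:ℤ) ≤ ⌊(R + 2) * 2 ^ (j + 1)⌋ := Int.floor_nonneg.mpr h2
    have h4 := Int.floor_le ((R + 2) * 2 ^ (j + 1))
    have h5 : ((P.image fun a => a.1).card : ℤ) ≤ 2 * ⌊(R + 2) * 2 ^ (j + 1)⌋ + 1 := by omega
    have h6 : ((P.image fun a => a.1).card : ℝ) ≤ 2 * (⌊(R + 2) * 2 ^ (j + 1)⌋ : ℝ) + 1 := by
      exact_mod_cast h5
    linarith
  have h2j : (1:ℝ) ≤ 2 ^ j := one_le_pow₀ (by norm_num)
  have s1' : (Y.card : ℝ) ≤ F * P.card := by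
    calc (Y.card : ℝ) ≤ (⌊F⌋₊ : ℝ) * P.card := by exact_mod_cast s1
      _ ≤ F * P.card := by
        gcongr
        exact Nat.floor_le hF0
  have s2' : (P.card : ℝ) ≤ (8 * R * ρ * 2 ^ j * R + 8 * ρ * 2 ^ j + 1) *
      (P.image fun a => a.1).card := by
    calc (P.card : ℝ) ≤ ((⌊8 * R * ρ * 2 ^ j * R + 8 * ρ * 2 ^ j⌋₊ : ℝ) + 1) *
        (P.image fun a => a.1).card := by exact_mod_cast s2
      _ ≤ _ := by
        gcongr
        exact Nat.floor_le (by positivity)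
  have s3' : ((P.image fun a => a.1).card : ℝ) ≤ 13 * R * 2 ^ j := by
    refine s3.trans ?_
    rw [pow_succ]
    nlinarith
  have s2'' : 8 * R * ρ * 2 ^ j * R + 8 * ρ * 2 ^ j + 1 ≤ 16 * R ^ 2 * (ρ * 2 ^ j + 1) := by
    have h5 : 0 < ρ * 2 ^ j := by positivity
    have h6 : 1 ≤ R ^ 2 := one_le_pow₀ hR
    nlinarith
  calc (Y.card : ℝ) ≤ F * P.card := s1'
    _ ≤ F * ((8 * R * ρ * 2 ^ j * R + 8 * ρ * 2 ^ j + 1) * (P.image fun a => a.1).card) := by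
        gcongr
    _ ≤ F * ((16 * R ^ 2 * (ρ * 2 ^ j + 1)) * (13 * R * 2 ^ j)) := by gcongr
    _ = _ := by ring

end KT582
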