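import Pool.Agent.Lib.MP_582f03_nt.Counting

/-!
# The output of the construction of the three rows (definition)
-/

namespace KT582

open Finset

/-- rational point with prime denominators -/
noncomputable def pt {c : ℕ} (p : Fin c → ℕ) (k : Fin c → ℤ) : Fin c → ℝ := fun j => (k j : ℝ) / p j

/-- The output of the construction. -/
structure Constr (c : ℕ) (κ u : ℕ → ℝ) where
  α : Fin c → ℝ
  β : Fin c → ℝ
  γ : Fin c → ℝ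
  t : ℕ → ℕ
  c4 : ℝ
  C : ℝ
  hc4 : 0 < c4
  hc41 : c4 ≤ 1
  hC : 1 ≤ C
  ht : ∀ i, 2 * t i ≤ t (i + 1)
  hti : ∀ i, i ≤ t i
  prop : PropP c α (fun i => 2 ^ t i) κ c4
  appr : ∀ i, ∃ (p : Fin c → ℕ) (k kb kc : Fin c → ℤ), (∀ j, 0 < p j) ∧
    (∀ j, p j ≤ 2 ^ c * 2 ^ t i) ∧ (∀ j, |pt p kb j| ≤ C) ∧ (∀ j, |pt p kc j| ≤ C) ∧
    ∀ x : ℝ, 1 ≤ x → x ≤ 2 → |x - u i| ≤ 2 / (i + 1) →
      ∀ j, |(α j + x * β j + x ^ 2 * γ j) - (pt p k j + x * pt p kb j + x ^ 2 * pt p kc j)| ≤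
        C / (κ i * (2 ^ t i) ^ (c + 3) * (i + 1) ^ 2)

end KT582
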