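import Pool.Agent.Lib.MP_582f03_nt.StepF

/-!
# The construction of the three rows
-/

set_option maxHeartbeats 400000

namespace KT582

open Finset

theorem stageStep {c : ℕ} (hc : 0 < c) : ∃ C5 C6 : ℝ, 1 ≤ C5 ∧ 1 ≤ C6 ∧
    ∀ (T : ℕ) (p : Fin c → ℕ) (k : Fin c → ℤ) (κ : ℝ), IsStage T p k → 0 < κ → κ ≤ 1 →
      C6 ≤ κ * T →
      ∃ T0 : ℕ, ∀ T' : ℕ, T0 ≤ T' → ∀ p' : Fin c → ℕ, (∀ j, (p' j).Prime) →
        Function.Injective p' → (∀ j, T' < p' j) → ∃ k' : Fin c → ℤ, (∀ j, ¬ (p' j : ℤ) ∣ k' j) ∧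
        (∀ j, pt p k j ≤ pt p' k' j ∧ pt p' k' j ≤ pt p k j + C5 / (κ * (T:ℝ) ^ (c + 3))) ∧
        ∀ h : Fin c → ℤ, h ≠ 0 → ‖h‖ < T' → eta c T κ (pt p k) h ≤ nd (dotp h (pt p' k')) := by
  obtain ⟨C5, C6, h5, h6, H⟩ := tsum_phi_le hc
  refine ⟨C5, C6, h5, h6, ?_⟩
  intro T p k κ hs hκ hκ1 hκT
  obtain ⟨h1, h2⟩ := H T p k κ hs hκ hκ1 hκT
  have hT0 : (0:ℝ) < T := by
    by_contra hcon
    push Not at hcon
    nlinarith
  have hTn : 1 ≤ T := by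
    have : 0 < T := by exact_mod_cast hT0
    omega
  exact genStep hc (pt p k) (by positivity) h2 _ (eta_nonneg hκ _) (summable_eta hκ hTn _) h1

/-- existence of primes of comparable size -/
lemma exists_primes (c T : ℕ) (hT : 1 ≤ T) : ∃ p : Fin c → ℕ, (∀ j, (p j).Prime) ∧
    Function.Injective p ∧ (∀ j, T < p j) ∧ ∀ j, p j ≤ 2 ^ c * T := by
  have h1 : ∀ n : ℕ, n ≠ 0 → ∃ q, q.Prime ∧ n < q ∧ q ≤ 2 * n :=
    fun n hn => Nat.exists_prime_lt_and_le_two_mul n hn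
  choose! f hf using h1
  set q : ℕ → ℕ := fun n => f^[n + 1] T with hq
  have hpos : ∀ n, f^[n] T ≠ 0 := by
    intro n
    induction n with
    | zero => simp; omega
    | succ n ih =>
      rw [Function.iterate_succ_apply']
      exact (hf _ ih).1.ne_zero
  have hstep : ∀ n, f^[n] T < f^[n + 1] T ∧ f^[n + 1] T ≤ 2 * f^[n] T ∧ (f^[n + 1] T).Prime := by
    intro n
    rw [Function.iterate_succ_apply']
    have := hf _ (hpos n)
    exact ⟨this.2.1, this.2.2, this.1⟩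
  have hmono : StrictMono (fun n => f^[n] T) := strictMono_nat_of_lt_succ fun n => (hstep n).1
  have hle : ∀ n, f^[n] T ≤ 2 ^ n * T := by
    intro n
    induction n with
    | zero => simp
    | succ n ih =>
      calc f^[n + 1] T ≤ 2 * f^[n] T := (hstep n).2.1
        _ ≤ 2 * (2 ^ n * T) := by omega
        _ = 2 ^ (n + 1) * T := by ring
  refine ⟨fun j => q j, fun j => (hstep j).2.2, ?_, ?_, ?_⟩
  · intro i j hij
    have := hmono.injective hij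
    ext
    omega
  · intro j
    exact hmono (Nat.succ_pos (j:ℕ))
  · intro j
    refine (hle _).trans ?_
    have : 2 ^ ((j:ℕ) + 1) ≤ 2 ^ c := Nat.pow_le_pow_right (by norm_num) (by omega)
    exact Nat.mul_le_mul_right _ this

/-- limits of sequences with rapidly decreasing steps -/
lemma exists_limit (a r : ℕ → ℝ) (M : ℝ) (hM : 0 ≤ M) (hr : ∀ n, 0 < r n)
    (hr2 : ∀ n, r (n + 1) ≤ r n / 2) (ha : ∀ n, |a (n + 1) - a n| ≤ M * r n) :
    ∃ x, ∀ n, |x - a n| ≤ 2 * M * r n := by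
  have key : ∀ n m, |a (n + m) - a n| ≤ 2 * M * r n - 2 * M * r (n + m) := by
    intro n m
    induction m with
    | zero => simp
    | succ m ih =>
      have h1 := ha (n + m)
      have h2 := hr2 (n + m)
      have h3 : |a (n + (m + 1)) - a n| ≤ |a (n + m + 1) - a (n + m)| + |a (n + m) - a n| := by
        have : a (n + (m + 1)) - a n = (a (n + m + 1) - a (n + m)) + (a (n + m) - a n) := by
          rw [← add_assoc]; ring
        rw [this]; exact abs_add_le _ _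
      rw [← add_assoc] at h3 ⊢
      nlinarith
  have hrge : ∀ n, r n ≤ r 0 / 2 ^ n := by
    intro n
    induction n with
    | zero => simp
    | succ n ih =>
      calc r (n + 1) ≤ r n / 2 := hr2 n
        _ ≤ (r 0 / 2 ^ n) / 2 := by gcongr
        _ = _ := by rw [pow_succ]; field_simp
  have hcau : CauchySeq a := by
    apply cauchySeq_of_le_geometric (1/2) (M * r 0) (by norm_num)
    intro n
    rw [Real.dist_eq, abs_sub_comm]
    refine (ha n).trans ?_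
    have := hrge n
    calc M * r n ≤ M * (r 0 / 2 ^ n) := by gcongr
      _ = _ := by rw [one_div, inv_pow]; ring
  obtain ⟨x, hx⟩ := cauchySeq_tendsto_of_complete hcau
  refine ⟨x, fun n => ?_⟩
  have h1 : Filter.Tendsto (fun m => |a (m + n) - a n|) Filter.atTop (nhds |x - a n|) := by
    have := (Filter.tendsto_add_atTop_iff_nat n).mpr hx
    exact (this.sub_const _).abs
  apply le_of_tendsto' h1
  intro m
  rw [add_comm m n]
  refine (key n m).trans ?_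
  have := hr (n + m)
  nlinarith

/-- data of a stage -/
structure Dat (c : ℕ) where
  T : ℕ
  p : Fin c → ℕ
  k : Fin c → ℤ
  kb : Fin c → ℤ
  kc : Fin c → ℤ

/-- validity of a stage -/
def Good {c : ℕ} (C7 κ : ℝ) (d : Dat c) : Prop :=
  IsStage d.T d.p d.k ∧ C7 ≤ κ * d.T ∧ ∃ t : ℕ, d.T = 2 ^ t

/-- relation between consecutive stages -/
def Rel {c : ℕ} (C5 κ u ε : ℝ) (d d' : Dat c) : Prop :=
  (∀ j, pt d.p d.k j ≤ pt d'.p d'.k j ∧
    pt d'.p d'.k j ≤ pt d.p d.k j + C5 / (κ * (d.T:ℝ) ^ (c + 3))) ∧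
  (∀ h : Fin c → ℤ, h ≠ 0 → ‖h‖ < d'.T →
    eta c d.T κ (pt d.p d.k) h ≤ nd (dotp h (pt d'.p d'.k))) ∧
  (∀ j, |pt d'.p d'.kb j - (pt d.p d.kb j - 2 / u * (pt d'.p d'.k j - pt d.p d.k j))| ≤
    1 / (d'.T : ℝ)) ∧
  (∀ j, |pt d'.p d'.kc j - (pt d.p d.kc j + 1 / u ^ 2 * (pt d'.p d'.k j - pt d.p d.k j))|
    ≤ 1 / (d'.T : ℝ)) ∧
  1 / (d'.T:ℝ) ≤ ε

lemma exists_num_approx {P T : ℕ} (hT : 1 ≤ T) (hP : T < P) (x : ℝ) :
    ∃ m : ℤ, |(m:ℝ) / P - x| ≤ 1 / T := by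
  have hT' : (0:ℝ) < T := by exact_mod_cast hT
  have hP' : (T:ℝ) ≤ P := by exact_mod_cast hP.le
  have hP0 : (0:ℝ) < P := by linarith
  refine ⟨round (P * x), ?_⟩
  have h1 := abs_sub_round ((P:ℝ) * x)
  have h2 : (round ((P:ℝ) * x) : ℝ) / P - x = -((P:ℝ) * x - round ((P:ℝ) * x)) / P := by
    field_simp; ring
  rw [h2, abs_div, abs_neg, abs_of_pos hP0, div_le_div_iff₀ hP0 hT']
  nlinarith

lemma exists_next {c : ℕ} (hc : 0 < c) : ∃ C5 C6 : ℝ, 1 ≤ C5 ∧ 1 ≤ C6 ∧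
    ∀ (C7 κ κ' u ε : ℝ) (d : Dat c), C6 ≤ C7 → 0 < κ → κ ≤ 1 → 0 < κ' → 0 < ε →
      Good C7 κ d → ∃ d' : Dat c, Good C7 κ' d' ∧ Rel C5 κ u ε d d' := by
  obtain ⟨C5, C6, h5, h6, H⟩ := stageStep hc
  refine ⟨C5, C6, h5, h6, ?_⟩
  intro C7 κ κ' u ε d hC7 hκ hκ1 hκ' hε hd
  obtain ⟨T0, hT0⟩ := H d.T d.p d.k κ hd.1 hκ hκ1 (hC7.trans hd.2.1)
  -- choose the exponent
  obtain ⟨N, hN⟩ := exists_nat_ge (max (T0 : ℝ) (max (C7 / κ') (1 / ε)))
  set T' : ℕ := 2 ^ N with hT'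
  have hNT : (N:ℝ) ≤ T' := by
    rw [hT']; exact_mod_cast (Nat.lt_two_pow_self).le
  have hT1 : 1 ≤ T' := Nat.one_le_two_pow
  have hT'0 : (0:ℝ) < T' := by exact_mod_cast hT1
  have b1 : (T0:ℝ) ≤ T' := (le_max_left _ _).trans (hN.trans hNT)
  have b2 : C7 / κ' ≤ T' := ((le_max_left _ _).trans (le_max_right _ _)).trans (hN.trans hNT)
  have b3 : 1 / ε ≤ T' := ((le_max_right _ _).trans (le_max_right _ _)).trans (hN.trans hNT)
  obtain ⟨p', hp1, hp2, hp3, hp4⟩ := exists_primes c T' hT1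
  obtain ⟨k', hk1, hk2, hk3⟩ := hT0 T' (by exact_mod_cast b1) p' hp1 hp2 hp3
  choose kb' hkb' using fun j => exists_num_approx hT1 (hp3 j)
    (pt d.p d.kb j - 2 / u * (pt p' k' j - pt d.p d.k j))
  choose kc' hkc' using fun j => exists_num_approx hT1 (hp3 j)
    (pt d.p d.kc j + 1 / u ^ 2 * (pt p' k' j - pt d.p d.k j))
  refine ⟨⟨T', p', k', kb', kc'⟩, ⟨⟨hp1, hp2, hp3, hp4, hk1⟩, ?_, N, rfl⟩, hk2, hk3, hkb', hkc', ?_⟩
  · rw [div_le_iff₀ hκ'] at b2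
    simp only
    linarith
  · rw [div_le_comm₀ hT'0 hε]
    exact b3

lemma exists_start {c : ℕ} (C7 κ : ℝ) (hκ : 0 < κ) : ∃ d : Dat c, Good C7 κ d := by
  obtain ⟨N, hN⟩ := exists_nat_ge (C7 / κ)
  set T' : ℕ := 2 ^ N with hT'
  have hNT : (N:ℝ) ≤ T' := by
    rw [hT']; exact_mod_cast (Nat.lt_two_pow_self).le
  have hT1 : 1 ≤ T' := Nat.one_le_two_pow
  obtain ⟨p', hp1, hp2, hp3, hp4⟩ := exists_primes c T' hT1
  refine ⟨⟨T', p', fun _ => 1, fun _ => 0, fun _ => 0⟩, ⟨hp1, hp2, hp3, hp4, ?_⟩, ?_, N, rfl⟩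
  · intro j hj
    have h1 := Int.eq_one_of_dvd_one (by positivity) hj
    have h2 : p' j = 1 := by exact_mod_cast h1
    exact (hp1 j).one_lt.ne' h2
  · simp only
    have := hN.trans hNT
    rw [div_le_iff₀ hκ] at this
    linarith

lemma exists_seq {c : ℕ} (hc : 0 < c) : ∃ C5 C6 : ℝ, 1 ≤ C5 ∧ 1 ≤ C6 ∧
    ∀ (C7 : ℝ) (κ u : ℕ → ℝ) (ε : ℕ → ℕ → ℝ), C6 ≤ C7 → (∀ i, 0 < κ i) → (∀ i, κ i ≤ 1) →
      (∀ i T, 0 < T → 0 < ε i T) →
      ∃ d : ℕ → Dat c, (∀ i, Good C7 (κ i) (d i)) ∧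
        ∀ i, Rel C5 (κ i) (u i) (ε i (d i).T) (d i) (d (i + 1)) := by
  obtain ⟨C5, C6, h5, h6, H⟩ := exists_next hc
  refine ⟨C5, C6, h5, h6, ?_⟩
  intro C7 κ u ε hC7 hκ hκ1 hε
  obtain ⟨d0, hd0⟩ := exists_start (c := c) C7 (κ 0) (hκ 0)
  have step : ∀ (i : ℕ) (d : Dat c), Good C7 (κ i) d →
      ∃ d' : Dat c, Good C7 (κ (i + 1)) d' ∧ Rel C5 (κ i) (u i) (ε i d.T) d d' := by
    intro i d hd
    refine H C7 (κ i) (κ (i + 1)) (u i) (ε i d.T) d hC7 (hκ i) (hκ1 i) (hκ (i + 1)) ?_ hd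
    apply hε
    obtain ⟨t, ht⟩ := hd.2.2
    rw [ht]; positivity
  choose! nx hnx1 hnx2 using step
  refine ⟨fun n => Nat.rec d0 (fun i d => nx i d) n, ?_, ?_⟩
  · intro i
    induction i with
    | zero => exact hd0
    | succ i ih => exact hnx1 i _ ih
  · intro i
    have hg : ∀ i, Good C7 (κ i) (Nat.rec d0 (fun i d => nx i d) i : Dat c) := by
      intro i
      induction i with
      | zero => exact hd0
      | succ i ih => exact hnx1 i _ ih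
    exact hnx2 i _ (hg i)

end KT582
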