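import Pool.Agent.Lib.MP_582f03_nt.Box

/-!
# Measure of the set of points close to solutions at a dyadic scale
-/

set_option maxHeartbeats 400000

namespace KT582

open Finset MeasureTheory

lemma vol_closedBall (x : ℝ × ℝ) {r : ℝ} (hr : 0 ≤ r) :
    volume (Metric.closedBall x r) = ENNReal.ofReal ((2 * r) ^ 2) := by
  obtain ⟨a, b⟩ := x
  rw [← closedBall_prod_same, Measure.volume_eq_prod, Measure.prod_prod, Real.volume_closedBall,
    Real.volume_closedBall, ← ENNReal.ofReal_mul (by positivity), sq]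

lemma vol_ball (x : ℝ × ℝ) {r : ℝ} (hr : 0 ≤ r) :
    volume (Metric.ball x r) = ENNReal.ofReal ((2 * r) ^ 2) := by
  obtain ⟨a, b⟩ := x
  rw [← ball_prod_same, Measure.volume_eq_prod, Measure.prod_prod, Real.volume_ball,
    Real.volume_ball, ← ENNReal.ofReal_mul (by positivity), sq]

lemma inBox_finite {c : ℕ} (α β γ : Fin c → ℝ) (x0 : ℝ × ℝ) (ρ s : ℝ) (j : ℕ) :
    {y | InBox α β γ x0 ρ s j y}.Finite := by
  set A : ℝ := (2 * |ρ| + |x0.1| + |x0.2|) * 2 ^ (j + 1) with hA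
  refine Set.Finite.subset ((Set.finite_Icc (0:ℤ) (2 ^ (j + 1))).prod
    ((Set.finite_Icc (-⌈A⌉) ⌈A⌉).prod (Set.finite_Icc (-⌈A⌉) ⌈A⌉))) ?_
  intro y hy
  have h0 : (0:ℤ) ≤ y.1 := le_trans (by positivity) hy.lo
  have h1 : (0:ℝ) ≤ y.1 := by exact_mod_cast h0
  have h2 : (y.1:ℝ) ≤ 2 ^ (j + 1) := by exact_mod_cast hy.hi.le
  have key : ∀ (a : ℤ) (z : ℝ), |(a : ℝ) - y.1 * z| ≤ 2 * ρ * y.1 → |z| ≤ |x0.1| + |x0.2| →
      a ∈ Set.Icc (-⌈A⌉) ⌈A⌉ := by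
    intro a z h hz
    have e : |(a : ℝ)| ≤ A := by
      have : (a : ℝ) = ((a : ℝ) - y.1 * z) + y.1 * z := by ring
      rw [this]
      refine (abs_add_le _ _).trans ?_
      rw [abs_mul, abs_of_nonneg h1]
      calc |(a : ℝ) - y.1 * z| + y.1 * |z| ≤ 2 * |ρ| * y.1 + y.1 * (|x0.1| + |x0.2|) := by
            have h3 : 2 * ρ * (y.1:ℝ) ≤ 2 * |ρ| * y.1 := by
              have := le_abs_self ρ
              gcongr
            exact add_le_add (h.trans h3) (mul_le_mul_of_nonneg_left hz h1)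
        _ = (2 * |ρ| + |x0.1| + |x0.2|) * y.1 := by ring
        _ ≤ (2 * |ρ| + |x0.1| + |x0.2|) * 2 ^ (j + 1) :=
            mul_le_mul_of_nonneg_left h2 (by positivity)
    have e2 := e.trans (Int.le_ceil A)
    rw [abs_le] at e2
    constructor
    · exact_mod_cast e2.1
    · exact_mod_cast e2.2
  refine ⟨⟨h0, hy.hi.le⟩, key _ _ hy.h1 ?_, key _ _ hy.h2 ?_⟩
  · have := abs_nonneg x0.2; linarith
  · have := abs_nonneg x0.1; linarith

/-- The set of points of a ball close to `a / q` with `(q, a)` an approximate solution. -/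
def Near {c : ℕ} (α β γ : Fin c → ℝ) (x0 : ℝ × ℝ) (ρ' r s : ℝ) (j : ℕ) : Set (ℝ × ℝ) :=
  {x | x ∈ Metric.closedBall x0 ρ' ∧ ∃ q a1 a2 : ℤ, (2:ℤ) ^ j ≤ q ∧ q < (2:ℤ) ^ (j + 1) ∧
    |q * x.1 - a1| ≤ r ∧ |q * x.2 - a2| ≤ r ∧ Sol α β γ s q a1 a2}

lemma near_measure {c : ℕ} {α β γ : Fin c → ℝ} {R : ℝ} (hR : 1 ≤ R) {x0 : ℝ × ℝ}
    (hx1 : 1 / R ≤ |x0.1|) (hx1' : |x0.1| ≤ R) (hx2 : |x0.2| ≤ R) {ρ r s : ℝ} (hρ : 0 < ρ)
    (hρ1 : ρ ≤ 1) {j N : ℕ} (hr0 : 0 ≤ r) (hr : r ≤ ρ * 2 ^ j) (hN : 8 * R * ρ * 2 ^ j ≤ N) {F : ℝ}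
    (hF : FiberBound α β γ s N F) :
    volume (Near α β γ x0 ρ r s j) ≤
      ENNReal.ofReal (208 * R ^ 3 * 2 ^ j * (ρ * 2 ^ j + 1) * F * (2 * (r / 2 ^ j)) ^ 2) := by
  classical
  set Y := (inBox_finite α β γ x0 ρ s j).toFinset with hY
  have hcard := box_card hR hx1 hx1' hx2 hρ hρ1 hN hF Y (by
    intro y hy
    rw [hY, Set.Finite.mem_toFinset] at hy
    exact hy)
  have hsub : Near α β γ x0 ρ r s j ⊆ ⋃ y ∈ Y, Metric.closedBall
      ((y.2.1 / y.1, y.2.2 / y.1) : ℝ × ℝ) (r / 2 ^ j) := by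
    rintro x ⟨hx, q, a1, a2, hq1, hq2, h1, h2, hsol⟩
    have hqpos : (0:ℝ) < q := by
      have : (0:ℤ) < q := lt_of_lt_of_le (by positivity) hq1
      exact_mod_cast this
    have hq1' : (2:ℝ) ^ j ≤ q := by exact_mod_cast hq1
    have hxd : |x.1 - x0.1| ≤ ρ ∧ |x.2 - x0.2| ≤ ρ := by
      rw [Metric.mem_closedBall, Prod.dist_eq, max_le_iff, Real.dist_eq, Real.dist_eq] at hx
      exact hx
    have hrq : r ≤ ρ * q := hr.trans (by gcongr)
    have aux : ∀ (a : ℤ) (z z0 : ℝ), |z - z0| ≤ ρ → |q * z - a| ≤ r →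
        |(a:ℝ) - q * z0| ≤ 2 * ρ * q := by
      intro a z z0 hz ha
      have e1 : (a:ℝ) - q * z0 = -(q * z - a) + q * (z - z0) := by ring
      rw [e1]
      refine (abs_add_le _ _).trans ?_
      rw [abs_neg, abs_mul, abs_of_pos hqpos]
      calc |q * z - a| + q * |z - z0| ≤ r + q * ρ := by gcongr
        _ ≤ ρ * q + q * ρ := by gcongr
        _ = _ := by ring
    have aux2 : ∀ (a : ℤ) (z : ℝ), |q * z - a| ≤ r → |z - a / q| ≤ r / 2 ^ j := by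
      intro a z ha
      have e1 : z - a / q = (q * z - a) / q := by field_simp
      rw [e1, abs_div, abs_of_pos hqpos]
      gcongr
    simp only [Set.mem_iUnion]
    refine ⟨(q, a1, a2), ?_, ?_⟩
    · rw [hY, Set.Finite.mem_toFinset]
      exact ⟨hq1, hq2, aux _ _ _ hxd.1 h1, aux _ _ _ hxd.2 h2, hsol⟩
    · rw [Metric.mem_closedBall, Prod.dist_eq, max_le_iff, Real.dist_eq, Real.dist_eq]
      exact ⟨aux2 _ _ h1, aux2 _ _ h2⟩
  calc volume (Near α β γ x0 ρ r s j) ≤ volume (⋃ y ∈ Y, Metric.closedBall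
      ((y.2.1 / y.1, y.2.2 / y.1) : ℝ × ℝ) (r / 2 ^ j)) := measure_mono hsub
    _ ≤ ∑ y ∈ Y, volume (Metric.closedBall ((y.2.1 / y.1, y.2.2 / y.1) : ℝ × ℝ) (r / 2 ^ j)) :=
        measure_biUnion_finset_le _ _
    _ = Y.card * ENNReal.ofReal ((2 * (r / 2 ^ j)) ^ 2) := by
        rw [Finset.sum_congr rfl (fun y _ => vol_closedBall _ (by positivity)), Finset.sum_const,
          nsmul_eq_mul]
    _ = ENNReal.ofReal (Y.card * (2 * (r / 2 ^ j)) ^ 2) := by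
        rw [ENNReal.ofReal_mul (by positivity), ENNReal.ofReal_natCast]
    _ ≤ _ := by
        apply ENNReal.ofReal_le_ofReal
        gcongr

end KT582
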