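import Pool.Agent.Lib.MP_582f03_nt.Window
import Pool.Agent.Lib.MP_582f03_nt.Vol

/-!
# The convergence part for the plane
-/

set_option maxHeartbeats 400000

namespace KT582

open Finset MeasureTheory

/-- The construction together with its parameters. -/
structure Par (c : ℕ) where
  hc : 0 < c
  κ : ℕ → ℝ
  u : ℕ → ℝ
  E : Constr c κ u
  hκ0 : ∀ i, 0 < κ i
  hκ1 : ∀ i, κ i ≤ 1
  M : ℕ
  hnM : c + 2 ≤ M
  ϱ : ℝ
  hϱ0 : 0 < ϱ
  hϱ1 : ϱ < 1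
  hM : ϱ ^ M = 1 / 2
  κh : ℕ → ℝ
  hκh0 : ∀ i, 0 < κh i
  hκh1 : ∀ i, κh i ≤ 1
  hκh : ∀ i, κ i = κh i ^ M
  lam : ℕ → ℝ
  eps : ℕ → ℝ
  hlam0 : ∀ i, 0 < lam i
  hlam : Summable lam
  heps0 : ∀ i, 0 < eps i
  heps1 : ∀ i, eps i ≤ 1
  heps : Filter.Tendsto eps Filter.atTop (nhds 0)
  hle : ∀ i, κh i ^ (M - 1) ≤ lam i * eps i

namespace Par

variable {c : ℕ} (P : Par c)

/-- exceptional weights -/
noncomputable def b (k : ℕ) : ℝ := bseq P.ϱ P.lam (fun i => (c + 2) * P.E.t i) k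

lemma b_nonneg (k : ℕ) : 0 ≤ P.b k := bseq_nonneg P.hϱ0 P.hlam0 _ _

lemma summable_b : Summable P.b := summable_bseq P.hϱ0 P.hϱ1 P.hlam0 P.hlam _

lemma le_b (i k : ℕ) : P.lam i * wt P.ϱ ((c + 2) * P.E.t i) k ≤ P.b k :=
  le_bseq P.hϱ0 P.hϱ1 P.hlam0 P.hlam (fun i => (c + 2) * P.E.t i) i k

/-- size of the coefficients -/
noncomputable def CA : ℝ := 1 + ∑ l, (|P.E.β l| + |P.E.γ l|)

lemma one_le_CA : 1 ≤ P.CA := by
  rw [CA]
  have : 0 ≤ ∑ l, (|P.E.β l| + |P.E.γ l|) := Finset.sum_nonneg fun l _ => by positivity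
  linarith

lemma le_CA (l : Fin c) : 1 + (|P.E.β l| + |P.E.γ l|) ≤ P.CA := by
  rw [CA]
  have : |P.E.β l| + |P.E.γ l| ≤ ∑ l, (|P.E.β l| + |P.E.γ l|) :=
    Finset.single_le_sum (f := fun l => |P.E.β l| + |P.E.γ l|) (fun l _ => by positivity)
      (Finset.mem_univ l)
  linarith

/-- the remaining coordinates -/
noncomputable def f (x : ℝ × ℝ) (l : Fin c) : ℝ := P.E.α l + x.1 * P.E.β l + x.2 * P.E.γ l

lemma sol_of_approx {x : ℝ × ℝ} {r : ℝ} {q a1 a2 : ℤ} (h1 : |q * x.1 - a1| ≤ r)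
    (h2 : |q * x.2 - a2| ≤ r) {s : ℝ} (h3 : ∀ l, nd (q * P.f x l) ≤ s) (hs : s ≤ r) :
    Sol P.E.α P.E.β P.E.γ (P.CA * r) q a1 a2 := by
  intro l
  have e1 : (q:ℝ) * P.E.α l + a1 * P.E.β l + a2 * P.E.γ l =
      q * P.f x l - ((q * x.1 - a1) * P.E.β l + (q * x.2 - a2) * P.E.γ l) := by
    rw [f]; ring
  have hr : 0 ≤ r := (abs_nonneg _).trans h1
  rw [e1]
  refine (nd_sub_le _ _).trans ?_
  have e2 := nd_le_abs ((q * x.1 - a1) * P.E.β l + (q * x.2 - a2) * P.E.γ l)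
  have e3 := abs_add_le ((q * x.1 - a1) * P.E.β l) ((q * x.2 - a2) * P.E.γ l)
  rw [abs_mul, abs_mul] at e3
  have e4 : |q * x.1 - a1| * |P.E.β l| ≤ r * |P.E.β l| := by gcongr
  have e5 : |q * x.2 - a2| * |P.E.γ l| ≤ r * |P.E.γ l| := by gcongr
  have e6 := h3 l
  have e7 := P.le_CA l
  calc nd (q * P.f x l) + nd ((q * x.1 - a1) * P.E.β l + (q * x.2 - a2) * P.E.γ l)
      ≤ r + (r * |P.E.β l| + r * |P.E.γ l|) := by linarith
    _ = (1 + (|P.E.β l| + |P.E.γ l|)) * r := by ring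
    _ ≤ P.CA * r := by gcongr

end Par

lemma gw_le {c : ℕ} {κ T N A X0 r : ℝ} (hκ : 0 ≤ κ) (hT : 0 < T) (hA : 1 ≤ A)
    (hN : N ≤ A * X0) :
    gw c κ T N * r ^ 2 ≤ 48 * 2 ^ c * A * ((T * r) ^ 2 * min κ (X0 / T ^ (c + 2))) := by
  have h2c : (1:ℝ) ≤ 2 ^ c := one_le_pow₀ (by norm_num)
  rw [gw]
  rcases min_cases κ (X0 / T ^ (c + 2)) with ⟨h, _⟩ | ⟨h, _⟩
  · rw [h]
    calc min (24 * (κ * T ^ 2)) (48 * 2 ^ c * N / T ^ c) * r ^ 2 ≤ (24 * (κ * T ^ 2)) * r ^ 2 := by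
          gcongr
          exact min_le_left _ _
      _ = 24 * 1 * 1 * ((T * r) ^ 2 * κ) := by ring
      _ ≤ 48 * 2 ^ c * A * ((T * r) ^ 2 * κ) := by
          gcongr
          norm_num
  · rw [h]
    calc min (24 * (κ * T ^ 2)) (48 * 2 ^ c * N / T ^ c) * r ^ 2 ≤
        (48 * 2 ^ c * N / T ^ c) * r ^ 2 := by
          gcongr
          exact min_le_right _ _
      _ ≤ (48 * 2 ^ c * (A * X0) / T ^ c) * r ^ 2 := by gcongr
      _ = _ := by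
          field_simp
          ring

namespace Par

variable {c : ℕ} (P : Par c)

lemma K_facts {r CA c4 H : ℝ} {k : ℕ} (hc : 0 < c) (hCA : 1 ≤ CA) (hr : 0 < r)
    (hr1 : 12 * c * CA * r ≤ 1) (hr2 : 1 / ((k:ℝ) + 1) ^ 2 ≤ 2 ^ k * r ^ (c + 2))
    (hr3 : ((k:ℝ) + 1) ^ 2 * r ≤ c4 * H) :
    1 ≤ ⌊1 / (6 * c * CA * r)⌋₊ ∧ CA * r * (6 * c * (⌊1 / (6 * c * CA * r)⌋₊ : ℝ)) ≤ 1 ∧
    1 ≤ (12 * c * CA * r) * (⌊1 / (6 * c * CA * r)⌋₊ : ℝ) ∧
    (⌊1 / (6 * c * CA * r)⌋₊ : ℝ) ^ (c + 1) ≤ c4 * (H * 2 ^ k) := by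
  have hc' : (1:ℝ) ≤ c := by exact_mod_cast hc
  have hc0 : (0:ℝ) < c := by linarith
  set x := 1 / (6 * c * CA * r) with hx
  have hx2 : 2 ≤ x := by
    rw [hx, le_div_iff₀ (by positivity)]
    linarith
  have hf1 : (⌊x⌋₊ : ℝ) ≤ x := Nat.floor_le (by linarith)
  have hf2 : x < ⌊x⌋₊ + 1 := Nat.lt_floor_add_one x
  have hf3 : x / 2 ≤ ⌊x⌋₊ := by linarith
  have hxr : x * (6 * c * CA * r) = 1 := by
    rw [hx]; field_simp
  refine ⟨?_, ?_, ?_, ?_⟩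
  · have : (1:ℝ) ≤ ⌊x⌋₊ := by linarith
    exact_mod_cast this
  · calc CA * r * (6 * c * (⌊x⌋₊ : ℝ)) = (6 * c * CA * r) * ⌊x⌋₊ := by ring
      _ ≤ (6 * c * CA * r) * x := by gcongr
      _ = 1 := by rw [mul_comm]; exact hxr
  · calc (1:ℝ) = (12 * c * CA * r) * (x / 2) := by linarith
      _ ≤ _ := by gcongr
  · have hle : (⌊x⌋₊ : ℝ) ≤ 1 / r := by
      refine hf1.trans ?_
      rw [hx]
      apply div_le_div_of_nonneg_left (by norm_num) hr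
      have : (1:ℝ) ≤ 6 * c * CA := one_le_mul_of_one_le_of_one_le (by linarith) hCA
      exact le_mul_of_one_le_left hr.le this
    calc (⌊x⌋₊ : ℝ) ^ (c + 1) ≤ (1 / r) ^ (c + 1) := by gcongr
      _ = r * (1 / r ^ (c + 2)) := by
          rw [div_pow, one_pow]
          field_simp
          ring
      _ ≤ r * (2 ^ k * ((k:ℝ) + 1) ^ 2) := by
          gcongr
          rw [div_le_iff₀ (by positivity)]
          rw [div_le_iff₀ (by positivity)] at hr2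
          linarith
      _ = (((k:ℝ) + 1) ^ 2 * r) * 2 ^ k := by ring
      _ ≤ (c4 * H) * 2 ^ k := by gcongr
      _ = _ := by ring

/-- one scale estimate -/
lemma conv_scale {Z R r : ℝ} (hZ : 1 ≤ Z) (hR : 1 ≤ R) {x0 : ℝ × ℝ}
    (hx1 : 1 / R ≤ |x0.1|) (hx1' : |x0.1| ≤ R) (hx2 : |x0.2| ≤ R) {k : ℕ} (hr : 0 < r)
    (hr1 : 12 * c * P.CA * r ≤ 1) (hr2 : 1 / ((k:ℝ) + 1) ^ 2 ≤ 2 ^ k * r ^ (c + 2))
    (hr3 : ((k:ℝ) + 1) ^ 2 * r ≤ P.E.c4 * (8 * R)) (hζ : 2 ^ k * r ^ (c + 2) ≤ Z) :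
    volume (Near P.E.α P.E.β P.E.γ x0 1 r (P.CA * r) k) ≤
      ENNReal.ofReal (1664 * R ^ 3 * (768 * R * (12 * c * P.CA) ^ c * (2 ^ k * r ^ (c + 2)) +
        48 * 2 ^ c * (16 * R) * (Z ^ 2 * P.b k))) := by
  have hc' : (1:ℝ) ≤ c := by exact_mod_cast P.hc
  have hc0 : (0:ℝ) < c := by linarith
  have hCA := P.one_le_CA
  obtain ⟨hK1, hK2, hK3, hK4⟩ := K_facts P.hc hCA hr hr1 hr2 hr3
  set K : ℕ := ⌊1 / (6 * c * P.CA * r)⌋₊ with hK
  have h2k : (1:ℝ) ≤ 2 ^ k := one_le_pow₀ (by norm_num)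
  obtain ⟨g, hg, hFB⟩ := fiber_bound P.E P.hκ0 P.hκ1 hK1 (s := P.CA * r) hK2
  set N : ℕ := ⌈8 * R * 2 ^ k⌉₊ with hN
  have hN1 : 8 * R * 2 ^ k ≤ N := Nat.le_ceil _
  have hN0 : (1:ℝ) ≤ 8 * R * 2 ^ k := one_le_mul_of_one_le_of_one_le (by linarith) h2k
  have hN2 : (N:ℝ) ≤ 16 * R * 2 ^ k := by
    have := Nat.ceil_lt_add_one (by linarith : 0 ≤ 8 * R * 2 ^ k)
    rw [← hN] at this
    linarith
  have hNn : 1 ≤ N := by
    have : (1:ℝ) ≤ N := hN0.trans hN1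
    exact_mod_cast this
  have hKN : (K:ℝ) ^ (c + 1) ≤ P.E.c4 * N := by
    refine hK4.trans ?_
    have := P.E.hc4
    gcongr
  have hF := hFB N hNn hKN
  have hK0 : (0:ℝ) < K := by exact_mod_cast hK1
  have hr1' : r ≤ 1 := by
    have : (1:ℝ) ≤ 12 * c * P.CA := one_le_mul_of_one_le_of_one_le (by linarith) hCA
    exact (le_mul_of_one_le_left hr.le this).trans hr1
  have hnear := near_measure (ρ := 1) (r := r) (j := k) hR hx1 hx1' hx2 one_pos le_rfl hr.le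
    (by rw [one_mul]; linarith) (by rw [mul_one]; exact hN1) hF
  refine hnear.trans (ENNReal.ofReal_le_ofReal ?_)
  have e1 : (48 * (N:ℝ) / K ^ c) * r ^ 2 ≤ 768 * R * (12 * c * P.CA) ^ c * (2 ^ k * r ^ (c + 2)) := by
    have e2 : 1 / (K:ℝ) ^ c ≤ (12 * c * P.CA * r) ^ c := by
      rw [div_le_iff₀ (by positivity), ← mul_pow]
      exact one_le_pow₀ hK3
    calc (48 * (N:ℝ) / K ^ c) * r ^ 2 = 48 * (N:ℝ) * (1 / (K:ℝ) ^ c) * r ^ 2 := by ring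
      _ ≤ 48 * (16 * R * 2 ^ k) * (12 * c * P.CA * r) ^ c * r ^ 2 := by gcongr
      _ = _ := by rw [mul_pow]; ring
  have e3 : g N * r ^ 2 ≤ 48 * 2 ^ c * (16 * R) * (Z ^ 2 * P.b k) := by
    have hb := P.b_nonneg k
    rcases hg with hg | ⟨i, hi1, hi2, hg⟩
    · rw [hg]
      simp only [Pi.zero_apply, zero_mul]
      positivity
    · rw [hg]
      have hT : (0:ℝ) < 2 ^ P.E.t i := by positivity
      refine (gw_le (P.hκ0 i).le hT (by linarith : (1:ℝ) ≤ 16 * R) hN2).trans ?_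
      apply mul_le_mul_of_nonneg_left _ (by positivity)
      have hTr : (2:ℝ) ^ P.E.t i * r ≤ 1 := by
        calc (2:ℝ) ^ P.E.t i * r ≤ K * r := by gcongr
          _ ≤ P.CA * r * (6 * c * K) := by
              have e4 : (1:ℝ) ≤ P.CA * (6 * c) := one_le_mul_of_one_le_of_one_le hCA (by linarith)
              have e5 : 0 ≤ K * r := mul_nonneg hK0.le hr.le
              calc K * r ≤ K * r * (P.CA * (6 * c)) := le_mul_of_one_le_right e5 e4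
                _ = _ := by ring
          _ ≤ 1 := hK2
      have hw := window_ineq (m := (c + 2) * P.E.t i) P.hϱ0 P.hϱ1 P.hM (by omega) P.hnM hT
        (by rw [← pow_mul]; congr 1; ring) hr hTr hZ hζ (P.hκh0 i).le (P.hκh1 i) (P.hκh i)
      refine hw.trans ?_
      apply mul_le_mul_of_nonneg_left _ (by positivity)
      refine le_trans ?_ (P.le_b i k)
      have hwt := (wt_pos P.hϱ0 ((c + 2) * P.E.t i) k).le
      apply mul_le_mul_of_nonneg_right _ hwt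
      have h1 := P.hle i
      have h2 := P.heps1 i
      have h3 := P.hlam0 i
      exact h1.trans (mul_le_of_le_one_right h3.le h2)
  have e6 : 208 * R ^ 3 * 2 ^ k * (1 * 2 ^ k + 1) * (48 * (N:ℝ) / K ^ c + g N) * (2 * (r / 2 ^ k)) ^ 2 =
      832 * R ^ 3 * ((2 ^ k + 1) / 2 ^ k) * ((48 * (N:ℝ) / K ^ c) * r ^ 2 + g N * r ^ 2) := by
    field_simp
    ring
  rw [e6]
  have e7 : ((2:ℝ) ^ k + 1) / 2 ^ k ≤ 2 := by
    rw [div_le_iff₀ (by positivity)]; linarith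
  have e8 : 0 ≤ (48 * (N:ℝ) / K ^ c) * r ^ 2 := by positivity
  have hg0 : 0 ≤ g N := by
    rcases hg with hg | ⟨i, _, _, hg⟩
    · rw [hg]; simp
    · rw [hg, gw]
      have := P.hκ0 i
      positivity
  have e9 : 0 ≤ g N * r ^ 2 := by positivity
  calc 832 * R ^ 3 * ((2 ^ k + 1) / 2 ^ k) * ((48 * (N:ℝ) / K ^ c) * r ^ 2 + g N * r ^ 2)
      ≤ 832 * R ^ 3 * 2 * (768 * R * (12 * c * P.CA) ^ c * (2 ^ k * r ^ (c + 2)) +
        48 * 2 ^ c * (16 * R) * (Z ^ 2 * P.b k)) := by gcongr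
    _ = _ := by ring

theorem conv_dyadic (r : ℕ → ℝ) (hr : ∀ k, 0 < r k)
    (hr2 : ∀ k : ℕ, 1 / ((k:ℝ) + 1) ^ 2 ≤ 2 ^ k * r k ^ (c + 2))
    (hsum : Summable fun k => 2 ^ k * r k ^ (c + 2)) (x0 : ℝ × ℝ) (hx0 : x0.1 ≠ 0) :
    ∀ᵐ x ∂(volume.restrict (Metric.closedBall x0 1)), ∀ᶠ k in Filter.atTop,
      ∀ q : ℕ, 2 ^ k ≤ q → q < 2 ^ (k + 1) →
        ¬ (nd (q * x.1) < r k ∧ nd (q * x.2) < r k ∧ ∀ l, nd (q * P.f x l) < r k) := by
  have hc' : (1:ℝ) ≤ c := by exact_mod_cast P.hc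
  have hCA := P.one_le_CA
  have hnn : ∀ k, 0 ≤ 2 ^ k * r k ^ (c + 2) := fun k => by
    have := hr k
    positivity
  obtain ⟨Z, hZ, hζ⟩ : ∃ Z : ℝ, 1 ≤ Z ∧ ∀ k, 2 ^ k * r k ^ (c + 2) ≤ Z := by
    refine ⟨1 + ∑' k, 2 ^ k * r k ^ (c + 2), ?_, ?_⟩
    · have : 0 ≤ ∑' k, 2 ^ k * r k ^ (c + 2) := tsum_nonneg hnn
      linarith
    · intro k
      have := hsum.sum_le_tsum {k} (fun i _ => hnn i)
      simp only [Finset.sum_singleton] at this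
      linarith
  have hx0' : 0 < |x0.1| := abs_pos.mpr hx0
  set R : ℝ := 1 + |x0.1| + |x0.2| + 1 / |x0.1| with hR
  have hinv : 0 < 1 / |x0.1| := by positivity
  have h2nn := abs_nonneg x0.2
  have hR1 : 1 ≤ R := by rw [hR]; linarith
  have hxa : 1 / R ≤ |x0.1| := by
    rw [div_le_iff₀ (by linarith)]
    have : |x0.1| * (1 / |x0.1|) ≤ |x0.1| * R := by
      gcongr
      rw [hR]; linarith
    rwa [mul_one_div_cancel hx0'.ne'] at this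
  have hxb : |x0.1| ≤ R := by rw [hR]; linarith
  have hxc : |x0.2| ≤ R := by rw [hR]; linarith
  have hlim0 : Filter.Tendsto r Filter.atTop (nhds 0) := by
    have := tendsto_poly_mul_r P.hϱ0 P.hϱ1 P.hM (by omega) P.hnM hr hZ hζ 0
    simpa using this
  have hlim2 := tendsto_poly_mul_r P.hϱ0 P.hϱ1 P.hM (by omega) P.hnM hr hZ hζ 2
  have ev1 : ∀ᶠ k in Filter.atTop, 12 * c * P.CA * r k ≤ 1 := by
    have h1 := hlim0.const_mul (12 * c * P.CA)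
    rw [mul_zero] at h1
    exact h1.eventually_le_const one_pos
  have ev2 : ∀ᶠ k : ℕ in Filter.atTop, ((k:ℝ) + 1) ^ 2 * r k ≤ P.E.c4 * (8 * R) := by
    apply hlim2.eventually_le_const
    have := P.E.hc4
    positivity
  obtain ⟨k0, hk0⟩ := Filter.eventually_atTop.mp (ev1.and ev2)
  set bd : ℕ → ℝ := fun k => 1664 * R ^ 3 * (768 * R * (12 * c * P.CA) ^ c * (2 ^ k * r k ^ (c + 2)) +
        48 * 2 ^ c * (16 * R) * (Z ^ 2 * P.b k)) with hbd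
  have hbsum : Summable bd := by
    have h1 := (hsum.mul_left (768 * R * (12 * c * P.CA) ^ c)).add
      ((P.summable_b.mul_left (Z ^ 2)).mul_left (48 * 2 ^ c * (16 * R)))
    exact h1.mul_left _
  have hbs := (summable_nat_add_iff k0).mpr hbsum
  have hne : (∑' k, volume (Near P.E.α P.E.β P.E.γ x0 1 (r (k + k0)) (P.CA * r (k + k0)) (k + k0)))
      ≠ ⊤ := by
    refine ne_top_of_le_ne_top hbs.tsum_ofReal_ne_top (ENNReal.tsum_le_tsum fun k => ?_)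
    obtain ⟨h1, h2⟩ := hk0 (k + k0) (by omega)
    exact P.conv_scale hZ hR1 hxa hxb hxc (hr _) h1 (hr2 _) h2 (hζ _)
  have hae := ae_eventually_notMem (μ := volume) hne
  have hae2 := ae_restrict_of_ae (s := Metric.closedBall x0 1) hae
  filter_upwards [hae2, ae_restrict_mem Metric.isClosed_closedBall.measurableSet] with x hx hxB
  obtain ⟨k1, hk1⟩ := Filter.eventually_atTop.mp hx
  rw [Filter.eventually_atTop]
  refine ⟨k1 + k0, fun k hk q hq1 hq2 hcon => ?_⟩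
  obtain ⟨m, rfl⟩ : ∃ m, k = m + k0 := ⟨k - k0, by omega⟩
  apply hk1 m (by omega)
  refine ⟨hxB, q, round ((q:ℝ) * x.1), round ((q:ℝ) * x.2), by exact_mod_cast hq1,
    by exact_mod_cast hq2, ?_, ?_, ?_⟩
  · push_cast; exact hcon.1.le
  · push_cast; exact hcon.2.1.le
  · apply P.sol_of_approx (x := x) (s := r (m + k0))
    · push_cast; exact hcon.1.le
    · push_cast; exact hcon.2.1.le
    · intro l; push_cast; exact (hcon.2.2 l).le
    · exact le_rfl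

end Par

end KT582
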