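import Pool.Agent.Lib.MP_582f03_nt.LargeSieve

/-!
# The counting lemma

From a lower bound (`PropP`) for `nd (h · α)` for integer vectors `h`, we deduce an upper bound for
the number of integers `q` in an interval with `q α` close to a given point modulo one.
-/

namespace KT582

open Finset

lemma card_le_of_separated {ι : Type*} (s : Finset ι) (t : ι → ℝ) (a L δ : ℝ) (hδ : 0 < δ)
    (hL : 0 ≤ L) (ht : ∀ x ∈ s, a ≤ t x ∧ t x ≤ a + L)
    (hsep : ∀ x ∈ s, ∀ y ∈ s, x ≠ y → δ ≤ |t x - t y|) : (s.card : ℝ) ≤ L / δ + 1 := by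
  classical
  have hmaps : Set.MapsTo (fun x => ⌊(t x - a) / δ⌋₊) s (range (⌊L / δ⌋₊ + 1)) := by
    intro x hx
    simp only [coe_range, Set.mem_Iio]
    rw [Nat.lt_succ_iff]
    apply Nat.floor_le_floor
    have := ht x hx
    gcongr
    linarith
  have hinj : Set.InjOn (fun x => ⌊(t x - a) / δ⌋₊) s := by
    intro x hx y hy hxy
    by_contra hne
    have h1 := hsep x hx y hy hne
    have hx1 := ht x hx
    have hy1 := ht y hy
    have h2 : 0 ≤ (t x - a) / δ := div_nonneg (by linarith) hδ.le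
    have h3 : 0 ≤ (t y - a) / δ := div_nonneg (by linarith) hδ.le
    have h4 := Nat.floor_le h2
    have h5 := Nat.lt_floor_add_one ((t x - a) / δ)
    have h6 := Nat.floor_le h3
    have h7 := Nat.lt_floor_add_one ((t y - a) / δ)
    simp only at hxy
    rw [hxy] at h4 h5
    have h8 : |(t x - a) / δ - (t y - a) / δ| < 1 := by
      rw [abs_lt]; constructor <;> linarith
    have h9 : (t x - a) / δ - (t y - a) / δ = (t x - t y) / δ := by ring
    rw [h9, abs_div, abs_of_pos hδ, div_lt_one hδ] at h8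
    linarith
  have := Finset.card_le_card_of_injOn _ hmaps hinj
  rw [card_range] at this
  calc (s.card : ℝ) ≤ ((⌊L / δ⌋₊ + 1 : ℕ) : ℝ) := by exact_mod_cast this
    _ = (⌊L / δ⌋₊ : ℝ) + 1 := by push_cast; ring
    _ ≤ L / δ + 1 := by
      have := Nat.floor_le (div_nonneg hL hδ.le)
      linarith

lemma card_le_of_packing {c K T : ℕ} (hT : 1 ≤ T) (s : Finset (Fin c → ℤ)) (hs : s ⊆ boxK c K)
    (hsep : ∀ x ∈ s, ∀ y ∈ s, x ≠ y → (T : ℝ) ≤ ‖x - y‖) : (s.card : ℝ) ≤ ((K:ℝ) / T + 1) ^ c := by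
  classical
  have hT' : (0:ℝ) < T := by exact_mod_cast hT
  have hTz : (0:ℤ) < T := by exact_mod_cast hT
  have hmaps : Set.MapsTo (fun x : Fin c → ℤ => fun j => x j / (T:ℤ)) s
      (Fintype.piFinset (fun _ : Fin c => Finset.Ico (0:ℤ) (K / T + 1 : ℕ)) : Finset (Fin c → ℤ)) := by
    intro x hx
    have hx' := mem_boxK.mp (hs hx)
    simp only [Finset.mem_coe, Fintype.mem_piFinset, Finset.mem_Ico]
    intro j
    refine ⟨Int.ediv_nonneg (hx' j).1 hTz.le, ?_⟩
    push_cast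
    have h1 : x j / (T:ℤ) ≤ (K:ℤ) / T := Int.ediv_le_ediv hTz (hx' j).2.le
    omega
  have hinj : Set.InjOn (fun x : Fin c → ℤ => fun j => x j / (T:ℤ)) s := by
    intro x hx y hy hxy
    by_contra hne
    have h1 := hsep x hx y hy hne
    have h2 : ‖x - y‖ < T := by
      rw [pi_norm_lt_iff hT']
      intro j
      have h3 := congrFun hxy j
      simp only at h3
      have h4 := Int.emod_add_mul_ediv (x j) T
      have h5 := Int.emod_add_mul_ediv (y j) T
      have h6 := Int.emod_nonneg (x j) hTz.ne'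
      have h7 := Int.emod_lt_of_pos (x j) hTz
      have h8 := Int.emod_nonneg (y j) hTz.ne'
      have h9 := Int.emod_lt_of_pos (y j) hTz
      rw [h3] at h4
      have h10 : |x j - y j| < (T:ℤ) := by
        rw [abs_lt]; constructor <;> linarith
      rw [Pi.sub_apply, Int.norm_eq_abs]
      exact_mod_cast h10
    linarith
  have := Finset.card_le_card_of_injOn _ hmaps hinj
  rw [Fintype.card_piFinset] at this
  simp only [Int.card_Ico, sub_zero, Int.toNat_natCast, prod_const, card_univ,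
    Fintype.card_fin] at this
  calc (s.card : ℝ) ≤ (((K / T + 1) ^ c : ℕ) : ℝ) := by exact_mod_cast this
    _ = (((K / T : ℕ) : ℝ) + 1) ^ c := by push_cast; ring
    _ ≤ ((K:ℝ) / T + 1) ^ c := by
      have : ((K / T : ℕ) : ℝ) ≤ (K:ℝ) / T := Nat.cast_div_le
      gcongr

/-- The Diophantine property of the row `α`. -/
def PropP (c : ℕ) (α : Fin c → ℝ) (T : ℕ → ℕ) (κ : ℕ → ℝ) (c4 : ℝ) : Prop :=
  ∀ h : Fin c → ℤ, h ≠ 0 →
    c4 ≤ ‖h‖ ^ (c + 1) * nd (dotp h α) ∨
      ∃ i, (T i : ℝ) ≤ ‖h‖ ∧ ‖h‖ < (T i : ℝ) ^ 2 ∧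
        1 ≤ κ i * (T i : ℝ) ^ 2 * ‖h‖ ^ c * nd (dotp h α)

lemma norm_sub_lt_of_mem_boxK {c K : ℕ} (hK : 1 ≤ K) {x y : Fin c → ℤ} (hx : x ∈ boxK c K)
    (hy : y ∈ boxK c K) : ‖x - y‖ < K := by
  have hK' : (0:ℝ) < K := by exact_mod_cast hK
  rw [pi_norm_lt_iff hK']
  intro j
  rw [mem_boxK] at hx hy
  rw [Pi.sub_apply, Int.norm_eq_abs]
  have h1 := hx j
  have h2 := hy j
  have h10 : |x j - y j| < (K:ℤ) := by
    rw [abs_lt]; constructor <;> linarith
  exact_mod_cast h10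

/-- A pair of distinct points of the box with close values forces `K` to be in a window. -/
lemma window_of_close {c : ℕ} {α : Fin c → ℝ} {T : ℕ → ℕ} {κ : ℕ → ℝ} {c4 : ℝ}
    (hP : PropP c α T κ c4) (hκ : ∀ i, κ i ≤ 1) (hκ0 : ∀ i, 0 ≤ κ i) {K N : ℕ} (hK : 1 ≤ K)
    (hKN : (K:ℝ) ^ (c + 1) ≤ c4 * N) (hc4 : c4 ≤ 1) (hN : 1 ≤ N)
    {x y : Fin c → ℤ} (hx : x ∈ boxK c K) (hy : y ∈ boxK c K) (hne : x ≠ y)
    (hclose : nd (dotp x α - dotp y α) * (2 * N) < 1) :
    ∃ i, (T i : ℝ) ≤ ‖x - y‖ ∧ (T i : ℝ) < K ∧ (K:ℝ) ≤ (T i : ℝ) ^ 2 ∧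
      1 ≤ κ i * (T i : ℝ) ^ 2 * (K:ℝ) ^ c * nd (dotp x α - dotp y α) := by
  have hN' : (1:ℝ) ≤ N := by exact_mod_cast hN
  have hd := norm_sub_lt_of_mem_boxK hK hx hy
  have hd0 : 0 ≤ ‖x - y‖ := norm_nonneg _
  have hnd0 := nd_nonneg (dotp x α - dotp y α)
  rcases hP (x - y) (sub_ne_zero.mpr hne) with h | ⟨i, h1, h2, h3⟩
  · exfalso
    rw [dotp_sub] at h
    have h4 : ‖x - y‖ ^ (c + 1) ≤ (K:ℝ) ^ (c + 1) := pow_le_pow_left₀ hd0 hd.le _
    have h5 : ‖x - y‖ ^ (c + 1) * nd (dotp x α - dotp y α) ≤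
        c4 * N * nd (dotp x α - dotp y α) := by
      apply mul_le_mul_of_nonneg_right (h4.trans hKN) hnd0
    have hK1 : (1:ℝ) ≤ (K:ℝ) ^ (c + 1) := one_le_pow₀ (by exact_mod_cast hK)
    have hc40 : 0 < c4 := by
      by_contra hcon
      push Not at hcon
      nlinarith
    nlinarith
  · rw [dotp_sub] at h3
    refine ⟨i, h1, lt_of_le_of_lt h1 hd, ?_, ?_⟩
    · -- K ≤ T^2
      by_contra hcon
      push Not at hcon
      have hT0 : (0:ℝ) ≤ T i := by positivity
      have h4 : ‖x - y‖ ^ c ≤ ((T i : ℝ) ^ 2) ^ c := pow_le_pow_left₀ hd0 h2.le _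
      have h5 : κ i * (T i : ℝ) ^ 2 * ‖x - y‖ ^ c ≤ ((T i : ℝ) ^ 2) ^ (c + 1) := by
        calc κ i * (T i : ℝ) ^ 2 * ‖x - y‖ ^ c ≤ 1 * (T i : ℝ) ^ 2 * ((T i : ℝ) ^ 2) ^ c := by
              gcongr
              exact hκ i
          _ = _ := by ring
      have h6 : ((T i : ℝ) ^ 2) ^ (c + 1) ≤ (K:ℝ) ^ (c + 1) :=
        pow_le_pow_left₀ (by positivity) hcon.le _
      have h7 : κ i * (T i : ℝ) ^ 2 * ‖x - y‖ ^ c * nd (dotp x α - dotp y α)
          ≤ N * nd (dotp x α - dotp y α) := by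
        apply mul_le_mul_of_nonneg_right _ hnd0
        calc _ ≤ _ := h5.trans h6
          _ ≤ c4 * N := hKN
          _ ≤ 1 * N := by gcongr
          _ = N := one_mul _
      nlinarith
    · refine h3.trans ?_
      have := hκ0 i
      gcongr

theorem counting {c : ℕ} {α : Fin c → ℝ} {T : ℕ → ℕ} {κ : ℕ → ℝ} {c4 : ℝ}
    (hP : PropP c α T κ c4) (hκ : ∀ i, κ i ≤ 1) (hκ0 : ∀ i, 0 < κ i) (hc4 : c4 ≤ 1)
    (hT1 : ∀ i, 1 ≤ T i) (hTT : ∀ i, T i ^ 2 ≤ T (i + 1))
    {K N : ℕ} (hK : 1 ≤ K) (hN : 1 ≤ N) (hKN : (K:ℝ) ^ (c + 1) ≤ c4 * N)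
    (θ : Fin c → ℝ) (I : Finset ℤ) (q1 : ℤ) (hI : ∀ q ∈ I, |q - q1| ≤ N)
    (hθ : ∀ q ∈ I, ∀ j, nd (q * α j - θ j) * (6 * c * K) ≤ 1) :
    (I.card : ℝ) ≤ 48 * N / K ^ c ∨
      ∃ i, (T i : ℝ) < K ∧ (K:ℝ) ≤ (T i : ℝ) ^ 2 ∧
        (I.card : ℝ) ≤ 48 * N / K ^ c + 24 * (κ i * (T i : ℝ) ^ 2) ∧
        (I.card : ℝ) ≤ 48 * 2 ^ c * N / (T i : ℝ) ^ c := by
  classical
  have hN' : (1:ℝ) ≤ N := by exact_mod_cast hN
  have hK' : (1:ℝ) ≤ K := by exact_mod_cast hK
  have hKc : (0:ℝ) < (K:ℝ) ^ c := by positivity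
  have hTmono : Monotone T := by
    apply monotone_nat_of_le_succ
    intro i
    calc T i ≤ T i ^ 2 := Nat.le_self_pow (by norm_num) _
      _ ≤ _ := hTT i
  -- uniqueness of the window
  have huniq : ∀ i j, (T i : ℝ) < K → (K:ℝ) ≤ (T i : ℝ) ^ 2 → (T j : ℝ) < K →
      (K:ℝ) ≤ (T j : ℝ) ^ 2 → i = j := by
    have aux : ∀ i j, i < j → (K:ℝ) ≤ (T i : ℝ) ^ 2 → (T j : ℝ) < K → False := by
      intro i j hij h1 h2
      have h3 : T i ^ 2 ≤ T j := (hTT i).trans (hTmono hij)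
      have h4 : ((T i : ℝ)) ^ 2 ≤ T j := by exact_mod_cast h3
      linarith
    intro i j h1 h2 h3 h4
    rcases lt_trichotomy i j with h | h | h
    · exact (aux i j h h2 h3).elim
    · exact h
    · exact (aux j i h h4 h1).elim
  -- cluster bound
  have hcluster : ∀ (s : Finset (Fin c → ℤ)) (t : (Fin c → ℤ) → ℝ) (a : ℝ), s ⊆ boxK c K →
      (∀ x ∈ s, a ≤ t x ∧ t x < a + 1 / (2 * N)) →
      (∀ x ∈ s, ∀ y ∈ s, nd (dotp x α - dotp y α) ≤ |t x - t y|) →
      (s.card : ℝ) ≤ 1 ∨ ∃ i, (T i : ℝ) < K ∧ (K:ℝ) ≤ (T i : ℝ) ^ 2 ∧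
        (s.card : ℝ) ≤ 1 + κ i * (T i : ℝ) ^ 2 * (K:ℝ) ^ c / (2 * N) ∧
        (s.card : ℝ) ≤ ((K:ℝ) / T i + 1) ^ c := by
    intro s t a hs ht hnd
    have hclose : ∀ x ∈ s, ∀ y ∈ s, nd (dotp x α - dotp y α) * (2 * N) < 1 := by
      intro x hx y hy
      have h1 := hnd x hx y hy
      have h2 := ht x hx
      have h3 := ht y hy
      have h4 : |t x - t y| < 1 / (2 * N) := by
        rw [abs_lt]; constructor <;> linarith
      have h5 : nd (dotp x α - dotp y α) < 1 / (2 * N) := lt_of_le_of_lt h1 h4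
      rwa [lt_div_iff₀ (by positivity)] at h5
    by_cases hcard : s.card ≤ 1
    · left; exact_mod_cast hcard
    · right
      push Not at hcard
      obtain ⟨x0, hx0, y0, hy0, hne0⟩ := Finset.one_lt_card.mp hcard
      obtain ⟨i, hi1, hi2, hi3, hi4⟩ := window_of_close hP hκ (fun i => (hκ0 i).le) hK hKN hc4 hN
        (hs hx0) (hs hy0) hne0 (hclose x0 hx0 y0 hy0)
      have hall : ∀ x ∈ s, ∀ y ∈ s, x ≠ y → (T i : ℝ) ≤ ‖x - y‖ ∧
          1 ≤ κ i * (T i : ℝ) ^ 2 * (K:ℝ) ^ c * nd (dotp x α - dotp y α) := by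
        intro x hx y hy hne
        obtain ⟨j, hj1, hj2, hj3, hj4⟩ := window_of_close hP hκ (fun i => (hκ0 i).le) hK hKN hc4
          hN (hs hx) (hs hy) hne (hclose x hx y hy)
        have := huniq i j hi2 hi3 hj2 hj3
        subst this
        exact ⟨hj1, hj4⟩
      have hTpos : (0:ℝ) < T i := by exact_mod_cast hT1 i
      have hκi := hκ0 i
      refine ⟨i, hi2, hi3, ?_, ?_⟩
      · have hpos : 0 < κ i * (T i : ℝ) ^ 2 * (K:ℝ) ^ c := by positivity
        have := card_le_of_separated s t a (1 / (2 * N)) (1 / (κ i * (T i : ℝ) ^ 2 * (K:ℝ) ^ c))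
          (by positivity) (by positivity) (fun x hx => ⟨(ht x hx).1, (ht x hx).2.le⟩)
          (fun x hx y hy hne => by
            have h1 := (hall x hx y hy hne).2
            have h2 := hnd x hx y hy
            rw [div_le_iff₀ hpos]
            calc (1:ℝ) ≤ κ i * (T i : ℝ) ^ 2 * (K:ℝ) ^ c * nd (dotp x α - dotp y α) := h1
              _ ≤ κ i * (T i : ℝ) ^ 2 * (K:ℝ) ^ c * |t x - t y| := by gcongr
              _ = _ := by ring)
        refine this.trans (le_of_eq ?_)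
        field_simp
        ring
      · exact card_le_of_packing (hT1 i) s hs (fun x hx y hy hne => (hall x hx y hy hne).1)
  -- the bound for the classes
  have hclass : ∀ h0 ∈ boxK c K, ∀ m : ℕ,
      (((boxK c K).filter (fun h => ⌊2 * N * nd (dotp h0 α - dotp h α)⌋₊ = m)).card : ℝ) ≤ 2 ∨
      ∃ i, (T i : ℝ) < K ∧ (K:ℝ) ≤ (T i : ℝ) ^ 2 ∧
      (((boxK c K).filter (fun h => ⌊2 * N * nd (dotp h0 α - dotp h α)⌋₊ = m)).card : ℝ)
        ≤ 2 * (1 + κ i * (T i : ℝ) ^ 2 * (K:ℝ) ^ c / (2 * N)) ∧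
      (((boxK c K).filter (fun h => ⌊2 * N * nd (dotp h0 α - dotp h α)⌋₊ = m)).card : ℝ)
        ≤ 2 * ((K:ℝ) / T i + 1) ^ c := by
    intro h0 _ m
    set s := (boxK c K).filter (fun h => ⌊2 * N * nd (dotp h0 α - dotp h α)⌋₊ = m) with hs
    set t : (Fin c → ℤ) → ℝ := fun h =>
      (dotp h0 α - dotp h α) - round (dotp h0 α - dotp h α) with ht
    have habs : ∀ h ∈ s, (m:ℝ) / (2 * N) ≤ |t h| ∧ |t h| < (m:ℝ) / (2 * N) + 1 / (2 * N) := by
      intro h hh
      rw [hs, mem_filter] at hh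
      have h1 : nd (dotp h0 α - dotp h α) = |t h| := rfl
      have h2 := hh.2
      rw [h1] at h2
      have h3 := Nat.floor_le (by positivity : 0 ≤ 2 * (N:ℝ) * |t h|)
      have h4 := Nat.lt_floor_add_one (2 * (N:ℝ) * |t h|)
      rw [h2] at h3 h4
      constructor
      · rw [div_le_iff₀ (by positivity)]; linarith
      · rw [← add_div, lt_div_iff₀ (by positivity)]; linarith
    have hndt : ∀ x y, nd (dotp x α - dotp y α) ≤ |t x - t y| := by
      intro x y
      have h1 := nd_le_abs_sub (dotp x α - dotp y α)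
        (round (dotp h0 α - dotp y α) - round (dotp h0 α - dotp x α))
      refine h1.trans (le_of_eq ?_)
      rw [ht, abs_sub_comm]
      simp only
      congr 1
      push_cast
      ring
    set s1 := s.filter (fun h => 0 ≤ t h) with hs1
    set s2 := s.filter (fun h => ¬ (0 ≤ t h)) with hs2
    have hcard : s.card = s1.card + s2.card := (Finset.card_filter_add_card_filter_not _).symm
    have hsub : s ⊆ boxK c K := Finset.filter_subset _ _
    have c1 := hcluster s1 t ((m:ℝ) / (2 * N)) ((Finset.filter_subset _ _).trans hsub)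
      (by
        intro x hx
        rw [hs1, mem_filter] at hx
        have := habs x hx.1
        rwa [abs_of_nonneg hx.2] at this)
      (fun x _ y _ => hndt x y)
    have c2 := hcluster s2 (fun x => - t x) ((m:ℝ) / (2 * N)) ((Finset.filter_subset _ _).trans hsub)
      (by
        intro x hx
        rw [hs2, mem_filter] at hx
        have := habs x hx.1
        rwa [abs_of_neg (by push Not at hx; exact hx.2)] at this)
      (fun x _ y _ => by
        have := hndt x y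
        rwa [show -t x - -t y = -(t x - t y) by ring, abs_neg])
    rw [hcard]
    push_cast
    have one_le : ∀ i, (1:ℝ) ≤ ((K:ℝ) / T i + 1) ^ c := fun i => one_le_pow₀ (by
      have : 0 ≤ (K:ℝ) / T i := by positivity
      linarith)
    have one_le' : ∀ i, (1:ℝ) ≤ 1 + κ i * (T i : ℝ) ^ 2 * (K:ℝ) ^ c / (2 * N) := fun i => by
      have := hκ0 i
      have : 0 ≤ κ i * (T i : ℝ) ^ 2 * (K:ℝ) ^ c / (2 * N) := by positivity
      linarith
    rcases c1 with c1 | ⟨i, i1, i2, i3, i4⟩ <;> rcases c2 with c2 | ⟨j, j1, j2, j3, j4⟩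
    · left; linarith
    · right; exact ⟨j, j1, j2, by linarith [one_le' j], by linarith [one_le j]⟩
    · right; exact ⟨i, i1, i2, by linarith [one_le' i], by linarith [one_le i]⟩
    · have := huniq i j i1 i2 j1 j2
      subst this
      right; exact ⟨i, i1, i2, by linarith, by linarith⟩
  by_cases hwin : ∃ i, (T i : ℝ) < K ∧ (K:ℝ) ≤ (T i : ℝ) ^ 2
  · right
    obtain ⟨i, hi1, hi2⟩ := hwin
    have hTpos : (0:ℝ) < T i := by exact_mod_cast hT1 i
    have hκi := hκ0 i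
    refine ⟨i, hi1, hi2, ?_, ?_⟩
    · have h1 := sieve_count hK hN α θ I q1 hI hθ
        (2 * (1 + κ i * (T i : ℝ) ^ 2 * (K:ℝ) ^ c / (2 * N))) (by
          intro h0 hh0 m
          rcases hclass h0 hh0 m with h | ⟨j, j1, j2, j3, j4⟩
          · refine h.trans ?_
            have : 0 ≤ κ i * (T i : ℝ) ^ 2 * (K:ℝ) ^ c / (2 * N) := by positivity
            linarith
          · have := huniq i j hi1 hi2 j1 j2
            subst this
            exact j3)
      have h2 : 24 * (N:ℝ) * (2 * (1 + κ i * (T i : ℝ) ^ 2 * (K:ℝ) ^ c / (2 * N)))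
          = (48 * N / K ^ c + 24 * (κ i * (T i : ℝ) ^ 2)) * K ^ c := by
        field_simp
        ring
      rw [h2] at h1
      exact le_of_mul_le_mul_right h1 hKc
    · have h1 := sieve_count hK hN α θ I q1 hI hθ (2 * ((K:ℝ) / T i + 1) ^ c) (by
          intro h0 hh0 m
          rcases hclass h0 hh0 m with h | ⟨j, j1, j2, j3, j4⟩
          · refine h.trans ?_
            have : (1:ℝ) ≤ ((K:ℝ) / T i + 1) ^ c := one_le_pow₀ (by
              have : 0 ≤ (K:ℝ) / T i := by positivity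
              linarith)
            linarith
          · have := huniq i j hi1 hi2 j1 j2
            subst this
            exact j4)
      have h3 : ((K:ℝ) / T i + 1) ^ c ≤ 2 ^ c * K ^ c / (T i : ℝ) ^ c := by
        rw [← mul_pow, ← div_pow]
        apply pow_le_pow_left₀ (by positivity)
        rw [div_add_one hTpos.ne', div_le_div_iff_of_pos_right hTpos]
        linarith
      have h4 : (I.card : ℝ) * K ^ c ≤ (48 * 2 ^ c * N / (T i : ℝ) ^ c) * K ^ c := by
        refine h1.trans ?_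
        calc 24 * (N:ℝ) * (2 * ((K:ℝ) / T i + 1) ^ c)
            ≤ 24 * (N:ℝ) * (2 * (2 ^ c * K ^ c / (T i : ℝ) ^ c)) := by gcongr
          _ = _ := by ring
      exact le_of_mul_le_mul_right h4 hKc
  · left
    have h1 := sieve_count hK hN α θ I q1 hI hθ 2 (by
      intro h0 hh0 m
      rcases hclass h0 hh0 m with h | ⟨j, j1, j2, j3, j4⟩
      · exact h
      · exact (hwin ⟨j, j1, j2⟩).elim)
    rw [le_div_iff₀ hKc]
    linarith

end KT582
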