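import Pool.Agent.Lib.MP_582f03_nt.Rows

/-!
# The curve which is not of Khintchine type for convergence
-/

set_option maxHeartbeats 400000

namespace KT582

open Finset

lemma curve_pigeon {c : ℕ} (p : Fin c → ℕ) (k kb kc : Fin c → ℤ) (hp : ∀ j, 0 < p j) (m : ℕ)
    (hm : 0 < m) (x x' C : ℝ) (hkb : ∀ j, |pt p kb j| ≤ C) (hkc : ∀ j, |pt p kc j| ≤ C) :
    ∃ q : ℕ, 0 < q ∧ q ≤ (∏ j, p j) * m ^ 2 ∧ nd (q * x) < 1 / m ∧ nd (q * x') < 1 / m ∧
      ∀ j, nd (q * (pt p k j + x * pt p kb j + x' * pt p kc j)) ≤ 2 * C / m := by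
  classical
  have hm' : (0:ℝ) < m := by exact_mod_cast hm
  set v : ℕ → Fin c → ℤ := fun q j => (q * k j + ⌊(q:ℝ) * x⌋ * kb j + ⌊(q:ℝ) * x'⌋ * kc j) % (p j : ℤ)
    with hv
  set F : ℕ → (Fin c → ℤ) × ℤ × ℤ := fun q =>
    (v q, ⌊(m:ℝ) * Int.fract ((q:ℝ) * x)⌋, ⌊(m:ℝ) * Int.fract ((q:ℝ) * x')⌋) with hF
  set tgt : Finset ((Fin c → ℤ) × ℤ × ℤ) :=
    (Fintype.piFinset (fun j => Finset.Ico (0:ℤ) (p j))) ×ˢ (Finset.Ico (0:ℤ) m) ×ˢ
      (Finset.Ico (0:ℤ) m) with htgt
  have hcard : tgt.card = (∏ j, p j) * m ^ 2 := by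
    rw [htgt, Finset.card_product, Finset.card_product, Fintype.card_piFinset]
    simp [sq]
  have hfl : ∀ z : ℝ, ⌊(m:ℝ) * Int.fract z⌋ ∈ Finset.Ico (0:ℤ) m := by
    intro z
    rw [Finset.mem_Ico]
    constructor
    · apply Int.floor_nonneg.mpr
      have := Int.fract_nonneg z
      positivity
    · rw [Int.floor_lt]
      have := Int.fract_lt_one z
      push_cast
      nlinarith
  have hmaps : ∀ q ∈ Finset.range ((∏ j, p j) * m ^ 2 + 1), F q ∈ tgt := by
    intro q _
    rw [htgt, hF]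
    simp only [Finset.mem_product, Fintype.mem_piFinset]
    refine ⟨?_, hfl _, hfl _⟩
    intro j
    have : (p j : ℤ) ≠ 0 := by have := hp j; omega
    rw [Finset.mem_Ico]
    exact ⟨Int.emod_nonneg _ this, Int.emod_lt_of_pos _ (by have := hp j; omega)⟩
  obtain ⟨q1, hq1, q2, hq2, hne, heq⟩ := Finset.exists_ne_map_eq_of_card_lt_of_maps_to
    (by rw [Finset.card_range, hcard]; omega) hmaps
  wlog hlt : q1 < q2 generalizing q1 q2
  · exact this q2 hq2 q1 hq1 hne.symm heq.symm (by omega)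
  have hfr : ∀ z w : ℝ, ⌊(m:ℝ) * Int.fract z⌋ = ⌊(m:ℝ) * Int.fract w⌋ →
      |(w - z) - ((⌊w⌋ - ⌊z⌋ : ℤ) : ℝ)| < 1 / m := by
    intro z w h
    have h1 := Int.floor_le ((m:ℝ) * Int.fract z)
    have h2 := Int.lt_floor_add_one ((m:ℝ) * Int.fract z)
    have h3 := Int.floor_le ((m:ℝ) * Int.fract w)
    have h4 := Int.lt_floor_add_one ((m:ℝ) * Int.fract w)
    rw [h] at h1 h2
    have h5 : (w - z) - ((⌊w⌋ - ⌊z⌋ : ℤ) : ℝ) = Int.fract w - Int.fract z := by
      push_cast
      rw [Int.fract, Int.fract]; ring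
    have h6 : |Int.fract w - Int.fract z| * m = |(Int.fract w - Int.fract z) * m| := by
      rw [abs_mul, abs_of_pos hm']
    rw [h5, lt_div_iff₀ hm', h6, abs_lt]
    constructor <;> linarith
  simp only [hF, Prod.mk.injEq] at heq
  obtain ⟨he1, he2, he3⟩ := heq
  have hd1 := hfr _ _ he2
  have hd2 := hfr _ _ he3
  have hqcast : ((q2 - q1 : ℕ) : ℝ) = (q2:ℝ) - q1 := by
    rw [Nat.cast_sub hlt.le]
  have hx1 : (q2:ℝ) * x - q1 * x = ((q2 - q1 : ℕ) : ℝ) * x := by rw [hqcast]; ring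
  have hx2 : (q2:ℝ) * x' - q1 * x' = ((q2 - q1 : ℕ) : ℝ) * x' := by rw [hqcast]; ring
  rw [hx1] at hd1
  rw [hx2] at hd2
  refine ⟨q2 - q1, by omega, ?_, (nd_le_abs_sub _ _).trans_lt hd1,
    (nd_le_abs_sub _ _).trans_lt hd2, ?_⟩
  · have := Finset.mem_range.mp hq2
    omega
  · intro j
    have hpj : (0:ℝ) < p j := by exact_mod_cast hp j
    set a1 : ℤ := ⌊(q2:ℝ) * x⌋ - ⌊(q1:ℝ) * x⌋ with ha1
    set a2 : ℤ := ⌊(q2:ℝ) * x'⌋ - ⌊(q1:ℝ) * x'⌋ with ha2
    have hdvd : (p j : ℤ) ∣ ((q2:ℤ) - q1) * k j + a1 * kb j + a2 * kc j := by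
      have h1 := congrFun he1 j
      simp only [hv] at h1
      have h3 := (Int.emod_eq_emod_iff_emod_sub_eq_zero.mp h1)
      have h4 := Int.dvd_of_emod_eq_zero h3
      have h5 := (dvd_neg.mpr h4)
      have h6 : ((q2:ℤ) - q1) * k j + a1 * kb j + a2 * kc j =
          -(↑q1 * k j + ⌊(q1:ℝ) * x⌋ * kb j + ⌊(q1:ℝ) * x'⌋ * kc j -
            (↑q2 * k j + ⌊(q2:ℝ) * x⌋ * kb j + ⌊(q2:ℝ) * x'⌋ * kc j)) := by
        rw [ha1, ha2]; ring
      rw [h6]
      exact h5
    obtain ⟨z, hz⟩ := hdvd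
    have hz' : (((q2:ℝ) - q1) * k j + a1 * kb j + a2 * kc j) = p j * z := by exact_mod_cast hz
    have hkey : ((q2 - q1 : ℕ) : ℝ) * (pt p k j + x * pt p kb j + x' * pt p kc j) - z =
        (((q2 - q1 : ℕ) : ℝ) * x - a1) * pt p kb j + (((q2 - q1 : ℕ) : ℝ) * x' - a2) * pt p kc j := by
      have : (z:ℝ) = (((q2:ℝ) - q1) * k j + a1 * kb j + a2 * kc j) / p j := by
        rw [hz']; field_simp
      rw [this, hqcast, pt, pt, pt]
      field_simp
      ring
    refine (nd_le_abs_sub _ z).trans ?_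
    rw [hkey]
    refine (abs_add_le _ _).trans ?_
    rw [abs_mul, abs_mul]
    have hC : 0 ≤ C := (abs_nonneg _).trans (hkb j)
    calc _ ≤ 1 / (m:ℝ) * C + 1 / (m:ℝ) * C := by
          gcongr
          · exact hkb j
          · exact hkc j
      _ = _ := by ring


theorem curve_bad {c : ℕ} (hc : 0 < c) {κ u : ℕ → ℝ} (E : Constr c κ u) (hκ : ∀ i, 0 < κ i)
    (w : ℕ → ℝ) (hw1 : ∀ i, 1 ≤ w i) (hwm : Monotone w)
    (hwκ : ∀ i, w i ^ 3 ≤ κ i * (i + 1) ^ 2) (hws : Summable fun i => 1 / w i ^ c) :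
    ∃ ψ : ℕ → ℝ, (∀ q, 0 < ψ q) ∧ Antitone ψ ∧ Summable (fun q => ψ q ^ (c + 2)) ∧
      ∀ x : ℝ, 1 ≤ x → x ≤ 2 → (∃ᶠ i in Filter.atTop, |x - u i| ≤ 2 / ((i:ℕ) + 1)) →
        ∃ᶠ q in Filter.atTop, nd ((q:ℕ) * x) < ψ q ∧ nd (q * x ^ 2) < ψ q ∧
          ∀ j, nd (q * (E.α j + x * E.β j + x ^ 2 * E.γ j)) < ψ q := by
  classical
  have hTpos : ∀ i, (0:ℝ) < 2 ^ E.t i := fun i => by positivity
  have htm : Monotone E.t := by
    apply monotone_nat_of_le_succ
    intro i
    have := E.ht i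
    omega
  set m : ℕ → ℕ := fun i => ⌈(2:ℝ) ^ E.t i * w i⌉₊ with hm
  have hm1 : ∀ i, (2:ℝ) ^ E.t i * w i ≤ m i := fun i => Nat.le_ceil _
  have hTw : ∀ i, 1 ≤ (2:ℝ) ^ E.t i * w i := by
    intro i
    have h1 : (1:ℝ) ≤ 2 ^ E.t i := one_le_pow₀ (by norm_num)
    have h2 := hw1 i
    nlinarith
  have hm2 : ∀ i, (m i : ℝ) ≤ 2 * ((2:ℝ) ^ E.t i * w i) := by
    intro i
    have h1 := hTw i
    have h2 := Nat.ceil_lt_add_one (by linarith : 0 ≤ (2:ℝ) ^ E.t i * w i)
    simp only [hm]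
    linarith
  have hmpos : ∀ i, (0:ℝ) < m i := fun i => by linarith [hm1 i, hTw i]
  have hmpos' : ∀ i, 0 < m i := fun i => by exact_mod_cast hmpos i
  have hmmono : Monotone m := by
    intro i j hij
    simp only [hm]
    apply Nat.ceil_mono
    have h1 := hwm hij
    have h2 : (2:ℝ) ^ E.t i ≤ 2 ^ E.t j := by
      gcongr
      · norm_num
      · exact htm hij
    have := hw1 i
    gcongr
  set C3 : ℝ := E.C * (3 + 8 * 2 ^ (c * c)) with hC3
  have hCE := E.hC
  have hC3pos : 1 ≤ C3 := by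
    rw [hC3]
    have : (0:ℝ) < 2 ^ (c * c) := by positivity
    nlinarith
  set Q : ℕ → ℕ := fun i => 2 ^ (c * c) * (2 ^ E.t i) ^ c * m i ^ 2 with hQ
  have hQge : ∀ i, i ≤ Q i := by
    intro i
    have h1 : i ≤ 2 ^ E.t i := (E.hti i).trans (Nat.lt_two_pow_self).le
    have h2 : 2 ^ E.t i ≤ (2 ^ E.t i) ^ c := Nat.le_self_pow (by omega) _
    have h3 : 1 ≤ 2 ^ (c * c) := Nat.one_le_two_pow
    have h4 : 1 ≤ m i ^ 2 := Nat.one_le_pow _ _ (hmpos' i)
    calc i ≤ 1 * (2 ^ E.t i) ^ c * 1 := by omega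
      _ ≤ 2 ^ (c * c) * (2 ^ E.t i) ^ c * m i ^ 2 := by gcongr
  have hex : ∀ q : ℕ, ∃ i, q ≤ Q i := fun q => ⟨q, hQge q⟩
  set I : ℕ → ℕ := fun q => Nat.find (hex q) with hI
  have hI1 : ∀ q, q ≤ Q (I q) := fun q => Nat.find_spec (hex q)
  have hI2 : ∀ q i, q ≤ Q i → I q ≤ i := fun q i h => Nat.find_min' (hex q) h
  refine ⟨fun q => C3 / m (I q), ?_, ?_, ?_, ?_⟩
  · intro q
    have := hmpos (I q)
    positivity
  · intro q q' hqq
    have h1 : I q ≤ I q' := hI2 q (I q') (hqq.trans (hI1 q'))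
    have h2 : (m (I q) : ℝ) ≤ m (I q') := by exact_mod_cast hmmono h1
    have := hmpos (I q)
    exact div_le_div_of_nonneg_left (by linarith) this h2
  · -- summability
    have hQb : ∀ i, ((Q i : ℝ) + 1) * (C3 / m i) ^ (c + 2) ≤
        2 * 2 ^ (c * c) * C3 ^ (c + 2) * (1 / w i ^ c) := by
      intro i
      have h1 : (1:ℝ) ≤ Q i := by
        have h2 : 1 ≤ Q i := by
          have : 0 < Q i := by
            simp only [hQ]
            have := hmpos' i
            positivity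
          omega
        exact_mod_cast h2
      have h3 := hmpos i
      have h4 := hTpos i
      have h5 := hw1 i
      calc ((Q i : ℝ) + 1) * (C3 / m i) ^ (c + 2) ≤ (2 * Q i) * (C3 / m i) ^ (c + 2) := by
            gcongr
            linarith
        _ = 2 * 2 ^ (c * c) * C3 ^ (c + 2) * ((2 ^ E.t i) ^ c / (m i : ℝ) ^ c) := by
            simp only [hQ]
            push_cast
            rw [div_pow]
            field_simp
            ring
        _ ≤ 2 * 2 ^ (c * c) * C3 ^ (c + 2) * (1 / w i ^ c) := by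
            apply mul_le_mul_of_nonneg_left _ (by positivity)
            rw [div_le_div_iff₀ (by positivity) (by positivity), one_mul, ← mul_pow]
            gcongr
            exact hm1 i
    have hsum : Summable fun i => ((Q i : ℝ) + 1) * (C3 / m i) ^ (c + 2) := by
      refine Summable.of_nonneg_of_le (fun i => ?_) hQb (hws.mul_left _)
      have := hmpos i
      positivity
    apply summable_of_sum_le (c := ∑' i, ((Q i : ℝ) + 1) * (C3 / m i) ^ (c + 2))
    · intro q
      have := hmpos (I q)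
      positivity
    · intro s
      rw [Finset.sum_comp (fun i => (C3 / (m i : ℝ)) ^ (c + 2)) I]
      calc _ ≤ ∑ i ∈ s.image I, ((Q i : ℝ) + 1) * (C3 / m i) ^ (c + 2) := by
            refine Finset.sum_le_sum fun i _ => ?_
            rw [nsmul_eq_mul]
            have := hmpos i
            gcongr
            have h1 : (s.filter fun q => I q = i) ⊆ Finset.range (Q i + 1) := by
              intro q hq
              rw [Finset.mem_filter] at hq
              rw [Finset.mem_range]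
              have := hI1 q
              rw [hq.2] at this
              omega
            have h2 := Finset.card_le_card h1
            rw [Finset.card_range] at h2
            exact_mod_cast h2
        _ ≤ _ := by
            apply hsum.sum_le_tsum
            intro i _
            have := hmpos i
            positivity
  · intro x hx1 hx2 hfr
    -- good q for each good i
    have key : ∀ i : ℕ, |x - u i| ≤ 2 / ((i:ℕ) + 1) → ∃ q : ℕ, 0 < q ∧ q ≤ Q i ∧
        nd (q * x) < C3 / m i ∧ nd (q * x ^ 2) < C3 / m i ∧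
        ∀ j, nd (q * (E.α j + x * E.β j + x ^ 2 * E.γ j)) < C3 / m i := by
      intro i hi
      obtain ⟨p, k, kb, kc, hp, hpT, hkb, hkc, happ⟩ := E.appr i
      obtain ⟨q, hq0, hqle, hq1, hq2, hq3⟩ := curve_pigeon p k kb kc hp (m i) (hmpos' i) x (x ^ 2)
        E.C hkb hkc
      have hmi := hmpos i
      have hqQ : q ≤ Q i := by
        refine hqle.trans ?_
        simp only [hQ]
        apply Nat.mul_le_mul_right
        calc (∏ j, p j) ≤ ∏ _j : Fin c, (2 ^ c * 2 ^ E.t i) :=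
            Finset.prod_le_prod (fun _ _ => Nat.zero_le _) (fun j _ => hpT j)
          _ = _ := by
            rw [Finset.prod_const, Finset.card_univ, Fintype.card_fin, mul_pow, ← pow_mul]
      have h1 : 1 / (m i : ℝ) ≤ C3 / m i := by gcongr
      refine ⟨q, hq0, hqQ, hq1.trans_le h1, hq2.trans_le h1, ?_⟩
      intro j
      have h2 := happ x hx1 hx2 hi j
      have h3 := hq3 j
      set R : ℝ := pt p k j + x * pt p kb j + x ^ 2 * pt p kc j with hR
      set F : ℝ := E.α j + x * E.β j + x ^ 2 * E.γ j with hF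
      have h4 : (q:ℝ) * F = q * R + q * (F - R) := by ring
      have h5 := nd_add_le (q * R) (q * (F - R))
      have h6 := nd_le_abs ((q:ℝ) * (F - R))
      rw [abs_mul, Nat.abs_cast] at h6
      have hκi := hκ i
      have hT := hTpos i
      have hw := hw1 i
      have h7 : (q:ℝ) * |F - R| ≤ 8 * 2 ^ (c * c) * E.C / m i := by
        calc (q:ℝ) * |F - R| ≤ Q i * (E.C / (κ i * (2 ^ E.t i) ^ (c + 3) * (i + 1) ^ 2)) := by
              gcongr
          _ = 2 ^ (c * c) * E.C * ((m i : ℝ) ^ 3 / (κ i * (i + 1) ^ 2 * (2 ^ E.t i) ^ 3)) / m i := by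
              simp only [hQ]
              push_cast
              field_simp
              ring
          _ ≤ 2 ^ (c * c) * E.C * 8 / m i := by
              gcongr
              rw [div_le_iff₀ (by positivity)]
              calc (m i : ℝ) ^ 3 ≤ (2 * ((2:ℝ) ^ E.t i * w i)) ^ 3 := by
                    gcongr
                    exact hm2 i
                _ = 8 * (w i ^ 3 * (2 ^ E.t i) ^ 3) := by ring
                _ ≤ 8 * (κ i * (i + 1) ^ 2 * (2 ^ E.t i) ^ 3) := by
                    gcongr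
                    exact hwκ i
          _ = _ := by ring
      rw [h4]
      refine h5.trans_lt ?_
      calc nd (q * R) + nd (q * (F - R)) ≤ 2 * E.C / m i + 8 * 2 ^ (c * c) * E.C / m i :=
            add_le_add h3 (h6.trans h7)
        _ < C3 / m i := by
            rw [← add_div]
            gcongr
            rw [hC3]
            linarith
    have hψge : ∀ i q, q ≤ Q i → C3 / (m i : ℝ) ≤ C3 / m (I q) := by
      intro i q hq
      have h1 := hmmono (hI2 q i hq)
      have h2 := hmpos (I q)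
      have h3 : (m (I q) : ℝ) ≤ m i := by exact_mod_cast h1
      exact div_le_div_of_nonneg_left (by linarith) h2 h3
    rw [Filter.frequently_atTop]
    intro N
    by_contra hcon
    push Not at hcon
    -- all q_i are < N
    have hlt : ∃ᶠ i in Filter.atTop, ∃ q ∈ Finset.range N, 0 < q ∧
        nd ((q:ℕ) * x) < C3 / m i ∧ nd (q * x ^ 2) < C3 / m i ∧
        ∀ j, nd (q * (E.α j + x * E.β j + x ^ 2 * E.γ j)) < C3 / m i := by
      refine hfr.mono fun i hi => ?_
      obtain ⟨q, h0, h1, h2, h3, h4⟩ := key i hi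
      refine ⟨q, ?_, h0, h2, h3, h4⟩
      rw [Finset.mem_range]
      by_contra hqN
      have h5 := hψge i q h1
      obtain ⟨j, hj⟩ := hcon q (not_lt.mp hqN) (h2.trans_le h5) (h3.trans_le h5)
      exact absurd ((h4 j).trans_le h5) (not_lt.mpr hj)
    have hlim : Filter.Tendsto (fun i => C3 / (m i : ℝ)) Filter.atTop (nhds 0) := by
      apply Filter.Tendsto.div_atTop tendsto_const_nhds
      apply tendsto_natCast_atTop_atTop.comp
      apply Filter.tendsto_atTop_mono _ Filter.tendsto_id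
      intro i
      have h1 : (i:ℝ) ≤ m i := by
        refine le_trans ?_ (hm1 i)
        have h2 : (i:ℝ) ≤ 2 ^ E.t i := by
          exact_mod_cast (E.hti i).trans (Nat.lt_two_pow_self).le
        have := hw1 i
        have := hTpos i
        nlinarith
      exact_mod_cast h1
    have hex2 : ∃ q ∈ Finset.range N, ∃ᶠ i in Filter.atTop, 0 < q ∧
        nd ((q:ℕ) * x) < C3 / m i ∧ nd (q * x ^ 2) < C3 / m i ∧
        ∀ j, nd (q * (E.α j + x * E.β j + x ^ 2 * E.γ j)) < C3 / m i := by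
      by_contra hno
      have hno' : ∀ q ∈ Finset.range N, ¬ ∃ᶠ i in Filter.atTop, 0 < q ∧
        nd ((q:ℕ) * x) < C3 / m i ∧ nd (q * x ^ 2) < C3 / m i ∧
        ∀ j, nd (q * (E.α j + x * E.β j + x ^ 2 * E.γ j)) < C3 / m i := by
        intro q hq hcon2
        exact hno ⟨q, hq, hcon2⟩
      apply hlt
      have h1 : ∀ᶠ i in Filter.atTop, ∀ q ∈ Finset.range N, ¬ (0 < q ∧
        nd ((q:ℕ) * x) < C3 / m i ∧ nd (q * x ^ 2) < C3 / m i ∧
        ∀ j, nd (q * (E.α j + x * E.β j + x ^ 2 * E.γ j)) < C3 / m i) := by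
        rw [Filter.eventually_all_finset]
        intro q hq
        exact Filter.not_frequently.mp (hno' q hq)
      filter_upwards [h1] with i hi
      push Not at hi ⊢
      exact hi
    obtain ⟨q, _, hq⟩ := hex2
    obtain ⟨_, hq0, _⟩ := hq.exists
    have hzero : ∀ z : ℝ, 0 ≤ z → (∃ᶠ i in Filter.atTop, z < C3 / (m i : ℝ)) → z = 0 := by
      intro z hz hzf
      by_contra hne
      have hzpos : 0 < z := lt_of_le_of_ne hz (Ne.symm hne)
      have h1 : ∀ᶠ i in Filter.atTop, C3 / (m i : ℝ) < z := hlim.eventually_lt_const hzpos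
      obtain ⟨i, h2, h3⟩ := (hzf.and_eventually h1).exists
      linarith
    have z1 := hzero _ (nd_nonneg (q * x)) (hq.mono fun i hi => hi.2.1)
    have z2 := hzero _ (nd_nonneg (q * x ^ 2)) (hq.mono fun i hi => hi.2.2.1)
    have z3 : ∀ j, nd (q * (E.α j + x * E.β j + x ^ 2 * E.γ j)) = 0 := fun j =>
      hzero _ (nd_nonneg _) (hq.mono fun i hi => hi.2.2.2 j)
    have hmul : ∀ (z : ℝ), nd (q * z) = 0 → nd (((q * (N + 1) : ℕ) : ℝ) * z) = 0 := by
      intro z hz
      have h1 : ((q * (N + 1) : ℕ) : ℝ) * z = (((N:ℤ) + 1 : ℤ) : ℝ) * (q * z) := by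
        push_cast; ring
      have h2 := nd_int_mul_le ((N:ℤ) + 1) ((q:ℝ) * z)
      rw [hz, mul_zero, ← h1] at h2
      exact le_antisymm h2 (nd_nonneg _)
    have hqN : N ≤ q * (N + 1) := by nlinarith
    have hpos : 0 < C3 / (m (I (q * (N + 1))) : ℝ) := by
      have := hmpos (I (q * (N + 1)))
      positivity
    obtain ⟨j, hj⟩ := hcon (q * (N + 1)) hqN (by rw [hmul _ z1]; exact hpos)
      (by rw [hmul _ z2]; exact hpos)
    rw [hmul _ (z3 j)] at hj
    linarith

end KT582
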