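import Mathlib

/-!
# Khintchine type and nondegenerate submanifolds: definitions
-/

open MeasureTheory

namespace Pool.Agent.Results.MP_582f03_nt

/-- `ℝⁿ` with its Euclidean norm. -/
abbrev E (n : ℕ) : Type := EuclideanSpace ℝ (Fin n)

/-- Non-increasing functions `ψ : {1, 2, 3, …} → [0, ∞)` (the value at `0` is irrelevant). -/
def IsPsi (ψ : ℕ → ℝ) : Prop :=
  (∀ q, 1 ≤ q → 0 ≤ ψ q) ∧ ∀ p q, 1 ≤ p → p ≤ q → ψ q ≤ ψ p

/-- `x` is `ψ`-approximable: `max_i dist (q x_i, ℤ) < ψ q` for infinitely many `q ≥ 1`. -/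
def PsiApprox {n : ℕ} (ψ : ℕ → ℝ) (x : E n) : Prop :=
  {q : ℕ | 1 ≤ q ∧ ∀ i, |(q : ℝ) * x i - round ((q : ℝ) * x i)| < ψ q}.Infinite

/-- The set `M ⊆ ℝⁿ`, regarded as a `k`-dimensional object with its `k`-dimensional (Hausdorff)
measure, is of Khintchine type for convergence. -/
def KhintchineConv {n : ℕ} (k : ℕ) (M : Set (E n)) : Prop :=
  ∀ ψ : ℕ → ℝ, IsPsi ψ → Summable (fun q : ℕ => ψ (q + 1) ^ n) →
    Measure.hausdorffMeasure (k : ℝ) {x ∈ M | PsiApprox ψ x} = 0

/-- The set `M ⊆ ℝⁿ`, regarded as a `k`-dimensional object with its `k`-dimensional (Hausdorff)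
measure, is of Khintchine type for divergence. -/
def KhintchineDiv {n : ℕ} (k : ℕ) (M : Set (E n)) : Prop :=
  ∀ ψ : ℕ → ℝ, IsPsi ψ → ¬ Summable (fun q : ℕ => ψ (q + 1) ^ n) →
    Measure.hausdorffMeasure (k : ℝ) {x ∈ M | ¬ PsiApprox ψ x} = 0

/-- `M` is of Khintchine type (both for convergence and for divergence). -/
def KhintchineType {n : ℕ} (k : ℕ) (M : Set (E n)) : Prop :=
  KhintchineConv k M ∧ KhintchineDiv k M

/-- `f : U → ℝⁿ`, with `U ⊆ ℝᵏ` open, is a (smooth, regular) local parametrisation of `M`: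
a `C^∞` immersion which is injective and maps open subsets of `U` to relatively open subsets
of `M` (so that it is a homeomorphism of `U` onto a relatively open subset of `M`). -/
structure IsLocalParam {n k : ℕ} (M : Set (E n)) (U : Set (E k)) (f : E k → E n) : Prop where
  isOpen : IsOpen U
  smooth : ContDiffOn ℝ (⊤ : ℕ∞) f U
  immersion : ∀ u ∈ U, Function.Injective (fderiv ℝ f u)
  injOn : Set.InjOn f U
  isOpenMap : ∀ V ⊆ U, IsOpen V → ∃ W : Set (E n), IsOpen W ∧ f '' V = M ∩ W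

/-- `M` is a `k`-dimensional (embedded) `C^∞` submanifold of `ℝⁿ`. -/
def IsSmoothSubmanifold {n : ℕ} (k : ℕ) (M : Set (E n)) : Prop :=
  ∀ x ∈ M, ∃ (U : Set (E k)) (f : E k → E n), IsLocalParam M U f ∧ x ∈ f '' U

/-- `f` is nondegenerate at `u` in the affine subspace `L`: for some `ℓ`, the partial derivatives
of `f` at `u` of orders `1, …, ℓ` span the direction space of `L`. -/
def NondegenerateAt {n k : ℕ} (L : AffineSubspace ℝ (E n)) (f : E k → E n) (u : E k) : Prop :=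
  ∃ ℓ : ℕ, Submodule.span ℝ {y : E n | ∃ m : ℕ, 1 ≤ m ∧ m ≤ ℓ ∧
    ∃ v : Fin m → E k, y = iteratedFDeriv ℝ m f u v} = L.direction

/-- The `k`-dimensional submanifold `M ⊆ L` is nondegenerate in `L`: it admits local
parametrisations around all its points which are nondegenerate in `L` at almost every point. -/
def IsNondegenerateIn {n : ℕ} (k : ℕ) (M : Set (E n)) (L : AffineSubspace ℝ (E n)) : Prop :=
  M ⊆ (L : Set (E n)) ∧ ∀ x ∈ M, ∃ (U : Set (E k)) (f : E k → E n), IsLocalParam M U f ∧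
    x ∈ f '' U ∧ ∀ᵐ u ∂(volume.restrict U), NondegenerateAt L f u

end Pool.Agent.Results.MP_582f03_nt
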