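import Pool.Agent.Lib.MP_582f03_nt.Conv

/-!
# Dirichlet's theorem for points of the plane
-/

set_option maxHeartbeats 400000

namespace KT582

open Finset

lemma dirichlet_pigeon {c : ℕ} (α β γ : Fin c → ℝ) (x : ℝ × ℝ) (Q m1 m2 : ℕ) (hm1 : 0 < m1)
    (hm2 : 0 < m2) (h : m1 ^ 2 * m2 ^ c ≤ Q) :
    ∃ q a1 a2 : ℤ, 1 ≤ q ∧ q ≤ Q ∧ |q * x.1 - a1| ≤ 1 / m1 ∧ |q * x.2 - a2| ≤ 1 / m1 ∧
      Sol α β γ (1 / m2) q a1 a2 := by
  classical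
  have hm1' : (0:ℝ) < m1 := by exact_mod_cast hm1
  have hm2' : (0:ℝ) < m2 := by exact_mod_cast hm2
  set v : ℕ → Fin c → ℝ := fun q l => (q:ℝ) * α l + ⌊(q:ℝ) * x.1⌋ * β l + ⌊(q:ℝ) * x.2⌋ * γ l
    with hv
  set F : ℕ → (Fin c → ℤ) × ℤ × ℤ := fun q =>
    (fun l => ⌊(m2:ℝ) * Int.fract (v q l)⌋, ⌊(m1:ℝ) * Int.fract ((q:ℝ) * x.1)⌋,
      ⌊(m1:ℝ) * Int.fract ((q:ℝ) * x.2)⌋) with hF
  set tgt : Finset ((Fin c → ℤ) × ℤ × ℤ) :=
    (Fintype.piFinset (fun _ => Finset.Ico (0:ℤ) m2)) ×ˢ (Finset.Ico (0:ℤ) m1) ×ˢ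
      (Finset.Ico (0:ℤ) m1) with htgt
  have hcard : tgt.card = m1 ^ 2 * m2 ^ c := by
    rw [htgt, Finset.card_product, Finset.card_product, Fintype.card_piFinset]
    simp only [Int.card_Ico, sub_zero, Int.toNat_natCast, Finset.prod_const, Finset.card_univ,
      Fintype.card_fin]
    ring
  have hfl : ∀ (m : ℕ) (_ : (0:ℝ) < m) (z : ℝ), ⌊(m:ℝ) * Int.fract z⌋ ∈ Finset.Ico (0:ℤ) m := by
    intro m hm z
    rw [Finset.mem_Ico]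
    constructor
    · apply Int.floor_nonneg.mpr
      have := Int.fract_nonneg z
      positivity
    · rw [Int.floor_lt]
      have := Int.fract_lt_one z
      push_cast
      nlinarith
  have hmaps : ∀ q ∈ Finset.range (Q + 1), F q ∈ tgt := by
    intro q _
    rw [htgt, hF]
    simp only [Finset.mem_product, Fintype.mem_piFinset]
    exact ⟨fun l => hfl _ hm2' _, hfl _ hm1' _, hfl _ hm1' _⟩
  obtain ⟨q1, hq1, q2, hq2, hne, heq⟩ := Finset.exists_ne_map_eq_of_card_lt_of_maps_to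
    (by rw [Finset.card_range, hcard]; omega) hmaps
  wlog hlt : q1 < q2 generalizing q1 q2
  · exact this q2 hq2 q1 hq1 hne.symm heq.symm (by omega)
  have hfr : ∀ (m : ℕ) (_ : (0:ℝ) < m) (z w : ℝ), ⌊(m:ℝ) * Int.fract z⌋ = ⌊(m:ℝ) * Int.fract w⌋ →
      |(w - z) - ((⌊w⌋ - ⌊z⌋ : ℤ) : ℝ)| < 1 / m := by
    intro m hm z w h
    have h1 := Int.floor_le ((m:ℝ) * Int.fract z)
    have h2 := Int.lt_floor_add_one ((m:ℝ) * Int.fract z)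
    have h3 := Int.floor_le ((m:ℝ) * Int.fract w)
    have h4 := Int.lt_floor_add_one ((m:ℝ) * Int.fract w)
    rw [h] at h1 h2
    have h5 : (w - z) - ((⌊w⌋ - ⌊z⌋ : ℤ) : ℝ) = Int.fract w - Int.fract z := by
      push_cast
      rw [Int.fract, Int.fract]; ring
    have h6 : |Int.fract w - Int.fract z| * m = |(Int.fract w - Int.fract z) * m| := by
      rw [abs_mul, abs_of_pos hm]
    rw [h5, lt_div_iff₀ hm, h6, abs_lt]
    constructor <;> linarith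
  simp only [hF, Prod.mk.injEq] at heq
  obtain ⟨he1, he2, he3⟩ := heq
  have hd1 := hfr m1 hm1' _ _ he2
  have hd2 := hfr m1 hm1' _ _ he3
  refine ⟨(q2:ℤ) - q1, ⌊(q2:ℝ) * x.1⌋ - ⌊(q1:ℝ) * x.1⌋, ⌊(q2:ℝ) * x.2⌋ - ⌊(q1:ℝ) * x.2⌋,
    by omega, ?_, ?_, ?_, ?_⟩
  · have := Finset.mem_range.mp hq2
    omega
  · have : ((((q2:ℤ) - q1 : ℤ)) : ℝ) * x.1 = (q2:ℝ) * x.1 - q1 * x.1 := by push_cast; ring
    rw [this]; exact hd1.le
  · have : ((((q2:ℤ) - q1 : ℤ)) : ℝ) * x.2 = (q2:ℝ) * x.2 - q1 * x.2 := by push_cast; ring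
    rw [this]; exact hd2.le
  · intro l
    have h1 := congrFun he1 l
    have h2 := hfr m2 hm2' _ _ h1
    have h3 : ((((q2:ℤ) - q1 : ℤ)) : ℝ) * α l + ((⌊(q2:ℝ) * x.1⌋ - ⌊(q1:ℝ) * x.1⌋ : ℤ) : ℝ) * β l +
        ((⌊(q2:ℝ) * x.2⌋ - ⌊(q1:ℝ) * x.2⌋ : ℤ) : ℝ) * γ l = v q2 l - v q1 l := by
      simp only [hv]; push_cast; ring
    rw [h3]
    exact (nd_le_abs_sub _ _).trans h2.le

lemma dirichlet_scale {c : ℕ} (α β γ : Fin c → ℝ) {s : ℝ} (hs : 0 < s) (hs2 : s ≤ 2) {k : ℕ}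
    (h : 4 ^ c ≤ 2 ^ k * s ^ c) :
    ∃ Rk : ℝ, 0 < Rk ∧ Rk ^ 2 ≤ 8 * 4 ^ c / (2 ^ k * s ^ c) ∧ ∀ x : ℝ × ℝ,
      ∃ q a1 a2 : ℤ, 1 ≤ q ∧ q ≤ 2 ^ k ∧ |q * x.1 - a1| ≤ Rk ∧ |q * x.2 - a2| ≤ Rk ∧
        Sol α β γ (s / 2) q a1 a2 := by
  set m2 : ℕ := ⌈2 / s⌉₊ with hm2
  have h2s : 1 ≤ 2 / s := by rw [le_div_iff₀ hs]; linarith
  have hm2a : 2 / s ≤ m2 := Nat.le_ceil _
  have hm2b : (m2:ℝ) ≤ 4 / s := by
    have h1 := Nat.ceil_lt_add_one (by linarith : 0 ≤ 2 / s)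
    rw [← hm2] at h1
    have : 4 / s = 2 / s + 2 / s := by ring
    linarith
  have hm2pos : (0:ℝ) < m2 := by linarith
  have hm2pos' : 0 < m2 := by exact_mod_cast hm2pos
  set z : ℕ := 2 ^ k / m2 ^ c with hz
  have hz1 : 1 ≤ z := by
    rw [hz, Nat.one_le_div_iff (by positivity)]
    have h1 : (m2:ℝ) ^ c ≤ 2 ^ k := by
      calc (m2:ℝ) ^ c ≤ (4 / s) ^ c := by gcongr
        _ = 4 ^ c / s ^ c := by rw [div_pow]
        _ ≤ 2 ^ k := by rw [div_le_iff₀ (by positivity)]; exact h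
    exact_mod_cast h1
  set m1 : ℕ := Nat.sqrt z with hm1
  have hm1pos : 0 < m1 := Nat.sqrt_pos.mpr (by omega)
  have hm1pos' : (0:ℝ) < m1 := by exact_mod_cast hm1pos
  have hm1a : m1 ^ 2 * m2 ^ c ≤ 2 ^ k := by
    have h1 : m1 ^ 2 ≤ z := Nat.sqrt_le' z
    calc m1 ^ 2 * m2 ^ c ≤ z * m2 ^ c := Nat.mul_le_mul_right _ h1
      _ ≤ 2 ^ k := Nat.div_mul_le_self _ _
  refine ⟨1 / m1, by positivity, ?_, ?_⟩
  · -- lower bound for m1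
    have h1 : z < (m1 + 1) ^ 2 := Nat.lt_succ_sqrt' z
    have h2 : (z:ℝ) ≤ 4 * (m1:ℝ) ^ 2 := by
      have h3 : (z:ℝ) < ((m1:ℝ) + 1) ^ 2 := by exact_mod_cast h1
      have h4 : (1:ℝ) ≤ m1 := by exact_mod_cast hm1pos
      nlinarith
    have h5 : (2:ℝ) ^ k / (m2:ℝ) ^ c ≤ 2 * z := by
      have h6 : 2 ^ k < (z + 1) * m2 ^ c := by
        have := Nat.lt_mul_div_succ (2 ^ k) (by positivity : 0 < m2 ^ c)
        rw [← hz] at this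
        linarith
      have h7 : (2:ℝ) ^ k < ((z:ℝ) + 1) * (m2:ℝ) ^ c := by exact_mod_cast h6
      have h8 : (1:ℝ) ≤ z := by exact_mod_cast hz1
      rw [div_le_iff₀ (by positivity)]
      have h9 : (0:ℝ) < (m2:ℝ) ^ c := by positivity
      nlinarith
    have h10 : (2:ℝ) ^ k * s ^ c / 4 ^ c ≤ 8 * (m1:ℝ) ^ 2 := by
      calc (2:ℝ) ^ k * s ^ c / 4 ^ c = 2 ^ k / (4 / s) ^ c := by
            rw [div_pow]; field_simp
        _ ≤ (2:ℝ) ^ k / (m2:ℝ) ^ c := by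
            apply div_le_div_of_nonneg_left (by positivity) (by positivity)
            gcongr
        _ ≤ 2 * z := h5
        _ ≤ 8 * (m1:ℝ) ^ 2 := by linarith
    rw [div_pow, one_pow, div_le_div_iff₀ (by positivity) (by positivity)]
    rw [div_le_iff₀ (by positivity)] at h10
    linarith
  · intro x
    obtain ⟨q, a1, a2, h1, h2, h3, h4, h5⟩ := dirichlet_pigeon α β γ x (2 ^ k) m1 m2 hm1pos hm2pos'
      hm1a
    refine ⟨q, a1, a2, h1, by exact_mod_cast h2, h3, h4, ?_⟩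
    intro l
    refine (h5 l).trans ?_
    rw [div_le_div_iff₀ hm2pos (by norm_num)]
    rw [div_le_iff₀ hs] at hm2a
    linarith

end KT582
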