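import Pool.Agent.Lib.MP_582f03_nt.Layer

/-!
# The divergence part for the plane: full measure of the approximating sets
-/

set_option maxHeartbeats 1000000

namespace KT582

open Finset MeasureTheory

/-- `G k = 2^k s_k^c` -/
noncomputable def Gs {c : ℕ} {P : Par c} (D : DSeq P) (k : ℕ) : ℝ := 2 ^ k * D.s k ^ c

/-- record scales -/
def Rec {c : ℕ} {P : Par c} (D : DSeq P) : Set ℕ := {k | ∀ j < k, Gs D j ≤ Gs D k}

lemma exists_rec {c : ℕ} {P : Par c} (D : DSeq P) (k : ℕ) :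
    ∃ a ≤ k, a ∈ Rec D ∧ Gs D k ≤ Gs D a := by
  induction k using Nat.strong_induction_on with
  | _ k ih =>
    by_cases hk : k ∈ Rec D
    · exact ⟨k, le_rfl, hk, le_rfl⟩
    · simp only [Rec, Set.mem_setOf_eq, not_forall, not_le] at hk
      obtain ⟨j, hj, hjk⟩ := hk
      obtain ⟨a, ha, haR, hja⟩ := ih j hj
      exact ⟨a, ha.trans hj.le, haR, hjk.le.trans hja⟩

lemma zeta_le {c : ℕ} {P : Par c} (D : DSeq P) {a k : ℕ} (hak : a ≤ k) (hG : Gs D k ≤ Gs D a) :
    2 ^ k * D.s k ^ (c + 2) ≤ 2 ^ a * D.s a ^ (c + 2) * P.ϱ ^ (k - a) := by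
  have hc := P.hc
  have hsk := D.hs0 k
  have hsa := D.hs0 a
  have hϱ0 := P.hϱ0
  have hϱ1 := P.hϱ1
  have h1 : D.s k ^ c ≤ (P.ϱ ^ (k - a) * D.s a) ^ c := by
    have e1 : D.s k ^ c ≤ (1 / 2) ^ (k - a) * D.s a ^ c := by
      have e2 : (1 / 2 : ℝ) ^ (k - a) = 2 ^ a / 2 ^ k := by
        rw [div_pow, one_pow, div_eq_div_iff (by positivity) (by positivity), one_mul, ← pow_add]
        congr 1; omega
      rw [e2]
      rw [Gs, Gs] at hG
      rw [div_mul_eq_mul_div, le_div_iff₀ (by positivity)]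
      linarith
    refine e1.trans ?_
    rw [mul_pow]
    apply mul_le_mul_of_nonneg_right _ (by positivity)
    calc (1 / 2 : ℝ) ^ (k - a) = (P.ϱ ^ (k - a)) ^ P.M := by
          rw [← P.hM, ← pow_mul, ← pow_mul, mul_comm]
      _ ≤ (P.ϱ ^ (k - a)) ^ c :=
          pow_le_pow_of_le_one (by positivity) (pow_le_one₀ hϱ0.le hϱ1.le)
            (by have := P.hnM; omega)
  have h2 : D.s k ≤ P.ϱ ^ (k - a) * D.s a := le_of_pow_le_pow_left₀ (by omega) (by positivity) h1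
  have h3 : P.ϱ ^ (k - a) ≤ 1 := pow_le_one₀ hϱ0.le hϱ1.le
  calc 2 ^ k * D.s k ^ (c + 2) = Gs D k * D.s k ^ 2 := by rw [Gs]; ring
    _ ≤ Gs D a * (P.ϱ ^ (k - a) * D.s a) ^ 2 := by
        have : 0 ≤ Gs D a := by rw [Gs]; positivity
        gcongr
    _ = 2 ^ a * D.s a ^ (c + 2) * (P.ϱ ^ (k - a) * P.ϱ ^ (k - a)) := by rw [Gs]; ring
    _ ≤ 2 ^ a * D.s a ^ (c + 2) * (P.ϱ ^ (k - a) * 1) := by gcongr
    _ = _ := by ring

lemma summable_of_conv {ζ f : ℕ → ℝ} {ϱ : ℝ} (h0 : 0 < ϱ) (h1 : ϱ < 1) (hf : ∀ k, 0 ≤ f k)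
    (hζ : ∀ k, 0 ≤ ζ k) (h : ∀ k, ∃ a ≤ k, ζ k ≤ f a * ϱ ^ (k - a)) (hs : Summable f) :
    Summable ζ := by
  have hg : Summable (fun m : ℕ => ϱ ^ m) := summable_geometric_of_lt_one h0.le h1
  have hprod := hs.mul_of_nonneg hg hf (fun m => by positivity)
  have hconv := summable_sum_mul_antidiagonal_of_summable_mul hprod
  refine Summable.of_nonneg_of_le hζ (fun k => ?_) hconv
  obtain ⟨a, hak, ha⟩ := h k
  have hmem : (a, k - a) ∈ Finset.HasAntidiagonal.antidiagonal k := by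
    rw [Finset.HasAntidiagonal.mem_antidiagonal]; omega
  exact ha.trans (Finset.single_le_sum (f := fun kl : ℕ × ℕ => f kl.1 * ϱ ^ kl.2)
      (fun kl _ => mul_nonneg (hf kl.1) (by positivity)) hmem)

/-- the terms at record scales -/
noncomputable def zr {c : ℕ} {P : Par c} (D : DSeq P) : ℕ → ℝ :=
  (Rec D).indicator (fun k => 2 ^ k * D.s k ^ (c + 2))

lemma zr_nonneg {c : ℕ} {P : Par c} (D : DSeq P) (k : ℕ) : 0 ≤ zr D k := by
  rw [zr]
  apply Set.indicator_nonneg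
  intro k _
  have := D.hs0 k
  positivity

lemma not_summable_rec {c : ℕ} {P : Par c} (D : DSeq P) : ¬ Summable (zr D) := by
  intro h
  apply D.hdiv
  refine summable_of_conv P.hϱ0 P.hϱ1 (zr_nonneg D) (fun k => ?_) (fun k => ?_) h
  · have := D.hs0 k
    positivity
  · obtain ⟨a, hak, haR, hG⟩ := exists_rec D k
    refine ⟨a, hak, ?_⟩
    rw [zr, Set.indicator_of_mem haR]
    exact zeta_le D hak hG

lemma ratio_eq {c : ℕ} {P : Par c} (D : DSeq P) (l k : ℕ) :
    (rl D k / dl D l k) ^ 2 = 2 ^ k * D.s k ^ (c + 2) /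
      (16 * P.CA ^ 2 * D.Z ^ 2 * (4 ^ l * (8 * 4 ^ c))) := by
  have hs := D.hs0 k
  have hCA := P.one_le_CA
  have hZ := D.hZ
  rw [div_pow, dl_sq, rl]
  have h8 : (8:ℝ) ^ k = 2 ^ k * (2 ^ k) ^ 2 := by
    rw [← pow_mul, ← pow_add, show (8:ℝ) = 2 ^ 3 by norm_num, ← pow_mul]
    congr 1; ring
  rw [h8]
  field_simp
  ring

lemma rec_div {c : ℕ} {P : Par c} (D : DSeq P) (l m : ℕ) :
    ∃ F : Finset ℕ, (∀ k ∈ F, k ∈ Rec D ∧ m ≤ k) ∧ 1 ≤ ∑ k ∈ F, (rl D k / dl D l k) ^ 2 := by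
  classical
  have hCA := P.one_le_CA
  have hZ := D.hZ
  set C : ℝ := 16 * P.CA ^ 2 * D.Z ^ 2 * (4 ^ l * (8 * 4 ^ c)) with hC
  have hC0 : 0 < C := by positivity
  obtain ⟨f, hf⟩ : ∃ f, f = zr D := ⟨_, rfl⟩
  have hnn : ∀ k, 0 ≤ f k := fun k => by rw [hf]; exact zr_nonneg D k
  have h1 := (not_summable_iff_tendsto_nat_atTop_of_nonneg hnn).mp (by rw [hf]; exact not_summable_rec D)
  obtain ⟨n, hn⟩ := (h1.eventually_ge_atTop (C + ∑ k ∈ Finset.range m, f k)).exists
  refine ⟨(Finset.range n).filter (fun k => k ∈ Rec D ∧ m ≤ k), ?_, ?_⟩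
  · intro k hk
    rw [Finset.mem_filter] at hk
    exact hk.2
  · have h2 : ∑ k ∈ (Finset.range n).filter (fun k => k ∈ Rec D ∧ m ≤ k), (rl D k / dl D l k) ^ 2 =
        (∑ k ∈ (Finset.range n).filter (fun k => k ∈ Rec D ∧ m ≤ k), f k) / C := by
      rw [Finset.sum_div]
      refine Finset.sum_congr rfl fun k hk => ?_
      rw [Finset.mem_filter] at hk
      rw [ratio_eq, ← hC, hf, zr, Set.indicator_of_mem hk.2.1]
    have h3 : ∑ k ∈ Finset.range n, f k ≤
        ∑ k ∈ (Finset.range n).filter (fun k => k ∈ Rec D ∧ m ≤ k), f k +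
          ∑ k ∈ Finset.range m, f k := by
      rw [← Finset.sum_filter_add_sum_filter_not (Finset.range n) (fun k => k ∈ Rec D ∧ m ≤ k)]
      apply add_le_add_right
      have h4 : ∀ k ∈ (Finset.range n).filter (fun k => ¬ (k ∈ Rec D ∧ m ≤ k)), m ≤ k → f k = 0 := by
        intro k hk hmk
        rw [Finset.mem_filter] at hk
        rw [hf, zr, Set.indicator_of_notMem]
        intro hR
        exact hk.2 ⟨hR, hmk⟩
      calc ∑ k ∈ (Finset.range n).filter (fun k => ¬ (k ∈ Rec D ∧ m ≤ k)), f k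
          ≤ ∑ k ∈ ((Finset.range n).filter (fun k => ¬ (k ∈ Rec D ∧ m ≤ k))).filter (fun k => k < m), f k := by
            rw [← Finset.sum_filter_add_sum_filter_not
              ((Finset.range n).filter (fun k => ¬ (k ∈ Rec D ∧ m ≤ k))) (fun k => k < m)]
            have h5 : ∑ k ∈ ((Finset.range n).filter (fun k => ¬ (k ∈ Rec D ∧ m ≤ k))).filter
                (fun k => ¬ k < m), f k = 0 := by
              refine Finset.sum_eq_zero fun k hk => ?_
              rw [Finset.mem_filter] at hk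
              exact h4 k hk.1 (not_lt.mp hk.2)
            rw [h5, add_zero]
        _ ≤ ∑ k ∈ Finset.range m, f k := by
            apply Finset.sum_le_sum_of_subset_of_nonneg
            · intro k hk
              rw [Finset.mem_filter] at hk
              exact Finset.mem_range.mpr hk.2
            · intro k _ _
              exact hnn k
    rw [h2, le_div_iff₀ hC0, one_mul]
    linarith

lemma rec_delta {c : ℕ} {P : Par c} (D : DSeq P) (l : ℕ) (F : Finset ℕ) (hF : ∀ k ∈ F, k ∈ Rec D) :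
    ∀ k ∈ F, ∑ j ∈ F.filter (fun j => j < k), 1 / dl D l j ^ 2 ≤ 1 / dl D l k ^ 2 := by
  intro k hk
  set V : ℝ := 4 ^ l * (8 * 4 ^ c) with hV
  have hV0 : 0 < V := by positivity
  have h1 : ∀ j, 1 / dl D l j ^ 2 = 4 ^ j * Gs D j / V := by
    intro j
    have hs := D.hs0 j
    rw [dl_sq, Gs, ← hV]
    have h8 : (8:ℝ) ^ j = 4 ^ j * 2 ^ j := by rw [← mul_pow]; norm_num
    rw [h8]
    field_simp
  have hGk : 0 ≤ Gs D k := by
    have := D.hs0 k
    rw [Gs]; positivity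
  calc ∑ j ∈ F.filter (fun j => j < k), 1 / dl D l j ^ 2
      = (∑ j ∈ F.filter (fun j => j < k), 4 ^ j * Gs D j) / V := by
        rw [Finset.sum_div]
        exact Finset.sum_congr rfl fun j _ => h1 j
    _ ≤ (∑ j ∈ F.filter (fun j => j < k), 4 ^ j * Gs D k) / V := by
        gcongr with j hj
        rw [Finset.mem_filter] at hj
        exact hF k hk j hj.2
    _ ≤ (∑ j ∈ Finset.range k, 4 ^ j * Gs D k) / V := by
        gcongr
        intro j hj
        rw [Finset.mem_filter] at hj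
        exact Finset.mem_range.mpr hj.2
    _ = (∑ j ∈ Finset.range k, (4:ℝ) ^ j) * Gs D k / V := by rw [Finset.sum_mul]
    _ ≤ 4 ^ k * Gs D k / V := by
        gcongr
        have := geom_sum_eq (by norm_num : (4:ℝ) ≠ 1) k
        rw [this]
        have h4 : (0:ℝ) < 4 ^ k := by positivity
        norm_num
        linarith
    _ = _ := (h1 k).symm

end KT582
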