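import Pool.Agent.Lib.MP_582f03_nt.Div

/-!
# Full measure via Lebesgue density
-/

set_option maxHeartbeats 1000000

namespace KT582

open Finset MeasureTheory

lemma measurableSet_freq {α : Type*} [MeasurableSpace α] (W : ℕ → Set α)
    (h : ∀ k, MeasurableSet (W k)) : MeasurableSet {x | ∃ᶠ k in Filter.atTop, x ∈ W k} := by
  have hset : {x | ∃ᶠ k in Filter.atTop, x ∈ W k} = ⋂ m : ℕ, ⋃ k : ℕ, ⋃ _ : m ≤ k, W k := by
    ext x
    simp only [Set.mem_setOf_eq, Filter.frequently_atTop, Set.mem_iInter, Set.mem_iUnion,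
      exists_prop]
  rw [hset]
  exact MeasurableSet.iInter fun m => MeasurableSet.iUnion fun k => MeasurableSet.iUnion fun _ => h k

/-- the quotient is bounded away from one -/
lemma ratio_bound {a b r t : ℝ} (hr : 0 < r) (ht : 0 < t) (ht1 : t < 1)
    (hab : a + b ≤ r) (hb : t * r ≤ b) : a ≤ (1 - t) * r := by
  linarith

theorem div_region {c : ℕ} (P : Par c) (D : DSeq P) {R : ℝ} (hR : 1 ≤ R) :
    ∃ l : ℕ, ∀ᵐ x : ℝ × ℝ, 1 / R < |x.1| → |x.1| < R → |x.2| < R →
      ∃ᶠ k in Filter.atTop, x ∈ Wset P (D.s k) l k := by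
  obtain ⟨l, hl⟩ := exists_layer P D hR
  refine ⟨l, ?_⟩
  set Wl : Set (ℝ × ℝ) := {x | ∃ᶠ k in Filter.atTop, x ∈ Wset P (D.s k) l k} with hWl
  have hWm : MeasurableSet Wl := measurableSet_freq _ fun k => measurableSet_Wset P _ _ _
  set A : Set (ℝ × ℝ) := {x | 1 / R < |x.1| ∧ |x.1| < R ∧ |x.2| < R ∧ x ∉ Wl} with hA
  have hAzero : volume A = 0 := by
    by_contra hne
    have hdens := IsUnifLocDoublingMeasure.ae_tendsto_measure_inter_div (volume : Measure (ℝ × ℝ)) A 1
    have hnb : (ae (volume.restrict A)).NeBot := by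
      rw [ae_neBot]
      intro h0
      apply hne
      rw [← Measure.restrict_apply_univ, h0]
      rfl
    have hAm : MeasurableSet A := by
      have e : A = ({x : ℝ × ℝ | 1 / R < |x.1|} ∩ {x | |x.1| < R} ∩ {x | |x.2| < R}) ∩ Wlᶜ := by
        ext x
        simp only [hA, Set.mem_setOf_eq, Set.mem_inter_iff, Set.mem_compl_iff]
        tauto
      rw [e]
      refine MeasurableSet.inter ?_ hWm.compl
      refine (IsOpen.measurableSet ?_).inter (IsOpen.measurableSet ?_)
      · exact (isOpen_lt continuous_const (by fun_prop)).inter (isOpen_lt (by fun_prop) continuous_const)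
      · exact isOpen_lt (by fun_prop) continuous_const
    obtain ⟨x, hx, hxA⟩ := (hdens.and (ae_restrict_mem hAm)).exists
    obtain ⟨hx1, hx2, hx3, hxW⟩ := hxA
    set ρ : ℕ → ℝ := fun j => 1 / ((j:ℝ) + 1) with hρ
    have hρ0 : ∀ j, 0 < ρ j := fun j => by simp only [hρ]; positivity
    have hρ1 : ∀ j, ρ j ≤ 1 := fun j => by
      simp only [hρ]
      rw [div_le_one (by positivity)]
      have : (0:ℝ) ≤ j := Nat.cast_nonneg j
      linarith
    have hρlim : Filter.Tendsto ρ Filter.atTop (nhds 0) := tendsto_one_div_add_atTop_nhds_zero_nat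
    have hlim := hx (l := Filter.atTop) (fun _ : ℕ => x) (fun j => 2 * ρ j)
      (by
        rw [tendsto_nhdsWithin_iff]
        constructor
        · have := hρlim.const_mul 2
          rwa [mul_zero] at this
        · exact Filter.Eventually.of_forall fun j => by
            have := hρ0 j
            simp only [Set.mem_Ioi]
            positivity)
      (Filter.Eventually.of_forall fun j => by
        rw [Metric.mem_closedBall, dist_self]
        have := hρ0 j
        positivity)
    -- upper bound for the quotient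
    have hub : ∀ j, volume (A ∩ Metric.closedBall x (2 * ρ j)) / volume (Metric.closedBall x (2 * ρ j)) ≤
        ENNReal.ofReal (1 - 1 / 184320) := by
      intro j
      have hρj := hρ0 j
      set B := Metric.closedBall x (2 * ρ j) with hB
      have hvB : volume B = ENNReal.ofReal (16 * ρ j ^ 2) := by
        rw [hB, vol_closedBall x (by positivity)]
        congr 1; ring
      obtain ⟨k0, hk0⟩ := Filter.eventually_atTop.mp (hl (ρ j) hρj (hρ1 j))
      have hubq := ubiq_limsup (x0 := x) (ρ := ρ j) (fun k => Wset P (D.s k) l k)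
        (fun k => measurableSet_Wset P _ _ _) (Rec D) (dl D l) (rl D) k0
        (fun k _ hk => hk0 k hk x hx1.le hx2.le hx3.le) (rec_div D l) (rec_delta D l)
      rw [← hWl, ← hB, Measure.real, Measure.restrict_apply hWm] at hubq
      have hBfin : volume B ≠ ⊤ := by rw [hvB]; exact ENNReal.ofReal_ne_top
      have hsum : volume (A ∩ B) + volume (Wl ∩ B) ≤ volume B := by
        rw [← measure_union _ (hWm.inter Metric.isClosed_closedBall.measurableSet)]
        · apply measure_mono
          intro y hy
          rcases hy with hy | hy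
          · exact hy.2
          · exact hy.2
        · rw [Set.disjoint_left]
          rintro y ⟨hyA, _⟩ ⟨hyW, _⟩
          exact hyA.2.2.2 hyW
      have hAfin : volume (A ∩ B) ≠ ⊤ := ne_top_of_le_ne_top hBfin (measure_mono Set.inter_subset_right)
      have hWfin : volume (Wl ∩ B) ≠ ⊤ := ne_top_of_le_ne_top hBfin (measure_mono Set.inter_subset_right)
      have hsumR : (volume (A ∩ B)).toReal + (volume (Wl ∩ B)).toReal ≤ 16 * ρ j ^ 2 := by
        rw [← ENNReal.toReal_add hAfin hWfin]
        have := ENNReal.toReal_mono hBfin hsum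
        rwa [hvB, ENNReal.toReal_ofReal (by positivity)] at this
      have hAR : (volume (A ∩ B)).toReal ≤ (1 - 1 / 184320) * (16 * ρ j ^ 2) :=
        ratio_bound (by positivity) (by norm_num) (by norm_num) hsumR (by linarith)
      rw [ENNReal.div_le_iff_le_mul (Or.inl (by rw [hvB]; positivity)) (Or.inl hBfin), hvB,
        ← ENNReal.ofReal_mul (by norm_num), ← ENNReal.ofReal_toReal hAfin]
      exact ENNReal.ofReal_le_ofReal hAR
    have h1 := le_of_tendsto' hlim hub
    have h2 : ENNReal.ofReal (1 - 1 / 184320) < 1 := by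
      rw [← ENNReal.ofReal_one]
      apply ENNReal.ofReal_lt_ofReal_iff_of_nonneg (by norm_num) |>.mpr
      norm_num
    exact absurd h1 (not_le.mpr h2)
  rw [ae_iff]
  refine measure_mono_null ?_ hAzero
  intro x hx
  simp only [Set.mem_setOf_eq, Classical.not_imp] at hx
  exact ⟨hx.1, hx.2.1, hx.2.2.1, hx.2.2.2⟩

end KT582
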