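import Pool.Agent.Lib.MP_582f03_nt.Params
import Pool.Agent.Lib.MP_582f03_nt.Defs

/-!
# Transfer to the plane and the curve in `ℝⁿ`
-/

set_option maxHeartbeats 1000000

namespace KT582

open Finset MeasureTheory Pool.Agent.Results.MP_582f03_nt

variable {c : ℕ} (P : Par c)

/-- base point -/
noncomputable def vA : E (c + 2) := WithLp.toLp 2 (Fin.cons 0 (Fin.cons 0 P.E.α))
/-- first direction -/
noncomputable def vB : E (c + 2) := WithLp.toLp 2 (Fin.cons 1 (Fin.cons 0 P.E.β))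
/-- second direction -/
noncomputable def vC : E (c + 2) := WithLp.toLp 2 (Fin.cons 0 (Fin.cons 1 P.E.γ))

/-- parametrisation of the plane -/
noncomputable def gmap (x : ℝ × ℝ) : E (c + 2) := vA P + (x.1 • vB P + x.2 • vC P)

lemma gmap_zero (x : ℝ × ℝ) : gmap P x 0 = x.1 := by
  simp [gmap, vA, vB, vC]

lemma gmap_one (x : ℝ × ℝ) : gmap P x 1 = x.2 := by
  have h1 : (1 : Fin (c + 2)) = Fin.succ 0 := rfl
  rw [h1]
  simp [gmap, vA, vB, vC]

lemma gmap_succ (x : ℝ × ℝ) (i : Fin c) : gmap P x i.succ.succ = P.f x i := by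
  simp [gmap, vA, vB, vC, Par.f]
  ring

lemma psiApprox_gmap (ψ : ℕ → ℝ) (x : ℝ × ℝ) :
    PsiApprox ψ (gmap P x) ↔ ∃ᶠ q in Filter.atTop, App P ψ q x := by
  rw [PsiApprox, ← Nat.frequently_atTop_iff_infinite]
  have key : ∀ q : ℕ, (∀ i : Fin (c + 2), |(q : ℝ) * gmap P x i - round ((q : ℝ) * gmap P x i)| < ψ q) ↔
      App P ψ q x := by
    intro q
    rw [Fin.forall_fin_succ, Fin.forall_fin_succ]
    have h1 : (Fin.succ 0 : Fin (c + 2)) = 1 := rfl
    simp only [gmap_zero, gmap_succ, h1, gmap_one]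
    rfl
  constructor
  · intro h
    exact h.mono fun q hq => (key q).mp hq.2
  · intro h
    refine (h.and_eventually (Filter.eventually_ge_atTop 1)).mono fun q hq => ⟨hq.2, (key q).mpr hq.1⟩

/-- the linear part -/
noncomputable def glin : (ℝ × ℝ) →L[ℝ] E (c + 2) :=
  (ContinuousLinearMap.fst ℝ ℝ ℝ).smulRight (vB P) + (ContinuousLinearMap.snd ℝ ℝ ℝ).smulRight (vC P)

lemma gmap_eq (x : ℝ × ℝ) : gmap P x = vA P + glin P x := by
  simp [gmap, glin]

lemma gmap_lip : ∃ K : NNReal, LipschitzWith K (gmap P) := by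
  refine ⟨‖glin P‖₊, ?_⟩
  have h := (glin P).lipschitz
  intro x y
  rw [gmap_eq, gmap_eq, edist_add_left]
  exact h x y

/-- the plane -/
noncomputable def plane : AffineSubspace ℝ (E (c + 2)) :=
  AffineSubspace.mk' (vA P) (Submodule.span ℝ {vB P, vC P})

lemma mem_plane (y : E (c + 2)) : y ∈ plane P ↔ ∃ x, gmap P x = y := by
  rw [plane, AffineSubspace.mem_mk', Submodule.mem_span_pair]
  constructor
  · rintro ⟨a, b, h⟩
    refine ⟨(a, b), ?_⟩
    rw [gmap, h]
    simp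
  · rintro ⟨x, rfl⟩
    exact ⟨x.1, x.2, by simp [gmap]⟩

lemma null_image {S : Set (ℝ × ℝ)} (hS : volume S = 0) :
    Measure.hausdorffMeasure ((2:ℕ) : ℝ) (gmap P '' S) = 0 := by
  obtain ⟨K, hK⟩ := gmap_lip P
  have h1 := hK.hausdorffMeasure_image_le (d := ((2:ℕ) : ℝ)) (by positivity) S
  have h2 : Measure.hausdorffMeasure ((2:ℕ) : ℝ) S = 0 := by
    push_cast
    rw [hausdorffMeasure_prod_real]
    exact hS
  rw [h2, mul_zero] at h1
  exact nonpos_iff_eq_zero.mp h1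

lemma finrank_span : Module.finrank ℝ (Submodule.span ℝ {vB P, vC P}) = 2 := by
  have hli : LinearIndependent ℝ ![vB P, vC P] := by
    rw [LinearIndependent.pair_iff]
    intro s t h
    have h0 : (s • vB P + t • vC P) 0 = 0 := by rw [h]; rfl
    have h1 : (s • vB P + t • vC P) 1 = 0 := by rw [h]; rfl
    have e1 : (1 : Fin (c + 2)) = Fin.succ 0 := rfl
    rw [e1] at h1
    simp [vB, vC] at h0 h1
    exact ⟨h0, h1⟩
  have h := finrank_span_eq_card hli
  have hr : Set.range ![vB P, vC P] = {vB P, vC P} := by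
    ext y
    simp [eq_comm]
    tauto
  rw [hr] at h
  simpa using h

/-- The threshold with irrelevant value at zero removed. -/
lemma psi_fix (ψ : ℕ → ℝ) (hψ : IsPsi ψ) : ∃ ψ' : ℕ → ℝ, (∀ q, 0 ≤ ψ' q) ∧
    (∀ m n, 0 < m → m ≤ n → ψ' n ≤ ψ' m) ∧ (∀ q, 1 ≤ q → ψ' q = ψ q) := by
  refine ⟨fun q => if q = 0 then 0 else ψ q, ?_, ?_, ?_⟩
  · intro q
    by_cases h : q = 0
    · simp [h]
    · simp only [h, if_false]; exact hψ.1 q (by omega)
  · intro m n hm hmn
    have h1 : m ≠ 0 := by omega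
    have h2 : n ≠ 0 := by omega
    simp only [h1, h2, if_false]
    exact hψ.2 m n (by omega) hmn
  · intro q hq
    have h1 : q ≠ 0 := by omega
    simp only [h1, if_false]

lemma app_congr {ψ ψ' : ℕ → ℝ} (h : ∀ q, 1 ≤ q → ψ' q = ψ q) (x : ℝ × ℝ) :
    (∃ᶠ q in Filter.atTop, App P ψ q x) ↔ ∃ᶠ q in Filter.atTop, App P ψ' q x := by
  apply Filter.frequently_congr
  filter_upwards [Filter.eventually_ge_atTop 1] with q hq
  rw [App, App, h q hq]

lemma summable_congr' {ψ ψ' : ℕ → ℝ} (h : ∀ q, 1 ≤ q → ψ' q = ψ q) (n : ℕ) :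
    Summable (fun q : ℕ => ψ (q + 1) ^ n) ↔ Summable (fun q : ℕ => ψ' q ^ n) := by
  rw [← summable_nat_add_iff 1 (f := fun q : ℕ => ψ' q ^ n)]
  constructor
  · intro hs
    exact hs.congr fun q => by rw [h (q + 1) (by omega)]
  · intro hs
    exact hs.congr fun q => by rw [h (q + 1) (by omega)]

theorem plane_type : KhintchineType 2 (plane P : Set (E (c + 2))) := by
  constructor
  · intro ψ hψ hsum
    obtain ⟨ψ', h0, hanti, heq⟩ := psi_fix ψ hψ
    have h1 := plane_conv P ψ' h0 hanti ((summable_congr' heq _).mp hsum)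
    rw [ae_iff] at h1
    simp only [not_not] at h1
    refine measure_mono_null ?_ (null_image P h1)
    rintro y ⟨hy, hap⟩
    obtain ⟨x, rfl⟩ := (mem_plane P y).mp hy
    refine ⟨x, ?_, rfl⟩
    rw [psiApprox_gmap, app_congr P heq] at hap
    exact hap
  · intro ψ hψ hsum
    obtain ⟨ψ', h0, hanti, heq⟩ := psi_fix ψ hψ
    have h1 := plane_div P ψ' h0 hanti (fun h => hsum ((summable_congr' heq _).mpr h))
    rw [ae_iff] at h1
    refine measure_mono_null ?_ (null_image P h1)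
    rintro y ⟨hy, hap⟩
    obtain ⟨x, rfl⟩ := (mem_plane P y).mp hy
    refine ⟨x, ?_, rfl⟩
    rw [psiApprox_gmap, app_congr P heq] at hap
    exact hap

/-- coordinate on `ℝ¹` -/
noncomputable def pr0 : E 1 →L[ℝ] ℝ := EuclideanSpace.proj 0

lemma pr0_apply (v : E 1) : pr0 v = v 0 := rfl

/-- the inverse of the coordinate -/
noncomputable def in1 (t : ℝ) : E 1 := WithLp.toLp 2 (fun _ => t)

lemma in1_apply (t : ℝ) : in1 t 0 = t := rfl

lemma in1_pr (v : E 1) : in1 (v 0) = v := by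
  ext i
  fin_cases i
  rfl

lemma continuous_in1 : Continuous in1 := by
  unfold in1
  fun_prop

/-- parametrisation of the curve -/
noncomputable def cmap (v : E 1) : E (c + 2) := vA P + (pr0 v • vB P + (pr0 v) ^ 2 • vC P)

lemma cmap_eq (v : E 1) : cmap P v = gmap P (v 0, (v 0) ^ 2) := rfl

/-- the parameter interval -/
def Ucv : Set (E 1) := {v | 1 < v 0 ∧ v 0 < 2}

/-- the curve -/
noncomputable def curve : Set (E (c + 2)) := cmap P '' Ucv

lemma curve_subset : curve P ⊆ (plane P : Set (E (c + 2))) := by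
  rintro y ⟨v, _, rfl⟩
  exact (mem_plane P _).mpr ⟨_, (cmap_eq P v).symm⟩

lemma isOpen_Ucv : IsOpen Ucv := by
  have h1 : Continuous fun v : E 1 => v 0 := (pr0).continuous
  exact (isOpen_lt continuous_const h1).inter (isOpen_lt h1 continuous_const)

lemma cmap_hasFDeriv (v : E 1) :
    HasFDerivAt (cmap P) (pr0.smulRight (vB P) + (2 * pr0 v) • pr0.smulRight (vC P)) v := by
  have h1 : HasFDerivAt (fun v : E 1 => pr0 v) pr0 v := pr0.hasFDerivAt
  have h2 : HasFDerivAt (fun v : E 1 => (pr0 v) ^ 2) ((2 * pr0 v) • pr0) v := by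
    refine (h1.pow 2).congr_fderiv ?_
    ext
    simp
  have h3 : HasFDerivAt (fun v : E 1 => pr0 v • vB P) (pr0.smulRight (vB P)) v :=
    h1.smul_const (vB P)
  have h4 : HasFDerivAt (fun v : E 1 => (pr0 v) ^ 2 • vC P) (((2 * pr0 v) • pr0).smulRight (vC P)) v :=
    h2.smul_const (vC P)
  refine ((h3.add h4).const_add (vA P)).congr_fderiv ?_
  ext x i
  simp [mul_assoc]

lemma fderiv_cmap : fderiv ℝ (cmap P) =
    fun v => pr0.smulRight (vB P) + (2 * pr0 v) • pr0.smulRight (vC P) := by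
  funext v
  exact (cmap_hasFDeriv P v).fderiv

lemma fderiv2_cmap (v : E 1) : fderiv ℝ (fderiv ℝ (cmap P)) v =
    ((2:ℝ) • pr0).smulRight (pr0.smulRight (vC P)) := by
  rw [fderiv_cmap]
  have h1 : HasFDerivAt (fun v : E 1 => pr0 v) pr0 v := pr0.hasFDerivAt
  have h2 : HasFDerivAt (fun v : E 1 => 2 * pr0 v) ((2:ℝ) • pr0) v := h1.const_mul 2
  have h3 := (h2.smul_const (pr0.smulRight (vC P))).const_add (pr0.smulRight (vB P))
  exact h3.fderiv

lemma cmap_smooth : ContDiff ℝ (⊤ : ℕ∞) (cmap P) := by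
  unfold cmap
  have h1 : ContDiff ℝ (⊤ : ℕ∞) (fun v : E 1 => pr0 v) := pr0.contDiff
  exact contDiff_const.add ((h1.smul contDiff_const).add ((h1.pow 2).smul contDiff_const))

lemma cmap_zero (v : E 1) : cmap P v 0 = v 0 := by
  rw [cmap_eq, gmap_zero]

lemma curve_param : IsLocalParam (curve P) Ucv (cmap P) := by
  refine ⟨isOpen_Ucv, (cmap_smooth P).contDiffOn, ?_, ?_, ?_⟩
  · intro u _
    rw [fderiv_cmap]
    intro v w hvw
    have h1 := congrArg (fun y : E (c + 2) => y 0) hvw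
    simp [vB, vC, pr0_apply] at h1
    rw [← in1_pr v, ← in1_pr w, h1]
  · intro v _ w _ hvw
    have h1 := congrArg (fun y : E (c + 2) => y 0) hvw
    simp only [cmap_zero] at h1
    rw [← in1_pr v, ← in1_pr w, h1]
  · intro V hVU hV
    refine ⟨(fun y : E (c + 2) => in1 (y 0)) ⁻¹' V, ?_, ?_⟩
    · apply hV.preimage
      apply continuous_in1.comp
      fun_prop
    · ext y
      constructor
      · rintro ⟨v, hv, rfl⟩
        refine ⟨⟨v, hVU hv, rfl⟩, ?_⟩
        rw [Set.mem_preimage, cmap_zero, in1_pr]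
        exact hv
      · rintro ⟨⟨v, _, rfl⟩, hy⟩
        rw [Set.mem_preimage, cmap_zero, in1_pr] at hy
        exact ⟨v, hy, rfl⟩

lemma curve_nondeg (u : E 1) : NondegenerateAt (plane P) (cmap P) u := by
  refine ⟨2, ?_⟩
  rw [plane, AffineSubspace.direction_mk']
  apply le_antisymm
  · rw [Submodule.span_le]
    rintro y ⟨m, hm1, hm2, v, rfl⟩
    have hB : vB P ∈ Submodule.span ℝ {vB P, vC P} := Submodule.subset_span (by simp)
    have hC : vC P ∈ Submodule.span ℝ {vB P, vC P} := Submodule.subset_span (by simp)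
    interval_cases m
    · rw [iteratedFDeriv_one_apply, fderiv_cmap]
      exact Submodule.add_mem _ (Submodule.smul_mem _ _ hB)
        (Submodule.smul_mem _ _ (Submodule.smul_mem _ _ hC))
    · rw [iteratedFDeriv_two_apply, fderiv2_cmap]
      exact Submodule.smul_mem _ _ (Submodule.smul_mem _ _ hC)
  · rw [Submodule.span_le]
    have h2 : (2:ℝ) • vC P ∈ Submodule.span ℝ {y : E (c + 2) | ∃ m : ℕ, 1 ≤ m ∧ m ≤ 2 ∧
        ∃ v : Fin m → E 1, y = iteratedFDeriv ℝ m (cmap P) u v} := by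
      apply Submodule.subset_span
      refine ⟨2, by norm_num, le_rfl, fun _ => in1 1, ?_⟩
      rw [iteratedFDeriv_two_apply, fderiv2_cmap]
      simp [pr0_apply, in1_apply]
    have hC : vC P ∈ Submodule.span ℝ {y : E (c + 2) | ∃ m : ℕ, 1 ≤ m ∧ m ≤ 2 ∧
        ∃ v : Fin m → E 1, y = iteratedFDeriv ℝ m (cmap P) u v} := by
      have := Submodule.smul_mem _ ((2:ℝ)⁻¹) h2
      rwa [smul_smul, inv_mul_cancel₀ (by norm_num), one_smul] at this
    have h1 : vB P + (2 * u 0) • vC P ∈ Submodule.span ℝ {y : E (c + 2) | ∃ m : ℕ, 1 ≤ m ∧ m ≤ 2 ∧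
        ∃ v : Fin m → E 1, y = iteratedFDeriv ℝ m (cmap P) u v} := by
      apply Submodule.subset_span
      refine ⟨1, le_rfl, by norm_num, fun _ => in1 1, ?_⟩
      rw [iteratedFDeriv_one_apply, fderiv_cmap]
      simp [pr0_apply, in1_apply]
    have hB : vB P ∈ Submodule.span ℝ {y : E (c + 2) | ∃ m : ℕ, 1 ≤ m ∧ m ≤ 2 ∧
        ∃ v : Fin m → E 1, y = iteratedFDeriv ℝ m (cmap P) u v} := by
      have := Submodule.sub_mem _ h1 (Submodule.smul_mem _ (2 * u 0) hC)
      rwa [add_sub_cancel_right] at this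
    rintro y (rfl | hy)
    · exact hB
    · rw [Set.mem_singleton_iff] at hy
      rw [hy]; exact hC

lemma curve_measure_pos : Measure.hausdorffMeasure ((1:ℕ) : ℝ) (curve P) ≠ 0 := by
  intro h0
  have hlip : LipschitzWith 1 (fun y : E (c + 2) => y 0) := by
    apply LipschitzWith.of_dist_le_mul
    intro x y
    rw [NNReal.coe_one, one_mul, Real.dist_eq]
    have := EuclideanSpace.norm_eq (x - y)
    rw [dist_eq_norm]
    have h1 := PiLp.norm_apply_le (x - y) 0
    simpa using h1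
  have h1 := hlip.hausdorffMeasure_image_le (d := ((1:ℕ) : ℝ)) (by positivity) (curve P)
  rw [h0, mul_zero] at h1
  have h2 : Set.Ioo (1:ℝ) 2 ⊆ (fun y : E (c + 2) => y 0) '' curve P := by
    intro t ht
    refine ⟨cmap P (in1 t), ⟨in1 t, ⟨?_, ?_⟩, rfl⟩, ?_⟩
    · rw [in1_apply]; exact ht.1
    · rw [in1_apply]; exact ht.2
    · simp only [cmap_zero, in1_apply]
  have h3 : volume (Set.Ioo (1:ℝ) 2) ≤ 0 := by
    calc volume (Set.Ioo (1:ℝ) 2) ≤ volume ((fun y : E (c + 2) => y 0) '' curve P) :=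
          measure_mono h2
      _ = Measure.hausdorffMeasure ((1:ℕ) : ℝ) ((fun y : E (c + 2) => y 0) '' curve P) := by
          rw [Nat.cast_one, hausdorffMeasure_real]
      _ ≤ 0 := h1
  rw [Real.volume_Ioo] at h3
  norm_num at h3

/-- everything together, for `c ≥ 4` -/
theorem main_c (c : ℕ) (hc : 4 ≤ c) : ∃ L : AffineSubspace ℝ (E (c + 2)),
    (L : Set (E (c + 2))).Nonempty ∧ Module.finrank ℝ L.direction = 2 ∧
    KhintchineType 2 (L : Set (E (c + 2))) ∧
    ∃ M : Set (E (c + 2)), IsSmoothSubmanifold 1 M ∧ IsNondegenerateIn 1 M L ∧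
      ∃ ψ : ℕ → ℝ, (∀ q, 0 < ψ q) ∧ Antitone ψ ∧ Summable (fun q => ψ q ^ (c + 2)) ∧
        (∀ y ∈ M, PsiApprox ψ y) ∧ Measure.hausdorffMeasure ((1:ℕ) : ℝ) M ≠ 0 := by
  obtain ⟨P, w, hu, hw1, hwm, hwκ, hws⟩ := exists_par c hc
  refine ⟨plane P, ⟨gmap P 0, (mem_plane P _).mpr ⟨0, rfl⟩⟩, ?_, plane_type P, curve P, ?_, ?_, ?_⟩
  · rw [plane, AffineSubspace.direction_mk']
    exact finrank_span P
  · intro y hy
    exact ⟨Ucv, cmap P, curve_param P, hy⟩
  · refine ⟨curve_subset P, fun y hy => ⟨Ucv, cmap P, curve_param P, hy, ?_⟩⟩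
    exact Filter.Eventually.of_forall fun u => curve_nondeg P u
  · obtain ⟨ψ, h1, h2, h3, h4⟩ := curve_bad P.hc P.E P.hκ0 w hw1 hwm hwκ hws
    refine ⟨ψ, h1, h2, h3, ?_, curve_measure_pos P⟩
    rintro y ⟨v, ⟨hv1, hv2⟩, rfl⟩
    rw [cmap_eq, psiApprox_gmap]
    have hfr : ∃ᶠ i in Filter.atTop, |v 0 - P.u i| ≤ 2 / ((i:ℕ) + 1) := by
      rw [hu]
      exact useq_freq (v 0) hv1.le hv2
    exact h4 (v 0) hv1.le hv2.le hfr

end KT582
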