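import Pool.Agent.Lib.MP_582f03_nt.Basic

/-!
# A large sieve type counting bound
-/

namespace KT582

open Complex Finset

/-- `e x = exp (2 π i x)` -/
noncomputable def ex (x : ℝ) : ℂ := Complex.exp (((2 * Real.pi * x : ℝ) : ℂ) * Complex.I)

lemma ex_add (x y : ℝ) : ex (x + y) = ex x * ex y := by
  rw [ex, ex, ex, ← Complex.exp_add]; congr 1; push_cast; ring

lemma norm_ex (x : ℝ) : ‖ex x‖ = 1 := by
  rw [ex, Complex.norm_exp_ofReal_mul_I]

lemma ex_zero : ex 0 = 1 := by simp [ex]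

lemma ex_int (n : ℤ) : ex n = 1 := by
  rw [ex]
  have : (((2 * Real.pi * (n : ℝ) : ℝ) : ℂ) * Complex.I) = n * (2 * Real.pi * Complex.I) := by
    push_cast; ring
  rw [this, Complex.exp_int_mul_two_pi_mul_I]

lemma ex_sub_int (x : ℝ) (n : ℤ) : ex (x - n) = ex x := by
  have h : ex x = ex (x - n) * ex n := by rw [← ex_add]; congr 1; ring
  rw [h, ex_int, mul_one]

lemma ex_neg (x : ℝ) : ex (-x) = (starRingEnd ℂ) (ex x) := by
  rw [ex, ex, ← Complex.exp_conj]; congr 1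
  rw [map_mul, Complex.conj_ofReal, Complex.conj_I]; push_cast; ring

lemma ex_re (x : ℝ) : (ex x).re = Real.cos (2 * Real.pi * x) := by
  rw [ex, Complex.exp_ofReal_mul_I_re]

lemma ex_nat_mul (n : ℕ) (x : ℝ) : ex (n * x) = ex x ^ n := by
  rw [ex, ex, ← Complex.exp_nat_mul]; congr 1; push_cast; ring

lemma four_nd_le (x : ℝ) : 4 * nd x ≤ ‖1 - ex x‖ := by
  have h1 : ex x = ex (x - round x) := (ex_sub_int x (round x)).symm
  rw [h1]
  set t := x - round x with ht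
  have htb : |t| ≤ 1 / 2 := abs_sub_round x
  have hn : nd x = |t| := rfl
  rw [hn]
  -- |1 - e(t)|^2 = 4 sin^2 (π t)
  have h2 : ‖1 - ex t‖ ^ 2 = 4 * Real.sin (Real.pi * t) ^ 2 := by
    rw [← Complex.normSq_eq_norm_sq, Complex.normSq_apply]
    have hre : (1 - ex t).re = 1 - Real.cos (2 * Real.pi * t) := by simp [ex_re]
    have him : (1 - ex t).im = - Real.sin (2 * Real.pi * t) := by
      simp only [sub_im, one_im, zero_sub, neg_inj]
      rw [ex, Complex.exp_ofReal_mul_I_im]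
    rw [hre, him]
    have hc : Real.cos (2 * Real.pi * t) = 1 - 2 * Real.sin (Real.pi * t) ^ 2 := by
      have := Real.cos_sq' (Real.pi * t)
      have h3 := Real.cos_two_mul (Real.pi * t)
      rw [show 2 * Real.pi * t = 2 * (Real.pi * t) by ring, h3, this]; ring
    have hs := Real.sin_sq_add_cos_sq (2 * Real.pi * t)
    nlinarith [hs, hc]
  have h4 : ‖1 - ex t‖ = 2 * |Real.sin (Real.pi * t)| := by
    have h5 : ‖1 - ex t‖ ^ 2 = (2 * |Real.sin (Real.pi * t)|) ^ 2 := by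
      rw [h2, mul_pow, sq_abs]; ring
    exact (pow_left_inj₀ (norm_nonneg _) (by positivity) (by norm_num)).mp h5
  rw [h4]
  have hpi := Real.pi_pos
  have h6 : |Real.pi * t| ≤ Real.pi / 2 := by
    rw [abs_mul, abs_of_pos hpi]; nlinarith
  have h7 := Real.mul_abs_le_abs_sin h6
  rw [abs_mul, abs_of_pos hpi] at h7
  have h8 : 2 / Real.pi * (Real.pi * |t|) = 2 * |t| := by field_simp
  rw [h8] at h7
  linarith

/-- geometric exponential sum -/
noncomputable def S (M : ℕ) (x : ℝ) : ℂ := ∑ a ∈ range M, ex (a * x)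

lemma norm_S_le (M : ℕ) (x : ℝ) : ‖S M x‖ ≤ M := by
  rw [S]
  refine (norm_sum_le _ _).trans ?_
  simp [norm_ex]

lemma norm_S_mul_nd_le (M : ℕ) (x : ℝ) : ‖S M x‖ * (2 * nd x) ≤ 1 := by
  have h1 : S M x * (1 - ex x) = 1 - ex (M * x) := by
    rw [S]
    simp_rw [ex_nat_mul]
    have := geom_sum_mul_neg (ex x) M
    rw [this]
  have h2 : ‖S M x‖ * ‖1 - ex x‖ ≤ 2 := by
    rw [← norm_mul, h1]
    refine (norm_sub_le _ _).trans ?_
    rw [norm_ex, norm_one]; norm_num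
  have h3 := four_nd_le x
  have h4 : ‖S M x‖ * (4 * nd x) ≤ ‖S M x‖ * ‖1 - ex x‖ :=
    mul_le_mul_of_nonneg_left h3 (norm_nonneg _)
  linarith

/-- linear form value -/
noncomputable def dotp {c : ℕ} (h : Fin c → ℤ) (x : Fin c → ℝ) : ℝ := ∑ j, (h j : ℝ) * x j

lemma dotp_sub {c : ℕ} (h h' : Fin c → ℤ) (x : Fin c → ℝ) :
    dotp (h - h') x = dotp h x - dotp h' x := by
  simp [dotp, sub_mul, Finset.sum_sub_distrib]

/-- the box `[0,K)^c` -/
noncomputable def boxK (c K : ℕ) : Finset (Fin c → ℤ) := Fintype.piFinset (fun _ => Finset.Ico (0:ℤ) K)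

lemma card_boxK (c K : ℕ) : (boxK c K).card = K ^ c := by
  simp [boxK, Fintype.card_piFinset]

lemma mem_boxK {c K : ℕ} {h : Fin c → ℤ} : h ∈ boxK c K ↔ ∀ j, 0 ≤ h j ∧ h j < K := by
  simp [boxK, Fintype.mem_piFinset]

/-- The double-sum identity behind the dual large sieve. -/
lemma double_sum_le {ι : Type*} (H : Finset ι) (u : ι → ℂ) (hu : ∀ h ∈ H, ‖u h‖ = 1)
    (ξ : ι → ℝ) (q1 : ℤ) (M : ℕ) :
    ∑ a ∈ range M, ∑ b ∈ range M,
      ‖∑ h ∈ H, u h * ex (((q1 : ℝ) + a - b) * ξ h)‖ ^ 2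
      ≤ ∑ h ∈ H, ∑ h' ∈ H, ‖S M (ξ h - ξ h')‖ ^ 2 := by
  have key : ((∑ a ∈ range M, ∑ b ∈ range M,
      ‖∑ h ∈ H, u h * ex (((q1 : ℝ) + a - b) * ξ h)‖ ^ 2 : ℝ) : ℂ)
      = ∑ h ∈ H, ∑ h' ∈ H, (u h * ex (q1 * ξ h)) * (starRingEnd ℂ) (u h' * ex (q1 * ξ h')) *
          (S M (ξ h - ξ h') * (starRingEnd ℂ) (S M (ξ h - ξ h'))) := by
    push_cast
    have h1 : ∀ a b : ℕ, ((‖∑ h ∈ H, u h * ex (((q1 : ℝ) + a - b) * ξ h)‖ : ℝ) : ℂ) ^ 2
        = ∑ h ∈ H, ∑ h' ∈ H, (u h * ex (q1 * ξ h)) * (starRingEnd ℂ) (u h' * ex (q1 * ξ h')) *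
          (ex (a * (ξ h - ξ h')) * (starRingEnd ℂ) (ex (b * (ξ h - ξ h')))) := by
      intro a b
      rw [← Complex.mul_conj', map_sum, Finset.sum_mul_sum]
      refine Finset.sum_congr rfl fun h _ => Finset.sum_congr rfl fun h' _ => ?_
      have e1 : ex (((q1 : ℝ) + a - b) * ξ h) = ex (q1 * ξ h) * ex (a * ξ h) * ex (-(b * ξ h)) := by
        rw [← ex_add, ← ex_add]; congr 1; ring
      have e2 : ex (((q1 : ℝ) + a - b) * ξ h') =
          ex (q1 * ξ h') * ex (a * ξ h') * ex (-(b * ξ h')) := by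
        rw [← ex_add, ← ex_add]; congr 1; ring
      have e3 : ex (a * (ξ h - ξ h')) = ex (a * ξ h) * (starRingEnd ℂ) (ex (a * ξ h')) := by
        rw [← ex_neg, ← ex_add]; congr 1; ring
      have e4 : ex (b * (ξ h - ξ h')) = ex (b * ξ h) * (starRingEnd ℂ) (ex (b * ξ h')) := by
        rw [← ex_neg, ← ex_add]; congr 1; ring
      rw [e1, e2, e3, e4, ex_neg, ex_neg]
      simp only [map_mul, Complex.conj_conj]
      ring
    simp_rw [h1]
    -- swap the sums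
    rw [show (∑ a ∈ range M, ∑ b ∈ range M, ∑ h ∈ H, ∑ h' ∈ H,
        (u h * ex (q1 * ξ h)) * (starRingEnd ℂ) (u h' * ex (q1 * ξ h')) *
          (ex (a * (ξ h - ξ h')) * (starRingEnd ℂ) (ex (b * (ξ h - ξ h')))))
        = ∑ h ∈ H, ∑ h' ∈ H, ∑ a ∈ range M, ∑ b ∈ range M,
        (u h * ex (q1 * ξ h)) * (starRingEnd ℂ) (u h' * ex (q1 * ξ h')) *
          (ex (a * (ξ h - ξ h')) * (starRingEnd ℂ) (ex (b * (ξ h - ξ h')))) from ?_]
    · refine Finset.sum_congr rfl fun h _ => Finset.sum_congr rfl fun h' _ => ?_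
      rw [S, map_sum, Finset.sum_mul_sum, Finset.mul_sum]
      refine Finset.sum_congr rfl fun a _ => ?_
      rw [Finset.mul_sum]
    · calc _ = ∑ a ∈ range M, ∑ h ∈ H, ∑ b ∈ range M, ∑ h' ∈ H,
        (u h * ex (q1 * ξ h)) * (starRingEnd ℂ) (u h' * ex (q1 * ξ h')) *
          (ex (a * (ξ h - ξ h')) * (starRingEnd ℂ) (ex (b * (ξ h - ξ h')))) := by
            refine Finset.sum_congr rfl fun a _ => ?_
            rw [Finset.sum_comm]
        _ = ∑ h ∈ H, ∑ a ∈ range M, ∑ b ∈ range M, ∑ h' ∈ H,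
        (u h * ex (q1 * ξ h)) * (starRingEnd ℂ) (u h' * ex (q1 * ξ h')) *
          (ex (a * (ξ h - ξ h')) * (starRingEnd ℂ) (ex (b * (ξ h - ξ h')))) := by
            rw [Finset.sum_comm]
        _ = ∑ h ∈ H, ∑ a ∈ range M, ∑ h' ∈ H, ∑ b ∈ range M,
        (u h * ex (q1 * ξ h)) * (starRingEnd ℂ) (u h' * ex (q1 * ξ h')) *
          (ex (a * (ξ h - ξ h')) * (starRingEnd ℂ) (ex (b * (ξ h - ξ h')))) := by
            refine Finset.sum_congr rfl fun h _ => Finset.sum_congr rfl fun a _ => ?_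
            rw [Finset.sum_comm]
        _ = _ := by
            refine Finset.sum_congr rfl fun h _ => ?_
            rw [Finset.sum_comm]
  have h2 : (∑ a ∈ range M, ∑ b ∈ range M,
      ‖∑ h ∈ H, u h * ex (((q1 : ℝ) + a - b) * ξ h)‖ ^ 2 : ℝ)
      = ‖((∑ a ∈ range M, ∑ b ∈ range M,
      ‖∑ h ∈ H, u h * ex (((q1 : ℝ) + a - b) * ξ h)‖ ^ 2 : ℝ) : ℂ)‖ := by
    rw [Complex.norm_real, Real.norm_of_nonneg]
    positivity
  rw [h2, key]
  refine (norm_sum_le _ _).trans (Finset.sum_le_sum fun h hh => ?_)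
  refine (norm_sum_le _ _).trans (Finset.sum_le_sum fun h' hh' => ?_)
  rw [norm_mul, norm_mul, norm_mul, RCLike.norm_conj, norm_mul, norm_mul, RCLike.norm_conj,
    norm_ex, norm_ex, hu h hh, hu h' hh']
  rw [mul_one, mul_one, one_mul, sq]

lemma re_ex_ge {t : ℝ} (h : nd t ≤ 1 / 6) : 1 / 2 ≤ (ex t).re := by
  rw [← ex_sub_int t (round t), ex_re]
  set s := t - round t with hs
  have hsb : |s| ≤ 1 / 6 := h
  rw [← Real.cos_abs, abs_mul, abs_of_pos (by positivity : (0:ℝ) < 2 * Real.pi)]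
  rw [← Real.cos_pi_div_three]
  apply Real.cos_le_cos_of_nonneg_of_le_pi
  · positivity
  · have := Real.pi_pos; linarith
  · have := Real.pi_pos; nlinarith

lemma row_sum_le {ι : Type*} (H : Finset ι) (ξ : ι → ℝ) (N : ℕ) (hN : 1 ≤ N) (Z : ℝ) (h0 : ι)
    (hZ : ∀ m : ℕ, ((H.filter (fun h => ⌊2 * N * nd (ξ h0 - ξ h)⌋₊ = m)).card : ℝ) ≤ Z) :
    ∑ h ∈ H, ‖S (2 * N) (ξ h0 - ξ h)‖ ^ 2 ≤ 6 * N ^ 2 * Z := by
  have hN' : (1:ℝ) ≤ N := by exact_mod_cast hN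
  have hZ0 : 0 ≤ Z := le_trans (by positivity) (hZ 0)
  have hmaps : ∀ h ∈ H, ⌊2 * N * nd (ξ h0 - ξ h)⌋₊ ∈ range (N + 1) := by
    intro h _
    rw [mem_range, Nat.lt_succ_iff]
    have h1 := nd_le_half (ξ h0 - ξ h)
    have h2 : 2 * (N:ℝ) * nd (ξ h0 - ξ h) ≤ N := by nlinarith
    calc _ ≤ ⌊(N:ℝ)⌋₊ := Nat.floor_le_floor h2
      _ = N := Nat.floor_natCast N
  rw [← Finset.sum_fiberwise_of_maps_to hmaps]
  have hw : ∀ m ∈ range (N + 1), ∑ h ∈ H with ⌊2 * N * nd (ξ h0 - ξ h)⌋₊ = m,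
      ‖S (2 * N) (ξ h0 - ξ h)‖ ^ 2 ≤ Z * (if m = 0 then 4 * (N:ℝ) ^ 2 else N ^ 2 * ((m:ℝ) ^ 2)⁻¹) := by
    intro m _
    have hb : ∀ h ∈ H.filter (fun h => ⌊2 * N * nd (ξ h0 - ξ h)⌋₊ = m),
        ‖S (2 * N) (ξ h0 - ξ h)‖ ^ 2 ≤ (if m = 0 then 4 * (N:ℝ) ^ 2 else N ^ 2 * ((m:ℝ) ^ 2)⁻¹) := by
      intro h hh
      rw [mem_filter] at hh
      split_ifs with hm
      · have := norm_S_le (2 * N) (ξ h0 - ξ h)
        have h0' := norm_nonneg (S (2 * N) (ξ h0 - ξ h))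
        push_cast at this
        nlinarith
      · have hm1 : (1:ℝ) ≤ m := by exact_mod_cast Nat.one_le_iff_ne_zero.mpr hm
        have h3 : (m:ℝ) ≤ 2 * N * nd (ξ h0 - ξ h) := by
          rw [← hh.2]
          exact Nat.floor_le (by have := nd_nonneg (ξ h0 - ξ h); positivity)
        have h4 := norm_S_mul_nd_le (2 * N) (ξ h0 - ξ h)
        set s := ‖S (2 * N) (ξ h0 - ξ h)‖ with hs
        have hs0 : 0 ≤ s := norm_nonneg _
        have h5 : s * m ≤ N := by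
          calc s * m ≤ s * (2 * N * nd (ξ h0 - ξ h)) := mul_le_mul_of_nonneg_left h3 hs0
            _ = N * (s * (2 * nd (ξ h0 - ξ h))) := by ring
            _ ≤ N * 1 := mul_le_mul_of_nonneg_left h4 (by positivity)
            _ = N := mul_one _
        have h6 : s ^ 2 * (m:ℝ) ^ 2 ≤ N ^ 2 := by
          rw [← mul_pow]; exact pow_le_pow_left₀ (by positivity) h5 2
        rw [← div_eq_mul_inv, le_div_iff₀ (by positivity)]
        exact h6
    calc _ ≤ ∑ h ∈ H with ⌊2 * N * nd (ξ h0 - ξ h)⌋₊ = m,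
          (if m = 0 then 4 * (N:ℝ) ^ 2 else N ^ 2 * ((m:ℝ) ^ 2)⁻¹) := Finset.sum_le_sum hb
      _ = ((H.filter (fun h => ⌊2 * N * nd (ξ h0 - ξ h)⌋₊ = m)).card : ℝ) *
          (if m = 0 then 4 * (N:ℝ) ^ 2 else N ^ 2 * ((m:ℝ) ^ 2)⁻¹) := by
          rw [Finset.sum_const, nsmul_eq_mul]
      _ ≤ _ := by
          apply mul_le_mul_of_nonneg_right (hZ m)
          split_ifs <;> positivity
  refine (Finset.sum_le_sum hw).trans ?_
  rw [← Finset.mul_sum, Finset.sum_range_succ']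
  simp only [if_true]
  have h7 : ∑ k ∈ range N, (if k + 1 = 0 then 4 * (N:ℝ) ^ 2 else N ^ 2 * (((k + 1 : ℕ):ℝ) ^ 2)⁻¹)
      = N ^ 2 * ∑ i ∈ Ioo 0 (N + 1), ((i:ℝ) ^ 2)⁻¹ := by
    rw [Finset.mul_sum]
    have : Ioo 0 (N + 1) = (range N).image (fun k => k + 1) := by
      ext x
      simp only [mem_Ioo, mem_image, mem_range]
      constructor
      · rintro ⟨h1, h2⟩; exact ⟨x - 1, by omega, by omega⟩
      · rintro ⟨a, h1, rfl⟩; omega
    rw [this, Finset.sum_image (by intro a _ b _ h; simpa using h)]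
    refine Finset.sum_congr rfl fun k _ => ?_
    simp
  rw [h7]
  have h8 : ∑ i ∈ Ioo 0 (N + 1), ((i:ℝ) ^ 2)⁻¹ ≤ 2 / ((0:ℕ) + 1) := sum_Ioo_inv_sq_le 0 (N + 1)
  have h9 : (N:ℝ) ^ 2 * ∑ i ∈ Ioo 0 (N + 1), ((i:ℝ) ^ 2)⁻¹ ≤ N ^ 2 * 2 := by
    apply mul_le_mul_of_nonneg_left _ (by positivity)
    simpa using h8
  nlinarith

theorem sieve_count {c K N : ℕ} (hK : 1 ≤ K) (hN : 1 ≤ N) (α θ : Fin c → ℝ)
    (I : Finset ℤ) (q1 : ℤ) (hI : ∀ q ∈ I, |q - q1| ≤ N)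
    (hθ : ∀ q ∈ I, ∀ j, nd (q * α j - θ j) * (6 * c * K) ≤ 1) (Z : ℝ)
    (hZ : ∀ h0 ∈ boxK c K, ∀ m : ℕ,
      (((boxK c K).filter (fun h => ⌊2 * N * nd (dotp h0 α - dotp h α)⌋₊ = m)).card : ℝ) ≤ Z) :
    (I.card : ℝ) * K ^ c ≤ 24 * N * Z := by
  set H := boxK c K with hH
  have hcard : (H.card : ℝ) = K ^ c := by rw [hH, card_boxK]; push_cast; ring
  have hKc : (0:ℝ) < K ^ c := by positivity
  set f : ℝ → ℂ := fun q => ∑ h ∈ H, ex (-(dotp h θ)) * ex (q * dotp h α) with hf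
  have hf1 : ∀ q ∈ I, (K:ℝ) ^ c / 2 ≤ ‖f q‖ := by
    intro q hq
    refine le_trans ?_ (Complex.re_le_norm _)
    rw [hf]; simp only [Complex.re_sum]
    rw [← hcard, div_eq_mul_one_div, ← nsmul_eq_mul]
    refine Finset.card_nsmul_le_sum _ _ _ fun h hh => ?_
    rw [← ex_add]
    apply re_ex_ge
    rw [hH, mem_boxK] at hh
    have e1 : -(dotp h θ) + q * dotp h α = ∑ j, (h j : ℝ) * (q * α j - θ j) := by
      rw [dotp, dotp, Finset.mul_sum, ← Finset.sum_neg_distrib, ← Finset.sum_add_distrib]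
      refine Finset.sum_congr rfl fun j _ => ?_
      ring
    rw [e1]
    refine (nd_sum_le _ _).trans ?_
    rcases Nat.eq_zero_or_pos c with hc | hc
    · subst hc; simp
    have hc' : (0:ℝ) < c := by exact_mod_cast hc
    have hK' : (0:ℝ) < K := by exact_mod_cast hK
    have : ∀ j ∈ (Finset.univ : Finset (Fin c)), nd ((h j : ℝ) * (q * α j - θ j)) ≤ 1 / (6 * c) := by
      intro j _
      refine (nd_int_mul_le _ _).trans ?_
      have h1 := hθ q hq j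
      have h2 : |(h j : ℝ)| ≤ K := by
        rw [abs_of_nonneg (by exact_mod_cast (hh j).1)]
        exact_mod_cast (hh j).2.le
      have h3 := nd_nonneg (q * α j - θ j)
      rw [le_div_iff₀ (by positivity)]
      calc |(h j : ℝ)| * nd (q * α j - θ j) * (6 * c) ≤ K * nd (q * α j - θ j) * (6 * c) := by
            gcongr
        _ = nd (q * α j - θ j) * (6 * c * K) := by ring
        _ ≤ 1 := h1
    refine (Finset.sum_le_card_nsmul _ _ _ this).trans ?_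
    rw [Finset.card_univ, Fintype.card_fin, nsmul_eq_mul]
    apply le_of_eq; field_simp
  -- lower bound of the sum over I
  have hlow : (I.card : ℝ) * ((K:ℝ) ^ c / 2) ^ 2 ≤ ∑ q ∈ I, ‖f q‖ ^ 2 := by
    rw [← nsmul_eq_mul]
    refine Finset.card_nsmul_le_sum _ _ _ fun q hq => ?_
    exact pow_le_pow_left₀ (by positivity) (hf1 q hq) 2
  -- upper bound
  have hup : (N : ℝ) * ∑ q ∈ I, ‖f q‖ ^ 2 ≤
      ∑ a ∈ range (2 * N), ∑ b ∈ range (2 * N), ‖f ((q1 : ℝ) + a - b)‖ ^ 2 := by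
    have e1 : (N : ℝ) * ∑ q ∈ I, ‖f q‖ ^ 2 = ∑ p ∈ I ×ˢ range N, ‖f p.1‖ ^ 2 := by
      rw [Finset.sum_product]
      simp only [Finset.sum_const, Finset.card_range, nsmul_eq_mul]
      rw [Finset.mul_sum]
    rw [e1, ← Finset.sum_product']
    set φ : ℤ × ℕ → ℕ × ℕ := fun p => (p.2 + (p.1 - q1).toNat, p.2 + (q1 - p.1).toNat) with hφ
    have hdiff : ∀ p : ℤ × ℕ, (((φ p).1 : ℤ) - (φ p).2) = p.1 - q1 := by
      intro p
      simp only [hφ]
      push_cast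
      omega
    have hinj : Set.InjOn φ (I ×ˢ range N : Finset (ℤ × ℕ)) := by
      intro p _ p' _ hpp
      have h1 := hdiff p
      have h2 := hdiff p'
      rw [hpp] at h1
      have h3 : p.1 = p'.1 := by omega
      have h4 : (φ p).1 = (φ p').1 := by rw [hpp]
      simp only [hφ] at h4
      rw [h3] at h4
      have h5 : p.2 = p'.2 := by omega
      exact Prod.ext h3 h5
    have e2 : ∑ p ∈ I ×ˢ range N, ‖f p.1‖ ^ 2
        = ∑ x ∈ (I ×ˢ range N).image φ, ‖f ((q1 : ℝ) + x.1 - x.2)‖ ^ 2 := by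
      rw [Finset.sum_image hinj]
      refine Finset.sum_congr rfl fun p _ => ?_
      have h1 := hdiff p
      have h2 : (q1 : ℝ) + (φ p).1 - (φ p).2 = p.1 := by
        have : (((φ p).1 : ℝ) - (φ p).2) = (p.1 : ℝ) - q1 := by exact_mod_cast h1
        linarith
      rw [h2]
    rw [e2]
    apply Finset.sum_le_sum_of_subset_of_nonneg
    · intro x hx
      rw [mem_image] at hx
      obtain ⟨p, hp, rfl⟩ := hx
      rw [mem_product, mem_range] at hp
      have h1 := hI p.1 hp.1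
      rw [abs_le] at h1
      simp only [hφ, mem_product, mem_range]
      constructor <;> omega
    · intros; positivity
  have hds := double_sum_le H (fun h => ex (-(dotp h θ))) (fun h _ => norm_ex _)
    (fun h => dotp h α) q1 (2 * N)
  have hrow : ∑ h ∈ H, ∑ h' ∈ H, ‖S (2 * N) (dotp h α - dotp h' α)‖ ^ 2 ≤ (K:ℝ) ^ c * (6 * N ^ 2 * Z) := by
    rw [← hcard, ← nsmul_eq_mul]
    refine Finset.sum_le_card_nsmul _ _ _ fun h hh => ?_
    exact row_sum_le H (fun h => dotp h α) N hN Z h (hZ h hh)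
  have hN' : (0:ℝ) < N := by exact_mod_cast hN
  have hfin : (N:ℝ) * (I.card * ((K:ℝ) ^ c / 2) ^ 2) ≤ (K:ℝ) ^ c * (6 * N ^ 2 * Z) :=
    calc _ ≤ (N:ℝ) * ∑ q ∈ I, ‖f q‖ ^ 2 := mul_le_mul_of_nonneg_left hlow hN'.le
      _ ≤ _ := hup
      _ ≤ _ := hds
      _ ≤ _ := hrow
  have h10 : (N:ℝ) * (K:ℝ) ^ c * (I.card * K ^ c) ≤ (N:ℝ) * (K:ℝ) ^ c * (24 * N * Z) := by
    nlinarith
  exact le_of_mul_le_mul_left h10 (by positivity)

end KT582
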