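import Pool.Agent.Lib.MP_582f03_nt.Vol

/-!
# An abstract local ubiquity lemma in the plane
-/

set_option maxHeartbeats 400000

namespace KT582

open Finset MeasureTheory

/-- a quadratic form of the Chung–Erdős inequality -/
lemma chung_erdos {Ω : Type*} [MeasurableSpace Ω] (μ : Measure Ω) [IsFiniteMeasure μ]
    (F : Finset ℕ) (A : ℕ → Set Ω) (hA : ∀ k, MeasurableSet (A k)) (t : ℝ) :
    2 * t * ∑ k ∈ F, μ.real (A k) - t ^ 2 * ∑ j ∈ F, ∑ k ∈ F, μ.real (A j ∩ A k) ≤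
      μ.real (⋃ k ∈ F, A k) := by
  classical
  have hU : MeasurableSet (⋃ k ∈ F, A k) := Finset.measurableSet_biUnion F fun k _ => hA k
  have h1 : ∀ s : Set Ω, MeasurableSet s → Integrable (s.indicator (fun _ => (1:ℝ))) μ := by
    intro s hs
    exact (integrable_const 1).indicator hs
  have hpt : ∀ x, 2 * t * ∑ k ∈ F, (A k).indicator (fun _ => (1:ℝ)) x -
      t ^ 2 * ∑ j ∈ F, ∑ k ∈ F, (A j ∩ A k).indicator (fun _ => (1:ℝ)) x ≤
      (⋃ k ∈ F, A k).indicator (fun _ => (1:ℝ)) x := by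
    intro x
    have e1 : ∑ j ∈ F, ∑ k ∈ F, (A j ∩ A k).indicator (fun _ => (1:ℝ)) x =
        (∑ k ∈ F, (A k).indicator (fun _ => (1:ℝ)) x) ^ 2 := by
      rw [sq, Finset.sum_mul_sum]
      refine Finset.sum_congr rfl fun j _ => Finset.sum_congr rfl fun k _ => ?_
      simp only [Set.indicator, Set.mem_inter_iff]
      by_cases hj : x ∈ A j <;> by_cases hk : x ∈ A k <;> simp [hj, hk]
    rw [e1]
    by_cases hx : x ∈ ⋃ k ∈ F, A k
    · rw [Set.indicator_of_mem hx]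
      nlinarith [sq_nonneg (1 - t * ∑ k ∈ F, (A k).indicator (fun _ => (1:ℝ)) x)]
    · rw [Set.indicator_of_notMem hx]
      have e2 : ∑ k ∈ F, (A k).indicator (fun _ => (1:ℝ)) x = 0 := by
        refine Finset.sum_eq_zero fun k hk => ?_
        rw [Set.indicator_of_notMem]
        intro hxk
        apply hx
        simp only [Set.mem_iUnion]
        exact ⟨k, hk, hxk⟩
      rw [e2]; simp
  have hi1 : Integrable (fun x => ∑ k ∈ F, (A k).indicator (fun _ => (1:ℝ)) x) μ :=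
    integrable_finset_sum _ fun k _ => h1 _ (hA k)
  have hi2 : Integrable (fun x => ∑ j ∈ F, ∑ k ∈ F, (A j ∩ A k).indicator (fun _ => (1:ℝ)) x) μ :=
    integrable_finset_sum _ fun j _ => integrable_finset_sum _ fun k _ => h1 _ ((hA j).inter (hA k))
  have hint := integral_mono ((hi1.const_mul (2 * t)).sub (hi2.const_mul (t ^ 2))) (h1 _ hU) hpt
  have hI : ∀ s : Set Ω, MeasurableSet s → ∫ x, s.indicator (fun _ => (1:ℝ)) x ∂μ = μ.real s := by
    intro s hs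
    rw [integral_indicator_const _ hs]
    simp
  rw [hI _ hU] at hint
  have hL : ∫ x, ((fun x => 2 * t * ∑ k ∈ F, (A k).indicator (fun _ => (1:ℝ)) x) -
      fun x => t ^ 2 * ∑ j ∈ F, ∑ k ∈ F, (A j ∩ A k).indicator (fun _ => (1:ℝ)) x) x ∂μ =
      2 * t * ∑ k ∈ F, μ.real (A k) - t ^ 2 * ∑ j ∈ F, ∑ k ∈ F, μ.real (A j ∩ A k) := by
    simp only [Pi.sub_apply]
    rw [integral_sub (hi1.const_mul (2 * t)) (hi2.const_mul (t ^ 2)), integral_const_mul,
      integral_const_mul, integral_finset_sum _ (fun k _ => h1 _ (hA k)),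
      integral_finset_sum _ (fun j _ => integrable_finset_sum _ fun k _ => h1 _ ((hA j).inter (hA k)))]
    congr 1
    · congr 1
      exact Finset.sum_congr rfl fun k _ => hI _ (hA k)
    · congr 1
      refine Finset.sum_congr rfl fun j _ => ?_
      rw [integral_finset_sum _ (fun k _ => h1 _ ((hA j).inter (hA k)))]
      exact Finset.sum_congr rfl fun k _ => hI _ ((hA j).inter (hA k))
  rw [hL] at hint
  exact hint

/-- packing -/
lemma card_packing (Z : Finset (ℝ × ℝ)) (z0 : ℝ × ℝ) {δ r : ℝ} (hδ : 0 < δ) (hr : 0 ≤ r)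
    (hZ : ∀ z ∈ Z, z ∈ Metric.closedBall z0 r)
    (hsep : ∀ z ∈ Z, ∀ w ∈ Z, z ≠ w → δ ≤ dist z w) :
    (Z.card : ℝ) ≤ (2 * r / δ + 2) ^ 2 := by
  classical
  set g : ℝ × ℝ → ℤ × ℤ := fun z => (⌊(z.1 - (z0.1 - r)) / δ⌋, ⌊(z.2 - (z0.2 - r)) / δ⌋) with hg
  have hrd : 0 ≤ 2 * r / δ := by positivity
  have haux : ∀ a b : ℝ, |a - b| ≤ r → ⌊(a - (b - r)) / δ⌋ ∈ Finset.Icc (0:ℤ) ⌊2 * r / δ⌋ := by
    intro a b hab
    rw [abs_le] at hab
    rw [Finset.mem_Icc]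
    constructor
    · apply Int.floor_nonneg.mpr
      apply div_nonneg _ hδ.le
      linarith
    · apply Int.floor_le_floor
      apply div_le_div_of_nonneg_right _ hδ.le
      linarith
  have hmaps : Set.MapsTo g Z ((Finset.Icc (0:ℤ) ⌊2 * r / δ⌋) ×ˢ (Finset.Icc (0:ℤ) ⌊2 * r / δ⌋) : Finset _) := by
    intro z hz
    have h1 := hZ z hz
    rw [Metric.mem_closedBall, Prod.dist_eq, max_le_iff, Real.dist_eq, Real.dist_eq] at h1
    rw [Finset.mem_coe, Finset.mem_product]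
    exact ⟨haux _ _ h1.1, haux _ _ h1.2⟩
  have hinj : Set.InjOn g Z := by
    intro z hz w hw hzw
    by_contra hne
    have h1 := hsep z hz w hw hne
    simp only [hg, Prod.mk.injEq] at hzw
    have haux2 : ∀ a b e : ℝ, ⌊(a - e) / δ⌋ = ⌊(b - e) / δ⌋ → |a - b| < δ := by
      intro a b e h
      have e1 := Int.floor_le ((a - e) / δ)
      have e2 := Int.lt_floor_add_one ((a - e) / δ)
      have e3 := Int.floor_le ((b - e) / δ)
      have e4 := Int.lt_floor_add_one ((b - e) / δ)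
      rw [h] at e1 e2
      have e5 : |(a - e) / δ - (b - e) / δ| < 1 := by
        rw [abs_lt]; constructor <;> linarith
      have e6 : (a - e) / δ - (b - e) / δ = (a - b) / δ := by ring
      rw [e6, abs_div, abs_of_pos hδ, div_lt_one hδ] at e5
      exact e5
    have h2 := haux2 _ _ _ hzw.1
    have h3 := haux2 _ _ _ hzw.2
    rw [Prod.dist_eq, Real.dist_eq, Real.dist_eq] at h1
    rcases le_max_iff.mp h1 with h | h <;> linarith
  have hc := Finset.card_le_card_of_injOn g hmaps hinj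
  rw [Finset.card_product, Int.card_Icc] at hc
  have hfl : ((⌊2 * r / δ⌋ + 1 - 0).toNat : ℝ) ≤ 2 * r / δ + 2 := by
    have h0 : (0:ℤ) ≤ ⌊2 * r / δ⌋ := Int.floor_nonneg.mpr hrd
    have h1 := Int.floor_le (2 * r / δ)
    have h2 : ((⌊2 * r / δ⌋ + 1 - 0).toNat : ℝ) = ((⌊2 * r / δ⌋ + 1 : ℤ) : ℝ) := by
      have h3 : (((⌊2 * r / δ⌋ + 1 - 0).toNat : ℤ) : ℝ) = ((⌊2 * r / δ⌋ + 1 : ℤ) : ℝ) := by
        rw [Int.toNat_of_nonneg (by omega)]
        push_cast; ring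
      rw [← h3]; push_cast; rfl
    rw [h2]; push_cast; linarith
  calc (Z.card : ℝ) ≤ (((⌊2 * r / δ⌋ + 1 - 0).toNat * (⌊2 * r / δ⌋ + 1 - 0).toNat : ℕ) : ℝ) := by
        exact_mod_cast hc
    _ = ((⌊2 * r / δ⌋ + 1 - 0).toNat : ℝ) ^ 2 := by push_cast; ring
    _ ≤ _ := by gcongr

/-- a layer of separated centres with shrinking balls -/
structure Lay (x0 : ℝ × ℝ) (ρ : ℝ) (Z : Finset (ℝ × ℝ)) (δ rr : ℝ) : Prop where
  sub : ∀ z ∈ Z, z ∈ Metric.closedBall x0 (ρ + δ)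
  sep : ∀ z ∈ Z, ∀ w ∈ Z, z ≠ w → δ ≤ dist z w
  card : ρ ^ 2 ≤ 8 * δ ^ 2 * Z.card
  hδ : 0 < δ
  hδρ : 2 * δ ≤ ρ
  hrr : 0 < rr
  hrr4 : 4 * rr ≤ δ

/-- the union of the balls of a layer -/
def cov (Z : Finset (ℝ × ℝ)) (rr : ℝ) : Set (ℝ × ℝ) := ⋃ z ∈ Z, Metric.closedBall z rr

lemma measurableSet_cov (Z : Finset (ℝ × ℝ)) (rr : ℝ) : MeasurableSet (cov Z rr) :=
  Finset.measurableSet_biUnion Z fun _ _ => Metric.isClosed_closedBall.measurableSet

lemma real_closedBall (x : ℝ × ℝ) {r : ℝ} (hr : 0 ≤ r) :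
    (volume (Metric.closedBall x r)).toReal = (2 * r) ^ 2 := by
  rw [vol_closedBall x hr, ENNReal.toReal_ofReal (by positivity)]

lemma Lay.card_le {x0 : ℝ × ℝ} {ρ δ rr : ℝ} {Z : Finset (ℝ × ℝ)} (L : Lay x0 ρ Z δ rr) :
    (Z.card : ℝ) ≤ 16 * ρ ^ 2 / δ ^ 2 := by
  have hδ := L.hδ
  have hρ : 0 < ρ := by linarith [L.hδρ]
  have h1 := card_packing Z x0 L.hδ (by positivity : 0 ≤ ρ + δ) L.sub L.sep
  refine h1.trans ?_
  have h2 : 2 * (ρ + δ) / δ + 2 ≤ 4 * ρ / δ := by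
    rw [div_add' _ _ _ hδ.ne', div_le_div_iff_of_pos_right hδ]
    linarith [L.hδρ]
  calc (2 * (ρ + δ) / δ + 2) ^ 2 ≤ (4 * ρ / δ) ^ 2 := by gcongr
    _ = _ := by ring

lemma Lay.measure_eq {x0 : ℝ × ℝ} {ρ δ rr : ℝ} {Z : Finset (ℝ × ℝ)} (L : Lay x0 ρ Z δ rr) :
    (volume.restrict (Metric.closedBall x0 (2 * ρ))).real (cov Z rr) = Z.card * (2 * rr) ^ 2 := by
  have hδ := L.hδ
  have hrr := L.hrr
  have hrr4 := L.hrr4
  have hδρ := L.hδρ
  have hsub : ∀ z ∈ Z, Metric.closedBall z rr ⊆ Metric.closedBall x0 (2 * ρ) := by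
    intro z hz
    apply Metric.closedBall_subset_closedBall'
    have := L.sub z hz
    rw [Metric.mem_closedBall] at this
    linarith
  have hdisj : (Z : Set (ℝ × ℝ)).PairwiseDisjoint fun z => Metric.closedBall z rr := by
    intro z hz w hw hne
    apply Metric.closedBall_disjoint_closedBall
    have := L.sep z hz w hw hne
    linarith
  rw [Measure.real, cov, measure_biUnion_finset hdisj
    (fun z _ => Metric.isClosed_closedBall.measurableSet)]
  have h1 : ∀ z ∈ Z, (volume.restrict (Metric.closedBall x0 (2 * ρ))) (Metric.closedBall z rr) =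
      ENNReal.ofReal ((2 * rr) ^ 2) := by
    intro z hz
    rw [Measure.restrict_apply Metric.isClosed_closedBall.measurableSet,
      Set.inter_eq_left.mpr (hsub z hz), vol_closedBall z hrr.le]
  rw [Finset.sum_congr rfl h1, Finset.sum_const, nsmul_eq_mul, ENNReal.toReal_mul,
    ENNReal.toReal_natCast, ENNReal.toReal_ofReal (by positivity)]

lemma cov_inter_le {x0 : ℝ × ℝ} {ρ δ1 δ2 r1 r2 : ℝ} {Z1 Z2 : Finset (ℝ × ℝ)}
    (L1 : Lay x0 ρ Z1 δ1 r1) (L2 : Lay x0 ρ Z2 δ2 r2) :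
    (volume.restrict (Metric.closedBall x0 (2 * ρ))).real (cov Z1 r1 ∩ cov Z2 r2) ≤
      Z1.card * ((2 * (r1 + r2) / δ2 + 2) ^ 2 * (2 * r2) ^ 2) := by
  classical
  have hr1 := L1.hrr
  have hr2 := L2.hrr
  have hsub : cov Z1 r1 ∩ cov Z2 r2 ⊆
      ⋃ z ∈ Z1, ⋃ y ∈ Z2.filter (fun y => y ∈ Metric.closedBall z (r1 + r2)), Metric.closedBall y r2 := by
    rintro x ⟨hx1, hx2⟩
    simp only [cov, Set.mem_iUnion] at hx1 hx2
    obtain ⟨z, hz, hxz⟩ := hx1
    obtain ⟨y, hy, hxy⟩ := hx2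
    simp only [Set.mem_iUnion]
    refine ⟨z, hz, y, ?_, hxy⟩
    rw [Finset.mem_filter]
    refine ⟨hy, ?_⟩
    rw [Metric.mem_closedBall] at *
    have := dist_triangle_left y z x
    linarith
  set μ := volume.restrict (Metric.closedBall x0 (2 * ρ)) with hμ
  have hball : ∀ y, μ (Metric.closedBall y r2) ≤ ENNReal.ofReal ((2 * r2) ^ 2) := by
    intro y
    rw [← vol_closedBall y hr2.le]
    exact Measure.restrict_apply_le _ _
  have h1 : μ (cov Z1 r1 ∩ cov Z2 r2) ≤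
      ENNReal.ofReal (Z1.card * ((2 * (r1 + r2) / δ2 + 2) ^ 2 * (2 * r2) ^ 2)) := by
    calc μ (cov Z1 r1 ∩ cov Z2 r2) ≤ μ (⋃ z ∈ Z1,
          ⋃ y ∈ Z2.filter (fun y => y ∈ Metric.closedBall z (r1 + r2)), Metric.closedBall y r2) :=
          measure_mono hsub
      _ ≤ ∑ z ∈ Z1, μ (⋃ y ∈ Z2.filter (fun y => y ∈ Metric.closedBall z (r1 + r2)),
          Metric.closedBall y r2) := measure_biUnion_finset_le _ _
      _ ≤ ∑ z ∈ Z1, ENNReal.ofReal ((2 * (r1 + r2) / δ2 + 2) ^ 2 * (2 * r2) ^ 2) := by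
          refine Finset.sum_le_sum fun z _ => ?_
          calc _ ≤ ∑ y ∈ Z2.filter (fun y => y ∈ Metric.closedBall z (r1 + r2)),
                μ (Metric.closedBall y r2) := measure_biUnion_finset_le _ _
            _ ≤ ∑ y ∈ Z2.filter (fun y => y ∈ Metric.closedBall z (r1 + r2)),
                ENNReal.ofReal ((2 * r2) ^ 2) := Finset.sum_le_sum fun y _ => hball y
            _ = ENNReal.ofReal (((Z2.filter (fun y => y ∈ Metric.closedBall z (r1 + r2))).card : ℝ) *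
                (2 * r2) ^ 2) := by
                rw [Finset.sum_const, nsmul_eq_mul, ENNReal.ofReal_mul (by positivity),
                  ENNReal.ofReal_natCast]
            _ ≤ _ := by
                apply ENNReal.ofReal_le_ofReal
                apply mul_le_mul_of_nonneg_right _ (by positivity)
                apply card_packing _ z L2.hδ (by positivity)
                · intro y hy
                  rw [Finset.mem_filter] at hy
                  exact hy.2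
                · intro y hy w hw
                  rw [Finset.mem_filter] at hy hw
                  exact L2.sep y hy.1 w hw.1
      _ = _ := by
          rw [Finset.sum_const, nsmul_eq_mul, ENNReal.ofReal_mul (by positivity : (0:ℝ) ≤ Z1.card),
            ENNReal.ofReal_natCast]
  have h2 := ENNReal.toReal_mono ENNReal.ofReal_ne_top h1
  rw [ENNReal.toReal_ofReal (by positivity)] at h2
  exact h2

lemma cov_inter_le' {x0 : ℝ × ℝ} {ρ δ1 δ2 r1 r2 : ℝ} {Z1 Z2 : Finset (ℝ × ℝ)}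
    (L1 : Lay x0 ρ Z1 δ1 r1) (L2 : Lay x0 ρ Z2 δ2 r2) :
    (volume.restrict (Metric.closedBall x0 (2 * ρ))).real (cov Z1 r1 ∩ cov Z2 r2) ≤
      ρ ^ 2 * (512 * ((r1 / δ1) ^ 2 * (r2 / δ2) ^ 2) + 1152 * (r2 ^ 2 * (1 / δ1 ^ 2))) := by
  have hd1 := L1.hδ
  have hd2 := L2.hδ
  have hr1 := L1.hrr
  have hr2 := L2.hrr
  have h4 := L2.hrr4
  refine (cov_inter_le L1 L2).trans ?_
  have e1 : (2 * (r1 + r2) / δ2 + 2) ^ 2 ≤ 8 * (r1 ^ 2 / δ2 ^ 2) + 18 := by
    have e2 : 2 * (r1 + r2) / δ2 + 2 ≤ 2 * (r1 / δ2) + 3 := by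
      have : 2 * (r1 + r2) / δ2 = 2 * (r1 / δ2) + 2 * r2 / δ2 := by ring
      rw [this]
      have : 2 * r2 / δ2 ≤ 1 := by rw [div_le_one hd2]; linarith
      linarith
    have e3 : 0 ≤ r1 / δ2 := by positivity
    have e4 : 0 ≤ 2 * (r1 + r2) / δ2 + 2 := by positivity
    have e5 : (r1 / δ2) ^ 2 = r1 ^ 2 / δ2 ^ 2 := by ring
    rw [← e5]
    calc (2 * (r1 + r2) / δ2 + 2) ^ 2 ≤ (2 * (r1 / δ2) + 3) ^ 2 := by gcongr
      _ ≤ _ := by nlinarith [sq_nonneg (2 * (r1 / δ2) - 3)]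
  calc (Z1.card:ℝ) * ((2 * (r1 + r2) / δ2 + 2) ^ 2 * (2 * r2) ^ 2)
      ≤ (16 * ρ ^ 2 / δ1 ^ 2) * ((8 * (r1 ^ 2 / δ2 ^ 2) + 18) * (2 * r2) ^ 2) := by
        gcongr
        exact L1.card_le
    _ = _ := by
        field_simp
        ring

/-- the finite union has substantial measure -/
lemma ubiq_union {x0 : ℝ × ℝ} {ρ : ℝ} (F : Finset ℕ) (Z : ℕ → Finset (ℝ × ℝ)) (δ rr : ℕ → ℝ)
    (hL : ∀ k ∈ F, Lay x0 ρ (Z k) (δ k) (rr k)) (hW : 1 ≤ ∑ k ∈ F, (rr k / δ k) ^ 2)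
    (hδ : ∀ k ∈ F, ∑ j ∈ F.filter (fun j => j < k), 1 / δ j ^ 2 ≤ 1 / δ k ^ 2) :
    ρ ^ 2 / 11520 ≤ (volume.restrict (Metric.closedBall x0 (2 * ρ))).real
      (⋃ k ∈ F, cov (Z k) (rr k)) := by
  classical
  haveI : IsFiniteMeasure (volume.restrict (Metric.closedBall x0 (2 * ρ))) := by
    constructor
    rw [Measure.restrict_apply_univ]
    exact (isCompact_closedBall _ _).measure_lt_top
  set μ := volume.restrict (Metric.closedBall x0 (2 * ρ)) with hμ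
  set W : ℝ := ∑ k ∈ F, (rr k / δ k) ^ 2 with hWdef
  have hlow : ρ ^ 2 * W / 2 ≤ ∑ k ∈ F, μ.real (cov (Z k) (rr k)) := by
    rw [hWdef, Finset.mul_sum, Finset.sum_div]
    refine Finset.sum_le_sum fun k hk => ?_
    have L := hL k hk
    have hd := L.hδ
    have hr := L.hrr
    rw [L.measure_eq]
    have := L.card
    calc ρ ^ 2 * (rr k / δ k) ^ 2 / 2 ≤ (8 * δ k ^ 2 * (Z k).card) * (rr k / δ k) ^ 2 / 2 := by
          gcongr
      _ = _ := by
          field_simp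
          ring
  have hup : ∑ j ∈ F, ∑ k ∈ F, μ.real (cov (Z j) (rr j) ∩ cov (Z k) (rr k)) ≤
      2880 * ρ ^ 2 * W ^ 2 := by
    have hterm : ∀ j ∈ F, ∀ k ∈ F, μ.real (cov (Z j) (rr j) ∩ cov (Z k) (rr k)) ≤
        512 * ρ ^ 2 * ((rr j / δ j) ^ 2 * (rr k / δ k) ^ 2) +
        ((if j = k then 64 * ρ ^ 2 * (rr k / δ k) ^ 2 else 0) +
        ((if j < k then 1152 * ρ ^ 2 * (rr k ^ 2 * (1 / δ j ^ 2)) else 0) +
        (if k < j then 1152 * ρ ^ 2 * (rr j ^ 2 * (1 / δ k ^ 2)) else 0))) := by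
      intro j hj k hk
      have Lj := hL j hj
      have Lk := hL k hk
      have hdj := Lj.hδ
      have hdk := Lk.hδ
      rcases lt_trichotomy j k with h | h | h
      · rw [if_neg h.ne, if_pos h, if_neg (by omega)]
        refine (cov_inter_le' Lj Lk).trans (le_of_eq ?_)
        ring
      · subst h
        rw [if_pos rfl, if_neg (lt_irrefl _), Set.inter_self, Lj.measure_eq]
        have := Lj.card_le
        have e1 : ((Z j).card : ℝ) * (2 * rr j) ^ 2 ≤ (16 * ρ ^ 2 / δ j ^ 2) * (2 * rr j) ^ 2 := by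
          gcongr
        have e2 : (16 * ρ ^ 2 / δ j ^ 2) * (2 * rr j) ^ 2 = 64 * ρ ^ 2 * (rr j / δ j) ^ 2 := by
          field_simp
          ring
        have e3 : 0 ≤ 512 * ρ ^ 2 * ((rr j / δ j) ^ 2 * (rr j / δ j) ^ 2) := by positivity
        linarith
      · rw [if_neg (by omega), if_neg (by omega), if_pos h, Set.inter_comm]
        refine (cov_inter_le' Lk Lj).trans (le_of_eq ?_)
        ring
    have hS2 : ∑ j ∈ F, ∑ k ∈ F, (if j < k then 1152 * ρ ^ 2 * (rr k ^ 2 * (1 / δ j ^ 2)) else 0) ≤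
        1152 * ρ ^ 2 * W := by
      rw [Finset.sum_comm, hWdef, Finset.mul_sum]
      refine Finset.sum_le_sum fun k hk => ?_
      have hd := (hL k hk).hδ
      rw [← Finset.sum_filter, ← Finset.mul_sum, ← Finset.mul_sum]
      have := hδ k hk
      calc 1152 * ρ ^ 2 * (rr k ^ 2 * ∑ j ∈ F.filter (fun j => j < k), 1 / δ j ^ 2)
          ≤ 1152 * ρ ^ 2 * (rr k ^ 2 * (1 / δ k ^ 2)) := by gcongr
        _ = _ := by
            field_simp
    have hS3 : ∑ j ∈ F, ∑ k ∈ F, (if k < j then 1152 * ρ ^ 2 * (rr j ^ 2 * (1 / δ k ^ 2)) else 0) ≤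
        1152 * ρ ^ 2 * W := by
      rw [Finset.sum_comm]
      exact hS2
    have hS1 : ∑ j ∈ F, ∑ k ∈ F, (if j = k then 64 * ρ ^ 2 * (rr k / δ k) ^ 2 else 0) =
        64 * ρ ^ 2 * W := by
      rw [hWdef, Finset.mul_sum]
      refine Finset.sum_congr rfl fun j hj => ?_
      rw [Finset.sum_ite_eq, if_pos hj]
    have hS0 : ∑ j ∈ F, ∑ k ∈ F, 512 * ρ ^ 2 * ((rr j / δ j) ^ 2 * (rr k / δ k) ^ 2) =
        512 * ρ ^ 2 * W ^ 2 := by
      simp only [← Finset.mul_sum]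
      rw [← Finset.sum_mul, ← hWdef]
      ring
    calc ∑ j ∈ F, ∑ k ∈ F, μ.real (cov (Z j) (rr j) ∩ cov (Z k) (rr k)) ≤
        ∑ j ∈ F, ∑ k ∈ F, (512 * ρ ^ 2 * ((rr j / δ j) ^ 2 * (rr k / δ k) ^ 2) +
        ((if j = k then 64 * ρ ^ 2 * (rr k / δ k) ^ 2 else 0) +
        ((if j < k then 1152 * ρ ^ 2 * (rr k ^ 2 * (1 / δ j ^ 2)) else 0) +
        (if k < j then 1152 * ρ ^ 2 * (rr j ^ 2 * (1 / δ k ^ 2)) else 0)))) :=
          Finset.sum_le_sum fun j hj => Finset.sum_le_sum fun k hk => hterm j hj k hk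
      _ ≤ 512 * ρ ^ 2 * W ^ 2 + (64 * ρ ^ 2 * W + (1152 * ρ ^ 2 * W + 1152 * ρ ^ 2 * W)) := by
          simp only [Finset.sum_add_distrib]
          rw [hS0, hS1]
          gcongr
      _ ≤ 2880 * ρ ^ 2 * W ^ 2 := by
          have : ρ ^ 2 * W ≤ ρ ^ 2 * W ^ 2 := by
            have : W ≤ W ^ 2 := by nlinarith
            gcongr
          nlinarith
  have hce := chung_erdos μ F (fun k => cov (Z k) (rr k)) (fun k => measurableSet_cov _ _)
    (1 / (5760 * W))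
  refine le_trans ?_ hce
  have hWpos : 0 < W := by linarith
  have ht : 0 < 1 / (5760 * W) := by positivity
  calc ρ ^ 2 / 11520 = 2 * (1 / (5760 * W)) * (ρ ^ 2 * W / 2) -
        (1 / (5760 * W)) ^ 2 * (2880 * ρ ^ 2 * W ^ 2) := by
        field_simp
        ring
    _ ≤ _ := by
        apply sub_le_sub
        · exact mul_le_mul_of_nonneg_left hlow (by positivity)
        · exact mul_le_mul_of_nonneg_left hup (by positivity)

theorem ubiq_limsup {x0 : ℝ × ℝ} {ρ : ℝ} (W : ℕ → Set (ℝ × ℝ)) (hWm : ∀ k, MeasurableSet (W k))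
    (S : Set ℕ) (δ rr : ℕ → ℝ) (k0 : ℕ)
    (hL : ∀ k ∈ S, k0 ≤ k → ∃ Z, Lay x0 ρ Z (δ k) (rr k) ∧ cov Z (rr k) ⊆ W k)
    (hdiv : ∀ m : ℕ, ∃ F : Finset ℕ, (∀ k ∈ F, k ∈ S ∧ m ≤ k) ∧ 1 ≤ ∑ k ∈ F, (rr k / δ k) ^ 2)
    (hδ : ∀ F : Finset ℕ, (∀ k ∈ F, k ∈ S) → ∀ k ∈ F,
      ∑ j ∈ F.filter (fun j => j < k), 1 / δ j ^ 2 ≤ 1 / δ k ^ 2) :
    ρ ^ 2 / 11520 ≤ (volume.restrict (Metric.closedBall x0 (2 * ρ))).real
      {x | ∃ᶠ k in Filter.atTop, x ∈ W k} := by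
  classical
  haveI : IsFiniteMeasure (volume.restrict (Metric.closedBall x0 (2 * ρ))) := by
    constructor
    rw [Measure.restrict_apply_univ]
    exact (isCompact_closedBall _ _).measure_lt_top
  set μ := volume.restrict (Metric.closedBall x0 (2 * ρ)) with hμ
  have hset : {x | ∃ᶠ k in Filter.atTop, x ∈ W k} = ⋂ m : ℕ, ⋃ k : ℕ, ⋃ _ : m ≤ k, W k := by
    ext x
    simp only [Set.mem_setOf_eq, Filter.frequently_atTop, Set.mem_iInter, Set.mem_iUnion,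
      exists_prop]
  have hUm : ∀ m : ℕ, MeasurableSet (⋃ k : ℕ, ⋃ _ : m ≤ k, W k) := fun m =>
    MeasurableSet.iUnion fun k => MeasurableSet.iUnion fun _ => hWm k
  have hanti : Antitone (fun m : ℕ => ⋃ k : ℕ, ⋃ _ : m ≤ k, W k) := by
    intro m m' hmm x hx
    simp only [Set.mem_iUnion, exists_prop] at hx ⊢
    obtain ⟨k, hk, hxk⟩ := hx
    exact ⟨k, hmm.trans hk, hxk⟩
  have hlim := tendsto_measure_iInter_atTop (μ := μ) (fun m => (hUm m).nullMeasurableSet) hanti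
    ⟨0, measure_ne_top _ _⟩
  rw [← hset] at hlim
  have hlow : ∀ m : ℕ, ENNReal.ofReal (ρ ^ 2 / 11520) ≤ μ (⋃ k : ℕ, ⋃ _ : m ≤ k, W k) := by
    intro m
    obtain ⟨F, hF1, hF2⟩ := hdiv (max m k0)
    have hex : ∀ k, ∃ Z : Finset (ℝ × ℝ), k ∈ F → Lay x0 ρ Z (δ k) (rr k) ∧ cov Z (rr k) ⊆ W k := by
      intro k
      by_cases hk : k ∈ F
      · obtain ⟨Z, hZ⟩ := hL k (hF1 k hk).1 ((le_max_right _ _).trans (hF1 k hk).2)
        exact ⟨Z, fun _ => hZ⟩
      · exact ⟨∅, fun h => absurd h hk⟩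
    choose Z hZ using hex
    have h1 := ubiq_union (x0 := x0) (ρ := ρ) F Z δ rr (fun k hk => (hZ k hk).1) hF2
      (hδ F fun k hk => (hF1 k hk).1)
    have h2 : (⋃ k ∈ F, cov (Z k) (rr k)) ⊆ ⋃ k : ℕ, ⋃ _ : m ≤ k, W k := by
      intro x hx
      simp only [Set.mem_iUnion, exists_prop] at hx ⊢
      obtain ⟨k, hk, hxk⟩ := hx
      exact ⟨k, (le_max_left _ _).trans (hF1 k hk).2, (hZ k hk).2 hxk⟩
    calc ENNReal.ofReal (ρ ^ 2 / 11520) ≤ ENNReal.ofReal (μ.real (⋃ k ∈ F, cov (Z k) (rr k))) :=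
          ENNReal.ofReal_le_ofReal h1
      _ = μ (⋃ k ∈ F, cov (Z k) (rr k)) := by
          rw [Measure.real, ENNReal.ofReal_toReal (measure_ne_top _ _)]
      _ ≤ _ := measure_mono h2
  have h3 : ENNReal.ofReal (ρ ^ 2 / 11520) ≤ μ {x | ∃ᶠ k in Filter.atTop, x ∈ W k} :=
    ge_of_tendsto' hlim hlow
  rw [Measure.real]
  exact (ENNReal.ofReal_le_iff_le_toReal (measure_ne_top _ _)).mp h3

end KT582
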