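import Pool.Agent.Lib.MP_582f03_nt.Bad2
import Pool.Agent.Lib.MP_582f03_nt.Ubiq

/-!
# Existence of layers
-/

set_option maxHeartbeats 1000000

namespace KT582

open Finset MeasureTheory

lemma exists_sep (C : Finset (ℝ × ℝ)) {δ : ℝ} (hδ : 0 < δ) :
    ∃ Z ⊆ C, (∀ z ∈ Z, ∀ w ∈ Z, z ≠ w → δ ≤ dist z w) ∧ ∀ z ∈ C, ∃ w ∈ Z, dist z w < δ := by
  classical
  induction C using Finset.induction_on with
  | empty => exact ⟨∅, by simp, by simp, by simp⟩
  | insert a C ha ih =>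
    obtain ⟨Z, hZC, hsep, hcov⟩ := ih
    by_cases h : ∃ w ∈ Z, dist a w < δ
    · refine ⟨Z, hZC.trans (Finset.subset_insert _ _), hsep, ?_⟩
      intro z hz
      rcases Finset.mem_insert.mp hz with rfl | hz
      · exact h
      · exact hcov z hz
    · push Not at h
      refine ⟨insert a Z, Finset.insert_subset_insert _ hZC, ?_, ?_⟩
      · intro z hz w hw hne
        rcases Finset.mem_insert.mp hz with hza | hzZ
        · rcases Finset.mem_insert.mp hw with hwa | hwZ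
          · exact absurd (hza.trans hwa.symm) hne
          · rw [hza]; exact h w hwZ
        · rcases Finset.mem_insert.mp hw with hwa | hwZ
          · rw [dist_comm, hwa]; exact h z hzZ
          · exact hsep z hzZ w hwZ hne
      · intro z hz
        rcases Finset.mem_insert.mp hz with rfl | hz
        · exact ⟨z, Finset.mem_insert_self _ _, by rw [dist_self]; exact hδ⟩
        · obtain ⟨w, hw, h1⟩ := hcov z hz
          exact ⟨w, Finset.mem_insert_of_mem hw, h1⟩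

/-- the approximating sets -/
def Wset {c : ℕ} (P : Par c) (s : ℝ) (l k : ℕ) : Set (ℝ × ℝ) :=
  {x | ∃ q : ℕ, 2 ^ (k - l) ≤ q ∧ q ≤ 2 ^ k ∧ nd (q * x.1) < s ∧ nd (q * x.2) < s ∧
    ∀ i, nd (q * P.f x i) < s}

lemma nd_continuous : Continuous nd := by
  have : LipschitzWith 1 nd := by
    apply LipschitzWith.of_dist_le_mul
    intro x y
    rw [Real.dist_eq, Real.dist_eq, NNReal.coe_one, one_mul]
    have h1 := nd_add_le (x - y) y
    have h2 := nd_add_le (y - x) x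
    have h3 := nd_le_abs (x - y)
    have h4 := nd_le_abs (y - x)
    rw [sub_add_cancel] at h1 h2
    rw [abs_sub_comm y x] at h4
    rw [abs_le]
    constructor <;> linarith
  exact this.continuous

lemma continuous_f {c : ℕ} (P : Par c) (i : Fin c) : Continuous fun x : ℝ × ℝ => P.f x i := by
  unfold Par.f
  fun_prop

lemma measurableSet_Wset {c : ℕ} (P : Par c) (s : ℝ) (l k : ℕ) : MeasurableSet (Wset P s l k) := by
  have h : Wset P s l k = ⋃ q : ℕ, ⋃ _ : 2 ^ (k - l) ≤ q ∧ q ≤ 2 ^ k,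
      ({x : ℝ × ℝ | nd (q * x.1) < s} ∩ {x | nd (q * x.2) < s} ∩ ⋂ i, {x | nd (q * P.f x i) < s}) := by
    ext x
    simp only [Wset, Set.mem_setOf_eq, Set.mem_iUnion, Set.mem_inter_iff, Set.mem_iInter,
      exists_prop]
    constructor
    · rintro ⟨q, h1, h2, h3, h4, h5⟩
      exact ⟨q, ⟨h1, h2⟩, ⟨h3, h4⟩, h5⟩
    · rintro ⟨q, ⟨h1, h2⟩, ⟨h3, h4⟩, h5⟩
      exact ⟨q, h1, h2, h3, h4, h5⟩
  rw [h]
  refine MeasurableSet.iUnion fun q => MeasurableSet.iUnion fun _ => ?_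
  refine ((isOpen_lt ?_ continuous_const).measurableSet.inter
    (isOpen_lt ?_ continuous_const).measurableSet).inter
    (MeasurableSet.iInter fun i => (isOpen_lt ?_ continuous_const).measurableSet)
  · exact nd_continuous.comp (by fun_prop)
  · exact nd_continuous.comp (by fun_prop)
  · exact nd_continuous.comp (continuous_const.mul (continuous_f P i))

/-- separation at level `k` -/
noncomputable def dl {c : ℕ} {P : Par c} (D : DSeq P) (l k : ℕ) : ℝ :=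
  Real.sqrt (4 ^ l * (8 * 4 ^ c) / (8 ^ k * D.s k ^ c))

lemma dl_sq {c : ℕ} {P : Par c} (D : DSeq P) (l k : ℕ) :
    dl D l k ^ 2 = 4 ^ l * (8 * 4 ^ c) / (8 ^ k * D.s k ^ c) := by
  have := D.hs0 k
  rw [dl, Real.sq_sqrt (by positivity)]

lemma dl_pos {c : ℕ} {P : Par c} (D : DSeq P) (l k : ℕ) : 0 < dl D l k := by
  have := D.hs0 k
  rw [dl]
  positivity

/-- radius at level `k` -/
noncomputable def rl {c : ℕ} {P : Par c} (D : DSeq P) (k : ℕ) : ℝ :=
  D.s k / (4 * P.CA * D.Z * 2 ^ k)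

lemma rl_pos {c : ℕ} {P : Par c} (D : DSeq P) (k : ℕ) : 0 < rl D k := by
  have h1 := D.hs0 k
  have h2 := P.one_le_CA
  have h3 := D.hZ
  rw [rl]
  positivity

lemma four_rl_le {c : ℕ} {P : Par c} (D : DSeq P) (l k : ℕ) : 4 * rl D k ≤ dl D l k := by
  have h1 := D.hs0 k
  have h2 := P.one_le_CA
  have h3 := D.hZ
  have h4 := D.hub k
  have hr := rl_pos D k
  have hd := dl_pos D l k
  apply le_of_pow_le_pow_left₀ (n := 2) (by norm_num) hd.le
  rw [dl_sq, rl]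
  have e1 : (4 * (D.s k / (4 * P.CA * D.Z * 2 ^ k))) ^ 2 =
      (2 ^ k * D.s k ^ (c + 2)) / (P.CA ^ 2 * D.Z ^ 2) / (8 ^ k * D.s k ^ c) := by
    have : (8:ℝ) ^ k = 2 ^ k * (2 ^ k) ^ 2 := by
      rw [← pow_mul, ← pow_add, show (8:ℝ) = 2 ^ 3 by norm_num, ← pow_mul]
      congr 1; ring
    rw [this]
    field_simp
    ring
  rw [e1]
  have h5 : (1:ℝ) ≤ 4 ^ l := one_le_pow₀ (by norm_num)
  have h6 : (1:ℝ) ≤ 4 ^ c := one_le_pow₀ (by norm_num)
  gcongr
  calc 2 ^ k * D.s k ^ (c + 2) / (P.CA ^ 2 * D.Z ^ 2) ≤ D.Z / (1 ^ 2 * D.Z ^ 2) := by gcongr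
    _ = 1 / D.Z := by field_simp
    _ ≤ 1 := by rw [div_le_one (by linarith)]; exact h3
    _ ≤ 4 ^ l * (8 * 4 ^ c) := by nlinarith

lemma rows_ineq {s Z CA : ℝ} {k : ℕ} (hs : 0 < s) (hZ : 1 ≤ Z) (hCA : 1 ≤ CA) {q : ℝ} (hq0 : 0 ≤ q)
    (hq : q ≤ 2 ^ k) : q * (s / (4 * CA * Z * 2 ^ k)) ≤ s / (4 * CA) := by
  have h2k : (0:ℝ) < 2 ^ k := by positivity
  calc q * (s / (4 * CA * Z * 2 ^ k)) ≤ 2 ^ k * (s / (4 * CA * Z * 2 ^ k)) := by gcongr
    _ = s / (4 * CA * Z) := by field_simp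
    _ ≤ s / (4 * CA) := by
        apply div_le_div_of_nonneg_left hs.le (by positivity)
        have : 0 < 4 * CA := by positivity
        nlinarith

/-- a ball of radius `rl` around a good centre is in `Wset` -/
lemma ball_subset_Wset {c : ℕ} (P : Par c) (D : DSeq P) {l k : ℕ} {q a1 a2 : ℤ}
    (hq1 : (2:ℤ) ^ (k - l) ≤ q) (hq2 : q ≤ 2 ^ k)
    (hsol : Sol P.E.α P.E.β P.E.γ (D.s k / 2) q a1 a2) :
    Metric.closedBall ((a1 / q, a2 / q) : ℝ × ℝ) (rl D k) ⊆ Wset P (D.s k) l k := by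
  intro x hx
  have hs := D.hs0 k
  have hCA := P.one_le_CA
  have hZ := D.hZ
  have hqpos : (0:ℤ) < q := lt_of_lt_of_le (by positivity) hq1
  obtain ⟨q', rfl⟩ := Int.eq_ofNat_of_zero_le hqpos.le
  have hq0 : (0:ℝ) < (q' : ℝ) := by exact_mod_cast hqpos
  have hq2' : (q':ℝ) ≤ 2 ^ k := by exact_mod_cast hq2
  rw [Metric.mem_closedBall, Prod.dist_eq, max_le_iff, Real.dist_eq, Real.dist_eq] at hx
  simp only [Int.cast_natCast] at hx
  have key : ∀ (a : ℤ) (z : ℝ), |z - a / q'| ≤ rl D k → |q' * z - a| ≤ D.s k / (4 * P.CA) := by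
    intro a z h
    have e1 : (q':ℝ) * z - a = q' * (z - a / q') := by field_simp
    rw [e1, abs_mul, abs_of_pos hq0]
    calc (q':ℝ) * |z - a / q'| ≤ q' * rl D k := by gcongr
      _ ≤ _ := by
        rw [rl]
        exact rows_ineq hs hZ hCA hq0.le hq2'
  have k1 := key a1 x.1 hx.1
  have k2 := key a2 x.2 hx.2
  have hlt : D.s k / (4 * P.CA) < D.s k := by
    rw [div_lt_iff₀ (by positivity)]
    nlinarith
  refine ⟨q', by exact_mod_cast hq1, by exact_mod_cast hq2, ?_, ?_, ?_⟩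
  · exact (nd_le_abs_sub _ a1).trans_lt (k1.trans_lt hlt)
  · exact (nd_le_abs_sub _ a2).trans_lt (k2.trans_lt hlt)
  · intro i
    have e1 : (q':ℝ) * P.f x i = ((q':ℤ) * P.E.α i + a1 * P.E.β i + a2 * P.E.γ i) +
        ((q' * x.1 - a1) * P.E.β i + (q' * x.2 - a2) * P.E.γ i) := by
      rw [Par.f]; push_cast; ring
    rw [e1]
    refine (nd_add_le _ _).trans_lt ?_
    have e2 := nd_le_abs ((q' * x.1 - a1) * P.E.β i + (q' * x.2 - a2) * P.E.γ i)
    have e3 := abs_add_le ((q' * x.1 - a1) * P.E.β i) ((q' * x.2 - a2) * P.E.γ i)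
    rw [abs_mul, abs_mul] at e3
    have e4 := hsol i
    have e5 := P.le_CA i
    have e6 : |q' * x.1 - a1| * |P.E.β i| + |q' * x.2 - a2| * |P.E.γ i| ≤ D.s k / 4 := by
      calc |q' * x.1 - a1| * |P.E.β i| + |q' * x.2 - a2| * |P.E.γ i|
          ≤ D.s k / (4 * P.CA) * |P.E.β i| + D.s k / (4 * P.CA) * |P.E.γ i| := by gcongr
        _ = D.s k / (4 * P.CA) * (|P.E.β i| + |P.E.γ i|) := by ring
        _ ≤ D.s k / (4 * P.CA) * P.CA := by
            gcongr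
            linarith
        _ = _ := by field_simp
    linarith

lemma mul_div_le_self {a x y : ℝ} (h : a ≤ y) (hy : 0 < y) (hx : 0 ≤ x) : a * (x / y) ≤ x := by
  rw [mul_div_assoc', div_le_iff₀ hy]
  nlinarith

lemma card_final {ρ δ CRt n : ℝ} (h1 : CRt ≤ ρ ^ 2) (h2 : (2 * ρ) ^ 2 ≤ CRt + ρ ^ 2 + n * (2 * (2 * δ)) ^ 2) :
    ρ ^ 2 ≤ 8 * δ ^ 2 * n := by
  nlinarith

lemma vol_final {ρ δ B : ℝ} {n : ℕ} (hB : 0 ≤ B)
    (hm : ENNReal.ofReal ((2 * ρ) ^ 2) ≤ ENNReal.ofReal B + n * ENNReal.ofReal ((2 * (2 * δ)) ^ 2)) :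
    (2 * ρ) ^ 2 ≤ B + n * (2 * (2 * δ)) ^ 2 := by
  have hn : (0:ℝ) ≤ n := Nat.cast_nonneg n
  rw [← ENNReal.ofReal_natCast, ← ENNReal.ofReal_mul hn,
      ← ENNReal.ofReal_add hB (by positivity),
      ENNReal.ofReal_le_ofReal_iff (by positivity)] at hm
  exact hm

theorem exists_layer {c : ℕ} (P : Par c) (D : DSeq P) {R : ℝ} (hR : 1 ≤ R) :
    ∃ l : ℕ, ∀ ρ : ℝ, 0 < ρ → ρ ≤ 1 → ∀ᶠ k in Filter.atTop, ∀ x0 : ℝ × ℝ, 1 / R ≤ |x0.1| →
      |x0.1| ≤ R → |x0.2| ≤ R → ∃ Z : Finset (ℝ × ℝ), Lay x0 ρ Z (dl D l k) (rl D k) ∧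
        cov Z (rl D k) ⊆ Wset P (D.s k) l k := by
  classical
  obtain ⟨CR, hCR, hbad⟩ := bad_measure P D hR
  obtain ⟨l, hl⟩ := exists_nat_ge CR
  have hl' : CR ≤ 2 ^ l := hl.trans (by exact_mod_cast (Nat.lt_two_pow_self).le)
  refine ⟨l, fun ρ hρ0 hρ1 => ?_⟩
  have hlim : ∀ m, Filter.Tendsto (fun k : ℕ => ((k:ℝ) + 1) ^ m * D.s k) Filter.atTop (nhds 0) :=
    fun m => tendsto_poly_mul_r P.hϱ0 P.hϱ1 P.hM (by omega) P.hnM D.hs0 D.hZ D.hub m
  have hlim0 : Filter.Tendsto D.s Filter.atTop (nhds 0) := by simpa using hlim 0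
  have hkey : ∀ k : ℕ, 1 / (2 ^ k * D.s k ^ c) ≤ (((k:ℝ) + 1) ^ 1 * D.s k) ^ 2 := by
    intro k
    have hs := D.hs0 k
    have hbnn := P.b_nonneg k
    have hlb := D.hlb k
    have e1 : 1 / ((k:ℝ) + 1) ^ 2 ≤ 2 ^ k * D.s k ^ (c + 2) := by linarith
    rw [div_le_iff₀ (by positivity)]
    rw [div_le_iff₀ (by positivity)] at e1
    calc (1:ℝ) ≤ (2 ^ k * D.s k ^ (c + 2) * ((k:ℝ) + 1) ^ 2) := e1
      _ = _ := by ring
  have ev1 : ∀ᶠ k : ℕ in Filter.atTop, D.s k ≤ 2 := hlim0.eventually_le_const (by norm_num)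
  have ev2 : ∀ᶠ k : ℕ in Filter.atTop, (4:ℝ) ^ c ≤ 2 ^ k * D.s k ^ c := by
    have h1 := ((hlim 1).pow 2)
    rw [zero_pow (by norm_num)] at h1
    have h2 := h1.eventually_le_const (by positivity : (0:ℝ) < 1 / 4 ^ c)
    filter_upwards [h2] with k hk
    have hs := D.hs0 k
    have h3 := (hkey k).trans hk
    rw [div_le_div_iff₀ (by positivity) (by positivity)] at h3
    linarith
  have ev3 : ∀ᶠ k : ℕ in Filter.atTop, 2 * dl D l k ≤ ρ := by
    have h1 := ((hlim 1).pow 2).const_mul (4 * (4 ^ l * (8 * 4 ^ c)))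
    rw [zero_pow (by norm_num), mul_zero] at h1
    have h2 := h1.eventually_le_const (by positivity : (0:ℝ) < ρ ^ 2)
    filter_upwards [h2] with k hk
    have hs := D.hs0 k
    apply le_of_pow_le_pow_left₀ (n := 2) (by norm_num) hρ0.le
    rw [mul_pow, dl_sq]
    refine le_trans ?_ hk
    have h4 : (8:ℝ) ^ k = 4 ^ k * 2 ^ k := by rw [← mul_pow]; norm_num
    have h5 : (1:ℝ) ≤ 4 ^ k := one_le_pow₀ (by norm_num)
    calc 2 ^ 2 * (4 ^ l * (8 * 4 ^ c) / (8 ^ k * D.s k ^ c))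
        = 4 * (4 ^ l * (8 * 4 ^ c)) * (1 / 4 ^ k * (1 / (2 ^ k * D.s k ^ c))) := by
          rw [h4]; field_simp; norm_num
      _ ≤ 4 * (4 ^ l * (8 * 4 ^ c)) * (1 * (1 / (2 ^ k * D.s k ^ c))) := by
          gcongr
          rw [div_le_one (by positivity)]; exact h5
      _ ≤ 4 * (4 ^ l * (8 * 4 ^ c)) * (((k:ℝ) + 1) ^ 1 * D.s k) ^ 2 := by
          rw [one_mul]
          have := hkey k
          gcongr
  filter_upwards [hbad l ρ (ρ ^ 2) hρ0 hρ1 (by positivity), ev1, ev2, ev3] with k hk h1 h2 h3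
  obtain ⟨hlk, hk⟩ := hk
  intro x0 hx1 hx1' hx2
  have hs := D.hs0 k
  obtain ⟨Rk, hRk0, hRk2, hdir⟩ := dirichlet_scale P.E.α P.E.β P.E.γ hs h1 h2
  obtain ⟨hRkρ, hvol⟩ := hk x0 Rk hx1 hx1' hx2 hRk0 hRk2
  set δ := dl D l k with hδ
  have hδ0 : 0 < δ := dl_pos D l k
  -- distance from a point to its centre
  have hRkδ : Rk / 2 ^ (k - l) ≤ δ := by
    apply le_of_pow_le_pow_left₀ (n := 2) (by norm_num) hδ0.le
    rw [hδ, dl_sq, div_pow]
    have e1 : (2:ℝ) ^ (k - l) = 2 ^ k / 2 ^ l := by rw [pow_sub₀ _ (by norm_num) hlk]; ring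
    have h4 : (8:ℝ) ^ k = (2 ^ k) ^ 2 * 2 ^ k := by
      rw [← pow_mul, ← pow_add, show (8:ℝ) = 2 ^ 3 by norm_num, ← pow_mul]
      congr 1; ring
    have h5 : (4:ℝ) ^ l = (2 ^ l) ^ 2 := by
      rw [← pow_mul, show (4:ℝ) = 2 ^ 2 by norm_num, ← pow_mul]; congr 1; ring
    rw [e1, h4, h5]
    calc Rk ^ 2 / (2 ^ k / 2 ^ l) ^ 2 ≤ (8 * 4 ^ c / (2 ^ k * D.s k ^ c)) / (2 ^ k / 2 ^ l) ^ 2 := by
          gcongr
      _ = _ := by field_simp
  -- the finite set of all centres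
  set A : ℝ := 2 ^ k * (|x0.1| + |x0.2| + ρ + δ) with hA
  set T : Set (ℤ × ℤ × ℤ) := {y | (2:ℤ) ^ (k - l) ≤ y.1 ∧ y.1 ≤ 2 ^ k ∧
    Sol P.E.α P.E.β P.E.γ (D.s k / 2) y.1 y.2.1 y.2.2 ∧
    ((y.2.1 / y.1, y.2.2 / y.1) : ℝ × ℝ) ∈ Metric.closedBall x0 (ρ + δ)} with hT
  have hTfin : T.Finite := by
    refine Set.Finite.subset ((Set.finite_Icc (0:ℤ) (2 ^ k)).prod
      ((Set.finite_Icc (-⌈A⌉) ⌈A⌉).prod (Set.finite_Icc (-⌈A⌉) ⌈A⌉))) ?_
    rintro y ⟨hy1, hy2, _, hy4⟩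
    have hq0 : (0:ℤ) < y.1 := lt_of_lt_of_le (by positivity) hy1
    have hq0' : (0:ℝ) < y.1 := by exact_mod_cast hq0
    have hq2' : (y.1:ℝ) ≤ 2 ^ k := by exact_mod_cast hy2
    rw [Metric.mem_closedBall, Prod.dist_eq, max_le_iff, Real.dist_eq, Real.dist_eq] at hy4
    have key : ∀ (a : ℤ) (z : ℝ), |(a:ℝ) / y.1 - z| ≤ ρ + δ → |z| ≤ |x0.1| + |x0.2| →
        a ∈ Set.Icc (-⌈A⌉) ⌈A⌉ := by
      intro a z h hz
      have e1 : |(a:ℝ) / y.1| ≤ |x0.1| + |x0.2| + ρ + δ := by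
        have : (a:ℝ) / y.1 = ((a:ℝ) / y.1 - z) + z := by ring
        rw [this]
        refine (abs_add_le _ _).trans ?_
        linarith
      have e : |(a : ℝ)| ≤ A := by
        rw [abs_div, abs_of_pos hq0', div_le_iff₀ hq0'] at e1
        refine e1.trans ?_
        rw [hA, mul_comm]
        have : 0 ≤ |x0.1| + |x0.2| + ρ + δ := by positivity
        gcongr
      have e2 := e.trans (Int.le_ceil A)
      rw [abs_le] at e2
      constructor
      · exact_mod_cast e2.1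
      · exact_mod_cast e2.2
    refine ⟨⟨hq0.le, hy2⟩, key _ _ hy4.1 ?_, key _ _ hy4.2 ?_⟩
    · have := abs_nonneg x0.2; linarith
    · have := abs_nonneg x0.1; linarith
  set C : Finset (ℝ × ℝ) := hTfin.toFinset.image
    (fun y : ℤ × ℤ × ℤ => ((y.2.1 / y.1, y.2.2 / y.1) : ℝ × ℝ)) with hC
  obtain ⟨Z, hZC, hsep, hcov⟩ := exists_sep C hδ0
  have hZT : ∀ z ∈ Z, ∃ y ∈ T, z = ((y.2.1 / y.1, y.2.2 / y.1) : ℝ × ℝ) := by
    intro z hz
    obtain ⟨y, hy, hyz⟩ := Finset.mem_image.mp (hZC hz)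
    exact ⟨y, (Set.Finite.mem_toFinset _).mp hy, hyz.symm⟩
  refine ⟨Z, ⟨?_, hsep, ?_, hδ0, h3, rl_pos D k, four_rl_le D l k⟩, ?_⟩
  · intro z hz
    obtain ⟨y, hy, rfl⟩ := hZT z hz
    exact hy.2.2.2
  · -- cardinality
    have hcover : Metric.closedBall x0 ρ ⊆ BadSet P x0 ρ Rk (D.s k) (k - l) ∪
        ⋃ z ∈ Z, Metric.closedBall z (2 * δ) := by
      intro x hx
      by_cases hxb : x ∈ BadSet P x0 ρ Rk (D.s k) (k - l)
      · exact Or.inl hxb
      · right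
        obtain ⟨q, a1, a2, g1, g2, g3, g4, g5⟩ := hdir x
        have hq0' : (0:ℝ) < q := by
          have : (0:ℤ) < q := by omega
          exact_mod_cast this
        have hql : (2:ℤ) ^ (k - l) ≤ q := by
          by_contra hcon
          push Not at hcon
          apply hxb
          obtain ⟨q', rfl⟩ := Int.eq_ofNat_of_zero_le (by omega : 0 ≤ q)
          have hq'1 : 1 ≤ q' := by exact_mod_cast g1
          have hq'2 : q' < 2 ^ (k - l) := by exact_mod_cast hcon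
          have hj1 := Nat.pow_log_le_self 2 (by omega : q' ≠ 0)
          have hj2 := Nat.lt_pow_succ_log_self (by norm_num : 1 < 2) q'
          simp only [BadSet, Set.mem_iUnion]
          refine ⟨Nat.log 2 q', ?_, hx, q', a1, a2, ?_, ?_, g3, g4, g5⟩
          · rw [Finset.mem_range]
            have := (Nat.pow_lt_pow_iff_right (by norm_num : 1 < 2)).mp (hj1.trans_lt hq'2)
            omega
          · exact_mod_cast hj1
          · exact_mod_cast hj2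
        have hql' : (2:ℝ) ^ (k - l) ≤ q := by exact_mod_cast hql
        have hdist : dist x ((a1 / q, a2 / q) : ℝ × ℝ) ≤ δ := by
          rw [Prod.dist_eq, max_le_iff, Real.dist_eq, Real.dist_eq]
          have key : ∀ (a : ℤ) (z : ℝ), |q * z - a| ≤ Rk → |z - a / q| ≤ δ := by
            intro a z h
            have e1 : z - a / q = (q * z - a) / q := by field_simp
            rw [e1, abs_div, abs_of_pos hq0']
            calc |q * z - a| / q ≤ Rk / 2 ^ (k - l) := by gcongr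
              _ ≤ δ := hRkδ
          exact ⟨key _ _ g3, key _ _ g4⟩
        have hmem : ((a1 / q, a2 / q) : ℝ × ℝ) ∈ C := by
          rw [hC, Finset.mem_image]
          refine ⟨(q, a1, a2), (Set.Finite.mem_toFinset _).mpr ⟨hql, g2, g5, ?_⟩, rfl⟩
          rw [Metric.mem_closedBall] at hx ⊢
          have := dist_triangle_left ((a1 / q, a2 / q) : ℝ × ℝ) x0 x
          linarith
        obtain ⟨w, hw, hwd⟩ := hcov _ hmem
        simp only [Set.mem_iUnion]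
        refine ⟨w, hw, ?_⟩
        rw [Metric.mem_closedBall]
        have := dist_triangle x ((a1 / q, a2 / q) : ℝ × ℝ) w
        linarith
    have hm : volume (Metric.closedBall x0 ρ) ≤ ENNReal.ofReal (CR * (ρ ^ 2 / 2 ^ l) + ρ ^ 2) +
        Z.card * ENNReal.ofReal ((2 * (2 * δ)) ^ 2) := by
      calc volume (Metric.closedBall x0 ρ) ≤ volume (BadSet P x0 ρ Rk (D.s k) (k - l) ∪
          ⋃ z ∈ Z, Metric.closedBall z (2 * δ)) := measure_mono hcover
        _ ≤ volume (BadSet P x0 ρ Rk (D.s k) (k - l)) + volume (⋃ z ∈ Z, Metric.closedBall z (2 * δ)) :=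
            measure_union_le _ _
        _ ≤ _ := by
            gcongr
            refine (measure_biUnion_finset_le _ _).trans ?_
            rw [Finset.sum_congr rfl (fun z _ => vol_closedBall z (by positivity)), Finset.sum_const,
              nsmul_eq_mul]
    rw [vol_closedBall x0 hρ0.le] at hm
    have e1 : CR * (ρ ^ 2 / 2 ^ l) ≤ ρ ^ 2 := mul_div_le_self hl' (by positivity) (sq_nonneg ρ)
    exact card_final e1 (vol_final (by positivity) hm)
  · intro x hx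
    simp only [cov, Set.mem_iUnion] at hx
    obtain ⟨z, hz, hxz⟩ := hx
    obtain ⟨y, hy, rfl⟩ := hZT z hz
    exact ball_subset_Wset P D hy.1 hy.2.1 hy.2.2.1 hxz

end KT582
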