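import Pool.Agent.Lib.MP_582f03_nt.Plane
import Pool.Agent.Lib.MP_582f03_nt.Curve

/-!
# Choice of the parameters
-/

set_option maxHeartbeats 1000000

namespace KT582

open Finset

/-- the centres `u i` -/
noncomputable def useq (i : ℕ) : ℝ := ((i:ℝ) + 1) / 2 ^ (Nat.log 2 (i + 1))

lemma one_le_useq (i : ℕ) : 1 ≤ useq i := by
  rw [useq, le_div_iff₀ (by positivity), one_mul]
  have := Nat.pow_log_le_self 2 (by omega : i + 1 ≠ 0)
  exact_mod_cast this

lemma useq_freq (x : ℝ) (hx1 : 1 ≤ x) (hx2 : x < 2) :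
    ∃ᶠ i in Filter.atTop, |x - useq i| ≤ 2 / ((i:ℕ) + 1) := by
  rw [Filter.frequently_atTop]
  intro N
  set k := N + 1 with hk
  have h2k : (0:ℝ) < 2 ^ k := by positivity
  set n := ⌊2 ^ k * x⌋₊ with hn
  have hn1 : (n:ℝ) ≤ 2 ^ k * x := Nat.floor_le (by positivity)
  have hn2 : 2 ^ k * x < n + 1 := Nat.lt_floor_add_one _
  have hn3 : 2 ^ k ≤ n := by
    apply Nat.le_floor
    push_cast
    nlinarith
  have hn4 : n < 2 ^ (k + 1) := by
    have : (n:ℝ) < 2 ^ (k + 1) := by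
      rw [pow_succ]
      nlinarith
    exact_mod_cast this
  have hlog : Nat.log 2 n = k := by
    rw [Nat.log_eq_iff (Or.inl (by omega))]
    exact ⟨hn3, hn4⟩
  have hNk : N + 1 < 2 ^ k := Nat.lt_two_pow_self
  obtain ⟨i, hi⟩ : ∃ i, n = i + 1 := ⟨n - 1, by omega⟩
  refine ⟨i, by omega, ?_⟩
  have hu : useq i = (n:ℝ) / 2 ^ k := by
    rw [useq, ← hi, hlog, hi]; push_cast; rfl
  have hcast : ((i:ℕ):ℝ) + 1 = n := by rw [hi]; push_cast; rfl
  rw [hu, hcast]
  have hnpos : (0:ℝ) < n := by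
    have : 0 < n := by omega
    exact_mod_cast this
  have h1 : |x - (n:ℝ) / 2 ^ k| ≤ 1 / 2 ^ k := by
    have e : x - (n:ℝ) / 2 ^ k = (2 ^ k * x - n) / 2 ^ k := by field_simp
    rw [e, abs_div, abs_of_pos h2k]
    gcongr
    rw [abs_le]
    constructor <;> linarith
  refine h1.trans ?_
  rw [div_le_div_iff₀ h2k hnpos]
  have : (n:ℝ) ≤ 2 ^ (k + 1) := by exact_mod_cast hn4.le
  rw [pow_succ] at this
  linarith

/-- `y_i = i + 1` to a real power -/
noncomputable def yp (e : ℝ) (i : ℕ) : ℝ := ((i:ℝ) + 1) ^ e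

lemma yp_pos (e : ℝ) (i : ℕ) : 0 < yp e i := Real.rpow_pos_of_pos (by positivity) _

lemma yp_pow (e : ℝ) (i n : ℕ) : yp e i ^ n = yp (e * n) i := by
  rw [yp, yp, Real.rpow_mul (by positivity), Real.rpow_natCast]

lemma yp_mul (e e' : ℝ) (i : ℕ) : yp e i * yp e' i = yp (e + e') i := by
  rw [yp, yp, yp, Real.rpow_add (by positivity)]

lemma yp_le_yp {e e' : ℝ} (h : e ≤ e') (i : ℕ) : yp e i ≤ yp e' i := by
  apply Real.rpow_le_rpow_of_exponent_le _ h
  have : (0:ℝ) ≤ i := Nat.cast_nonneg i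
  linarith

lemma yp_zero (i : ℕ) : yp 0 i = 1 := Real.rpow_zero _

lemma yp_le_one {e : ℝ} (h : e ≤ 0) (i : ℕ) : yp e i ≤ 1 := by
  have := yp_le_yp h i
  rwa [yp_zero] at this

lemma one_le_yp {e : ℝ} (h : 0 ≤ e) (i : ℕ) : 1 ≤ yp e i := by
  have := yp_le_yp h i
  rwa [yp_zero] at this

lemma yp_mono {e : ℝ} (h : 0 ≤ e) : Monotone (yp e) := by
  intro i j hij
  rw [yp, yp]
  apply Real.rpow_le_rpow (by positivity) _ h
  have : (i:ℝ) ≤ j := by exact_mod_cast hij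
  linarith

lemma yp_summable {e : ℝ} (h : e < -1) : Summable (yp e) := by
  have h1 : Summable fun n : ℕ => (n:ℝ) ^ e := Real.summable_nat_rpow.mpr h
  have h2 := (summable_nat_add_iff 1).mpr h1
  refine h2.congr fun i => ?_
  rw [yp]; push_cast; rfl

lemma yp_tendsto {e : ℝ} (h : e < 0) : Filter.Tendsto (yp e) Filter.atTop (nhds 0) := by
  have h1 := tendsto_rpow_neg_atTop (y := -e) (by linarith)
  rw [neg_neg] at h1
  have h2 : Filter.Tendsto (fun i : ℕ => (i:ℝ) + 1) Filter.atTop Filter.atTop :=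
    Filter.tendsto_atTop_add_const_right _ _ tendsto_natCast_atTop_atTop
  exact h1.comp h2

lemma yp_neg (e : ℝ) (i : ℕ) : yp (-e) i = 1 / yp e i := by
  rw [yp, yp, Real.rpow_neg (by positivity), one_div]

theorem exists_par (c : ℕ) (hc : 4 ≤ c) : ∃ (P : Par c) (w : ℕ → ℝ),
    P.u = useq ∧ (∀ i, 1 ≤ w i) ∧ Monotone w ∧ (∀ i : ℕ, w i ^ 3 ≤ P.κ i * (i + 1) ^ 2) ∧
      Summable (fun i => 1 / w i ^ c) := by
  set M : ℕ := 20 * (c + 2) with hM
  have hMpos : (0:ℝ) < M := by rw [hM]; positivity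
  have hM18 : (18:ℝ) ≤ M := by
    have : 18 ≤ M := by omega
    exact_mod_cast this
  set κ : ℕ → ℝ := yp (-(9/8)) with hκ
  have hκ0 : ∀ i, 0 < κ i := fun i => yp_pos _ i
  have hκ1 : ∀ i, κ i ≤ 1 := fun i => yp_le_one (by norm_num) i
  obtain ⟨E⟩ := exists_constr (by omega : 0 < c) κ useq hκ0 hκ1 one_le_useq
  refine ⟨⟨by omega, κ, useq, E, hκ0, hκ1, M, by omega, (1/2 : ℝ) ^ ((M:ℝ)⁻¹), by positivity, ?_,
    ?_, yp (-(9/8) / M), fun i => yp_pos _ i, fun i => yp_le_one ?_ i, ?_, yp (-(81/80)),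
    yp (-(1/20)), fun i => yp_pos _ i, yp_summable (by norm_num), fun i => yp_pos _ i,
    fun i => yp_le_one (by norm_num) i, yp_tendsto (by norm_num), ?_⟩, yp (7/24), rfl,
    one_le_yp (by norm_num), yp_mono (by norm_num), ?_, ?_⟩
  · exact Real.rpow_lt_one (by norm_num) (by norm_num) (by positivity)
  · exact Real.rpow_inv_natCast_pow (by norm_num) (by omega)
  · apply div_nonpos_of_nonpos_of_nonneg (by norm_num) hMpos.le
  · intro i
    rw [yp_pow, div_mul_cancel₀ _ hMpos.ne']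
  · intro i
    rw [yp_pow, yp_mul]
    apply yp_le_yp
    have hM1 : ((M - 1 : ℕ) : ℝ) = M - 1 := by
      rw [Nat.cast_sub (by omega)]; norm_num
    rw [hM1, div_mul_eq_mul_div, div_le_iff₀ hMpos]
    nlinarith
  · intro i
    have h1 : ((i:ℝ) + 1) ^ 2 = yp 2 i := by
      rw [yp]; norm_cast
    rw [h1]
    show yp (7/24) i ^ 3 ≤ yp (-(9/8)) i * yp 2 i
    rw [yp_mul, yp_pow]
    apply yp_le_yp
    norm_num
  · have h1 : (fun i => 1 / yp (7/24) i ^ c) = yp (-((7/24) * c)) := by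
      funext i
      rw [yp_pow, yp_neg]
    rw [h1]
    apply yp_summable
    have : (4:ℝ) ≤ c := by exact_mod_cast hc
    nlinarith

end KT582
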