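import Pool.Agent.Lib.MP_582f03_nt.Div2

/-!
# The plane is of Khintchine type (parameter form)
-/

set_option maxHeartbeats 1000000

namespace KT582

open Finset MeasureTheory

/-- `n`-th root with `n = c + 2` -/
noncomputable def rt (c : ℕ) (y : ℝ) : ℝ := y ^ (((c + 2 : ℕ) : ℝ)⁻¹)

lemma rt_pow {c : ℕ} {y : ℝ} (hy : 0 ≤ y) : rt c y ^ (c + 2) = y :=
  Real.rpow_inv_natCast_pow hy (by omega)

lemma rt_pos {c : ℕ} {y : ℝ} (hy : 0 < y) : 0 < rt c y := Real.rpow_pos_of_pos hy _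

lemma rt_nonneg {c : ℕ} {y : ℝ} (hy : 0 ≤ y) : 0 ≤ rt c y := Real.rpow_nonneg hy _

lemma rt_mono {c : ℕ} {y z : ℝ} (hy : 0 ≤ y) (hyz : y ≤ z) : rt c y ≤ rt c z :=
  Real.rpow_le_rpow hy hyz (by positivity)

/-- approximability at `q` -/
def App {c : ℕ} (P : Par c) (ψ : ℕ → ℝ) (q : ℕ) (x : ℝ × ℝ) : Prop :=
  nd (q * x.1) < ψ q ∧ nd (q * x.2) < ψ q ∧ ∀ i, nd (q * P.f x i) < ψ q

lemma volume_axis : volume {x : ℝ × ℝ | x.1 = 0} = 0 := by
  have h : {x : ℝ × ℝ | x.1 = 0} = ({0} : Set ℝ) ×ˢ (Set.univ : Set ℝ) := by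
    ext x; simp
  rw [h, Measure.volume_eq_prod, Measure.prod_prod]
  simp

/-- dyadic convergence statement, global version -/
theorem conv_global {c : ℕ} (P : Par c) (r : ℕ → ℝ) (hr : ∀ k, 0 < r k)
    (hr2 : ∀ k : ℕ, 1 / ((k:ℝ) + 1) ^ 2 ≤ 2 ^ k * r k ^ (c + 2))
    (hsum : Summable fun k => 2 ^ k * r k ^ (c + 2)) :
    ∀ᵐ x : ℝ × ℝ, ∀ᶠ k in Filter.atTop,
      ∀ q : ℕ, 2 ^ k ≤ q → q < 2 ^ (k + 1) →
        ¬ (nd (q * x.1) < r k ∧ nd (q * x.2) < r k ∧ ∀ l, nd (q * P.f x l) < r k) := by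
  set N : Set (ℝ × ℝ) := {x | ¬ ∀ᶠ k in Filter.atTop, ∀ q : ℕ, 2 ^ k ≤ q → q < 2 ^ (k + 1) →
        ¬ (nd (q * x.1) < r k ∧ nd (q * x.2) < r k ∧ ∀ l, nd (q * P.f x l) < r k)} with hN
  have h1 : volume (N ∩ {x | x.1 ≠ 0}) = 0 := by
    apply measure_null_of_locally_null
    rintro x ⟨hxN, hx0⟩
    refine ⟨N ∩ Metric.closedBall x 1, ?_, ?_⟩
    · apply Filter.inter_mem
      · exact Filter.mem_of_superset self_mem_nhdsWithin Set.inter_subset_left
      · exact mem_nhdsWithin_of_mem_nhds (Metric.closedBall_mem_nhds x one_pos)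
    · have h := P.conv_dyadic r hr hr2 hsum x hx0
      rw [ae_iff] at h
      rw [Measure.restrict_apply₀'] at h
      · exact h
      · exact Metric.isClosed_closedBall.measurableSet.nullMeasurableSet
  rw [ae_iff]
  refine measure_mono_null ?_ (measure_union_null h1 volume_axis)
  intro x hx
  by_cases h0 : x.1 = 0
  · exact Or.inr h0
  · exact Or.inl ⟨hx, h0⟩

theorem plane_conv {c : ℕ} (P : Par c) (ψ : ℕ → ℝ) (h0 : ∀ q, 0 ≤ ψ q)
    (hanti : ∀ m n, 0 < m → m ≤ n → ψ n ≤ ψ m) (hsum : Summable fun q => ψ q ^ (c + 2)) :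
    ∀ᵐ x : ℝ × ℝ, ¬ ∃ᶠ q in Filter.atTop, App P ψ q x := by
  have hcond : Summable fun k : ℕ => (2:ℝ) ^ k * ψ (2 ^ k) ^ (c + 2) := by
    rw [summable_condensed_iff_of_nonneg (f := fun q => ψ q ^ (c + 2))]
    · exact hsum
    · intro n; exact pow_nonneg (h0 n) _
    · intro m n hm hmn
      exact pow_le_pow_left₀ (h0 n) (hanti m n hm hmn) _
  set a : ℕ → ℝ := fun k => rt c (1 / (((k:ℝ) + 1) ^ 2 * 2 ^ k)) with ha
  have hapos : ∀ k, 0 < a k := fun k => rt_pos (by positivity)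
  have hapow : ∀ k, 2 ^ k * a k ^ (c + 2) = 1 / ((k:ℝ) + 1) ^ 2 := by
    intro k
    simp only [ha]
    rw [rt_pow (by positivity)]
    field_simp
  have hasum : Summable fun k : ℕ => 1 / ((k:ℝ) + 1) ^ 2 := by
    have := (summable_nat_add_iff 1).mpr (Real.summable_one_div_nat_pow.mpr (by norm_num : 1 < 2))
    simpa using this
  have hmain := conv_global P (fun k => max (ψ (2 ^ k)) (a k)) (fun k => lt_max_of_lt_right (hapos k))
    (fun k => by
      rw [← hapow k]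
      have := (hapos k).le
      gcongr
      exact le_max_right _ _)
    (by
      refine Summable.of_nonneg_of_le (fun k => ?_) (fun k => ?_) (hcond.add hasum)
      · have : 0 ≤ max (ψ (2 ^ k)) (a k) := le_max_of_le_left (h0 _)
        positivity
      · rw [← hapow k, ← mul_add]
        apply mul_le_mul_of_nonneg_left _ (by positivity)
        rcases max_cases (ψ (2 ^ k)) (a k) with ⟨h, _⟩ | ⟨h, _⟩
        · rw [h]
          have := (hapos k).le
          have : 0 ≤ a k ^ (c + 2) := by positivity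
          linarith
        · rw [h]
          have : 0 ≤ ψ (2 ^ k) ^ (c + 2) := pow_nonneg (h0 _) _
          linarith)
  filter_upwards [hmain] with x hx
  rw [Filter.not_frequently]
  obtain ⟨k0, hk0⟩ := Filter.eventually_atTop.mp hx
  rw [Filter.eventually_atTop]
  refine ⟨2 ^ k0, fun q hq hApp => ?_⟩
  have hq0 : q ≠ 0 := by
    have : 0 < 2 ^ k0 := by positivity
    omega
  have hj1 := Nat.pow_log_le_self 2 hq0
  have hj2 := Nat.lt_pow_succ_log_self (by norm_num : 1 < 2) q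
  have hjk : k0 ≤ Nat.log 2 q := (Nat.le_log_iff_pow_le (by norm_num) hq0).mpr hq
  have hψ : ψ q ≤ max (ψ (2 ^ Nat.log 2 q)) (a (Nat.log 2 q)) :=
    (hanti _ _ (by positivity) hj1).trans (le_max_left _ _)
  exact hk0 _ hjk q hj1 hj2 ⟨hApp.1.trans_le hψ, hApp.2.1.trans_le hψ, fun l => (hApp.2.2 l).trans_le hψ⟩

lemma summable_inv_sq : Summable fun k : ℕ => 1 / ((k:ℝ) + 1) ^ 2 := by
  have := (summable_nat_add_iff 1).mpr (Real.summable_one_div_nat_pow.mpr (by norm_num : 1 < 2))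
  simpa using this

/-- lower threshold weights -/
noncomputable def bb {c : ℕ} (P : Par c) (k : ℕ) : ℝ := 1 / ((k:ℝ) + 1) ^ 2 + P.b k

lemma bb_pos {c : ℕ} (P : Par c) (k : ℕ) : 0 < bb P k := by
  have h1 := P.b_nonneg k
  have h2 : 0 < 1 / ((k:ℝ) + 1) ^ 2 := by positivity
  rw [bb]; linarith

lemma summable_bb {c : ℕ} (P : Par c) : Summable (bb P) := summable_inv_sq.add P.summable_b

/-- the lower threshold -/
noncomputable def ph {c : ℕ} (P : Par c) (k : ℕ) : ℝ := rt c (bb P k / 2 ^ k)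

lemma ph_pos {c : ℕ} (P : Par c) (k : ℕ) : 0 < ph P k := rt_pos (by
  have := bb_pos P k
  positivity)

lemma ph_pow {c : ℕ} (P : Par c) (k : ℕ) : 2 ^ k * ph P k ^ (c + 2) = bb P k := by
  have := bb_pos P k
  rw [ph, rt_pow (by positivity)]
  field_simp

lemma conv_ph {c : ℕ} (P : Par c) (l : ℕ) :
    ∀ᵐ x : ℝ × ℝ, ∀ᶠ j in Filter.atTop, ∀ q : ℕ, 2 ^ j ≤ q → q < 2 ^ (j + 1) → ∀ i ≤ l,
        ¬ (nd (q * x.1) < ph P (j + i) ∧ nd (q * x.2) < ph P (j + i) ∧
          ∀ l, nd (q * P.f x l) < ph P (j + i)) := by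
  set B : ℕ → ℝ := fun j => ∑ i ∈ Finset.range (l + 1), bb P (j + i) with hB
  have hBpos : ∀ j, 0 < B j := fun j =>
    Finset.sum_pos (fun i _ => bb_pos P _) ⟨0, Finset.mem_range.mpr (by omega)⟩
  have hBle : ∀ j i, i ≤ l → bb P (j + i) ≤ B j := fun j i hi =>
    Finset.single_le_sum (f := fun i => bb P (j + i)) (fun i _ => (bb_pos P _).le)
      (Finset.mem_range.mpr (by omega))
  have hBsum : Summable B := by
    apply summable_sum
    intro i _
    exact (summable_nat_add_iff i).mpr (summable_bb P)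
  set r : ℕ → ℝ := fun j => rt c (B j / 2 ^ j) with hr
  have hrpow : ∀ j, 2 ^ j * r j ^ (c + 2) = B j := by
    intro j
    have h2 : (0:ℝ) < 2 ^ j := by positivity
    simp only [hr]
    rw [rt_pow (div_nonneg (hBpos j).le h2.le)]
    exact mul_div_cancel₀ _ h2.ne'
  have hmain := conv_global P r (fun j => rt_pos (div_pos (hBpos j) (pow_pos two_pos j))) (fun j => by
      rw [hrpow j]
      have h1 := hBle j 0 (Nat.zero_le l)
      have h2 := P.b_nonneg (j + 0)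
      rw [bb] at h1
      simp only [add_zero] at h1 h2
      linarith) (by
      have : (fun j => 2 ^ j * r j ^ (c + 2)) = B := funext hrpow
      rw [this]
      exact hBsum)
  filter_upwards [hmain] with x hx
  filter_upwards [hx] with j hj
  intro q hq1 hq2 i hi hcon
  have hle : ph P (j + i) ≤ r j := by
    simp only [hr, ph]
    have hb := bb_pos P (j + i)
    apply rt_mono (by positivity)
    have h1 := hBle j i hi
    have h2 : (2:ℝ) ^ j ≤ 2 ^ (j + i) := by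
      gcongr
      · norm_num
      · omega
    have := hBpos j
    calc bb P (j + i) / 2 ^ (j + i) ≤ B j / 2 ^ (j + i) := by gcongr
      _ ≤ B j / 2 ^ j := div_le_div_of_nonneg_left this.le (pow_pos two_pos j) h2
  exact hj q hq1 hq2 ⟨hcon.1.trans_le hle, hcon.2.1.trans_le hle, fun l => (hcon.2.2 l).trans_le hle⟩

lemma summable_of_min {f : ℕ → ℝ} (hf : ∀ k, 0 ≤ f k) (h : Summable fun k => min (f k) 1) :
    Summable f := by
  have h1 := h.tendsto_atTop_zero
  have h2 : ∀ᶠ k in Filter.atTop, min (f k) 1 < 1 := h1.eventually_lt_const one_pos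
  obtain ⟨k0, hk0⟩ := Filter.eventually_atTop.mp h2
  rw [← summable_nat_add_iff k0] at h ⊢
  refine h.congr fun k => ?_
  have h3 := hk0 (k + k0) (by omega)
  rcases min_cases (f (k + k0)) 1 with ⟨h4, _⟩ | ⟨h4, _⟩
  · rw [h4]
  · rw [h4] at h3; exact absurd h3 (lt_irrefl _)

/-- the sequence for the divergence part -/
lemma exists_DSeq {c : ℕ} (P : Par c) (ψ : ℕ → ℝ) (h0 : ∀ q, 0 ≤ ψ q)
    (hanti : ∀ m n, 0 < m → m ≤ n → ψ n ≤ ψ m) (hdiv : ¬ Summable fun q => ψ q ^ (c + 2)) :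
    ∃ D : DSeq P, ∀ k, D.s k ≤ max (ψ (2 ^ k)) (ph P k) ∧ (D.s k ≤ ψ (2 ^ k) ∨ D.s k ≤ ph P k) := by
  set a : ℕ → ℝ := fun k => rt c (1 / 2 ^ k) with ha
  have hapos : ∀ k, 0 < a k := fun k => rt_pos (by positivity)
  have hapow : ∀ k, 2 ^ k * a k ^ (c + 2) = 1 := by
    intro k
    simp only [ha]
    rw [rt_pow (by positivity)]
    field_simp
  set s : ℕ → ℝ := fun k => max (min (ψ (2 ^ k)) (a k)) (ph P k) with hs
  have hspos : ∀ k, 0 < s k := fun k => lt_max_of_lt_right (ph_pos P k)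
  have hbbnn : ∀ k, 0 ≤ bb P k := fun k => (bb_pos P k).le
  have hbb_le : ∀ k, bb P k ≤ ∑' k, bb P k := fun k => by
    have := (summable_bb P).sum_le_tsum {k} (fun i _ => hbbnn i)
    simpa using this
  refine ⟨⟨s, 1 + ∑' k, bb P k, hspos, ?_, ?_, ?_, ?_⟩, ?_⟩
  · have : 0 ≤ ∑' k, bb P k := tsum_nonneg hbbnn
    linarith
  · intro k
    have hm0 : 0 ≤ min (ψ (2 ^ k)) (a k) := le_min (h0 _) (hapos k).le
    have e1 : 0 ≤ ∑' k, bb P k := tsum_nonneg hbbnn
    rcases max_cases (min (ψ (2 ^ k)) (a k)) (ph P k) with ⟨h, _⟩ | ⟨h, _⟩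
    · simp only [hs]
      rw [h]
      have h2 : 2 ^ k * min (ψ (2 ^ k)) (a k) ^ (c + 2) ≤ 2 ^ k * a k ^ (c + 2) := by
        gcongr
        exact min_le_right _ _
      rw [hapow k] at h2
      linarith
    · simp only [hs]
      rw [h, ph_pow]
      have := hbb_le k
      linarith
  · intro k
    have h1 : 2 ^ k * ph P k ^ (c + 2) ≤ 2 ^ k * s k ^ (c + 2) := by
      have := (ph_pos P k).le
      gcongr
      exact le_max_right _ _
    rw [ph_pow] at h1
    exact h1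
  · intro hsum
    apply hdiv
    have hcond : Summable fun k : ℕ => (2:ℝ) ^ k * ψ (2 ^ k) ^ (c + 2) := by
      apply summable_of_min (fun k => by
        have := h0 (2 ^ k)
        positivity)
      refine Summable.of_nonneg_of_le (fun k => ?_) (fun k => ?_) hsum
      · have := h0 (2 ^ k)
        positivity
      · have hm0 : 0 ≤ min (ψ (2 ^ k)) (a k) := le_min (h0 _) (hapos k).le
        have h2 : 2 ^ k * min (ψ (2 ^ k)) (a k) ^ (c + 2) ≤ 2 ^ k * s k ^ (c + 2) := by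
          gcongr
          exact le_max_left _ _
        refine le_trans ?_ h2
        rcases min_cases (ψ (2 ^ k)) (a k) with ⟨h, _⟩ | ⟨h, _⟩
        · rw [h]; exact min_le_left _ _
        · rw [h, hapow k]; exact min_le_right _ _
    rwa [summable_condensed_iff_of_nonneg (f := fun q => ψ q ^ (c + 2))] at hcond
    · intro n; exact pow_nonneg (h0 n) _
    · intro m n hm hmn
      exact pow_le_pow_left₀ (h0 n) (hanti m n hm hmn) _
  · intro k
    constructor
    · exact max_le_max (min_le_left _ _) le_rfl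
    · rcases max_cases (min (ψ (2 ^ k)) (a k)) (ph P k) with ⟨h, _⟩ | ⟨h, _⟩
      · left
        simp only [hs]
        rw [h]
        exact min_le_left _ _
      · right
        simp only [hs]
        rw [h]

theorem plane_div {c : ℕ} (P : Par c) (ψ : ℕ → ℝ) (h0 : ∀ q, 0 ≤ ψ q)
    (hanti : ∀ m n, 0 < m → m ≤ n → ψ n ≤ ψ m) (hdiv : ¬ Summable fun q => ψ q ^ (c + 2)) :
    ∀ᵐ x : ℝ × ℝ, ∃ᶠ q in Filter.atTop, App P ψ q x := by
  obtain ⟨D, hD⟩ := exists_DSeq P ψ h0 hanti hdiv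
  have h1 : ∀ m : ℕ, ∃ l : ℕ, ∀ᵐ x : ℝ × ℝ, 1 / ((m:ℝ) + 1) < |x.1| → |x.1| < (m:ℝ) + 1 →
      |x.2| < (m:ℝ) + 1 → ∃ᶠ k in Filter.atTop, x ∈ Wset P (D.s k) l k := fun m =>
    div_region P D (by
      have : (0:ℝ) ≤ m := Nat.cast_nonneg m
      linarith)
  choose l hl using h1
  have h2 := ae_all_iff.mpr hl
  have h3 : ∀ᵐ x : ℝ × ℝ, ∀ m : ℕ, ∀ᶠ j in Filter.atTop, ∀ q : ℕ, 2 ^ j ≤ q → q < 2 ^ (j + 1) →
      ∀ i ≤ l m, ¬ (nd (q * x.1) < ph P (j + i) ∧ nd (q * x.2) < ph P (j + i) ∧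
          ∀ l, nd (q * P.f x l) < ph P (j + i)) :=
    ae_all_iff.mpr fun m => conv_ph P (l m)
  have h4 : ∀ᵐ x : ℝ × ℝ, x.1 ≠ 0 := by
    rw [ae_iff]
    simpa using volume_axis
  filter_upwards [h2, h3, h4] with x hx2 hx3 hx4
  -- choose the region
  obtain ⟨m, hm⟩ := exists_nat_gt (|x.1| + |x.2| + 1 / |x.1|)
  have hx1pos : 0 < |x.1| := abs_pos.mpr hx4
  have hx2nn := abs_nonneg x.2
  have hinv : 0 < 1 / |x.1| := by positivity
  have hfr := hx2 m (by
    rw [div_lt_iff₀ (by positivity)]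
    have : |x.1| * (1 / |x.1|) < |x.1| * ((m:ℝ) + 1) := by
      gcongr
      linarith
    rwa [mul_one_div_cancel hx1pos.ne'] at this) (by linarith) (by linarith)
  obtain ⟨j0, hj0⟩ := Filter.eventually_atTop.mp (hx3 m)
  rw [Filter.frequently_atTop] at hfr ⊢
  intro N
  obtain ⟨k, hk, q, hq1, hq2, hq3, hq4, hq5⟩ := hfr (j0 + N + l m)
  have hkl : j0 + N ≤ k - l m := by omega
  have hNq : N ≤ q := by
    calc N ≤ k - l m := by omega
      _ ≤ 2 ^ (k - l m) := (Nat.lt_two_pow_self).le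
      _ ≤ q := hq1
  have hq0 : q ≠ 0 := by
    have : 0 < 2 ^ (k - l m) := by positivity
    omega
  have hqpos : 0 < q := by omega
  refine ⟨q, hNq, ?_⟩
  have hj1 := Nat.pow_log_le_self 2 hq0
  have hj2 := Nat.lt_pow_succ_log_self (by norm_num : 1 < 2) q
  have hjk : k - l m ≤ Nat.log 2 q := (Nat.le_log_iff_pow_le (by norm_num) hq0).mpr hq1
  have hjk2 : Nat.log 2 q ≤ k := (Nat.pow_le_pow_iff_right (by norm_num : 1 < 2)).mp (hj1.trans hq2)
  have hnot := hj0 (Nat.log 2 q) (by omega) q hj1 hj2 (k - Nat.log 2 q) (by omega)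
  have hadd : Nat.log 2 q + (k - Nat.log 2 q) = k := by omega
  rw [hadd] at hnot
  rcases (hD k).2 with h | h
  · have hψ : D.s k ≤ ψ q := h.trans (hanti q (2 ^ k) hqpos hq2)
    exact ⟨hq3.trans_le hψ, hq4.trans_le hψ, fun i => (hq5 i).trans_le hψ⟩
  · exact absurd ⟨hq3.trans_le h, hq4.trans_le h, fun i => (hq5 i).trans_le h⟩ hnot

end KT582
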