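import Pool.Agent.Lib.MP_582f03_nt.Construct
import Pool.Agent.Lib.MP_582f03_nt.Counting

/-!
# The three rows and their properties
-/

set_option maxHeartbeats 400000

namespace KT582

open Finset

lemma nd_dotp_ge {c : ℕ} (h : Fin c → ℤ) (x y : Fin c → ℝ) (r : ℝ) (hr : ∀ j, |x j - y j| ≤ r) :
    nd (dotp h y) - c * (‖h‖ * r) ≤ nd (dotp h x) := by
  have h1 : dotp h y = dotp h x - dotp h (x - y) := by
    rw [dotp_sub_right]; ring
  have h2 := nd_sub_le (dotp h x) (dotp h (x - y))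
  rw [← h1] at h2
  have h3 := nd_le_abs (dotp h (x - y))
  have h4 := abs_dotp_le h (x - y) r hr
  linarith

/-- Lower bound outside the kernel lattice. -/
lemma nd_ge_of_ne {c : ℕ} {T : ℕ} {p : Fin c → ℕ} {k : Fin c → ℤ} (hs : IsStage T p k)
    (hT : 1 ≤ T) {C5 κ : ℝ} (hκ : 0 < κ) (h7 : 4 * c * C5 * 2 ^ (c * c) ≤ κ * T)
    {α : Fin c → ℝ} (hα : ∀ j, |α j - pt p k j| ≤ 2 * (C5 / (κ * (T:ℝ) ^ (c + 3))))
    (hC5 : 0 < C5)
    {h : Fin c → ℤ} (hh : ‖h‖ < (T:ℝ) ^ 2) (hne : nd (dotp h (pt p k)) ≠ 0) :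
    1 / (2 * 2 ^ (c * c) * (T:ℝ) ^ c) ≤ nd (dotp h α) := by
  have hT' : (0:ℝ) < T := by exact_mod_cast hT
  have h1 := nd_dotp_ge h α (pt p k) _ hα
  have h2 := hs.sep hne
  have h3 := hs.prod_le
  have hnn := nd_nonneg (dotp h (pt p k))
  have h4 : 1 / (2 ^ (c * c) * (T:ℝ) ^ c) ≤ nd (dotp h (pt p k)) := by
    rw [div_le_iff₀ (by positivity)]
    calc (1:ℝ) ≤ ((∏ j, p j : ℕ) : ℝ) * nd (dotp h (pt p k)) := h2
      _ ≤ (2 ^ (c * c) * (T:ℝ) ^ c) * nd (dotp h (pt p k)) := by gcongr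
      _ = _ := by ring
  have h5 : (c:ℝ) * (‖h‖ * (2 * (C5 / (κ * (T:ℝ) ^ (c + 3))))) ≤
      1 / (2 * 2 ^ (c * c) * (T:ℝ) ^ c) := by
    calc (c:ℝ) * (‖h‖ * (2 * (C5 / (κ * (T:ℝ) ^ (c + 3))))) ≤
        (c:ℝ) * ((T:ℝ) ^ 2 * (2 * (C5 / (κ * (T:ℝ) ^ (c + 3))))) := by gcongr
      _ = (4 * c * C5 * 2 ^ (c * c)) / (κ * T) * (1 / (2 * 2 ^ (c * c) * (T:ℝ) ^ c)) := by
          field_simp
          ring
      _ ≤ 1 * (1 / (2 * 2 ^ (c * c) * (T:ℝ) ^ c)) := by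
          gcongr
          rw [div_le_one (by positivity)]
          exact h7
      _ = _ := one_mul _
  have h6 : 1 / (2 ^ (c * c) * (T:ℝ) ^ c) = 2 * (1 / (2 * 2 ^ (c * c) * (T:ℝ) ^ c)) := by
    field_simp
  linarith

/-- Lower bound in the window. -/
lemma nd_ge_window {c : ℕ} {T T' : ℕ} {p p' : Fin c → ℕ} {k k' : Fin c → ℤ} (hs : IsStage T p k)
    (hT : 1 ≤ T) {κ ρ' : ℝ} (hκ : 0 < κ) (hκ1 : κ ≤ 1) (hρ' : 0 ≤ ρ')
    (hd : 4 * c * (T:ℝ) ^ (2 * c + 4) * ρ' ≤ 1)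
    {α : Fin c → ℝ} (hα : ∀ j, |α j - pt p' k' j| ≤ 2 * ρ')
    {h : Fin c → ℤ} (hne : h ≠ 0) (hh : ‖h‖ < (T:ℝ) ^ 2) (h0 : nd (dotp h (pt p k)) = 0)
    (heta : eta c T κ (pt p k) h ≤ nd (dotp h (pt p' k'))) :
    1 ≤ κ * (T : ℝ) ^ 2 * ‖h‖ ^ c * nd (dotp h α) := by
  have hT' : (1:ℝ) ≤ T := by exact_mod_cast hT
  have h1 := nd_dotp_ge h α (pt p' k') _ hα
  have hn := one_le_norm_int hne
  rw [eta, if_neg (not_le.mpr hh), if_pos ⟨hne, h0⟩] at heta
  have h5 : (c:ℝ) * (‖h‖ * (2 * ρ')) ≤ 1 / (κ * (T:ℝ) ^ 2 * ‖h‖ ^ c) := by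
    rw [le_div_iff₀ (by positivity)]
    calc (c:ℝ) * (‖h‖ * (2 * ρ')) * (κ * (T:ℝ) ^ 2 * ‖h‖ ^ c)
        ≤ (c:ℝ) * ((T:ℝ) ^ 2 * (2 * ρ')) * (1 * (T:ℝ) ^ 2 * ((T:ℝ) ^ 2) ^ c) := by gcongr
      _ = (4 * c * (T:ℝ) ^ (2 * c + 4) * ρ') / 2 := by ring
      _ ≤ 1 := by linarith
  have h6 : 2 / (κ * (T:ℝ) ^ 2 * ‖h‖ ^ c) = 2 * (1 / (κ * (T:ℝ) ^ 2 * ‖h‖ ^ c)) := by ring
  have h7 : 1 / (κ * (T:ℝ) ^ 2 * ‖h‖ ^ c) ≤ nd (dotp h α) := by linarith
  rw [div_le_iff₀ (by positivity)] at h7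
  linarith

/-- Lower bound between windows. -/
lemma nd_ge_between {c : ℕ} {T T' : ℕ} {p p' : Fin c → ℕ} {k k' : Fin c → ℤ}
    (hT' : 1 ≤ T') {κ κ' C5 : ℝ} (hκ' : 0 < κ') (hC5 : 0 < C5)
    (h7 : 4 * c * C5 * 2 ^ (c * c) ≤ κ' * T')
    {α : Fin c → ℝ} (hα : ∀ j, |α j - pt p' k' j| ≤ 2 * (C5 / (κ' * (T':ℝ) ^ (c + 3))))
    {h : Fin c → ℤ} (hne : h ≠ 0) (hh1 : (T:ℝ) ^ 2 ≤ ‖h‖) (hh : ‖h‖ < T')
    (heta : eta c T κ (pt p k) h ≤ nd (dotp h (pt p' k'))) :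
    1 ≤ ‖h‖ ^ (c + 1) * nd (dotp h α) := by
  have hT0 : (1:ℝ) ≤ T' := by exact_mod_cast hT'
  have h1 := nd_dotp_ge h α (pt p' k') _ hα
  have hn := one_le_norm_int hne
  rw [eta, if_pos hh1] at heta
  have h5 : (c:ℝ) * (‖h‖ * (2 * (C5 / (κ' * (T':ℝ) ^ (c + 3))))) ≤ (‖h‖⁻¹) ^ (c + 1) := by
    rw [inv_pow, ← one_div, le_div_iff₀ (by positivity)]
    calc (c:ℝ) * (‖h‖ * (2 * (C5 / (κ' * (T':ℝ) ^ (c + 3))))) * ‖h‖ ^ (c + 1)
        = (c:ℝ) * (‖h‖ ^ (c + 2) * (2 * (C5 / (κ' * (T':ℝ) ^ (c + 3))))) := by ring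
      _ ≤ (c:ℝ) * ((T':ℝ) ^ (c + 2) * (2 * (C5 / (κ' * (T':ℝ) ^ (c + 3))))) := by gcongr
      _ = (2 * c * C5) / (κ' * T') := by
          field_simp
          ring
      _ ≤ 1 := by
          rw [div_le_one (by positivity)]
          refine le_trans ?_ h7
          have : (1:ℝ) ≤ 2 ^ (c * c) := one_le_pow₀ (by norm_num)
          have hc0 : 0 ≤ (c:ℝ) * C5 := by positivity
          nlinarith
  have h6 : (‖h‖⁻¹) ^ (c + 1) ≤ nd (dotp h α) := by linarith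
  rw [inv_pow, ← one_div, div_le_iff₀ (by positivity)] at h6
  linarith


lemma appr_algebra {u x z b g rho e : ℝ} {i : ℕ} (hu : 1 ≤ u) (hx1 : 1 ≤ x) (hx2 : x ≤ 2)
    (hxu : |x - u| ≤ 2 / (i + 1)) (hz0 : 0 ≤ z) (hz : z ≤ rho)
    (hb : |b + 2 / u * z| ≤ e) (hg : |g - 1 / u ^ 2 * z| ≤ e) :
    |z + x * b + x ^ 2 * g| ≤ 4 * rho / (i + 1) ^ 2 + 6 * e := by
  have hi : (0:ℝ) < (i:ℝ) + 1 := by positivity
  have h1 : z + x * b + x ^ 2 * g = z * ((x - u) ^ 2 / u ^ 2) + x * (b + 2 / u * z) +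
      x ^ 2 * (g - 1 / u ^ 2 * z) := by
    field_simp
    ring
  have h2 : |z * ((x - u) ^ 2 / u ^ 2)| ≤ 4 * rho / (i + 1) ^ 2 := by
    rw [abs_mul, abs_of_nonneg hz0, abs_of_nonneg (by positivity : 0 ≤ (x - u) ^ 2 / u ^ 2)]
    have h3 : (x - u) ^ 2 ≤ (2 / ((i:ℝ) + 1)) ^ 2 := by
      rw [← sq_abs]; gcongr
    have h4 : (x - u) ^ 2 / u ^ 2 ≤ (x - u) ^ 2 := by
      apply div_le_self (sq_nonneg _)
      exact one_le_pow₀ hu
    calc z * ((x - u) ^ 2 / u ^ 2) ≤ rho * (2 / ((i:ℝ) + 1)) ^ 2 := by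
          apply mul_le_mul hz (h4.trans h3) (by positivity) (hz0.trans hz)
      _ = _ := by field_simp; ring
  have h5 : |x * (b + 2 / u * z)| ≤ 2 * e := by
    rw [abs_mul, abs_of_nonneg (by linarith : 0 ≤ x)]
    exact mul_le_mul hx2 hb (abs_nonneg _) (by norm_num)
  have h6 : |x ^ 2 * (g - 1 / u ^ 2 * z)| ≤ 4 * e := by
    rw [abs_mul, abs_of_nonneg (by positivity : 0 ≤ x ^ 2)]
    refine mul_le_mul ?_ hg (abs_nonneg _) (by norm_num)
    nlinarith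
  rw [h1]
  have h7 := abs_add_le (z * ((x - u) ^ 2 / u ^ 2) + x * (b + 2 / u * z)) (x ^ 2 * (g - 1 / u ^ 2 * z))
  have h8 := abs_add_le (z * ((x - u) ^ 2 / u ^ 2)) (x * (b + 2 / u * z))
  linarith

theorem exists_constr {c : ℕ} (hc : 0 < c) (κ u : ℕ → ℝ) (hκ : ∀ i, 0 < κ i)
    (hκ1 : ∀ i, κ i ≤ 1) (hu : ∀ i, 1 ≤ u i) : Nonempty (Constr c κ u) := by
  obtain ⟨C5, C6, h5, h6, H⟩ := exists_seq hc
  have hC5 : 0 < C5 := by linarith
  have hc' : (0:ℝ) < c := by exact_mod_cast hc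
  set C7 : ℝ := max C6 (max 2 (max C5 (4 * c * C5 * 2 ^ (c * c)))) with hC7
  have h7a : C6 ≤ C7 := le_max_left _ _
  have h7b : 2 ≤ C7 := (le_max_left _ _).trans (le_max_right _ _)
  have h7c : C5 ≤ C7 := ((le_max_left _ _).trans (le_max_right _ _)).trans (le_max_right _ _)
  have h7d : 4 * c * C5 * 2 ^ (c * c) ≤ C7 :=
    ((le_max_right _ _).trans (le_max_right _ _)).trans (le_max_right _ _)
  obtain ⟨d, hd1, hd2⟩ := H C7 κ u (fun i T => min (C5 / (κ i * (T:ℝ) ^ (c + 3)) / (36 * (i + 1) ^ 2))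
    (1 / (4 * c * (T:ℝ) ^ (2 * c + 4)))) h7a hκ hκ1 (by
      intro i T hT
      have := hκ i
      have hT' : (0:ℝ) < T := by exact_mod_cast hT
      apply lt_min <;> positivity)
  have hs : ∀ i, IsStage (d i).T (d i).p (d i).k := fun i => (hd1 i).1
  have hκT : ∀ i, C7 ≤ κ i * (d i).T := fun i => (hd1 i).2.1
  have hT2 : ∀ i, (2:ℝ) ≤ (d i).T := by
    intro i
    have h1 := hκT i
    have h2 := hκ1 i
    have h3 : (0:ℝ) ≤ (d i).T := Nat.cast_nonneg _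
    have h4 := mul_le_of_le_one_left h3 h2
    linarith
  have hTpos : ∀ i, (0:ℝ) < (d i).T := fun i => by linarith [hT2 i]
  have hTn : ∀ i, 1 ≤ (d i).T := by
    intro i
    have := hTpos i
    have : 0 < (d i).T := by exact_mod_cast this
    omega
  obtain ⟨ρ, hρ⟩ : ∃ ρ : ℕ → ℝ, ∀ i, ρ i = C5 / (κ i * ((d i).T:ℝ) ^ (c + 3)) := ⟨_, fun i => rfl⟩
  have hρpos : ∀ i, 0 < ρ i := by
    intro i
    rw [hρ]
    have := hκ i
    have := hTpos i
    positivity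
  have hρT : ∀ i, ρ i ≤ 1 / (d i).T := by
    intro i
    have h1 := hκ i
    have h2 := hTpos i
    have h3 := (h7c.trans (hκT i))
    rw [hρ, div_le_div_iff₀ (by positivity) h2]
    calc C5 * ((d i).T : ℝ) ≤ (κ i * (d i).T) * ((d i).T : ℝ) := by gcongr
      _ = κ i * ((d i).T : ℝ) ^ 2 := by ring
      _ ≤ κ i * ((d i).T : ℝ) ^ (c + 3) := by
          have : (1:ℝ) ≤ (d i).T := by linarith [hT2 i]
          gcongr
          omega
      _ = _ := by ring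
  have hε1 : ∀ i, 1 / ((d (i + 1)).T : ℝ) ≤ ρ i / (36 * (i + 1) ^ 2) := by
    intro i
    have := (hd2 i).2.2.2.2.trans (min_le_left _ _)
    rwa [← hρ] at this
  have hε2 : ∀ i, 1 / ((d (i + 1)).T : ℝ) ≤ 1 / (4 * c * ((d i).T:ℝ) ^ (2 * c + 4)) := by
    intro i
    exact (hd2 i).2.2.2.2.trans (min_le_right _ _)
  have hε1' : ∀ i, 36 * (1 / ((d (i + 1)).T : ℝ)) ≤ ρ i / (i + 1) ^ 2 := by
    intro i
    calc 36 * (1 / ((d (i + 1)).T : ℝ)) ≤ 36 * (ρ i / (36 * (i + 1) ^ 2)) := by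
          have := hε1 i
          linarith
      _ = _ := by field_simp
  have hε3 : ∀ i, 36 * (1 / ((d (i + 1)).T : ℝ)) ≤ ρ i := by
    intro i
    refine (hε1' i).trans ?_
    apply div_le_self (hρpos i).le
    have : (0:ℝ) ≤ i := Nat.cast_nonneg _
    nlinarith
  have hsq : ∀ i, (d i).T ^ 2 ≤ (d (i + 1)).T := by
    intro i
    have h1 := hε2 i
    have h2 := hTpos i
    have h3 := hTpos (i + 1)
    rw [div_le_div_iff₀ h3 (by positivity)] at h1
    have h4 : ((d i).T : ℝ) ^ 2 ≤ (d (i + 1)).T := by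
      calc ((d i).T : ℝ) ^ 2 ≤ ((d i).T : ℝ) ^ (2 * c + 4) := by
            have : (1:ℝ) ≤ (d i).T := by linarith [hT2 i]
            gcongr
            omega
        _ ≤ 4 * c * ((d i).T : ℝ) ^ (2 * c + 4) := by
            have hc1 : (1:ℝ) ≤ c := by exact_mod_cast hc
            have : (0:ℝ) ≤ ((d i).T : ℝ) ^ (2 * c + 4) := by positivity
            exact le_mul_of_one_le_left this (by linarith)
        _ ≤ _ := by linarith
    exact_mod_cast h4
  have hρ2 : ∀ i, ρ (i + 1) ≤ ρ i / 2 := by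
    intro i
    have h1 := hρT (i + 1)
    have h2 := hε3 i
    have := hTpos (i + 1)
    have h3 : 0 ≤ 1 / ((d (i + 1)).T : ℝ) := by positivity
    linarith
  -- increments
  have hz0 : ∀ i j, 0 ≤ pt (d (i+1)).p (d (i+1)).k j - pt (d i).p (d i).k j := by
    intro i j
    have := ((hd2 i).1 j).1
    linarith
  have hz1 : ∀ i j, pt (d (i+1)).p (d (i+1)).k j - pt (d i).p (d i).k j ≤ ρ i := by
    intro i j
    have := ((hd2 i).1 j).2
    rw [← hρ] at this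
    linarith
  have hb : ∀ i j, |(pt (d (i+1)).p (d (i+1)).kb j - pt (d i).p (d i).kb j) +
      2 / u i * (pt (d (i+1)).p (d (i+1)).k j - pt (d i).p (d i).k j)| ≤ 1 / ((d (i+1)).T : ℝ) := by
    intro i j
    have := (hd2 i).2.2.1 j
    convert this using 2
    ring
  have hg : ∀ i j, |(pt (d (i+1)).p (d (i+1)).kc j - pt (d i).p (d i).kc j) -
      1 / u i ^ 2 * (pt (d (i+1)).p (d (i+1)).k j - pt (d i).p (d i).k j)| ≤ 1 / ((d (i+1)).T : ℝ) := by
    intro i j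
    have := (hd2 i).2.2.2.1 j
    convert this using 2
    ring
  have hα : ∀ j, ∃ x, ∀ n, |x - pt (d n).p (d n).k j| ≤ 2 * 1 * ρ n := by
    intro j
    apply exists_limit _ ρ 1 (by norm_num) hρpos hρ2
    intro n
    rw [abs_of_nonneg (hz0 n j), one_mul]
    exact hz1 n j
  have hβ : ∀ j, ∃ x, ∀ n, |x - pt (d n).p (d n).kb j| ≤ 2 * 3 * ρ n := by
    intro j
    apply exists_limit _ ρ 3 (by norm_num) hρpos hρ2
    intro n
    have h1 := hb n j
    have h2 := hz0 n j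
    have h3 := hz1 n j
    have h4 := hε3 n
    have h5 : 0 ≤ 2 / u n * (pt (d (n+1)).p (d (n+1)).k j - pt (d n).p (d n).k j) := by
      have := hu n
      positivity
    have h6 : 2 / u n * (pt (d (n+1)).p (d (n+1)).k j - pt (d n).p (d n).k j) ≤ 2 * ρ n := by
      have h7 : 2 / u n ≤ 2 := by
        apply div_le_self (by norm_num) (hu n)
      calc _ ≤ 2 * (pt (d (n+1)).p (d (n+1)).k j - pt (d n).p (d n).k j) := by gcongr
        _ ≤ _ := by linarith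
    have h8 : 0 ≤ 1 / ((d (n + 1)).T : ℝ) := by positivity
    rw [abs_le] at h1 ⊢
    constructor <;> linarith
  have hγ : ∀ j, ∃ x, ∀ n, |x - pt (d n).p (d n).kc j| ≤ 2 * 2 * ρ n := by
    intro j
    apply exists_limit _ ρ 2 (by norm_num) hρpos hρ2
    intro n
    have h1 := hg n j
    have h2 := hz0 n j
    have h3 := hz1 n j
    have h4 := hε3 n
    have h5 : 0 ≤ 1 / u n ^ 2 * (pt (d (n+1)).p (d (n+1)).k j - pt (d n).p (d n).k j) := by
      positivity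
    have h6 : 1 / u n ^ 2 * (pt (d (n+1)).p (d (n+1)).k j - pt (d n).p (d n).k j) ≤ ρ n := by
      have h7 : 1 / u n ^ 2 ≤ 1 := by
        apply div_le_self (by norm_num) (one_le_pow₀ (hu n))
      calc _ ≤ 1 * (pt (d (n+1)).p (d (n+1)).k j - pt (d n).p (d n).k j) := by gcongr
        _ ≤ _ := by linarith
    have h8 : 0 ≤ 1 / ((d (n + 1)).T : ℝ) := by positivity
    have h9 := hρpos n
    rw [abs_le] at h1 ⊢
    constructor <;> linarith
  choose α hα using hα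
  choose β hβ using hβ
  choose γ hγ using hγ
  choose t ht using fun i => (hd1 i).2.2
  have htR : ∀ i, ((d i).T : ℝ) = 2 ^ t i := by
    intro i; rw [ht i]; push_cast; rfl
  have htt : ∀ i, 2 * t i ≤ t (i + 1) := by
    intro i
    have h1 := hsq i
    rw [ht i, ht (i + 1), ← pow_mul] at h1
    have := (Nat.pow_le_pow_iff_right (by norm_num : 1 < 2)).mp h1
    omega
  have ht0 : 1 ≤ t 0 := by
    have h1 := hT2 0
    rw [htR 0] at h1
    by_contra hcon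
    have : t 0 = 0 := by omega
    rw [this] at h1
    norm_num at h1
  have hti : ∀ i, i + 1 ≤ t i := by
    intro i
    induction i with
    | zero => exact ht0
    | succ i ih => have := htt i; omega
  have hρanti : ∀ i, ρ i ≤ ρ 0 := by
    intro i
    induction i with
    | zero => exact le_rfl
    | succ i ih =>
      have := hρ2 i
      have := hρpos i
      linarith
  set c4 : ℝ := 1 / (2 * 2 ^ (c * c) * ((d 0).T:ℝ) ^ c) with hc4
  have hc4pos : 0 < c4 := by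
    have := hTpos 0
    positivity
  have hc4le : c4 ≤ 1 / (2 * 2 ^ (c * c)) := by
    rw [hc4]
    have : (1:ℝ) ≤ ((d 0).T:ℝ) ^ c := one_le_pow₀ (by linarith [hT2 0])
    apply div_le_div_of_nonneg_left (by norm_num) (by positivity)
    have h2 : (0:ℝ) < 2 * 2 ^ (c * c) := by positivity
    exact le_mul_of_one_le_right h2.le this
  have hc41 : c4 ≤ 1 := by
    refine hc4le.trans ?_
    rw [div_le_one (by positivity)]
    have : (1:ℝ) ≤ 2 ^ (c * c) := one_le_pow₀ (by norm_num)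
    linarith
  have hα' : ∀ i j, |α j - pt (d i).p (d i).k j| ≤ 2 * (C5 / (κ i * ((d i).T:ℝ) ^ (c + 3))) := by
    intro i j
    rw [← hρ]
    have := hα j i
    linarith
  have hα'' : ∀ i j, |α j - pt (d i).p (d i).k j| ≤ 2 * ρ i := by
    intro i j
    have := hα j i
    linarith
  have hdρ : ∀ i, 4 * c * ((d i).T:ℝ) ^ (2 * c + 4) * ρ (i + 1) ≤ 1 := by
    intro i
    have h1 := hρT (i + 1)
    have h2 := hε2 i
    have h3 := hTpos i
    calc 4 * c * ((d i).T:ℝ) ^ (2 * c + 4) * ρ (i + 1)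
        ≤ 4 * c * ((d i).T:ℝ) ^ (2 * c + 4) * (1 / (4 * c * ((d i).T:ℝ) ^ (2 * c + 4))) := by
          gcongr
          exact h1.trans h2
      _ = 1 := by field_simp
  have hsqR : ∀ i, ((d i).T : ℝ) ^ 2 ≤ (d (i + 1)).T := by
    intro i; exact_mod_cast hsq i
  have hP : PropP c α (fun i => 2 ^ t i) κ c4 := by
    intro h hne
    have hn := one_le_norm_int hne
    have hex : ∃ i, ‖h‖ < ((d i).T : ℝ) ^ 2 := by
      obtain ⟨N, hN⟩ := exists_nat_gt ‖h‖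
      refine ⟨N, hN.trans_le ?_⟩
      rw [htR N]
      have h1 : (N:ℝ) ≤ 2 ^ N := by exact_mod_cast (Nat.lt_two_pow_self).le
      have h2 : (2:ℝ) ^ N ≤ 2 ^ t N := by
        gcongr
        · norm_num
        · have := hti N; omega
      have h3 : (1:ℝ) ≤ 2 ^ t N := one_le_pow₀ (by norm_num)
      nlinarith
    classical
    have hmin := Nat.find_spec hex
    have hlt : ∀ m < Nat.find hex, ((d m).T : ℝ) ^ 2 ≤ ‖h‖ := by
      intro m hm
      exact not_lt.mp (Nat.find_min hex hm)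
    generalize Nat.find hex = i at hmin hlt
    by_cases h0 : nd (dotp h (pt (d i).p (d i).k)) = 0
    · right
      refine ⟨i, ?_, ?_, ?_⟩
      · push_cast
        rw [← htR]
        exact (hs i).le_norm hne h0
      · push_cast
        rw [← htR]
        exact hmin
      · push_cast
        rw [← htR]
        apply nd_ge_window (p' := (d (i+1)).p) (k' := (d (i+1)).k) (T' := (d (i+1)).T) (hs i) (hTn i) (hκ i) (hκ1 i)
          (hρpos (i+1)).le (hdρ i) (hα'' (i+1)) hne hmin h0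
        exact (hd2 i).2.1 h hne (hmin.trans_le (hsqR i))
    · left
      have h7 : 4 * c * C5 * 2 ^ (c * c) ≤ κ i * (d i).T := h7d.trans (hκT i)
      have hge := nd_ge_of_ne (hs i) (hTn i) (hκ i) h7 (hα' i) hC5 hmin h0
      rcases Nat.eq_zero_or_pos i with hi0 | hipos
      · subst hi0
        refine hge.trans ?_
        have : (1:ℝ) ≤ ‖h‖ ^ (c + 1) := one_le_pow₀ hn
        have := nd_nonneg (dotp h α)
        nlinarith
      · rcases lt_or_ge ‖h‖ ((d i).T : ℝ) with hlt' | hge'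
        · obtain ⟨m, rfl⟩ : ∃ m, i = m + 1 := ⟨i - 1, by omega⟩
          refine hc41.trans ?_
          exact nd_ge_between (T := (d m).T) (p := (d m).p) (k := (d m).k) (κ := κ m) (hTn (m+1)) (hκ (m+1)) hC5
            h7 (hα' (m+1)) hne (hlt m (by omega)) hlt' ((hd2 m).2.1 h hne hlt')
        · refine hc4le.trans ?_
          have hTi := hTpos i
          have hT1 : (1:ℝ) ≤ (d i).T := by linarith [hT2 i]
          calc 1 / (2 * 2 ^ (c * c)) ≤ ((d i).T : ℝ) * (1 / (2 * 2 ^ (c * c))) := by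
                have : (0:ℝ) < 1 / (2 * 2 ^ (c * c)) := by positivity
                exact le_mul_of_one_le_left this.le hT1
            _ = ((d i).T:ℝ) ^ (c + 1) * (1 / (2 * 2 ^ (c * c) * ((d i).T:ℝ) ^ c)) := by
                field_simp
                ring
            _ ≤ ‖h‖ ^ (c + 1) * nd (dotp h α) := by gcongr
  -- bounds for rows
  obtain ⟨Cb, hCb⟩ : ∃ Cb : ℝ, ∀ j, |β j| ≤ Cb ∧ |γ j| ≤ Cb := by
    refine ⟨∑ j, (|β j| + |γ j|), fun j => ?_⟩
    have h1 : |β j| + |γ j| ≤ ∑ j, (|β j| + |γ j|) :=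
      Finset.single_le_sum (f := fun j => |β j| + |γ j|) (fun j _ => by positivity)
        (Finset.mem_univ j)
    have := abs_nonneg (β j)
    have := abs_nonneg (γ j)
    constructor <;> linarith
  refine ⟨⟨α, β, γ, t, c4, max 1 (max (5 * C5) (Cb + 6 * ρ 0)), hc4pos, hc41, le_max_left _ _, htt,
    fun i => by have := hti i; omega, hP, ?_⟩⟩
  intro i
  refine ⟨(d i).p, (d i).k, (d i).kb, (d i).kc, fun j => ((hs i).prime j).pos, ?_, ?_, ?_, ?_⟩
  · intro j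
    rw [← ht i]
    exact (hs i).le j
  · intro j
    refine le_trans ?_ ((le_max_right _ _).trans (le_max_right _ _))
    have h1 := (hCb j).1
    have h2 := hβ j i
    have h3 := hρanti i
    rw [abs_le] at h1 h2 ⊢
    constructor <;> linarith
  · intro j
    refine le_trans ?_ ((le_max_right _ _).trans (le_max_right _ _))
    have h1 := (hCb j).2
    have h2 := hγ j i
    have h3 := hρanti i
    have h4 := hρpos 0
    rw [abs_le] at h1 h2 ⊢
    constructor <;> linarith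
  · intro x hx1 hx2 hxu j
    have h1 := appr_algebra (hu i) hx1 hx2 hxu (hz0 i j) (hz1 i j) (hb i j) (hg i j)
    have h2 := hα j (i + 1)
    have h3 := hβ j (i + 1)
    have h4 := hγ j (i + 1)
    have h5' := hρT (i + 1)
    have h6' := hε1' i
    have hx0 : 0 ≤ x := by linarith
    have e3 : |x * (β j - pt (d (i + 1)).p (d (i + 1)).kb j)| ≤ 12 * ρ (i + 1) := by
      rw [abs_mul, abs_of_nonneg hx0]
      calc x * |β j - pt (d (i + 1)).p (d (i + 1)).kb j| ≤ 2 * (2 * 3 * ρ (i + 1)) := by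
            gcongr
        _ = _ := by ring
    have e4 : |x ^ 2 * (γ j - pt (d (i + 1)).p (d (i + 1)).kc j)| ≤ 16 * ρ (i + 1) := by
      rw [abs_mul, abs_of_nonneg (by positivity : 0 ≤ x ^ 2)]
      have : x ^ 2 ≤ 4 := by nlinarith
      calc x ^ 2 * |γ j - pt (d (i + 1)).p (d (i + 1)).kc j| ≤ 4 * (2 * 2 * ρ (i + 1)) := by
            gcongr
        _ = _ := by ring
    have hρ4 : ρ i / (i + 1) ^ 2 = C5 / (κ i * (2 ^ t i) ^ (c + 3) * (i + 1) ^ 2) := by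
      rw [hρ, htR, div_div]
    have hfin : 5 * (ρ i / (i + 1) ^ 2) ≤
        (max 1 (max (5 * C5) (Cb + 6 * ρ 0))) / (κ i * (2 ^ t i) ^ (c + 3) * (i + 1) ^ 2) := by
      rw [hρ4, mul_div_assoc']
      have hki := hκ i
      apply div_le_div_of_nonneg_right _ (by positivity)
      exact (le_max_left _ _).trans (le_max_right _ _)
    refine le_trans ?_ hfin
    have e1 : (α j + x * β j + x ^ 2 * γ j) - (pt (d i).p (d i).k j + x * pt (d i).p (d i).kb j +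
        x ^ 2 * pt (d i).p (d i).kc j) =
      (pt (d (i+1)).p (d (i+1)).k j - pt (d i).p (d i).k j +
        x * (pt (d (i+1)).p (d (i+1)).kb j - pt (d i).p (d i).kb j) +
        x ^ 2 * (pt (d (i+1)).p (d (i+1)).kc j - pt (d i).p (d i).kc j)) +
      (α j - pt (d (i + 1)).p (d (i + 1)).k j) + x * (β j - pt (d (i + 1)).p (d (i + 1)).kb j) +
      x ^ 2 * (γ j - pt (d (i + 1)).p (d (i + 1)).kc j) := by ring
    rw [e1]
    have h7 : 4 * ρ i / (i + 1) ^ 2 = 4 * (ρ i / (i + 1) ^ 2) := by ring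
    rw [h7] at h1
    rw [abs_le] at h1 h2 e3 e4 ⊢
    constructor <;> linarith
end KT582
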