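import Pool.Agent.Lib.MP_582f03_nt.ConstrDef

/-!
# Preparations for the inductive step of the construction
-/

namespace KT582

open Finset

lemma summable_norm_int (c : ℕ) : Summable (fun h : Fin c → ℤ => (‖h‖⁻¹) ^ (c + 1)) := by
  set L : Submodule ℤ (Fin c → ℝ) := Submodule.span ℤ (Set.range (Pi.basisFun ℝ (Fin c))) with hL
  have hrank : Module.finrank ℤ L = c := by
    rw [ZLattice.rank ℝ L, Module.finrank_fin_fun]
  have h1 := ZLattice.summable_norm_pow_inv L (c + 1) (by rw [hrank]; omega)
  have hmem : ∀ h : Fin c → ℤ, (fun j => (h j : ℝ)) ∈ L := by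
    intro h
    rw [hL, Module.Basis.mem_span_iff_repr_mem]
    intro i
    exact ⟨h i, by simp⟩
  set f : (Fin c → ℤ) → L := fun h => ⟨fun j => (h j : ℝ), hmem h⟩ with hf
  have hinj : Function.Injective f := by
    intro a b hab
    have := congrArg Subtype.val hab
    funext j
    have h2 := congrFun this j
    simpa [hf] using h2
  have h2 := h1.comp_injective hinj
  refine h2.congr fun h => ?_
  simp only [Function.comp_apply, hf]
  congr 2

lemma one_le_norm_int {c : ℕ} {h : Fin c → ℤ} (hh : h ≠ 0) : 1 ≤ ‖h‖ := by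
  obtain ⟨j, hj⟩ := Function.ne_iff.mp hh
  have h1 : ‖h j‖ ≤ ‖h‖ := norm_le_pi_norm h j
  have h2 : (1:ℝ) ≤ ‖h j‖ := by
    rw [Int.norm_eq_abs]
    have : (1:ℤ) ≤ |h j| := Int.one_le_abs hj
    exact_mod_cast this
  linarith

/-- exists a coordinate realizing the norm -/
lemma exists_coord_norm {c : ℕ} (hc : 0 < c) (h : Fin c → ℤ) : ∃ j, ‖h‖ = |(h j : ℝ)| := by
  haveI : Nonempty (Fin c) := ⟨⟨0, hc⟩⟩
  obtain ⟨j, _, hj⟩ := Finset.exists_max_image (Finset.univ : Finset (Fin c)) (fun j => ‖h j‖)
    Finset.univ_nonempty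
  refine ⟨j, ?_⟩
  rw [← Int.norm_eq_abs]
  apply le_antisymm
  · rw [pi_norm_le_iff_of_nonneg (norm_nonneg _)]
    intro i
    exact hj i (Finset.mem_univ _)
  · exact norm_le_pi_norm h j

lemma abs_dotp_le {c : ℕ} (h : Fin c → ℤ) (x : Fin c → ℝ) (r : ℝ) (hr : ∀ j, |x j| ≤ r) :
    |dotp h x| ≤ c * (‖h‖ * r) := by
  rw [dotp]
  refine (Finset.abs_sum_le_sum_abs _ _).trans ?_
  have : ∀ j ∈ (Finset.univ : Finset (Fin c)), |(h j : ℝ) * x j| ≤ ‖h‖ * r := by
    intro j _
    rw [abs_mul]
    have h1 : |(h j : ℝ)| ≤ ‖h‖ := by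
      have := norm_le_pi_norm h j
      rwa [Int.norm_eq_abs] at this
    exact mul_le_mul h1 (hr j) (abs_nonneg _) (norm_nonneg _)
  refine (Finset.sum_le_card_nsmul _ _ _ this).trans ?_
  rw [Finset.card_univ, Fintype.card_fin, nsmul_eq_mul]

lemma dotp_sub_right {c : ℕ} (h : Fin c → ℤ) (x y : Fin c → ℝ) :
    dotp h (x - y) = dotp h x - dotp h y := by
  simp [dotp, mul_sub, Finset.sum_sub_distrib]

/-- if `Q x` is an integer and `x` is not, then `Q * nd x ≥ 1`. -/
lemma one_le_mul_nd {Q : ℕ} (hQ0 : 0 < Q) {x : ℝ} {z : ℤ} (hQ : (Q:ℝ) * x = z) (hx : nd x ≠ 0) :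
    1 ≤ Q * nd x := by
  have hQ' : (0:ℝ) < Q := by exact_mod_cast hQ0
  have h1 : (Q:ℝ) * nd x = |((z - Q * round x : ℤ) : ℝ)| := by
    have : ((z - Q * round x : ℤ) : ℝ) = Q * (x - round x) := by
      push_cast
      rw [← hQ]; ring
    rw [this, abs_mul, abs_of_pos hQ', nd]
  rw [h1]
  have h2 : (z - Q * round x : ℤ) ≠ 0 := by
    intro h0
    rw [h0] at h1
    simp only [Int.cast_zero, abs_zero, mul_eq_zero, Nat.cast_eq_zero] at h1
    rcases h1 with h1 | h1
    · omega
    · exact hx h1
  have : (1:ℤ) ≤ |z - Q * round x| := Int.one_le_abs h2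
  exact_mod_cast this

lemma round_le_round_of_le {x y : ℝ} (h : x ≤ y) : round x ≤ round y := by
  rw [round_eq, round_eq]
  exact Int.floor_le_floor (by linarith)

/-- count in an arithmetic progression -/
lemma ap_count_pos (a : ℤ) (n : ℕ) (θ s η : ℝ) (hs : 0 < s) (hη : 0 ≤ η) :
    (((Finset.Ico a (a + n)).filter (fun k : ℤ => nd (θ + s * k) < η)).card : ℝ)
      ≤ (n * s + 2) * (2 * η / s + 1) := by
  classical
  rcases Nat.eq_zero_or_pos n with hn | hn
  · subst hn
    simp only [Nat.cast_zero, add_zero, Finset.Ico_self, Finset.filter_empty, Finset.card_empty]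
    positivity
  set A := (Finset.Ico a (a + n)).filter (fun k : ℤ => nd (θ + s * k) < η) with hA
  set f : ℤ → ℤ := fun k => round (θ + s * k) with hf
  have himg : A.image f ⊆ Finset.Icc (round (θ + s * a)) (round (θ + s * (a + n - 1))) := by
    intro m hm
    rw [Finset.mem_image] at hm
    obtain ⟨k, hk, rfl⟩ := hm
    rw [hA, Finset.mem_filter, Finset.mem_Ico] at hk
    rw [Finset.mem_Icc]
    have h1 : (a:ℝ) ≤ k := by exact_mod_cast hk.1.1
    have h2 : (k:ℝ) ≤ a + n - 1 := by
      have : k ≤ a + n - 1 := by omega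
      exact_mod_cast this
    constructor
    · apply round_le_round_of_le
      nlinarith
    · apply round_le_round_of_le
      nlinarith
  have hcardimg : ((A.image f).card : ℝ) ≤ n * s + 2 := by
    have h1 := Finset.card_le_card himg
    rw [Int.card_Icc] at h1
    have h2 : (((A.image f).card : ℤ) : ℝ) ≤ ((round (θ + s * (a + n - 1)) + 1 - round (θ + s * a) : ℤ) : ℝ) := by
      have : ((A.image f).card : ℤ) ≤ (round (θ + s * (a + n - 1)) + 1 - round (θ + s * a)) := by
        have h3 : round (θ + s * a) ≤ round (θ + s * (a + n - 1)) := by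
          apply round_le_round_of_le
          have : (1:ℝ) ≤ n := by exact_mod_cast hn
          nlinarith
        omega
      exact_mod_cast this
    push_cast at h2
    have h3 := abs_sub_round (θ + s * (a + n - 1))
    have h4 := abs_sub_round (θ + s * a)
    rw [abs_le] at h3 h4
    nlinarith
  have hfib : ∀ m ∈ A.image f, ((A.filter (fun k => f k = m)).card : ℝ) ≤ 2 * η / s + 1 := by
    intro m _
    have := card_le_of_separated (A.filter (fun k => f k = m)) (fun k : ℤ => θ + s * k) (m - η)
      (2 * η) s hs (by positivity) (by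
        intro k hk
        rw [Finset.mem_filter, hA, Finset.mem_filter] at hk
        have h1 := hk.1.2
        rw [nd] at h1
        have h2 : round (θ + s * k) = m := hk.2
        rw [h2, abs_lt] at h1
        constructor <;> linarith) (by
        intro x _ y _ hxy
        have h1 : (1:ℝ) ≤ |(x:ℝ) - y| := by
          have : (1:ℤ) ≤ |x - y| := Int.one_le_abs (sub_ne_zero.mpr hxy)
          exact_mod_cast this
        have h2 : θ + s * x - (θ + s * y) = s * (x - y) := by ring
        rw [h2, abs_mul, abs_of_pos hs]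
        nlinarith)
    exact this
  have hsum : (A.card : ℝ) = ∑ m ∈ A.image f, ((A.filter (fun k => f k = m)).card : ℝ) := by
    have := Finset.card_eq_sum_card_image f A
    exact_mod_cast this
  rw [hsum]
  calc _ ≤ ∑ m ∈ A.image f, (2 * η / s + 1) := Finset.sum_le_sum hfib
    _ = ((A.image f).card : ℝ) * (2 * η / s + 1) := by rw [Finset.sum_const, nsmul_eq_mul]
    _ ≤ _ := by
      apply mul_le_mul_of_nonneg_right hcardimg
      positivity

lemma ap_count (a : ℤ) (n : ℕ) (θ s η : ℝ) (hs : s ≠ 0) (hη : 0 ≤ η) :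
    (((Finset.Ico a (a + n)).filter (fun k : ℤ => nd (θ + s * k) < η)).card : ℝ)
      ≤ (n * |s| + 2) * (2 * η / |s| + 1) := by
  rcases lt_or_gt_of_ne hs with h | h
  · have := ap_count_pos a n (-θ) (-s) η (by linarith) hη
    rw [abs_of_neg h]
    refine le_trans (le_of_eq ?_) this
    congr 2
    ext k
    simp only [Finset.mem_filter, and_congr_right_iff]
    intro _
    rw [← nd_neg (θ + s * k)]
    ring_nf
  · rw [abs_of_pos h]
    exact ap_count_pos a n θ s η h hη

/-- If each coordinate fibre of a bad set is small, the bad set is small. -/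
lemma coord_fiber {c : ℕ} (J : Fin c → Finset ℤ) (Bad : (Fin c → ℤ) → Prop) [DecidablePred Bad]
    (l : Fin c) (B : ℝ)
    (hB : ∀ k ∈ Fintype.piFinset J,
      (((J l).filter (fun t => Bad (Function.update k l t))).card : ℝ) ≤ B) :
    (((Fintype.piFinset J).filter Bad).card : ℝ) * (J l).card ≤ B * (Fintype.piFinset J).card := by
  classical
  set D := Fintype.piFinset J with hD
  -- pairs (k, t) with `Bad (update k l t)`
  set P := (D ×ˢ J l).filter (fun x => Bad (Function.update x.1 l x.2)) with hPdef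
  have h1 : (P.card : ℝ) ≤ B * D.card := by
    have : P.card = ∑ k ∈ D, ((J l).filter (fun t => Bad (Function.update k l t))).card := by
      rw [hPdef, Finset.card_filter, Finset.sum_product]
      refine Finset.sum_congr rfl fun k _ => ?_
      rw [Finset.card_filter]
    rw [this]
    push_cast
    calc _ ≤ ∑ k ∈ D, B := Finset.sum_le_sum hB
      _ = B * D.card := by rw [Finset.sum_const, nsmul_eq_mul]; ring
  have h2 : ((D.filter Bad) ×ˢ (J l)).card ≤ P.card := by
    apply Finset.card_le_card_of_injOn (fun x => (Function.update x.1 l x.2, x.1 l))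
    · intro x hx
      simp only [Finset.mem_coe, Finset.mem_product, Finset.mem_filter, hD,
        Fintype.mem_piFinset] at hx
      simp only [Finset.mem_coe, hPdef, Finset.mem_filter, Finset.mem_product, hD,
        Fintype.mem_piFinset]
      refine ⟨⟨?_, hx.1.1 l⟩, ?_⟩
      · intro j
        by_cases hj : j = l
        · subst hj; simpa using hx.2
        · rw [Function.update_of_ne hj]; exact hx.1.1 j
      · simpa using hx.1.2
    · intro x hx y hy hxy
      simp only [Prod.mk.injEq] at hxy
      have e1 : x.2 = y.2 := by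
        have := congrFun hxy.1 l
        simpa using this
      have e2 : x.1 = y.1 := by
        funext j
        by_cases hj : j = l
        · subst hj; exact hxy.2
        · have := congrFun hxy.1 j
          rwa [Function.update_of_ne hj, Function.update_of_ne hj] at this
      exact Prod.ext e2 e1
  rw [Finset.card_product] at h2
  calc _ = (((D.filter Bad).card * (J l).card : ℕ) : ℝ) := by push_cast; ring
    _ ≤ P.card := by exact_mod_cast h2
    _ ≤ _ := h1

/-- The value of the linear form at a rational point, cleared denominators, divisibility. -/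
lemma dvd_of_int {c : ℕ} {p : Fin c → ℕ} (hp : ∀ j, (p j).Prime) (hinj : Function.Injective p)
    {d : Fin c → ℤ} {z : ℤ} (hz : ∑ j, (d j : ℝ) / p j = z) (j : Fin c) : (p j : ℤ) ∣ d j := by
  classical
  have hp0 : ∀ j, (p j : ℝ) ≠ 0 := fun j => by exact_mod_cast (hp j).ne_zero
  -- multiply by the product
  have h1 : ∑ i, d i * ∏ l ∈ Finset.univ.erase i, (p l : ℤ) = z * ∏ l, (p l : ℤ) := by
    have h2 : ((∑ i, d i * ∏ l ∈ Finset.univ.erase i, (p l : ℤ) : ℤ) : ℝ)
        = ((z * ∏ l, (p l : ℤ) : ℤ) : ℝ) := by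
      push_cast
      rw [← hz, Finset.sum_mul]
      refine Finset.sum_congr rfl fun i _ => ?_
      rw [← Finset.mul_prod_erase Finset.univ (fun l => (p l : ℝ)) (Finset.mem_univ i)]
      rw [← mul_assoc, div_mul_cancel₀ _ (hp0 i)]
    exact_mod_cast h2
  have h3 : (p j : ℤ) ∣ z * ∏ l, (p l : ℤ) :=
    Dvd.dvd.mul_left (Finset.dvd_prod_of_mem _ (Finset.mem_univ j)) _
  rw [← h1, ← Finset.add_sum_erase _ _ (Finset.mem_univ j)] at h3
  have h4 : (p j : ℤ) ∣ ∑ i ∈ Finset.univ.erase j, d i * ∏ l ∈ Finset.univ.erase i, (p l : ℤ) := by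
    apply Finset.dvd_sum
    intro i hi
    apply Dvd.dvd.mul_left
    apply Finset.dvd_prod_of_mem
    rw [Finset.mem_erase] at hi ⊢
    exact ⟨fun h => hi.1 h.symm, Finset.mem_univ _⟩
  have h5 : (p j : ℤ) ∣ d j * ∏ l ∈ Finset.univ.erase j, (p l : ℤ) := (dvd_add_left h4).mp h3
  have hpj : Prime (p j : ℤ) := Nat.prime_iff_prime_int.mp (hp j)
  rcases hpj.dvd_or_dvd h5 with h | h
  · exact h
  · exfalso
    rw [hpj.dvd_finset_prod_iff] at h
    obtain ⟨l, hl, hdvd⟩ := h
    rw [Finset.mem_erase] at hl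
    have h6 : p j ∣ p l := by exact_mod_cast hdvd
    have h7 := (Nat.prime_dvd_prime_iff_eq (hp j) (hp l)).mp h6
    exact hl.1 (hinj h7).symm

end KT582
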