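import Pool.Agent.Lib.MP_582f03_nt.StepA

/-!
# The count over all residues, and the general inductive step
-/

set_option maxHeartbeats 400000

namespace KT582

open Finset

lemma not_dvd_of_lt {p : ℕ} {a : ℤ} (ha : a ≠ 0) (h : |a| < p) : ¬ (p : ℤ) ∣ a := by
  intro hd
  exact ha (Int.eq_zero_of_abs_lt_dvd hd h)

lemma tail_count {c : ℕ} {p : Fin c → ℕ} (hp : ∀ j, (p j).Prime) (hinj : Function.Injective p)
    (J : Fin c → Finset ℤ) (hJ : ∀ j, ∀ a ∈ J j, ∀ b ∈ J j, |a - b| < p j)
    {h : Fin c → ℤ} (hne : h ≠ 0) (hlt : ∀ j, |h j| < p j) {η : ℝ} (hη : 0 < η) :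
    (((Fintype.piFinset J).filter
      (fun k => (∀ j, ¬ (p j : ℤ) ∣ k j) ∧ nd (dotp h (pt p k)) < η)).card : ℝ)
      ≤ 3 * η * ∏ j, (if h j = 0 then ((J j).card : ℝ) else p j) := by
  classical
  have hp0 : ∀ j, (p j : ℝ) ≠ 0 := fun j => by exact_mod_cast (hp j).ne_zero
  obtain ⟨j0, hj0⟩ := Function.ne_iff.mp hne
  simp only [Pi.zero_apply] at hj0
  set Q : ℕ := ∏ j, (if h j = 0 then 1 else p j) with hQ
  have hQpos : 0 < Q := by
    apply Finset.prod_pos
    intro j _
    split_ifs
    · norm_num
    · exact (hp j).pos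
  have hQ' : (0:ℝ) < Q := by exact_mod_cast hQpos
  have hdot : ∀ k, dotp h (pt p k) = ∑ j, ((h j * k j : ℤ) : ℝ) / p j := by
    intro k
    rw [dotp]
    refine Finset.sum_congr rfl fun j _ => ?_
    rw [pt]; push_cast; ring
  have hdiv : ∀ j, h j ≠ 0 → p j ∣ Q := by
    intro j hj
    have : (if h j = 0 then 1 else p j) ∣ Q := Finset.dvd_prod_of_mem _ (Finset.mem_univ j)
    rwa [if_neg hj] at this
  have hint : ∀ k, ∃ z : ℤ, (Q:ℝ) * dotp h (pt p k) = z := by
    intro k
    refine ⟨∑ j, h j * k j * ((Q / p j : ℕ) : ℤ), ?_⟩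
    rw [hdot]
    push_cast
    rw [Finset.mul_sum]
    refine Finset.sum_congr rfl fun j _ => ?_
    by_cases hj : h j = 0
    · simp [hj]
    · obtain ⟨m, hm⟩ := hdiv j hj
      have h1 : ((Q / p j : ℕ) : ℤ) = m := by
        rw [hm, Nat.mul_div_cancel_left _ (hp j).pos]
      have h2 : (Q:ℝ) = p j * m := by exact_mod_cast hm
      have h3 : (Q:ℤ) / (p j : ℤ) = m := by
        rw [← h1]; push_cast; rfl
      have h4 : (((Q:ℤ) / (p j : ℤ) : ℤ) : ℝ) = m := by rw [h3]; simp
      rw [h4, h2]
      have := hp0 j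
      field_simp
  set F := (Fintype.piFinset J).filter
      (fun k => (∀ j, ¬ (p j : ℤ) ∣ k j) ∧ nd (dotp h (pt p k)) < η) with hF
  -- nonvanishing
  have hnz : ∀ k ∈ F, 1 ≤ (Q:ℝ) * nd (dotp h (pt p k)) := by
    intro k hk
    rw [hF, mem_filter] at hk
    obtain ⟨z, hz⟩ := hint k
    apply one_le_mul_nd hQpos hz
    intro h0
    rw [nd_eq_zero_iff] at h0
    obtain ⟨w, hw⟩ := h0
    rw [hdot] at hw
    have h1 := dvd_of_int hp hinj hw j0
    rcases (Nat.prime_iff_prime_int.mp (hp j0)).dvd_or_dvd h1 with h2 | h2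
    · exact not_dvd_of_lt hj0 (hlt j0) h2
    · exact hk.2.1 j0 h2
  have hprod0 : 0 ≤ ∏ j, (if h j = 0 then ((J j).card : ℝ) else p j) := by
    apply Finset.prod_nonneg
    intro j _
    split_ifs <;> positivity
  by_cases hηQ : η * Q < 1
  · have hemp : F = ∅ := by
      apply Finset.eq_empty_of_forall_notMem
      intro k hk
      have h1 := hnz k hk
      rw [hF, mem_filter] at hk
      have h2 := hk.2.2
      nlinarith
    have hc0 : F.card = 0 := by rw [hemp]; exact Finset.card_empty
    rw [hc0, Nat.cast_zero]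
    exact mul_nonneg (by linarith) hprod0
  push Not at hηQ
  set g : (Fin c → ℤ) → (Fin c → ℤ) := fun k j => if h j = 0 then k j else 0 with hg
  have himg : F.image g ⊆ Fintype.piFinset (fun j => if h j = 0 then J j else {0}) := by
    intro m hm
    rw [mem_image] at hm
    obtain ⟨k, hk, rfl⟩ := hm
    rw [hF, mem_filter, Fintype.mem_piFinset] at hk
    rw [Fintype.mem_piFinset]
    intro j
    by_cases hj : h j = 0
    · have e1 : g k j = k j := if_pos hj
      rw [e1, if_pos hj]; exact hk.1 j
    · have e1 : g k j = 0 := if_neg hj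
      rw [e1, if_neg hj]; exact Finset.mem_singleton_self _
  have hcardimg : ((F.image g).card : ℝ) ≤ ∏ j, (if h j = 0 then ((J j).card : ℝ) else 1) := by
    have h1 := Finset.card_le_card himg
    rw [Fintype.card_piFinset] at h1
    calc ((F.image g).card : ℝ) ≤ ((∏ j, (if h j = 0 then J j else {0}).card : ℕ) : ℝ) := by
          exact_mod_cast h1
      _ = _ := by
          push_cast
          refine Finset.prod_congr rfl fun j _ => ?_
          split_ifs <;> simp
  have hfib : ∀ m ∈ F.image g, ((F.filter (fun k => g k = m)).card : ℝ) ≤ 3 * η * Q := by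
    intro m _
    have h1 := card_le_of_separated (F.filter (fun k => g k = m))
      (fun k => dotp h (pt p k) - round (dotp h (pt p k))) (-η) (2 * η) (1 / Q)
      (by positivity) (by positivity) (by
        intro k hk
        rw [mem_filter, hF, mem_filter] at hk
        have h2 := hk.1.2.2
        rw [nd, abs_lt] at h2
        constructor <;> linarith) (by
        intro k hk k' hk' hkk
        rw [mem_filter, hF, mem_filter, Fintype.mem_piFinset] at hk hk'
        obtain ⟨j, hj⟩ := Function.ne_iff.mp hkk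
        have hhj : h j ≠ 0 := by
          intro h0
          have h3 : g k j = g k' j := by rw [hk.2, hk'.2]
          have e1 : g k j = k j := if_pos h0
          have e2 : g k' j = k' j := if_pos h0
          rw [e1, e2] at h3
          exact hj h3
        obtain ⟨z, hz⟩ := hint k
        obtain ⟨z', hz'⟩ := hint k'
        have h4 : (Q:ℝ) * (dotp h (pt p k) - dotp h (pt p k')) = ((z - z' : ℤ) : ℝ) := by
          push_cast; rw [mul_sub, hz, hz']
        have h5 : nd (dotp h (pt p k) - dotp h (pt p k')) ≠ 0 := by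
          intro h0
          rw [nd_eq_zero_iff] at h0
          obtain ⟨w, hw⟩ := h0
          rw [hdot, hdot, ← Finset.sum_sub_distrib] at hw
          have hw' : ∑ i, ((h i * (k i - k' i) : ℤ) : ℝ) / p i = w := by
            rw [← hw]
            refine Finset.sum_congr rfl fun i _ => ?_
            push_cast; ring
          have h6 := dvd_of_int hp hinj hw' j
          rcases (Nat.prime_iff_prime_int.mp (hp j)).dvd_or_dvd h6 with h7 | h7
          · exact not_dvd_of_lt hhj (hlt j) h7
          · exact not_dvd_of_lt (sub_ne_zero.mpr hj) (hJ j _ (hk.1.1 j) _ (hk'.1.1 j)) h7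
        have h6 := one_le_mul_nd hQpos h4 h5
        have h7 : nd (dotp h (pt p k) - dotp h (pt p k')) ≤
            |(dotp h (pt p k) - round (dotp h (pt p k))) -
              (dotp h (pt p k') - round (dotp h (pt p k')))| := by
          have := nd_le_abs_sub (dotp h (pt p k) - dotp h (pt p k'))
            (round (dotp h (pt p k)) - round (dotp h (pt p k')))
          refine this.trans (le_of_eq ?_)
          congr 1; push_cast; ring
        rw [div_le_iff₀ hQ']
        calc (1:ℝ) ≤ Q * nd (dotp h (pt p k) - dotp h (pt p k')) := h6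
          _ ≤ Q * _ := mul_le_mul_of_nonneg_left h7 hQ'.le
          _ = _ := by ring)
    have h2 : 2 * η / (1 / (Q:ℝ)) = 2 * η * Q := by field_simp
    rw [h2] at h1
    linarith
  have hsum : (F.card : ℝ) = ∑ m ∈ F.image g, ((F.filter (fun k => g k = m)).card : ℝ) := by
    have := Finset.card_eq_sum_card_image g F
    exact_mod_cast this
  rw [hsum]
  calc _ ≤ ∑ m ∈ F.image g, (3 * η * Q) := Finset.sum_le_sum hfib
    _ = ((F.image g).card : ℝ) * (3 * η * Q) := by rw [Finset.sum_const, nsmul_eq_mul]
    _ ≤ (∏ j, (if h j = 0 then ((J j).card : ℝ) else 1)) * (3 * η * Q) := by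
      apply mul_le_mul_of_nonneg_right hcardimg
      positivity
    _ = 3 * η * ((∏ j, (if h j = 0 then ((J j).card : ℝ) else 1)) * Q) := by ring
    _ = _ := by
      congr 1
      rw [hQ]
      push_cast
      rw [← Finset.prod_mul_distrib]
      refine Finset.prod_congr rfl fun j _ => ?_
      split_ifs <;> simp

end KT582
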