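import Pool.Agent.Lib.MP_582f03_nt.StepB

/-!
# The general inductive step
-/

set_option maxHeartbeats 400000

namespace KT582

open Finset

/-- the weight in the union bound -/
noncomputable def phi (c : ℕ) (α : Fin c → ℝ) (ρ : ℝ) (η : (Fin c → ℤ) → ℝ) (h : Fin c → ℤ) : ℝ :=
  2 * η h + if nd (dotp h α) ≤ c * (‖h‖ * ρ) + η h then 8 * η h / (ρ * ‖h‖) else 0

lemma phi_nonneg {c : ℕ} {α : Fin c → ℝ} {ρ : ℝ} (hρ : 0 < ρ) {η : (Fin c → ℤ) → ℝ}
    (hη : ∀ h, 0 ≤ η h) (h : Fin c → ℤ) : 0 ≤ phi c α ρ η h := by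
  rw [phi]
  have := hη h
  split_ifs <;> positivity

lemma phi_le {c : ℕ} {α : Fin c → ℝ} {ρ : ℝ} (hρ : 0 < ρ) {η : (Fin c → ℤ) → ℝ}
    (hη : ∀ h, 0 ≤ η h) (h : Fin c → ℤ) : phi c α ρ η h ≤ (2 + 8 / ρ) * η h := by
  rw [phi, add_mul]
  have h0 := hη h
  gcongr
  split_ifs
  · by_cases hh : h = 0
    · subst hh; simp only [norm_zero, mul_zero, div_zero]; positivity
    · have := one_le_norm_int hh
      calc 8 * η h / (ρ * ‖h‖) ≤ 8 * η h / (ρ * 1) := by gcongr
        _ = 8 / ρ * η h := by ring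
  · positivity

lemma summable_phi {c : ℕ} {α : Fin c → ℝ} {ρ : ℝ} (hρ : 0 < ρ) {η : (Fin c → ℤ) → ℝ}
    (hη : ∀ h, 0 ≤ η h) (hs : Summable η) : Summable (phi c α ρ η) :=
  Summable.of_nonneg_of_le (phi_nonneg hρ hη) (phi_le hρ hη) (hs.mul_left _)

/-- integer interval of the numerators -/
lemma interval_facts (P : ℕ) (a ρ : ℝ) (hρ : 0 < ρ) (hρ1 : ρ ≤ 1 / 2) (hP : 2 ≤ ρ * P) :
    ∃ (s : ℤ) (n : ℕ), (∀ t ∈ Finset.Ico s (s + n), (P:ℝ) * a ≤ t ∧ (t:ℝ) ≤ P * (a + ρ)) ∧
      ρ * P / 2 ≤ n ∧ (∀ t ∈ Finset.Ico s (s + n), ∀ t' ∈ Finset.Ico s (s + n), |t - t'| < P) := by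
  have hP0 : (0:ℝ) < P := by
    by_contra hcon
    push Not at hcon
    nlinarith
  set s : ℤ := ⌈(P:ℝ) * a⌉ with hs
  set b : ℤ := ⌊(P:ℝ) * (a + ρ)⌋ with hb
  have h1 : (P:ℝ) * a ≤ s := Int.le_ceil _
  have h2 : (s:ℝ) < P * a + 1 := Int.ceil_lt_add_one _
  have h3 : (b:ℝ) ≤ P * (a + ρ) := Int.floor_le _
  have h4 : (P:ℝ) * (a + ρ) < b + 1 := Int.lt_floor_add_one _
  have h5 : (0:ℝ) < ((b + 1 - s : ℤ) : ℝ) := by push_cast; nlinarith
  have h6 : 0 < b + 1 - s := by exact_mod_cast h5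
  have hmem : ∀ t ∈ Finset.Ico s (s + (b + 1 - s).toNat), (P:ℝ) * a ≤ t ∧ (t:ℝ) ≤ P * (a + ρ) := by
    intro t ht
    rw [Finset.mem_Ico] at ht
    have h7 : (s:ℝ) ≤ t := by exact_mod_cast ht.1
    have h8 : t ≤ b := by omega
    have h9 : (t:ℝ) ≤ b := by exact_mod_cast h8
    constructor <;> linarith
  refine ⟨s, (b + 1 - s).toNat, hmem, ?_, ?_⟩
  · have h7 : (((b + 1 - s).toNat : ℕ) : ℝ) = ((b + 1 - s : ℤ) : ℝ) := by
      have : (((b + 1 - s).toNat : ℕ) : ℤ) = b + 1 - s := Int.toNat_of_nonneg h6.le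
      exact_mod_cast this
    rw [h7]; push_cast
    nlinarith
  · intro t ht t' ht'
    have h7 := hmem t ht
    have h8 := hmem t' ht'
    have h9 : |(t:ℝ) - t'| < P := by
      rw [abs_lt]; constructor <;> nlinarith
    exact_mod_cast h9

lemma dotp_update {c : ℕ} (h : Fin c → ℤ) (p : Fin c → ℕ) (k : Fin c → ℤ) (l : Fin c) (t : ℤ) :
    dotp h (pt p (Function.update k l t)) =
      (∑ j ∈ Finset.univ.erase l, (h j : ℝ) * pt p k j) + ((h l : ℝ) / p l) * t := by
  rw [dotp, ← Finset.sum_erase_add _ _ (Finset.mem_univ l)]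
  congr 1
  · refine Finset.sum_congr rfl fun j hj => ?_
    rw [Finset.mem_erase] at hj
    simp only [pt, Function.update_of_ne hj.1]
  · simp only [pt, Function.update_self]; ring

theorem genStep {c : ℕ} (hc : 0 < c) (α : Fin c → ℝ) {ρ : ℝ} (hρ : 0 < ρ) (hρ1 : ρ ≤ 1 / 2)
    (η : (Fin c → ℤ) → ℝ) (hη : ∀ h, 0 ≤ η h) (hs : Summable η)
    (hφ : ∑' h, phi c α ρ η h ≤ 1 / 4) :
    ∃ T0 : ℕ, ∀ T' : ℕ, T0 ≤ T' → ∀ p : Fin c → ℕ, (∀ j, (p j).Prime) → Function.Injective p →
      (∀ j, T' < p j) → ∃ k : Fin c → ℤ, (∀ j, ¬ (p j : ℤ) ∣ k j) ∧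
        (∀ j, α j ≤ pt p k j ∧ pt p k j ≤ α j + ρ) ∧
        ∀ h : Fin c → ℤ, h ≠ 0 → ‖h‖ < T' → η h ≤ nd (dotp h (pt p k)) := by
  classical
  -- choose the finite set
  set C' : ℝ := 3 * (2 / ρ) ^ c with hC'
  have hC'0 : 0 < C' := by positivity
  obtain ⟨𝓕, h𝓕⟩ := summable_iff_vanishing_norm.mp (hs.mul_left C') (1 / 4) (by norm_num)
  set W : ℝ := 2 * c / ρ + ∑ h ∈ 𝓕, (‖h‖ + 4 / ρ) with hW
  have hc1 : (1:ℝ) ≤ c := by exact_mod_cast hc
  have hW1 : 2 / ρ ≤ W := by
    have h1 : 0 ≤ ∑ h ∈ 𝓕, (‖h‖ + 4 / ρ) := Finset.sum_nonneg fun h _ => by positivity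
    have h2 : 2 / ρ ≤ 2 * c / ρ := by gcongr; linarith
    linarith
  have hW0 : 0 < W := lt_of_lt_of_le (by positivity) hW1
  refine ⟨⌈4 * W⌉₊ + 1, ?_⟩
  intro T' hT' p hp hinj hpT
  have hT'W : 4 * W ≤ T' := by
    have h1 : ((⌈4 * W⌉₊ + 1 : ℕ) : ℝ) ≤ T' := by exact_mod_cast hT'
    push_cast at h1
    have := Nat.le_ceil (4 * W)
    linarith
  have hT'0 : (0:ℝ) < T' := by linarith
  have hpT' : ∀ j, (T':ℝ) ≤ p j := fun j => by exact_mod_cast (hpT j).le
  have hp0 : ∀ j, (0:ℝ) < p j := fun j => lt_of_lt_of_le hT'0 (hpT' j)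
  have hρp : ∀ j, 2 ≤ ρ * p j := by
    intro j
    have h1 : 2 ≤ ρ * W := by
      rw [div_le_iff₀ hρ] at hW1; linarith
    have h2 : W ≤ p j := by linarith [hpT' j]
    exact h1.trans (mul_le_mul_of_nonneg_left h2 hρ.le)
  choose a n hmem hn hdiff using fun j => interval_facts (p j) (α j) ρ hρ hρ1 (hρp j)
  set J : Fin c → Finset ℤ := fun j => Finset.Ico (a j) (a j + n j) with hJ
  have hJcard : ∀ j, (J j).card = n j := by intro j; simp [hJ]
  have hn0 : ∀ j, (0:ℝ) < n j := by
    intro j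
    have := hn j
    have := hρp j
    linarith
  set D := Fintype.piFinset J with hD
  have hDcard : (D.card : ℝ) = ∏ j, (n j : ℝ) := by
    rw [hD, Fintype.card_piFinset]; push_cast
    refine Finset.prod_congr rfl fun j _ => ?_
    rw [hJcard]
  have hDpos : (0:ℝ) < D.card := by
    rw [hDcard]; exact Finset.prod_pos fun j _ => hn0 j
  -- bad sets
  set B0 : Fin c → Finset (Fin c → ℤ) := fun j => D.filter (fun k => (p j : ℤ) ∣ k j) with hB0
  set B1 : (Fin c → ℤ) → Finset (Fin c → ℤ) :=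
    fun h => D.filter (fun k => nd (dotp h (pt p k)) < η h) with hB1
  set B2 : (Fin c → ℤ) → Finset (Fin c → ℤ) :=
    fun h => D.filter (fun k => (∀ j, ¬ (p j : ℤ) ∣ k j) ∧ nd (dotp h (pt p k)) < η h) with hB2
  have hB0card : ∀ j, ((B0 j).card : ℝ) ≤ 2 / (ρ * T') * D.card := by
    intro j
    have h1 := coord_fiber J (fun k => (p j : ℤ) ∣ k j) j 1 (by
      intro k _
      have : ((J j).filter (fun t => (p j : ℤ) ∣ (Function.update k j t) j)).card ≤ 1 := by
        rw [Finset.card_le_one]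
        intro x hx y hy
        rw [mem_filter] at hx hy
        simp only [Function.update_self] at hx hy
        have h2 := dvd_sub hx.2 hy.2
        have h3 := hdiff j x hx.1 y hy.1
        have := Int.eq_zero_of_abs_lt_dvd h2 h3
        omega
      exact_mod_cast this)
    rw [hJcard, one_mul] at h1
    have h2 : ((B0 j).card : ℝ) * (ρ * T' / 2) ≤ D.card := by
      refine le_trans ?_ h1
      apply mul_le_mul_of_nonneg_left _ (by positivity)
      have h3 := hn j
      have h4 := mul_le_mul_of_nonneg_left (hpT' j) hρ.le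
      linarith
    have h5 : ((B0 j).card : ℝ) = ((B0 j).card : ℝ) * (ρ * T' / 2) * (2 / (ρ * T')) := by
      field_simp
    rw [h5]
    calc _ ≤ (D.card : ℝ) * (2 / (ρ * T')) := by gcongr
      _ = _ := by ring
  have hB1card : ∀ h, h ≠ 0 → ((B1 h).card : ℝ) ≤
      (phi c α ρ η h + (‖h‖ + 4 / ρ) / T') * D.card := by
    intro h hh
    have hnorm := one_le_norm_int hh
    by_cases hcross : nd (dotp h α) ≤ c * (‖h‖ * ρ) + η h
    · obtain ⟨l, hl⟩ := exists_coord_norm hc h
      have hhl : (h l : ℝ) ≠ 0 := by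
        intro h0; rw [h0, abs_zero] at hl; linarith
      have hs0 : (h l : ℝ) / p l ≠ 0 := div_ne_zero hhl (hp0 l).ne'
      have habs : |(h l : ℝ) / p l| = ‖h‖ / p l := by
        rw [abs_div, ← hl, abs_of_pos (hp0 l)]
      have h1 := coord_fiber J (fun k => nd (dotp h (pt p k)) < η h) l
        ((n l * (‖h‖ / p l) + 2) * (2 * η h / (‖h‖ / p l) + 1)) (by
        intro k _
        simp only [dotp_update]
        have := ap_count (a l) (n l) (∑ j ∈ Finset.univ.erase l, (h j : ℝ) * pt p k j)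
          ((h l : ℝ) / p l) (η h) hs0 (hη h)
        rw [habs] at this
        exact this)
      rw [hJcard] at h1
      have hη0 := hη h
      have hnl := hn0 l
      have hpl := hp0 l
      have h2 : ((B1 h).card : ℝ) ≤ (2 * η h + ‖h‖ / p l + 4 * η h * p l / (n l * ‖h‖) + 2 / n l)
          * D.card := by
        have h3 : (n l * (‖h‖ / p l) + 2) * (2 * η h / (‖h‖ / p l) + 1)
            = (2 * η h + ‖h‖ / p l + 4 * η h * p l / (n l * ‖h‖) + 2 / n l) * n l := by
          field_simp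
          ring
        rw [h3] at h1
        have h4 : ((B1 h).card : ℝ) * n l ≤
            ((2 * η h + ‖h‖ / p l + 4 * η h * p l / (n l * ‖h‖) + 2 / n l) * D.card) * n l := by
          calc _ ≤ _ := h1
            _ = _ := by ring
        exact le_of_mul_le_mul_right h4 hnl
      refine h2.trans ?_
      apply mul_le_mul_of_nonneg_right _ hDpos.le
      rw [phi, if_pos hcross]
      have e1 : ‖h‖ / p l ≤ ‖h‖ / T' := by
        have := hpT' l
        gcongr
      have e2 : 4 * η h * p l / (n l * ‖h‖) ≤ 8 * η h / (ρ * ‖h‖) := by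
        rw [div_le_div_iff₀ (by positivity) (by positivity)]
        have h6 := hn l
        have h5 : 0 ≤ 8 * (η h * ‖h‖) := by positivity
        have h7 := mul_le_mul_of_nonneg_left h6 h5
        linarith
      have e3 : 2 / (n l : ℝ) ≤ 4 / ρ / T' := by
        rw [div_div, div_le_div_iff₀ hnl (by positivity)]
        have h6 := hn l
        have h7 := mul_le_mul_of_nonneg_left (hpT' l) hρ.le
        linarith
      have e4 : (‖h‖ + 4 / ρ) / T' = ‖h‖ / T' + 4 / ρ / T' := by ring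
      rw [e4]
      linarith
    · have hemp : (B1 h).card = 0 := by
        rw [Finset.card_eq_zero, Finset.filter_eq_empty_iff]
        intro k hk
        rw [Fintype.mem_piFinset] at hk
        push Not at hcross ⊢
        have h1 : |dotp h (pt p k - α)| ≤ c * (‖h‖ * ρ) := by
          apply abs_dotp_le
          intro j
          have h2 := hmem j (k j) (hk j)
          have h3 : pt p k j = (k j : ℝ) / p j := rfl
          rw [Pi.sub_apply, h3, abs_of_nonneg]
          · rw [sub_le_iff_le_add, div_le_iff₀ (hp0 j)]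
            linarith [h2.2]
          · rw [sub_nonneg, le_div_iff₀ (hp0 j)]
            linarith [h2.1]
        have h2 : nd (dotp h α) ≤ nd (dotp h (pt p k)) + |dotp h (pt p k - α)| := by
          have h3 : dotp h α = dotp h (pt p k) - dotp h (pt p k - α) := by
            rw [dotp_sub_right]; ring
          calc nd (dotp h α) = nd (dotp h (pt p k) - dotp h (pt p k - α)) := by rw [← h3]
            _ ≤ nd (dotp h (pt p k)) + nd (dotp h (pt p k - α)) := nd_sub_le _ _
            _ ≤ _ := by gcongr; exact nd_le_abs _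
        linarith
      rw [hemp, Nat.cast_zero]
      have := phi_nonneg (α := α) hρ hη h
      positivity
  have hB2card : ∀ h, h ≠ 0 → ‖h‖ < T' → ((B2 h).card : ℝ) ≤ C' * η h * D.card := by
    intro h hh hhT
    rcases (hη h).eq_or_lt with h0 | h0
    · have hemp : (B2 h).card = 0 := by
        rw [Finset.card_eq_zero, Finset.filter_eq_empty_iff]
        intro k _ hk
        rw [← h0] at hk
        exact absurd hk.2 (not_lt.mpr (nd_nonneg _))
      rw [hemp, Nat.cast_zero, ← h0]; simp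
    · have h1 := tail_count hp hinj J hdiff hh (by
        intro j
        have h2 := norm_le_pi_norm h j
        rw [Int.norm_eq_abs] at h2
        have h3 : |(h j : ℝ)| < p j := lt_of_le_of_lt h2 (lt_of_lt_of_le hhT (hpT' j))
        exact_mod_cast h3) h0
      refine h1.trans ?_
      have h2 : ∏ j, (if h j = 0 then ((J j).card : ℝ) else p j) ≤ ∏ j, ((2 / ρ) * (n j : ℝ)) := by
        apply Finset.prod_le_prod
        · intro j _; split_ifs <;> positivity
        · intro j _
          have h3 := hn j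
          have h4 := hn0 j
          split_ifs
          · rw [hJcard]
            have : (1:ℝ) ≤ 2 / ρ := by rw [le_div_iff₀ hρ]; linarith
            exact le_mul_of_one_le_left h4.le this
          · rw [div_mul_eq_mul_div, le_div_iff₀ hρ]; linarith
      rw [Finset.prod_mul_distrib, Finset.prod_const, Finset.card_univ, Fintype.card_fin,
        ← hDcard] at h2
      calc 3 * η h * ∏ j, (if h j = 0 then ((J j).card : ℝ) else p j)
          ≤ 3 * η h * ((2 / ρ) ^ c * D.card) := by gcongr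
        _ = C' * η h * D.card := by rw [hC']; ring
  -- union bound
  by_contra hcon
  push Not at hcon
  set box : Finset (Fin c → ℤ) := Fintype.piFinset (fun _ => Finset.Icc (-(T':ℤ)) T') with hbox
  set 𝓣 : Finset (Fin c → ℤ) := box.filter (fun h => h ≠ 0 ∧ ‖h‖ < T' ∧ h ∉ 𝓕) with h𝓣
  set 𝓕' : Finset (Fin c → ℤ) := 𝓕.filter (fun h => h ≠ 0) with h𝓕'
  have hcover : D ⊆ (Finset.univ.biUnion B0) ∪ (𝓕'.biUnion B1) ∪ (𝓣.biUnion B2) := by
    intro k hk
    by_cases h0 : ∃ j, (p j : ℤ) ∣ k j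
    · obtain ⟨j, hj⟩ := h0
      apply Finset.mem_union_left
      apply Finset.mem_union_left
      rw [Finset.mem_biUnion]
      exact ⟨j, Finset.mem_univ _, Finset.mem_filter.mpr ⟨hk, hj⟩⟩
    · push Not at h0
      have hk' := hk
      rw [hD, Fintype.mem_piFinset] at hk'
      obtain ⟨h, hh1, hh2, hh3⟩ := hcon k h0 (by
        intro j
        have h2 := hmem j (k j) (hk' j)
        have h3 : pt p k j = (k j : ℝ) / p j := rfl
        rw [h3, le_div_iff₀ (hp0 j), div_le_iff₀ (hp0 j)]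
        constructor <;> linarith [h2.1, h2.2])
      by_cases hhF : h ∈ 𝓕
      · apply Finset.mem_union_left
        apply Finset.mem_union_right
        rw [Finset.mem_biUnion]
        exact ⟨h, Finset.mem_filter.mpr ⟨hhF, hh1⟩, Finset.mem_filter.mpr ⟨hk, hh3⟩⟩
      · apply Finset.mem_union_right
        rw [Finset.mem_biUnion]
        refine ⟨h, Finset.mem_filter.mpr ⟨?_, hh1, hh2, hhF⟩, Finset.mem_filter.mpr ⟨hk, h0, hh3⟩⟩
        rw [hbox, Fintype.mem_piFinset]
        intro j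
        have h2 := norm_le_pi_norm h j
        rw [Int.norm_eq_abs] at h2
        have h3 : |(h j : ℝ)| < T' := lt_of_le_of_lt h2 hh2
        have h4 : |h j| < T' := by exact_mod_cast h3
        rw [abs_lt] at h4
        rw [Finset.mem_Icc]
        constructor <;> omega
  have hcard1 : (D.card : ℝ) ≤ ∑ j, ((B0 j).card : ℝ) + ∑ h ∈ 𝓕', ((B1 h).card : ℝ)
      + ∑ h ∈ 𝓣, ((B2 h).card : ℝ) := by
    have h1 : D.card ≤ ∑ j, (B0 j).card + ∑ h ∈ 𝓕', (B1 h).card + ∑ h ∈ 𝓣, (B2 h).card := by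
      refine (Finset.card_le_card hcover).trans ?_
      refine (Finset.card_union_le _ _).trans ?_
      apply add_le_add
      · refine (Finset.card_union_le _ _).trans ?_
        exact add_le_add Finset.card_biUnion_le Finset.card_biUnion_le
      · exact Finset.card_biUnion_le
    exact_mod_cast h1
  have hs0 : ∑ j, ((B0 j).card : ℝ) ≤ (2 * c / ρ) / T' * D.card := by
    calc _ ≤ ∑ j : Fin c, 2 / (ρ * T') * (D.card : ℝ) := Finset.sum_le_sum fun j _ => hB0card j
      _ = _ := by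
        rw [Finset.sum_const, Finset.card_univ, Fintype.card_fin, nsmul_eq_mul]
        field_simp
  have hs1 : ∑ h ∈ 𝓕', ((B1 h).card : ℝ) ≤ (1 / 4 + (∑ h ∈ 𝓕, (‖h‖ + 4 / ρ)) / T') * D.card := by
    calc _ ≤ ∑ h ∈ 𝓕', (phi c α ρ η h + (‖h‖ + 4 / ρ) / T') * (D.card : ℝ) := by
          apply Finset.sum_le_sum
          intro h hh
          rw [h𝓕', mem_filter] at hh
          exact hB1card h hh.2
      _ = (∑ h ∈ 𝓕', phi c α ρ η h + (∑ h ∈ 𝓕', (‖h‖ + 4 / ρ)) / T') * D.card := by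
          rw [← Finset.sum_mul, Finset.sum_add_distrib, Finset.sum_div]
      _ ≤ _ := by
          apply mul_le_mul_of_nonneg_right _ hDpos.le
          apply add_le_add
          · refine le_trans ?_ hφ
            exact (summable_phi hρ hη hs).sum_le_tsum _ (fun h _ => phi_nonneg hρ hη h)
          · apply div_le_div_of_nonneg_right _ hT'0.le
            apply Finset.sum_le_sum_of_subset_of_nonneg (Finset.filter_subset _ _)
            intros; positivity
  have hs2 : ∑ h ∈ 𝓣, ((B2 h).card : ℝ) ≤ 1 / 4 * D.card := by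
    calc _ ≤ ∑ h ∈ 𝓣, C' * η h * (D.card : ℝ) := by
          apply Finset.sum_le_sum
          intro h hh
          rw [h𝓣, mem_filter] at hh
          exact hB2card h hh.2.1 hh.2.2.1
      _ = (∑ h ∈ 𝓣, C' * η h) * D.card := by rw [← Finset.sum_mul]
      _ ≤ _ := by
          apply mul_le_mul_of_nonneg_right _ hDpos.le
          have h1 := h𝓕 𝓣 (by
            rw [Finset.disjoint_left]
            intro h hh
            rw [h𝓣, mem_filter] at hh
            exact hh.2.2.2)
          exact le_of_lt (lt_of_le_of_lt (Real.le_norm_self _) h1)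
  have hfin : (2 * c / ρ) / T' + (∑ h ∈ 𝓕, (‖h‖ + 4 / ρ)) / T' ≤ 1 / 4 := by
    rw [← add_div, div_le_iff₀ hT'0]
    rw [hW] at hT'W
    linarith
  have hmul := mul_le_mul_of_nonneg_right hfin hDpos.le
  rw [add_mul] at hmul hs1
  linarith

end KT582
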