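import Pool.Agent.Lib.MP_582f03_nt.StepC

/-!
# The inductive step of the construction
-/

set_option maxHeartbeats 400000

namespace KT582

open Finset

/-- A stage: rational point with distinct prime denominators of size about `T`. -/
structure IsStage {c : ℕ} (T : ℕ) (p : Fin c → ℕ) (k : Fin c → ℤ) : Prop where
  prime : ∀ j, (p j).Prime
  inj : Function.Injective p
  gt : ∀ j, T < p j
  le : ∀ j, p j ≤ 2 ^ c * T
  ndvd : ∀ j, ¬ (p j : ℤ) ∣ k j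

lemma IsStage.dvd {c : ℕ} {T : ℕ} {p : Fin c → ℕ} {k : Fin c → ℤ} (hs : IsStage T p k)
    {h : Fin c → ℤ} (h0 : nd (dotp h (pt p k)) = 0) (j : Fin c) : (p j : ℤ) ∣ h j := by
  rw [nd_eq_zero_iff] at h0
  obtain ⟨z, hz⟩ := h0
  have hdot : dotp h (pt p k) = ∑ j, ((h j * k j : ℤ) : ℝ) / p j := by
    rw [dotp]
    refine Finset.sum_congr rfl fun j _ => ?_
    rw [pt]; push_cast; ring
  rw [hdot] at hz
  have h1 := dvd_of_int hs.prime hs.inj hz j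
  rcases (Nat.prime_iff_prime_int.mp (hs.prime j)).dvd_or_dvd h1 with h2 | h2
  · exact h2
  · exact absurd h2 (hs.ndvd j)

lemma IsStage.le_norm {c : ℕ} {T : ℕ} {p : Fin c → ℕ} {k : Fin c → ℤ} (hs : IsStage T p k)
    {h : Fin c → ℤ} (hne : h ≠ 0) (h0 : nd (dotp h (pt p k)) = 0) : (T : ℝ) ≤ ‖h‖ := by
  obtain ⟨j, hj⟩ := Function.ne_iff.mp hne
  have h1 := hs.dvd h0 j
  have h2 : (p j : ℤ) ≤ |h j| := by
    have := Int.le_of_dvd (abs_pos.mpr hj) ((dvd_abs _ _).mpr h1)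
    exact this
  have h3 := norm_le_pi_norm h j
  rw [Int.norm_eq_abs] at h3
  have h4 : ((p j : ℤ) : ℝ) ≤ |(h j : ℝ)| := by exact_mod_cast h2
  have h5 : (T : ℝ) ≤ p j := by exact_mod_cast (hs.gt j).le
  push_cast at h4
  linarith

/-- the product of denominators clears denominators -/
lemma exists_int_prod {c : ℕ} {p : Fin c → ℕ} (hp : ∀ j, 0 < p j) (k h : Fin c → ℤ) :
    ∃ z : ℤ, ((∏ j, p j : ℕ) : ℝ) * dotp h (pt p k) = z := by
  classical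
  refine ⟨∑ j, h j * k j * ∏ l ∈ Finset.univ.erase j, (p l : ℤ), ?_⟩
  rw [dotp, Finset.mul_sum]
  push_cast
  refine Finset.sum_congr rfl fun j _ => ?_
  have h1 : (∏ l, (p l : ℝ)) = p j * ∏ l ∈ Finset.univ.erase j, (p l : ℝ) :=
    (Finset.mul_prod_erase Finset.univ (fun l => (p l : ℝ)) (Finset.mem_univ j)).symm
  rw [h1, pt]
  have : (p j : ℝ) ≠ 0 := by exact_mod_cast (hp j).ne'
  field_simp

lemma IsStage.prod_le {c : ℕ} {T : ℕ} {p : Fin c → ℕ} {k : Fin c → ℤ} (hs : IsStage T p k) :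
    ((∏ j, p j : ℕ) : ℝ) ≤ 2 ^ (c * c) * (T:ℝ) ^ c := by
  have h1 : (∏ j, p j) ≤ ∏ _j : Fin c, (2 ^ c * T) :=
    Finset.prod_le_prod (fun _ _ => Nat.zero_le _) (fun j _ => hs.le j)
  rw [Finset.prod_const, Finset.card_univ, Fintype.card_fin, mul_pow, ← pow_mul] at h1
  exact_mod_cast h1

lemma IsStage.sep {c : ℕ} {T : ℕ} {p : Fin c → ℕ} {k : Fin c → ℤ} (hs : IsStage T p k)
    {h : Fin c → ℤ} (hne : nd (dotp h (pt p k)) ≠ 0) :
    1 ≤ ((∏ j, p j : ℕ) : ℝ) * nd (dotp h (pt p k)) := by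
  obtain ⟨z, hz⟩ := exists_int_prod (fun j => (hs.prime j).pos) k h
  exact one_le_mul_nd (Finset.prod_pos fun j _ => (hs.prime j).pos) hz hne

/-- the block map -/
def blk {c : ℕ} (p : Fin c → ℕ) (h : Fin c → ℤ) : Fin c → ℤ := fun j => h j / (p j : ℤ)

lemma norm_le_of_blk {c : ℕ} {T : ℕ} {p : Fin c → ℕ} (hp : ∀ j, 0 < p j)
    (hle : ∀ j, p j ≤ 2 ^ c * T) (h : Fin c → ℤ) : ‖h‖ ≤ 2 ^ c * T * (‖blk p h‖ + 1) := by
  rw [pi_norm_le_iff_of_nonneg (by positivity)]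
  intro j
  rw [Int.norm_eq_abs]
  have hpj : (0:ℤ) < p j := by exact_mod_cast hp j
  have h1 := Int.emod_add_mul_ediv (h j) (p j)
  have h2 := Int.emod_nonneg (h j) hpj.ne'
  have h3 := Int.emod_lt_of_pos (h j) hpj
  have h4 : |h j| ≤ p j * (|h j / (p j:ℤ)| + 1) := by
    rw [← h1]
    have h5 : |h j % (p j:ℤ) + p j * (h j / p j)| ≤ |h j % (p j:ℤ)| + |(p j : ℤ) * (h j / p j)| :=
      abs_add_le _ _
    rw [abs_mul, abs_of_pos hpj, abs_of_nonneg h2] at h5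
    rw [h1] at h5 ⊢
    linarith
  have h5 : (|(h j : ℝ)|) ≤ p j * (|((h j / (p j:ℤ) : ℤ) : ℝ)| + 1) := by exact_mod_cast h4
  have h6 : |((h j / (p j:ℤ) : ℤ) : ℝ)| ≤ ‖blk p h‖ := by
    have := norm_le_pi_norm (blk p h) j
    rwa [Int.norm_eq_abs] at this
  have h7 : (p j : ℝ) ≤ 2 ^ c * T := by exact_mod_cast hle j
  calc |(h j : ℝ)| ≤ p j * (|((h j / (p j:ℤ) : ℤ) : ℝ)| + 1) := h5
    _ ≤ 2 ^ c * T * (‖blk p h‖ + 1) := by gcongr

lemma le_norm_of_blk {c : ℕ} (hc : 0 < c) {T : ℕ} {p : Fin c → ℕ} (hlt : ∀ j, T < p j)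
    (h : Fin c → ℤ) : (T:ℝ) * (‖blk p h‖ - 1) ≤ ‖h‖ := by
  obtain ⟨j, hj⟩ := exists_coord_norm hc (blk p h)
  rw [hj]
  have hpj : (0:ℤ) < p j := by have := hlt j; omega
  have h1 := Int.emod_add_mul_ediv (h j) (p j)
  have h2 := Int.emod_nonneg (h j) hpj.ne'
  have h3 := Int.emod_lt_of_pos (h j) hpj
  have h4 : (p j : ℤ) * (|h j / (p j:ℤ)| - 1) ≤ |h j| := by
    have h5 : |(p j : ℤ) * (h j / p j)| ≤ |h j| + |h j % (p j:ℤ)| := by
      have : (p j : ℤ) * (h j / p j) = h j - h j % (p j : ℤ) := by linarith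
      rw [this]
      exact abs_sub _ _
    rw [abs_mul, abs_of_pos hpj, abs_of_nonneg h2] at h5
    linarith
  have h5 : (p j : ℝ) * (|((h j / (p j:ℤ) : ℤ) : ℝ)| - 1) ≤ |(h j : ℝ)| := by exact_mod_cast h4
  have h6 := norm_le_pi_norm h j
  rw [Int.norm_eq_abs] at h6
  have h7 : (T : ℝ) ≤ p j := by exact_mod_cast (hlt j).le
  have h8 : blk p h j = h j / (p j : ℤ) := rfl
  rw [h8]
  by_cases h9 : (0:ℝ) ≤ |((h j / (p j:ℤ) : ℤ) : ℝ)| - 1
  · calc (T:ℝ) * (|((h j / (p j:ℤ) : ℤ) : ℝ)| - 1) ≤ (p j : ℝ) * (|((h j / (p j:ℤ) : ℤ) : ℝ)| - 1) := by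
          gcongr
      _ ≤ _ := h5.trans h6
  · push Not at h9
    have : (T:ℝ) * (|((h j / (p j:ℤ) : ℤ) : ℝ)| - 1) ≤ 0 :=
      mul_nonpos_of_nonneg_of_nonpos (by positivity) h9.le
    exact this.trans (norm_nonneg _)

end KT582
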