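import Pool.Agent.Lib.MP_582f03_nt.StepD

/-!
# The inductive step of the construction: summation of the weights
-/

set_option maxHeartbeats 400000

namespace KT582

open Finset

/-- required lower bounds -/
noncomputable def eta (c T : ℕ) (κ : ℝ) (α : Fin c → ℝ) (h : Fin c → ℤ) : ℝ :=
  if (T:ℝ) ^ 2 ≤ ‖h‖ then 2 * (‖h‖⁻¹) ^ (c + 1)
  else if h ≠ 0 ∧ nd (dotp h α) = 0 then 2 / (κ * (T:ℝ) ^ 2 * ‖h‖ ^ c) else 0

lemma eta_nonneg {c T : ℕ} {κ : ℝ} (hκ : 0 < κ) (α : Fin c → ℝ) (h : Fin c → ℤ) :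
    0 ≤ eta c T κ α h := by
  rw [eta]; split_ifs <;> positivity

lemma summable_eta {c T : ℕ} {κ : ℝ} (hκ : 0 < κ) (hT : 1 ≤ T) (α : Fin c → ℝ) :
    Summable (eta c T κ α) := by
  have hT' : (1:ℝ) ≤ T := by exact_mod_cast hT
  refine Summable.of_nonneg_of_le (eta_nonneg hκ α) ?_
    ((summable_norm_int c).mul_left (2 + 2 / κ))
  intro h
  rw [eta]
  split_ifs with h1 h2
  · have : 0 ≤ 2 / κ * (‖h‖⁻¹) ^ (c + 1) := by positivity
    linarith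
  · have hn := one_le_norm_int h2.1
    push Not at h1
    have e1 : 2 / (κ * (T:ℝ) ^ 2 * ‖h‖ ^ c) ≤ 2 / κ * (‖h‖⁻¹) ^ (c + 1) := by
      rw [inv_pow, ← div_eq_mul_inv, div_div, pow_succ]
      apply div_le_div_of_nonneg_left (by norm_num) (by positivity)
      calc κ * (‖h‖ ^ c * ‖h‖) ≤ κ * (‖h‖ ^ c * (T:ℝ) ^ 2) := by gcongr
        _ = _ := by ring
    have : 0 ≤ 2 * (‖h‖⁻¹) ^ (c + 1) := by positivity
    linarith
  · positivity

lemma blk_mul {c : ℕ} {p : Fin c → ℕ} (hp : ∀ j, 0 < p j) {h : Fin c → ℤ}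
    (hd : ∀ j, (p j : ℤ) ∣ h j) (j : Fin c) : h j = p j * blk p h j := by
  rw [blk]
  exact (Int.mul_ediv_cancel' (hd j)).symm

lemma le_norm_blk_of_dvd {c : ℕ} (hc : 0 < c) {T : ℕ} {p : Fin c → ℕ} (hlt : ∀ j, T < p j)
    {h : Fin c → ℤ} (hd : ∀ j, (p j : ℤ) ∣ h j) : (T:ℝ) * ‖blk p h‖ ≤ ‖h‖ := by
  obtain ⟨j, hj⟩ := exists_coord_norm hc (blk p h)
  rw [hj]
  have h1 := blk_mul (fun j => by have := hlt j; omega) hd j
  have h2 := norm_le_pi_norm h j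
  rw [Int.norm_eq_abs, h1] at h2
  push_cast at h2
  rw [abs_mul, Nat.abs_cast] at h2
  refine le_trans ?_ h2
  have h7 : (T : ℝ) ≤ p j := by exact_mod_cast (hlt j).le
  gcongr

/-- the total for the short vectors of the dual lattice -/
lemma partA {c T : ℕ} (hc : 0 < c) (hT : 1 ≤ T) {p : Fin c → ℕ} {k : Fin c → ℤ}
    (hs : IsStage T p k) {κ ρ C5 : ℝ} (hκ : 0 < κ) (hC5 : 0 < C5)
    (hρ : ρ = C5 / (κ * (T:ℝ) ^ (c + 3))) (h : Fin c → ℤ) (h0 : h ≠ 0)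
    (hnd : nd (dotp h (pt p k)) = 0) (hlt : ‖h‖ < (T:ℝ) ^ 2) :
    phi c (pt p k) ρ (eta c T κ (pt p k)) h ≤
      (4 / (κ * (T:ℝ) ^ (c + 1)) + 16 / C5) * (‖blk p h‖⁻¹) ^ (c + 1) := by
  have hT' : (1:ℝ) ≤ T := by exact_mod_cast hT
  have hT0 : (0:ℝ) < T := by linarith
  have hn := one_le_norm_int h0
  have hn0 : 0 < ‖h‖ := by linarith
  have hb := le_norm_blk_of_dvd hc hs.gt (hs.dvd hnd)
  have hbne : blk p h ≠ 0 := by
    intro h1
    apply h0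
    funext j
    have := blk_mul (fun j => (hs.prime j).pos) (hs.dvd hnd) j
    rw [this, h1]; simp
  have hbn := one_le_norm_int hbne
  have hbn0 : 0 < ‖blk p h‖ := by linarith
  have heta : eta c T κ (pt p k) h = 2 / (κ * (T:ℝ) ^ 2 * ‖h‖ ^ c) := by
    rw [eta, if_neg (not_le.mpr hlt), if_pos ⟨h0, hnd⟩]
  have hρ0 : 0 < ρ := by rw [hρ]; positivity
  have hpow : (T:ℝ) ^ (c + 1) * ‖blk p h‖ ^ (c + 1) ≤ ‖h‖ ^ (c + 1) := by
    rw [← mul_pow]; exact pow_le_pow_left₀ (by positivity) hb _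
  have hphi : phi c (pt p k) ρ (eta c T κ (pt p k)) h ≤
      2 * (2 / (κ * (T:ℝ) ^ 2 * ‖h‖ ^ c)) + 8 * (2 / (κ * (T:ℝ) ^ 2 * ‖h‖ ^ c)) / (ρ * ‖h‖) := by
    rw [phi, heta]
    gcongr
    split_ifs
    · exact le_rfl
    · positivity
  refine hphi.trans ?_
  rw [add_mul]
  apply add_le_add
  · -- first term
    rw [inv_pow, ← div_eq_mul_inv, div_div]
    have e1 : 2 * (2 / (κ * (T:ℝ) ^ 2 * ‖h‖ ^ c)) = 4 / (κ * ((T:ℝ) ^ 2 * ‖h‖ ^ c)) := by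
      field_simp; norm_num
    rw [e1]
    apply div_le_div_of_nonneg_left (by norm_num) (by positivity)
    calc κ * (T:ℝ) ^ (c + 1) * ‖blk p h‖ ^ (c + 1)
        = κ * ((T:ℝ) ^ (c + 1) * ‖blk p h‖ ^ (c + 1)) := by ring
      _ ≤ κ * ‖h‖ ^ (c + 1) := by gcongr
      _ = κ * (‖h‖ * ‖h‖ ^ c) := by ring
      _ ≤ κ * ((T:ℝ) ^ 2 * ‖h‖ ^ c) := by gcongr
  · have e1 : 8 * (2 / (κ * (T:ℝ) ^ 2 * ‖h‖ ^ c)) / (ρ * ‖h‖)
        = 16 / C5 * ((T:ℝ) ^ (c + 1) / ‖h‖ ^ (c + 1)) := by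
      rw [hρ]
      field_simp
      ring
    rw [e1, inv_pow]
    gcongr
    rw [div_le_iff₀ (by positivity), ← div_eq_inv_mul, le_div_iff₀ (by positivity)]
    exact hpow

/-- algebra for the block sums -/
lemma partB_algebra {c : ℕ} {t y κ ρ C5 Q : ℝ} (ht : 0 < t) (hy : 1 ≤ y) (hκ : 0 < κ)
    (hκ1 : κ ≤ 1) (hC5 : 0 < C5) (hρ : ρ = C5 / (κ * t ^ (c + 3)))
    (hQ0 : 0 ≤ Q) (hQ : Q ≤ 2 ^ (c * c) * t ^ c) (ht2 : (2:ℝ) ^ (c * c + c + 3) ≤ t)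
    (hty : t ≤ 2 ^ (c + 1) * y) :
    (2 * (c * (2 ^ (c + 1) * t * y * ρ) + 2 * (2 / (t * y)) ^ (c + 1)) * Q + 1) *
      (16 * (2 / (t * y)) ^ (c + 2) / ρ)
      ≤ (2 ^ (c * c + 2 * c + 8) * c / t + 2 ^ (2 * c + 8) / C5) * (y⁻¹) ^ (c + 1) := by
  have hρ0 : 0 < ρ := by rw [hρ]; positivity
  have hy0 : 0 < y := by linarith
  have hty0 : 0 < t * y := by positivity
  -- first: bound 2δQ + 1
  have h1 : 2 * (c * (2 ^ (c + 1) * t * y * ρ) + 2 * (2 / (t * y)) ^ (c + 1)) * Q + 1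
      ≤ 2 ^ (c * c + c + 2) * c * ρ * t ^ (c + 1) * y + 2 := by
    have h2 : 2 * (2 * (2 / (t * y)) ^ (c + 1)) * Q ≤ 1 := by
      have e1 : (2 / (t * y)) ^ (c + 1) ≤ 2 ^ (c + 1) / t ^ (c + 1) := by
        rw [div_pow]
        apply div_le_div_of_nonneg_left (by positivity) (by positivity)
        apply pow_le_pow_left₀ ht.le
        nlinarith
      calc 2 * (2 * (2 / (t * y)) ^ (c + 1)) * Q
          ≤ 2 * (2 * (2 ^ (c + 1) / t ^ (c + 1))) * (2 ^ (c * c) * t ^ c) := by gcongr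
        _ = 2 ^ (c * c + c + 3) / t := by
            field_simp
            ring
        _ ≤ 1 := by rw [div_le_one ht]; exact ht2
    have h3 : 2 * (c * (2 ^ (c + 1) * t * y * ρ)) * Q ≤ 2 ^ (c * c + c + 2) * c * ρ * t ^ (c + 1) * y := by
      calc 2 * (c * (2 ^ (c + 1) * t * y * ρ)) * Q
          ≤ 2 * (c * (2 ^ (c + 1) * t * y * ρ)) * (2 ^ (c * c) * t ^ c) := by gcongr
        _ = _ := by ring
    linarith
  have h4 : 0 ≤ 16 * (2 / (t * y)) ^ (c + 2) / ρ := by positivity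
  refine (mul_le_mul_of_nonneg_right h1 h4).trans ?_
  rw [add_mul, add_mul]
  apply add_le_add
  · apply le_of_eq
    rw [div_pow, mul_pow, inv_pow]
    field_simp
    ring
  · have e1 : 2 * (16 * (2 / (t * y)) ^ (c + 2) / ρ) = 2 ^ (c + 7) * κ * (t / y) / C5 * (y⁻¹) ^ (c + 1) := by
      rw [hρ, div_pow, mul_pow, inv_pow]
      field_simp
      ring
    rw [e1]
    have e2 : t / y ≤ 2 ^ (c + 1) := by rw [div_le_iff₀ hy0]; exact hty
    have e3 : 2 ^ (c + 7) * κ * (t / y) / C5 ≤ 2 ^ (2 * c + 8) / C5 := by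
      apply div_le_div_of_nonneg_right _ hC5.le
      calc 2 ^ (c + 7) * κ * (t / y) ≤ 2 ^ (c + 7) * 1 * 2 ^ (c + 1) := by gcongr
        _ = _ := by ring
    exact mul_le_mul_of_nonneg_right e3 (by positivity)

lemma fiberB {c T : ℕ} (hc : 0 < c) {p : Fin c → ℕ} {k : Fin c → ℤ}
    (hs : IsStage T p k) {κ ρ C5 : ℝ} (hκ : 0 < κ) (hκ1 : κ ≤ 1) (hC5 : 0 < C5)
    (hρ : ρ = C5 / (κ * (T:ℝ) ^ (c + 3))) (ht2 : (2:ℝ) ^ (c * c + c + 3) ≤ T)
    (s : Finset (Fin c → ℤ)) (m : Fin c → ℤ) :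
    ∑ h ∈ s with (((T:ℝ) ^ 2 ≤ ‖h‖ ∧
        nd (dotp h (pt p k)) ≤ c * (‖h‖ * ρ) + 2 * (‖h‖⁻¹) ^ (c + 1)) ∧ blk p h = m),
      16 * (‖h‖⁻¹) ^ (c + 2) / ρ ≤
      (2 ^ (c * c + 2 * c + 8) * c / T + 2 ^ (2 * c + 8) / C5) * (‖m‖⁻¹) ^ (c + 1) := by
  classical
  have hT0 : (0:ℝ) < T := lt_of_lt_of_le (by positivity) ht2
  have hρ0 : 0 < ρ := by rw [hρ]; positivity
  set X := s.filter (fun h => ((T:ℝ) ^ 2 ≤ ‖h‖ ∧
        nd (dotp h (pt p k)) ≤ c * (‖h‖ * ρ) + 2 * (‖h‖⁻¹) ^ (c + 1)) ∧ blk p h = m) with hX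
  rcases X.eq_empty_or_nonempty with hemp | ⟨h0, hh0⟩
  · rw [hemp, Finset.sum_empty]; positivity
  have hX' : ∀ h ∈ X, ((T:ℝ) ^ 2 ≤ ‖h‖ ∧
        nd (dotp h (pt p k)) ≤ c * (‖h‖ * ρ) + 2 * (‖h‖⁻¹) ^ (c + 1)) ∧ blk p h = m := by
    intro h hh; rw [hX, mem_filter] at hh; exact hh.2
  -- size of m
  have hup : ∀ h ∈ X, ‖h‖ ≤ 2 ^ c * T * (‖m‖ + 1) := by
    intro h hh
    have := norm_le_of_blk (T := T) (fun j => (hs.prime j).pos) hs.le h
    rwa [(hX' h hh).2] at this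
  have hlow : ∀ h ∈ X, (T:ℝ) * (‖m‖ - 1) ≤ ‖h‖ := by
    intro h hh
    have := le_norm_of_blk hc hs.gt h
    rwa [(hX' h hh).2] at this
  have hm1 : (T:ℝ) ≤ 2 ^ c * (‖m‖ + 1) := by
    have h1 := (hX' h0 hh0).1.1.trans (hup h0 hh0)
    have h2 : (T:ℝ) * T ≤ T * (2 ^ c * (‖m‖ + 1)) := by nlinarith
    exact le_of_mul_le_mul_left h2 hT0
  have h2c : (0:ℝ) < 2 ^ c := by positivity
  have hm2 : 2 ≤ ‖m‖ := by
    have h1 : (2:ℝ) ^ c * 8 ≤ T := by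
      refine le_trans ?_ ht2
      calc (2:ℝ) ^ c * 8 = 2 ^ (c + 3) := by ring
        _ ≤ 2 ^ (c * c + c + 3) := by
          apply pow_le_pow_right₀ (by norm_num)
          nlinarith
    have h2 : (2:ℝ) ^ c * 8 ≤ 2 ^ c * (‖m‖ + 1) := h1.trans hm1
    have h3 := le_of_mul_le_mul_left h2 h2c
    linarith
  have hty : (T:ℝ) ≤ 2 ^ (c + 1) * ‖m‖ := by
    rw [pow_succ]; nlinarith
  have hm0 : 0 < ‖m‖ := by linarith
  have hlow' : ∀ h ∈ X, (T:ℝ) * ‖m‖ / 2 ≤ ‖h‖ := by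
    intro h hh
    have := hlow h hh
    nlinarith
  have hup' : ∀ h ∈ X, ‖h‖ ≤ 2 ^ (c + 1) * T * ‖m‖ := by
    intro h hh
    have h1 := hup h hh
    rw [pow_succ]
    have : (2:ℝ) ^ c * T * (‖m‖ + 1) ≤ 2 ^ c * 2 * T * ‖m‖ := by
      have h3 : 0 < (2:ℝ) ^ c * T := by positivity
      nlinarith
    linarith
  have hinv : ∀ h ∈ X, ‖h‖⁻¹ ≤ 2 / (T * ‖m‖) := by
    intro h hh
    have h1 := hlow' h hh
    have h2 : 0 < ‖h‖ := lt_of_lt_of_le (by positivity) h1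
    rw [inv_le_comm₀ h2 (by positivity), inv_div]
    exact h1
  set δ : ℝ := c * (2 ^ (c + 1) * T * ‖m‖ * ρ) + 2 * (2 / (T * ‖m‖)) ^ (c + 1) with hδ
  have hδ0 : 0 ≤ δ := by positivity
  have hndδ : ∀ h ∈ X, nd (dotp h (pt p k)) ≤ δ := by
    intro h hh
    refine (hX' h hh).1.2.trans ?_
    have h1 := hup' h hh
    have h2 := hinv h hh
    have h3 : 0 ≤ ‖h‖⁻¹ := by positivity
    rw [hδ]
    gcongr
  set Q : ℝ := ((∏ j, p j : ℕ) : ℝ) with hQdef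
  have hQ0 : 0 < Q := by
    rw [hQdef]; exact_mod_cast Finset.prod_pos fun j _ => (hs.prime j).pos
  have hcard : (X.card : ℝ) ≤ 2 * δ * Q + 1 := by
    have h1 := card_le_of_separated X (fun h => dotp h (pt p k) - round (dotp h (pt p k)))
      (-δ) (2 * δ) (1 / Q) (by positivity) (by positivity) (by
        intro h hh
        have h2 := hndδ h hh
        rw [nd, abs_le] at h2
        constructor <;> linarith) (by
        intro h hh h' hh' hne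
        have h2 : nd (dotp (h - h') (pt p k)) ≠ 0 := by
          intro h3
          apply hne
          have h4 := hs.dvd h3
          funext j
          have h5 : blk p h j = blk p h' j := by rw [(hX' h hh).2, (hX' h' hh').2]
          have h6 := h4 j
          rw [Pi.sub_apply] at h6
          have hpj : (0:ℤ) < p j := by exact_mod_cast (hs.prime j).pos
          have e1 := Int.emod_add_mul_ediv (h j) (p j)
          have e2 := Int.emod_add_mul_ediv (h' j) (p j)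
          have e4 : h j % (p j : ℤ) = h' j % (p j : ℤ) :=
            Int.emod_eq_emod_iff_emod_sub_eq_zero.mpr (Int.emod_eq_zero_of_dvd h6)
          simp only [blk] at h5
          rw [← e1, ← e2, e4, h5]
        have h3 := hs.sep h2
        rw [dotp_sub] at h3
        have h4 := nd_le_abs_sub (dotp h (pt p k) - dotp h' (pt p k))
          (round (dotp h (pt p k)) - round (dotp h' (pt p k)))
        have h5 : dotp h (pt p k) - dotp h' (pt p k) -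
          ((round (dotp h (pt p k)) - round (dotp h' (pt p k)) : ℤ) : ℝ) =
          (dotp h (pt p k) - round (dotp h (pt p k))) -
          (dotp h' (pt p k) - round (dotp h' (pt p k))) := by push_cast; ring
        rw [h5] at h4
        rw [div_le_iff₀ hQ0]
        calc (1:ℝ) ≤ Q * nd (dotp h (pt p k) - dotp h' (pt p k)) := h3
          _ ≤ Q * _ := mul_le_mul_of_nonneg_left h4 hQ0.le
          _ = _ := by ring)
    have h2 : 2 * δ / (1 / Q) = 2 * δ * Q := by field_simp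
    rw [h2] at h1
    exact h1
  have hterm : ∀ h ∈ X, 16 * (‖h‖⁻¹) ^ (c + 2) / ρ ≤ 16 * (2 / (T * ‖m‖)) ^ (c + 2) / ρ := by
    intro h hh
    have h2 := hinv h hh
    have h3 : 0 ≤ ‖h‖⁻¹ := by positivity
    gcongr
  calc ∑ h ∈ X, 16 * (‖h‖⁻¹) ^ (c + 2) / ρ ≤ ∑ h ∈ X, 16 * (2 / (T * ‖m‖)) ^ (c + 2) / ρ :=
        Finset.sum_le_sum hterm
    _ = X.card * (16 * (2 / (T * ‖m‖)) ^ (c + 2) / ρ) := by rw [Finset.sum_const, nsmul_eq_mul]
    _ ≤ (2 * δ * Q + 1) * (16 * (2 / (T * ‖m‖)) ^ (c + 2) / ρ) := by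
        apply mul_le_mul_of_nonneg_right hcard (by positivity)
    _ ≤ _ := by
        rw [hδ]
        exact partB_algebra hT0 (by linarith) hκ hκ1 hC5 hρ hQ0.le hs.prod_le ht2 hty

end KT582
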