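import Pool.Agent.Lib.MP_582f03_nt.StepE

/-!
# The inductive step of the construction: conclusion
-/

set_option maxHeartbeats 400000

namespace KT582

open Finset

theorem tsum_phi_le {c : ℕ} (hc : 0 < c) : ∃ C5 C6 : ℝ, 1 ≤ C5 ∧ 1 ≤ C6 ∧
    ∀ (T : ℕ) (p : Fin c → ℕ) (k : Fin c → ℤ) (κ : ℝ), IsStage T p k → 0 < κ → κ ≤ 1 →
      C6 ≤ κ * T →
      ∑' h, phi c (pt p k) (C5 / (κ * (T:ℝ) ^ (c + 3))) (eta c T κ (pt p k)) h ≤ 1 / 4 ∧
      C5 / (κ * (T:ℝ) ^ (c + 3)) ≤ 1 / 2 := by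
  classical
  have hc1 : (1:ℝ) ≤ c := by exact_mod_cast hc
  set w : (Fin c → ℤ) → ℝ := fun h => (‖h‖⁻¹) ^ (c + 1) with hw
  have hw0 : ∀ h, 0 ≤ w h := fun h => by positivity
  have hws : Summable w := summable_norm_int c
  set S1 : ℝ := ∑' h, w h + 1 with hS1
  have hS0 : 0 ≤ ∑' h, w h := tsum_nonneg hw0
  have hS1' : 1 ≤ S1 := by linarith
  obtain ⟨𝓕, h𝓕⟩ := summable_iff_vanishing_norm.mp hws (1 / 64) (by norm_num)
  set R : ℝ := ∑ h ∈ 𝓕, ‖h‖ + 1 with hR
  have hR1 : 1 ≤ R := by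
    have : 0 ≤ ∑ h ∈ 𝓕, ‖h‖ := Finset.sum_nonneg fun h _ => norm_nonneg _
    linarith
  set C5 : ℝ := 2 ^ (2 * c + 16) * S1 with hC5
  have hC51 : 1 ≤ C5 := by
    have : (1:ℝ) ≤ 2 ^ (2 * c + 16) := one_le_pow₀ (by norm_num)
    exact one_le_mul_of_one_le_of_one_le this hS1'
  set C6 : ℝ := 2 ^ (c * c + 2 * c + 20) * c * S1 + 2 * C5 + R + 512 * S1 with hC6
  have hA0 : 0 < 2 ^ (c * c + 2 * c + 20) * c * S1 := by positivity
  have hC61 : 1 ≤ C6 := by linarith
  refine ⟨C5, C6, hC51, hC61, ?_⟩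
  intro T p k κ hs hκ hκ1 hκT
  have hT0 : (0:ℝ) < T := by
    by_contra hcon
    push Not at hcon
    have := mul_nonpos_of_nonneg_of_nonpos hκ.le hcon
    linarith
  have hTC : C6 ≤ T := hκT.trans (mul_le_of_le_one_left hT0.le hκ1)
  have hT1 : (1:ℝ) ≤ T := by linarith
  have hTn : 1 ≤ T := by exact_mod_cast hT1
  set ρ : ℝ := C5 / (κ * (T:ℝ) ^ (c + 3)) with hρ
  have hρ0 : 0 < ρ := by positivity
  have ht2 : (2:ℝ) ^ (c * c + c + 3) ≤ T := by
    have h1 : (2:ℝ) ^ (c * c + c + 3) ≤ 2 ^ (c * c + 2 * c + 20) :=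
      pow_le_pow_right₀ (by norm_num) (by omega)
    have h2 : (2:ℝ) ^ (c * c + 2 * c + 20) ≤ 2 ^ (c * c + 2 * c + 20) * c * S1 := by
      have : (0:ℝ) < 2 ^ (c * c + 2 * c + 20) := by positivity
      have h3 : (1:ℝ) ≤ c * S1 := one_le_mul_of_one_le_of_one_le hc1 hS1'
      rw [mul_assoc]
      exact le_mul_of_one_le_right this.le h3
    linarith
  have hTpow : ∀ n : ℕ, (1:ℝ) ≤ (T:ℝ) ^ n := fun n => one_le_pow₀ hT1
  refine ⟨?_, ?_⟩
  swap
  · rw [hρ, div_le_iff₀ (by positivity)]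
    have e1 : κ * (T:ℝ) ^ (c + 3) = κ * T * (T:ℝ) ^ (c + 2) := by ring
    rw [e1]
    have h2 : C6 * 1 ≤ κ * T * (T:ℝ) ^ (c + 2) := by
      apply mul_le_mul hκT (hTpow _) (by norm_num) (by positivity)
    linarith
  have heta0 := eta_nonneg (c := c) (T := T) hκ (pt p k)
  refine (summable_phi hρ0 heta0 (summable_eta hκ hTn _)).tsum_le_of_sum_le ?_
  intro s
  set cA : ℝ := 4 / (κ * (T:ℝ) ^ (c + 1)) + 16 / C5 with hcA
  set cB : ℝ := 2 ^ (c * c + 2 * c + 8) * c / T + 2 ^ (2 * c + 8) / C5 with hcB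
  have hcA0 : 0 ≤ cA := by positivity
  have hcB0 : 0 ≤ cB := by positivity
  have hcA1 : cA * ∑' h, w h ≤ 1 / 16 := by
    have h1 : 4 / (κ * (T:ℝ) ^ (c + 1)) ≤ 1 / (128 * S1) := by
      rw [div_le_div_iff₀ (by positivity) (by positivity)]
      have e1 : κ * (T:ℝ) ^ (c + 1) = κ * T * (T:ℝ) ^ c := by ring
      rw [e1]
      have h2 : C6 * 1 ≤ κ * T * (T:ℝ) ^ c := by
        apply mul_le_mul hκT (hTpow _) (by norm_num) (by positivity)
      linarith
    have h2 : 16 / C5 ≤ 1 / (128 * S1) := by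
      rw [div_le_div_iff₀ (by positivity) (by positivity), hC5]
      have : (2:ℝ) ^ 16 ≤ 2 ^ (2 * c + 16) := pow_le_pow_right₀ (by norm_num) (by omega)
      have h5 := mul_le_mul_of_nonneg_right this (by linarith : (0:ℝ) ≤ S1)
      have h6 : (2:ℝ) ^ 16 = 65536 := by norm_num
      rw [h6] at h5
      linarith
    have h3 : cA ≤ 1 / (64 * S1) := by
      have e1 : 1 / (64 * S1) = 1 / (128 * S1) + 1 / (128 * S1) := by field_simp; norm_num
      rw [e1]; exact add_le_add h1 h2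
    calc cA * ∑' h, w h ≤ 1 / (64 * S1) * S1 := by
          apply mul_le_mul h3 (by linarith) hS0 (by positivity)
      _ = 1 / 64 := by field_simp
      _ ≤ 1 / 16 := by norm_num
  have hcB1 : cB * ∑' h, w h ≤ 1 / 16 := by
    have h1 : 2 ^ (c * c + 2 * c + 8) * c / (T:ℝ) ≤ 1 / (128 * S1) := by
      rw [div_le_div_iff₀ (by positivity) (by positivity)]
      have h3 : 2 ^ (c * c + 2 * c + 20) * c * S1 ≤ T := by linarith
      calc 2 ^ (c * c + 2 * c + 8) * (c:ℝ) * (128 * S1)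
          = (2 ^ (c * c + 2 * c + 20) * c * S1) * (1 / 32) := by
            rw [show c * c + 2 * c + 20 = (c * c + 2 * c + 8) + 12 by ring, pow_add]
            ring
        _ ≤ T * (1 / 32) := by gcongr
        _ ≤ 1 * T := by linarith
    have h2 : 2 ^ (2 * c + 8) / C5 ≤ 1 / (128 * S1) := by
      rw [div_le_div_iff₀ (by positivity) (by positivity), hC5]
      have e : (2:ℝ) ^ (2 * c + 16) = 2 ^ (2 * c + 8) * 256 := by
        rw [show 2 * c + 16 = (2 * c + 8) + 8 by ring, pow_add]; norm_num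
      rw [e]
      have : (0:ℝ) < 2 ^ (2 * c + 8) * S1 := by positivity
      linarith
    have h3 : cB ≤ 1 / (64 * S1) := by
      have e1 : 1 / (64 * S1) = 1 / (128 * S1) + 1 / (128 * S1) := by field_simp; norm_num
      rw [e1]; exact add_le_add h1 h2
    calc cB * ∑' h, w h ≤ 1 / (64 * S1) * S1 := by
          apply mul_le_mul h3 (by linarith) hS0 (by positivity)
      _ = 1 / 64 := by field_simp
      _ ≤ 1 / 16 := by norm_num
  -- splitting
  set f := phi c (pt p k) ρ (eta c T κ (pt p k)) with hf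
  have hsplit1 : ∑ h ∈ s, f h = ∑ h ∈ s with (T:ℝ) ^ 2 ≤ ‖h‖, f h
      + ∑ h ∈ s with ¬ ((T:ℝ) ^ 2 ≤ ‖h‖), f h := (Finset.sum_filter_add_sum_filter_not _ _ _).symm
  have hB : ∑ h ∈ s with (T:ℝ) ^ 2 ≤ ‖h‖, f h ≤ 1 / 16 + 1 / 16 := by
    set sB := s.filter (fun h => (T:ℝ) ^ 2 ≤ ‖h‖) with hsB
    have h1 : ∀ h ∈ sB, f h = 4 * w h +
        if nd (dotp h (pt p k)) ≤ c * (‖h‖ * ρ) + 2 * (‖h‖⁻¹) ^ (c + 1) then
          16 * (‖h‖⁻¹) ^ (c + 2) / ρ else 0 := by
      intro h hh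
      rw [hsB, mem_filter] at hh
      have he : eta c T κ (pt p k) h = 2 * (‖h‖⁻¹) ^ (c + 1) := by rw [eta, if_pos hh.2]
      rw [hf, phi, he, hw]
      congr 1
      · ring
      · have hn : 0 < ‖h‖ := lt_of_lt_of_le (by positivity) hh.2
        have : 8 * (2 * (‖h‖⁻¹) ^ (c + 1)) / (ρ * ‖h‖) = 16 * (‖h‖⁻¹) ^ (c + 2) / ρ := by
          rw [inv_pow, inv_pow]
          field_simp
          ring
        rw [this]
    rw [Finset.sum_congr rfl h1, Finset.sum_add_distrib]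
    apply add_le_add
    · rw [← Finset.mul_sum]
      have h2 := h𝓕 sB (by
        rw [Finset.disjoint_left]
        intro h hh hh'
        rw [hsB, mem_filter] at hh
        have h3 : ‖h‖ ≤ ∑ h ∈ 𝓕, ‖h‖ := Finset.single_le_sum (fun i _ => norm_nonneg i) hh'
        have h4 : (T:ℝ) ≤ (T:ℝ) ^ 2 := le_self_pow₀ hT1 (by norm_num)
        have h5 := hh.2
        linarith)
      have h3 : ∑ h ∈ sB, w h ≤ 1 / 64 := le_of_lt (lt_of_le_of_lt (Real.le_norm_self _) h2)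
      linarith
    · rw [← Finset.sum_filter]
      set Y := sB.filter (fun h => nd (dotp h (pt p k)) ≤ c * (‖h‖ * ρ) + 2 * (‖h‖⁻¹) ^ (c + 1))
        with hY
      rw [← Finset.sum_fiberwise_of_maps_to (g := blk p) (t := Y.image (blk p))
        (fun h hh => Finset.mem_image_of_mem _ hh)]
      have h2 : ∀ m ∈ Y.image (blk p), ∑ h ∈ Y with blk p h = m, 16 * (‖h‖⁻¹) ^ (c + 2) / ρ
          ≤ cB * w m := by
        intro m _
        have h3 := fiberB hc hs hκ hκ1 (by linarith : 0 < C5) hρ ht2 s m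
        refine le_trans (le_of_eq ?_) h3
        apply Finset.sum_congr _ (fun _ _ => rfl)
        ext h
        simp only [hY, hsB, mem_filter]
        tauto
      refine (Finset.sum_le_sum h2).trans ?_
      rw [← Finset.mul_sum]
      refine le_trans ?_ hcB1
      apply mul_le_mul_of_nonneg_left _ hcB0
      exact hws.sum_le_tsum _ (fun h _ => hw0 h)
  have hA : ∑ h ∈ s with ¬ ((T:ℝ) ^ 2 ≤ ‖h‖), f h ≤ 1 / 16 := by
    set sN := s.filter (fun h => ¬ ((T:ℝ) ^ 2 ≤ ‖h‖)) with hsN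
    rw [← Finset.sum_filter_add_sum_filter_not sN (fun h => h ≠ 0 ∧ nd (dotp h (pt p k)) = 0)]
    have h0 : ∑ h ∈ sN with ¬ (h ≠ 0 ∧ nd (dotp h (pt p k)) = 0), f h = 0 := by
      apply Finset.sum_eq_zero
      intro h hh
      rw [mem_filter, hsN, mem_filter] at hh
      have he : eta c T κ (pt p k) h = 0 := by rw [eta, if_neg hh.1.2, if_neg hh.2]
      rw [hf, phi, he]
      simp
    rw [h0, add_zero]
    set sA := sN.filter (fun h => h ≠ 0 ∧ nd (dotp h (pt p k)) = 0) with hsA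
    have h1 : ∀ h ∈ sA, f h ≤ cA * w (blk p h) := by
      intro h hh
      rw [hsA, mem_filter, hsN, mem_filter] at hh
      exact partA hc hTn hs hκ (by linarith) hρ h hh.2.1 hh.2.2 (by
        have := hh.1.2
        push Not at this
        exact this)
    refine (Finset.sum_le_sum h1).trans ?_
    rw [← Finset.mul_sum]
    refine le_trans ?_ hcA1
    apply mul_le_mul_of_nonneg_left _ hcA0
    have hinj : Set.InjOn (blk p) (sA : Set (Fin c → ℤ)) := by
      intro x hx y hy hxy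
      rw [hsA, Finset.mem_coe, mem_filter] at hx hy
      funext j
      rw [blk_mul (fun j => (hs.prime j).pos) (hs.dvd hx.2.2) j,
        blk_mul (fun j => (hs.prime j).pos) (hs.dvd hy.2.2) j, hxy]
    rw [← Finset.sum_image (f := w) hinj]
    exact hws.sum_le_tsum _ (fun h _ => hw0 h)
  rw [hsplit1]
  linarith

end KT582
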