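import Mathlib

/-!
# The window weights
-/

set_option maxHeartbeats 400000

namespace KT582

open Finset

/-- weight of scale `k` seen from the window `m` -/
noncomputable def wt (ϱ : ℝ) (m k : ℕ) : ℝ := ϱ ^ ((k - m) + (m - k))

lemma wt_pos {ϱ : ℝ} (h : 0 < ϱ) (m k : ℕ) : 0 < wt ϱ m k := pow_pos h _

lemma wt_le_one {ϱ : ℝ} (h : 0 < ϱ) (h1 : ϱ < 1) (m k : ℕ) : wt ϱ m k ≤ 1 :=
  pow_le_one₀ h.le h1.le

lemma sum_wt_le {ϱ : ℝ} (h : 0 < ϱ) (h1 : ϱ < 1) (m : ℕ) (s : Finset ℕ) :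
    ∑ k ∈ s, wt ϱ m k ≤ 2 / (1 - ϱ) := by
  have hgeo : ∀ t : Finset ℕ, ∑ k ∈ t, ϱ ^ k ≤ 1 / (1 - ϱ) := by
    intro t
    have := (summable_geometric_of_lt_one h.le h1).sum_le_tsum t (fun i _ => by positivity)
    rwa [tsum_geometric_of_lt_one h.le h1, ← one_div] at this
  rw [← Finset.sum_filter_add_sum_filter_not s (fun k => m ≤ k)]
  have e1 : ∑ k ∈ s.filter (fun k => m ≤ k), wt ϱ m k ≤ 1 / (1 - ϱ) := by
    have hinj : Set.InjOn (fun k => k - m) (s.filter (fun k => m ≤ k)) := by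
      intro a ha b hb hab
      rw [Finset.mem_coe, Finset.mem_filter] at ha hb
      simp only at hab
      omega
    calc ∑ k ∈ s.filter (fun k => m ≤ k), wt ϱ m k
        = ∑ k ∈ s.filter (fun k => m ≤ k), ϱ ^ (k - m) := by
          refine Finset.sum_congr rfl fun k hk => ?_
          rw [Finset.mem_filter] at hk
          rw [wt]
          congr 1
          omega
      _ = ∑ l ∈ (s.filter (fun k => m ≤ k)).image (fun k => k - m), ϱ ^ l :=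
          (Finset.sum_image hinj).symm
      _ ≤ _ := hgeo _
  have e2 : ∑ k ∈ s.filter (fun k => ¬ m ≤ k), wt ϱ m k ≤ 1 / (1 - ϱ) := by
    have hinj : Set.InjOn (fun k => m - k) (s.filter (fun k => ¬ m ≤ k)) := by
      intro a ha b hb hab
      rw [Finset.mem_coe, Finset.mem_filter] at ha hb
      simp only at hab
      omega
    calc ∑ k ∈ s.filter (fun k => ¬ m ≤ k), wt ϱ m k
        = ∑ k ∈ s.filter (fun k => ¬ m ≤ k), ϱ ^ (m - k) := by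
          refine Finset.sum_congr rfl fun k hk => ?_
          rw [Finset.mem_filter] at hk
          rw [wt]
          congr 1
          omega
      _ = ∑ l ∈ (s.filter (fun k => ¬ m ≤ k)).image (fun k => m - k), ϱ ^ l :=
          (Finset.sum_image hinj).symm
      _ ≤ _ := hgeo _
  have : 2 / (1 - ϱ) = 1 / (1 - ϱ) + 1 / (1 - ϱ) := by ring
  linarith

/-- the sequence of exceptional weights -/
noncomputable def bseq (ϱ : ℝ) (lam : ℕ → ℝ) (m : ℕ → ℕ) (k : ℕ) : ℝ :=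
  ∑' i, lam i * wt ϱ (m i) k

lemma summable_bseq_inner {ϱ : ℝ} (h : 0 < ϱ) (h1 : ϱ < 1) {lam : ℕ → ℝ} (hl0 : ∀ i, 0 < lam i)
    (hl : Summable lam) (m : ℕ → ℕ) (k : ℕ) : Summable fun i => lam i * wt ϱ (m i) k := by
  refine Summable.of_nonneg_of_le (fun i => ?_) (fun i => ?_) hl
  · exact mul_nonneg (hl0 i).le (wt_pos h _ _).le
  · exact mul_le_of_le_one_right (hl0 i).le (wt_le_one h h1 _ _)

lemma le_bseq {ϱ : ℝ} (h : 0 < ϱ) (h1 : ϱ < 1) {lam : ℕ → ℝ} (hl0 : ∀ i, 0 < lam i)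
    (hl : Summable lam) (m : ℕ → ℕ) (i k : ℕ) : lam i * wt ϱ (m i) k ≤ bseq ϱ lam m k := by
  have := (summable_bseq_inner h h1 hl0 hl m k).sum_le_tsum {i}
    (fun i _ => mul_nonneg (hl0 i).le (wt_pos h _ _).le)
  simpa [bseq] using this

lemma bseq_nonneg {ϱ : ℝ} (h : 0 < ϱ) {lam : ℕ → ℝ} (hl0 : ∀ i, 0 < lam i)
    (m : ℕ → ℕ) (k : ℕ) : 0 ≤ bseq ϱ lam m k :=
  tsum_nonneg fun i => mul_nonneg (hl0 i).le (wt_pos h _ _).le

lemma summable_bseq {ϱ : ℝ} (h : 0 < ϱ) (h1 : ϱ < 1) {lam : ℕ → ℝ} (hl0 : ∀ i, 0 < lam i)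
    (hl : Summable lam) (m : ℕ → ℕ) : Summable (bseq ϱ lam m) := by
  have hnn : ∀ i k, 0 ≤ lam i * wt ϱ (m i) k := fun i k => mul_nonneg (hl0 i).le (wt_pos h _ _).le
  have hsum1 : ∀ i, Summable fun k => lam i * wt ϱ (m i) k := by
    intro i
    apply summable_of_sum_le (c := lam i * (2 / (1 - ϱ))) (hnn i)
    intro s
    rw [← Finset.mul_sum]
    exact mul_le_mul_of_nonneg_left (sum_wt_le h h1 _ s) (hl0 i).le
  have hle : ∀ i, ∑' k, lam i * wt ϱ (m i) k ≤ lam i * (2 / (1 - ϱ)) := by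
    intro i
    apply Real.tsum_le_of_sum_le (hnn i)
    intro s
    rw [← Finset.mul_sum]
    exact mul_le_mul_of_nonneg_left (sum_wt_le h h1 _ s) (hl0 i).le
  have hp : Summable (fun p : ℕ × ℕ => lam p.1 * wt ϱ (m p.1) p.2) := by
    rw [summable_prod_of_nonneg (fun p => hnn p.1 p.2)]
    refine ⟨hsum1, ?_⟩
    refine Summable.of_nonneg_of_le (fun i => tsum_nonneg (hnn i)) hle (hl.mul_right _)
  have hp2 := hp.prod_symm
  exact hp2.prod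

/-- interpolation inequality -/
lemma min_le_interp {M : ℕ} (hM : 1 ≤ M) {κh κ X y : ℝ} (hκh : 0 ≤ κh) (hκ : κ = κh ^ M)
    (hX : 0 ≤ X) (hy : 0 ≤ y) (hXy : X = y ^ M) : min κ X ≤ κh ^ (M - 1) * y := by
  have hmin0 : 0 ≤ min κ X := le_min (by rw [hκ]; positivity) hX
  have h1 : (min κ X) ^ M ≤ (κh ^ (M - 1) * y) ^ M := by
    obtain ⟨m, rfl⟩ : ∃ m, M = m + 1 := ⟨M - 1, by omega⟩
    calc (min κ X) ^ (m + 1) = (min κ X) ^ m * min κ X := pow_succ _ _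
      _ ≤ κ ^ m * X := by
          have hκ0 : 0 ≤ κ := by rw [hκ]; positivity
          exact mul_le_mul (pow_le_pow_left₀ hmin0 (min_le_left _ _) m) (min_le_right _ _) hmin0
            (by positivity)
      _ = (κh ^ (m + 1 - 1) * y) ^ (m + 1) := by
          rw [hκ, hXy, Nat.add_sub_cancel, mul_pow, ← pow_mul, ← pow_mul]
          congr 2
          ring
  exact le_of_pow_le_pow_left₀ (by omega) (by positivity) h1

lemma Tr_le {n M : ℕ} {ϱ T r Z : ℝ} (hϱ0 : 0 < ϱ) (hϱ1 : ϱ < 1) (hM : ϱ ^ M = 1 / 2)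
    (hn : 1 ≤ n) (hnM : n ≤ M) {m k : ℕ} (hT : 0 < T) (hTm : T ^ n = 2 ^ m) (hr : 0 < r)
    (hZ : 1 ≤ Z) (hζ : 2 ^ k * r ^ n ≤ Z) (hmk : m ≤ k) : T * r ≤ Z * ϱ ^ (k - m) := by
  have h1 : (T * r) ^ n ≤ (Z * ϱ ^ (k - m)) ^ n := by
    calc (T * r) ^ n = T ^ n * r ^ n := mul_pow _ _ _
      _ = (2 ^ k * r ^ n) * (2 ^ m / 2 ^ k) := by rw [hTm]; field_simp
      _ ≤ Z * (2 ^ m / 2 ^ k) := by gcongr
      _ = Z * (1 / 2) ^ (k - m) := by
          congr 1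
          rw [div_pow, one_pow, div_eq_div_iff (by positivity) (by positivity), one_mul, ← pow_add]
          congr 1
          omega
      _ = Z * (ϱ ^ (k - m)) ^ M := by rw [← hM, ← pow_mul, ← pow_mul, mul_comm M]
      _ ≤ Z ^ n * (ϱ ^ (k - m)) ^ n := by
          have e1 : Z ≤ Z ^ n := le_self_pow₀ hZ (by omega)
          have e2 : (ϱ ^ (k - m)) ^ M ≤ (ϱ ^ (k - m)) ^ n :=
            pow_le_pow_of_le_one (by positivity) (pow_le_one₀ hϱ0.le hϱ1.le) hnM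
          exact mul_le_mul e1 e2 (by positivity) (by positivity)
      _ = _ := (mul_pow _ _ _).symm
  exact le_of_pow_le_pow_left₀ (by omega) (by positivity) h1

lemma window_ineq {n M : ℕ} {ϱ T r Z κ κh : ℝ} (hϱ0 : 0 < ϱ) (hϱ1 : ϱ < 1) (hM : ϱ ^ M = 1 / 2)
    (hn : 1 ≤ n) (hnM : n ≤ M) {m k : ℕ} (hT : 0 < T) (hTm : T ^ n = 2 ^ m) (hr : 0 < r)
    (hTr : T * r ≤ 1) (hZ : 1 ≤ Z) (hζ : 2 ^ k * r ^ n ≤ Z) (hκh0 : 0 ≤ κh) (hκh1 : κh ≤ 1)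
    (hκ : κ = κh ^ M) :
    (T * r) ^ 2 * min κ (2 ^ k / T ^ n) ≤ Z ^ 2 * (κh ^ (M - 1) * wt ϱ m k) := by
  have hκ0 : 0 ≤ κ := by rw [hκ]; positivity
  have hTr0 : 0 ≤ T * r := by positivity
  rcases le_total k m with hkm | hmk
  · have h1 : min κ (2 ^ k / T ^ n) ≤ κh ^ (M - 1) * ϱ ^ (m - k) := by
      apply min_le_interp (by omega) hκh0 hκ (by positivity) (by positivity)
      rw [hTm, ← pow_mul, mul_comm (m - k), pow_mul, hM, div_pow, one_pow,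
        div_eq_div_iff (by positivity) (by positivity), one_mul, ← pow_add]
      congr 1
      omega
    have h2 : wt ϱ m k = ϱ ^ (m - k) := by
      rw [wt]; congr 1; omega
    rw [h2]
    have h3 : (T * r) ^ 2 ≤ Z ^ 2 := by
      have : T * r ≤ Z := hTr.trans hZ
      gcongr
    have h4 : 0 ≤ min κ (2 ^ k / T ^ n) := le_min hκ0 (by positivity)
    exact mul_le_mul h3 h1 h4 (by positivity)
  · have h1 := Tr_le hϱ0 hϱ1 hM hn hnM hT hTm hr hZ hζ hmk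
    have h2 : wt ϱ m k = ϱ ^ (k - m) := by
      rw [wt]; congr 1; omega
    have h3 : κ ≤ κh ^ (M - 1) := by
      rw [hκ]
      exact pow_le_pow_of_le_one hκh0 hκh1 (by omega)
    have h5 : ϱ ^ (k - m) ≤ 1 := pow_le_one₀ hϱ0.le hϱ1.le
    rw [h2]
    calc (T * r) ^ 2 * min κ (2 ^ k / T ^ n) ≤ (Z * ϱ ^ (k - m)) ^ 2 * κh ^ (M - 1) := by
          have := (min_le_left κ (2 ^ k / T ^ n)).trans h3
          have h4 : 0 ≤ min κ (2 ^ k / T ^ n) := le_min hκ0 (by positivity)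
          have h6 : (T * r) ^ 2 ≤ (Z * ϱ ^ (k - m)) ^ 2 := by gcongr
          exact mul_le_mul h6 this h4 (by positivity)
      _ = Z ^ 2 * (κh ^ (M - 1) * (ϱ ^ (k - m) * ϱ ^ (k - m))) := by ring
      _ ≤ Z ^ 2 * (κh ^ (M - 1) * (ϱ ^ (k - m) * 1)) := by gcongr
      _ = _ := by ring

/-- sequences `r` with `2^k r^n` bounded decay exponentially -/
lemma r_le_geom {n M : ℕ} {ϱ r Z : ℝ} (hϱ0 : 0 < ϱ) (hϱ1 : ϱ < 1) (hM : ϱ ^ M = 1 / 2)
    (hn : 1 ≤ n) (hnM : n ≤ M) {k : ℕ} (hr : 0 < r)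
    (hZ : 1 ≤ Z) (hζ : 2 ^ k * r ^ n ≤ Z) : r ≤ Z * ϱ ^ k := by
  have := Tr_le (T := 1) (m := 0) hϱ0 hϱ1 hM hn hnM one_pos (by simp) hr hZ hζ (Nat.zero_le k)
  simpa using this

lemma tendsto_poly_mul_geom {ϱ : ℝ} (hϱ0 : 0 < ϱ) (hϱ1 : ϱ < 1) (m : ℕ) :
    Filter.Tendsto (fun k : ℕ => ((k:ℝ) + 1) ^ m * ϱ ^ k) Filter.atTop (nhds 0) := by
  have h1 := tendsto_pow_const_mul_const_pow_of_abs_lt_one m (r := ϱ)
    (by rw [abs_of_pos hϱ0]; exact hϱ1)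
  have h2 := (Filter.tendsto_add_atTop_iff_nat 1).mpr h1
  have h3 := h2.const_mul (1 / ϱ)
  rw [mul_zero] at h3
  refine h3.congr fun k => ?_
  push_cast
  rw [pow_succ]
  field_simp

lemma tendsto_poly_mul_r {n M : ℕ} {ϱ Z : ℝ} {r : ℕ → ℝ} (hϱ0 : 0 < ϱ) (hϱ1 : ϱ < 1)
    (hM : ϱ ^ M = 1 / 2) (hn : 1 ≤ n) (hnM : n ≤ M) (hr : ∀ k, 0 < r k)
    (hZ : 1 ≤ Z) (hζ : ∀ k, 2 ^ k * r k ^ n ≤ Z) (m : ℕ) :
    Filter.Tendsto (fun k : ℕ => ((k:ℝ) + 1) ^ m * r k) Filter.atTop (nhds 0) := by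
  have h1 := (tendsto_poly_mul_geom hϱ0 hϱ1 m).const_mul Z
  rw [mul_zero] at h1
  refine squeeze_zero (fun k => ?_) (fun k => ?_) h1
  · have := hr k
    positivity
  · have := r_le_geom hϱ0 hϱ1 hM hn hnM (hr k) hZ (hζ k)
    calc ((k:ℝ) + 1) ^ m * r k ≤ ((k:ℝ) + 1) ^ m * (Z * ϱ ^ k) := by gcongr
      _ = _ := by ring

end KT582
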